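import Pool.Agent.Work.MP_363f1e_co.Defs

/-!
Coordinates on `RP^3`: nonzero vectors of `V = Fin 4 → ℝ`, cones, maps induced by odd homogeneous
bijections.
-/

namespace Pool.Agent.Work.MP_363f1e_co

/-- the coordinate space -/
abbrev V : Type := Fin 4 → ℝ

/-- Euclidean length of a coordinate vector -/
noncomputable def eu {n : ℕ} (x : Fin n → ℝ) : ℝ :=
  ‖(WithLp.toLp 2 x : EuclideanSpace ℝ (Fin n))‖

theorem eu_eq {n : ℕ} (x : Fin n → ℝ) : eu x = √(∑ i, x i ^ 2) := by
  unfold eu; rw [EuclideanSpace.norm_eq]; simp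

theorem eu_nonneg {n : ℕ} (x : Fin n → ℝ) : 0 ≤ eu x := norm_nonneg _

theorem eu_sq {n : ℕ} (x : Fin n → ℝ) : eu x ^ 2 = ∑ i, x i ^ 2 := by
  rw [eu_eq, Real.sq_sqrt]; positivity

theorem eu_eq_zero {n : ℕ} {x : Fin n → ℝ} : eu x = 0 ↔ x = 0 := by
  unfold eu; rw [norm_eq_zero]; exact WithLp.toLp_eq_zero 2

theorem eu_pos {n : ℕ} {x : Fin n → ℝ} (hx : x ≠ 0) : 0 < eu x :=
  lt_of_le_of_ne (eu_nonneg x) (fun h => hx (eu_eq_zero.1 h.symm))

theorem eu_smul {n : ℕ} (c : ℝ) (x : Fin n → ℝ) : eu (c • x) = |c| * eu x := by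
  unfold eu; rw [WithLp.toLp_smul, norm_smul, Real.norm_eq_abs]

theorem eu_continuous {n : ℕ} : Continuous (eu : (Fin n → ℝ) → ℝ) := by
  unfold eu; exact continuous_norm.comp (PiLp.continuous_toLp 2 _)

/-- the unit vector in the direction of `x` -/
noncomputable def unitV {n : ℕ} (x : Fin n → ℝ) (hx : x ≠ 0) : USph n :=
  ⟨(eu x)⁻¹ • WithLp.toLp 2 x, by
    have h := eu_pos hx
    rw [mem_sphere_zero_iff_norm, norm_smul, norm_inv, Real.norm_eq_abs, abs_of_pos h]
    exact inv_mul_cancel₀ h.ne'⟩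

theorem unitV_apply {n : ℕ} (x : Fin n → ℝ) (hx : x ≠ 0) (i : Fin n) :
    (unitV x hx : EuclideanSpace ℝ (Fin n)) i = (eu x)⁻¹ * x i := rfl

theorem single_ne : (Pi.single 0 1 : V) ≠ 0 := by
  intro h; have := congrFun h 0; simp at this

/-- the point of `RP^3` with homogeneous coordinates `x` (junk value for `x = 0`) -/
noncomputable def toRP (x : V) : RP 3 :=
  if hx : x ≠ 0 then RP.mk (unitV x hx) else RP.mk (unitV _ single_ne)

theorem toRP_of_ne {x : V} (hx : x ≠ 0) : toRP x = RP.mk (unitV x hx) := dif_pos hx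

theorem mk_eq_iff {d : ℕ} (x y : USph (d + 1)) : RP.mk x = RP.mk y ↔
    ((x : EuclideanSpace ℝ (Fin (d + 1))) = y ∨ (x : EuclideanSpace ℝ (Fin (d + 1))) = -y) := by
  unfold RP.mk; exact Quotient.eq (r := antipodal d)

theorem toRP_eq_iff {x y : V} (hx : x ≠ 0) (hy : y ≠ 0) :
    toRP x = toRP y ↔ ∃ c : ℝ, c ≠ 0 ∧ y = c • x := by
  have h1 := eu_pos hx
  have h2 := eu_pos hy
  rw [toRP_of_ne hx, toRP_of_ne hy, mk_eq_iff]
  constructor
  · rintro (h | h)
    · refine ⟨eu y * (eu x)⁻¹, by positivity, ?_⟩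
      ext i
      have := congrFun (congrArg (fun z : EuclideanSpace ℝ (Fin 4) => (z : Fin 4 → ℝ)) h) i
      simp only [unitV_apply] at this
      simp only [Pi.smul_apply, smul_eq_mul]
      rw [mul_assoc, this]; field_simp
    · refine ⟨-(eu y * (eu x)⁻¹), by simp; constructor <;> positivity, ?_⟩
      ext i
      have := congrFun (congrArg (fun z : EuclideanSpace ℝ (Fin 4) => (z : Fin 4 → ℝ)) h) i
      simp only [unitV_apply, PiLp.neg_apply] at this
      simp only [Pi.smul_apply, smul_eq_mul]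
      rw [neg_mul, mul_assoc, this]; field_simp
  · rintro ⟨c, hc, rfl⟩
    rcases lt_or_gt_of_ne hc with h | h
    · right
      ext i
      rw [PiLp.neg_apply, unitV_apply, unitV_apply, eu_smul, abs_of_neg h]
      simp only [Pi.smul_apply, smul_eq_mul]
      field_simp
    · left
      ext i
      rw [unitV_apply, unitV_apply, eu_smul, abs_of_pos h]
      simp only [Pi.smul_apply, smul_eq_mul]
      field_simp

theorem toRP_smul {x : V} {c : ℝ} (hc : c ≠ 0) (hx : x ≠ 0) : toRP (c • x) = toRP x :=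
  ((toRP_eq_iff hx (smul_ne_zero hc hx)).2 ⟨c, hc, rfl⟩).symm

theorem exists_rep (p : RP 3) : ∃ x : V, x ≠ 0 ∧ eu x = 1 ∧ toRP x = p := by
  obtain ⟨u, rfl⟩ := Quotient.exists_rep p
  have hu : ‖(u : EuclideanSpace ℝ (Fin 4))‖ = 1 := mem_sphere_zero_iff_norm.1 u.2
  let x : V := WithLp.ofLp (u : EuclideanSpace ℝ (Fin 4))
  have hx1 : eu x = 1 := by unfold eu; simpa [x] using hu
  have hx : x ≠ 0 := by
    intro h
    have : eu x = 0 := eu_eq_zero.2 h
    rw [hx1] at this; exact one_ne_zero this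
  refine ⟨x, hx, hx1, ?_⟩
  rw [toRP_of_ne hx]
  change RP.mk _ = RP.mk u
  congr 1
  ext i
  rw [unitV_apply, hx1]; simp [x]

theorem continuous_mk {d : ℕ} : Continuous (RP.mk (d := d)) := continuous_quotient_mk'

theorem continuous_unitV {n : ℕ} {X : Type*} [TopologicalSpace X] {f : X → (Fin n → ℝ)}
    (hf : Continuous f) (h0 : ∀ x, f x ≠ 0) : Continuous (fun x => unitV (f x) (h0 x)) := by
  refine Continuous.subtype_mk ?_ _
  have h1 : Continuous fun x => (eu (f x))⁻¹ :=
    (eu_continuous.comp hf).inv₀ (fun x => (eu_pos (h0 x)).ne')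
  have h2 : Continuous fun x => (WithLp.toLp 2 (f x) : EuclideanSpace ℝ (Fin n)) :=
    (PiLp.continuous_toLp 2 _).comp hf
  exact h1.smul h2

theorem continuous_toRP {X : Type*} [TopologicalSpace X] {f : X → V}
    (hf : Continuous f) (h0 : ∀ x, f x ≠ 0) : Continuous (fun x => toRP (f x)) := by
  have : (fun x => toRP (f x)) = fun x => RP.mk (unitV (f x) (h0 x)) := by
    funext x; exact toRP_of_ne (h0 x)
  rw [this]
  exact continuous_mk.comp (continuous_unitV hf h0)

theorem mem_hyp_iff {x : V} (hx : x ≠ 0) (k : Fin 4) (c : ℝ) :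
    toRP x ∈ hyp 3 k c ↔ |x k| = c * eu x := by
  have h1 := eu_pos hx
  have key : |(unitV x hx : EuclideanSpace ℝ (Fin 4)) k| = c ↔ |x k| = c * eu x := by
    rw [unitV_apply, abs_mul, abs_inv, abs_of_pos h1]
    constructor
    · intro h; rw [← h]; field_simp
    · intro h; rw [h]; field_simp
  rw [← key, toRP_of_ne hx]
  constructor
  · rintro ⟨y, hy, hy2⟩
    rcases (mk_eq_iff (d := 3) _ _).1 hy with h | h
    · rw [← h]; exact hy2
    · rw [h] at hy2; simpa using hy2
  · intro h; exact ⟨_, rfl, h⟩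

instance (d : ℕ) : CompactSpace (RP d) :=
  inferInstanceAs (CompactSpace (Quotient (antipodal d)))

instance (d : ℕ) : T2Space (RP d) := by
  let f0 : USph (d + 1) → (Fin (d + 1) → Fin (d + 1) → ℝ) := fun x i j =>
    (x : EuclideanSpace ℝ (Fin (d + 1))) i * (x : EuclideanSpace ℝ (Fin (d + 1))) j
  have hf0 : ∀ x y : USph (d + 1), (antipodal d).r x y → f0 x = f0 y := by
    rintro x y (h | h)
    · simp [f0, h]
    · simp [f0, h]
  let f : RP d → (Fin (d + 1) → Fin (d + 1) → ℝ) := Quotient.lift f0 hf0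
  have hc : Continuous f := by
    refine Continuous.quotient_lift ?_ hf0
    refine continuous_pi fun i => continuous_pi fun j => ?_
    have hi : ∀ i, Continuous fun x : USph (d + 1) => (x : EuclideanSpace ℝ (Fin (d + 1))) i :=
      fun i => (continuous_apply i).comp ((PiLp.continuous_ofLp 2 _).comp continuous_subtype_val)
    exact (hi i).mul (hi j)
  have hi : Function.Injective f := by
    intro p q hpq
    obtain ⟨x, rfl⟩ := Quotient.exists_rep p
    obtain ⟨y, rfl⟩ := Quotient.exists_rep q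
    change f0 x = f0 y at hpq
    apply Quotient.sound (s := antipodal d)
    have hx : ‖(x : EuclideanSpace ℝ (Fin (d + 1)))‖ = 1 := mem_sphere_zero_iff_norm.1 x.2
    have hxn : (x : EuclideanSpace ℝ (Fin (d + 1))) ≠ 0 := by
      intro h; rw [h] at hx; simp at hx
    obtain ⟨i, hi⟩ : ∃ i, (x : EuclideanSpace ℝ (Fin (d + 1))) i ≠ 0 := by
      by_contra h
      push Not at h
      exact hxn (by ext i; exact h i)
    have h1 : ∀ j, (x : EuclideanSpace ℝ (Fin (d + 1))) i * (x : EuclideanSpace ℝ (Fin (d + 1))) j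
        = (y : EuclideanSpace ℝ (Fin (d + 1))) i * (y : EuclideanSpace ℝ (Fin (d + 1))) j :=
      fun j => congrFun (congrFun hpq i) j
    have h2 := h1 i
    have h3 : ((x : EuclideanSpace ℝ (Fin (d + 1))) i - (y : EuclideanSpace ℝ (Fin (d + 1))) i) *
        ((x : EuclideanSpace ℝ (Fin (d + 1))) i + (y : EuclideanSpace ℝ (Fin (d + 1))) i) = 0 := by
      linear_combination h2
    rcases mul_eq_zero.1 h3 with h | h
    · left
      ext j
      have h4 := h1 j
      have h5 : (y : EuclideanSpace ℝ (Fin (d + 1))) i = (x : EuclideanSpace ℝ (Fin (d + 1))) i := by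
        linear_combination -h
      rw [h5] at h4
      exact mul_left_cancel₀ hi h4
    · right
      ext j
      have h4 := h1 j
      have h5 : (y : EuclideanSpace ℝ (Fin (d + 1))) i = -(x : EuclideanSpace ℝ (Fin (d + 1))) i := by
        linear_combination h
      rw [h5] at h4
      rw [PiLp.neg_apply]
      apply mul_left_cancel₀ hi
      linear_combination h4
  exact T2Space.of_injective_continuous hi hc

/-- odd homogeneous continuous bijections of the coordinate space -/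
structure Good (F : V → V) : Prop where
  cont : Continuous F
  hom : ∀ (c : ℝ) (x : V), F (c • x) = c • F x
  bij : Function.Bijective F

theorem Good.map_zero {F : V → V} (h : Good F) : F 0 = 0 := by
  have := h.hom 0 0; simpa using this

theorem Good.ne_zero {F : V → V} (h : Good F) {x : V} (hx : x ≠ 0) : F x ≠ 0 := by
  intro h0
  exact hx (h.bij.1 (h0.trans h.map_zero.symm))

theorem Good.comp {F G : V → V} (hF : Good F) (hG : Good G) : Good (F ∘ G) :=
  ⟨hF.cont.comp hG.cont, fun c x => by simp [hG.hom, hF.hom], hF.bij.comp hG.bij⟩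

/-- the homeomorphism of `RP^3` induced by an odd homogeneous continuous bijection -/
theorem Good.exists_homeo {F : V → V} (h : Good F) :
    ∃ φ : RP 3 ≃ₜ RP 3, ∀ x : V, x ≠ 0 → φ (toRP x) = toRP (F x) := by
  have hnz : ∀ u : USph 4, (WithLp.ofLp (u : EuclideanSpace ℝ (Fin 4)) : V) ≠ 0 := by
    intro u h0
    have hu : ‖(u : EuclideanSpace ℝ (Fin 4))‖ = 1 := mem_sphere_zero_iff_norm.1 u.2
    have : (u : EuclideanSpace ℝ (Fin 4)) = 0 := by ext i; exact congrFun h0 i
    rw [this] at hu; simp at hu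
  let f0 : USph 4 → RP 3 := fun u => toRP (F (WithLp.ofLp (u : EuclideanSpace ℝ (Fin 4))))
  have hf0 : ∀ u v : USph 4, (antipodal 3).r u v → f0 u = f0 v := by
    rintro u v (h1 | h1)
    · simp [f0, h1]
    · simp only [f0, h1]
      have e : (WithLp.ofLp (-(v : EuclideanSpace ℝ (Fin 4))) : V) =
          (-1 : ℝ) • (WithLp.ofLp (v : EuclideanSpace ℝ (Fin 4)) : V) := by
        ext i; simp
      rw [e, h.hom]
      exact toRP_smul (by norm_num) (h.ne_zero (hnz v))
  let f : RP 3 → RP 3 := Quotient.lift f0 hf0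
  have hfx : ∀ x : V, x ≠ 0 → f (toRP x) = toRP (F x) := by
    intro x hx
    rw [toRP_of_ne hx]
    change toRP (F _) = _
    have e : (WithLp.ofLp (unitV x hx : EuclideanSpace ℝ (Fin 4)) : V) = (eu x)⁻¹ • x := by
      ext i; rfl
    rw [e, h.hom]
    exact toRP_smul (inv_ne_zero (eu_pos hx).ne') (h.ne_zero hx)
  have hcont : Continuous f := by
    refine Continuous.quotient_lift ?_ hf0
    refine continuous_toRP (h.cont.comp ((PiLp.continuous_ofLp 2 _).comp continuous_subtype_val))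
      (fun u => h.ne_zero (hnz u))
  have hinj : Function.Injective f := by
    intro p q hpq
    obtain ⟨x, hx, -, rfl⟩ := exists_rep p
    obtain ⟨y, hy, -, rfl⟩ := exists_rep q
    rw [hfx x hx, hfx y hy, toRP_eq_iff (h.ne_zero hx) (h.ne_zero hy)] at hpq
    obtain ⟨c, hc, e⟩ := hpq
    rw [toRP_eq_iff hx hy]
    exact ⟨c, hc, h.bij.1 (by rw [e, h.hom])⟩
  have hsurj : Function.Surjective f := by
    intro p
    obtain ⟨y, hy, -, rfl⟩ := exists_rep p
    obtain ⟨x, hx⟩ := h.bij.2 y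
    have hx0 : x ≠ 0 := by
      rintro rfl
      exact hy (hx ▸ h.map_zero)
    exact ⟨toRP x, by rw [hfx x hx0, hx]⟩
  exact ⟨(Continuous.homeoOfEquivCompactToT2 (f := Equiv.ofBijective f ⟨hinj, hsurj⟩) hcont),
    fun x hx => hfx x hx⟩

/-- the set of points of `RP^3` whose homogeneous coordinates satisfy `P` -/
def cone (P : V → Prop) : Set (RP 3) := {p | ∃ x : V, x ≠ 0 ∧ toRP x = p ∧ P x}

theorem mem_cone_iff {P : V → Prop} (hP : ∀ (c : ℝ) (x : V), c ≠ 0 → P x → P (c • x)) {x : V}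
    (hx : x ≠ 0) : toRP x ∈ cone P ↔ P x := by
  constructor
  · rintro ⟨y, hy, hyx, hPy⟩
    obtain ⟨c, hc, rfl⟩ := (toRP_eq_iff hy hx).1 hyx
    exact hP c y hc hPy
  · intro h; exact ⟨x, hx, rfl, h⟩

theorem hyp_eq_cone (k : Fin 4) (c : ℝ) : hyp 3 k c = cone (fun x => |x k| = c * eu x) := by
  ext p
  obtain ⟨x, hx, -, rfl⟩ := exists_rep p
  rw [mem_hyp_iff hx, mem_cone_iff _ hx]
  intro c' x' hc' h
  rw [eu_smul, Pi.smul_apply, smul_eq_mul, abs_mul, h]; ring

theorem image_cone {F : V → V} (hF : Good F) {φ : RP 3 ≃ₜ RP 3}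
    (hφ : ∀ x : V, x ≠ 0 → φ (toRP x) = toRP (F x)) {P P' : V → Prop}
    (h : ∀ x : V, x ≠ 0 → (P x ↔ P' (F x))) : φ '' cone P = cone P' := by
  ext p
  constructor
  · rintro ⟨q, ⟨x, hx, rfl, hPx⟩, rfl⟩
    exact ⟨F x, hF.ne_zero hx, (hφ x hx).symm, (h x hx).1 hPx⟩
  · rintro ⟨y, hy, rfl, hPy⟩
    obtain ⟨x, rfl⟩ := hF.bij.2 y
    have hx : x ≠ 0 := by rintro rfl; exact hy hF.map_zero
    exact ⟨toRP x, ⟨x, hx, rfl, (h x hx).2 hPy⟩, hφ x hx⟩

end Pool.Agent.Work.MP_363f1e_co
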