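import Pool.Agent.Work.MP_363f1e_co.Basic

/-!
Interface of the proof: members given by homogeneous equations, orientation data, the class `S`
(four coordinate members), statements of the blocks.
-/

namespace Pool.Agent.Work.MP_363f1e_co

/-- the sphere of directions -/
abbrev S2 : Type := USph 3

/-- coordinates of a direction -/
def cv (w : S2) : Fin 3 → ℝ := WithLp.ofLp (w : EuclideanSpace ℝ (Fin 3))

/-- homotopy of maps `S^2 → R^3 ∖ 0` -/
def HTo (q q' : S2 → (Fin 3 → ℝ)) : Prop :=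
  ∃ H : unitInterval × S2 → (Fin 3 → ℝ), Continuous H ∧ (∀ p, H p ≠ 0) ∧
    (∀ w, H (0, w) = q w) ∧ ∀ w, H (1, w) = q' w

/-- A member: the hypersurface `{|g| = θ}`, a parametrization `x` by the sphere of directions, a
left inverse `P` of it up to scaling. -/
structure Mem where
  /-- the defining odd function -/
  g : V → ℝ
  /-- the thickness -/
  θ : V → ℝ
  /-- the parametrization -/
  x : S2 → V
  /-- the projection -/
  P : V → (Fin 3 → ℝ)

/-- the correctness conditions of a member -/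
structure Mem.Ok (m : Mem) : Prop where
  g_hom : ∀ (c : ℝ) (y : V), m.g (c • y) = c * m.g y
  θ_hom : ∀ (c : ℝ) (y : V), m.θ (c • y) = |c| * m.θ y
  P_hom : ∀ (c : ℝ) (y : V), m.P (c • y) = c • m.P y
  g_cont : Continuous m.g
  θ_cont : Continuous m.θ
  P_cont : Continuous m.P
  x_cont : Continuous m.x
  Px : ∀ w, m.P (m.x w) = cv w
  gx : ∀ w, m.g (m.x w) = m.θ (m.x w)
  θx : ∀ w, 0 < m.θ (m.x w)
  compl : ∀ y : V, y ≠ 0 → m.g y = m.θ y →
    ∃ hP : m.P y ≠ 0, y = eu (m.P y) • m.x (unitV (m.P y) hP)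

/-- the hypersurface of `RP^3` -/
def Mem.set (m : Mem) : Set (RP 3) := cone (fun y => |m.g y| = m.θ y)

/-- `F` maps the member `m` onto the member `m'` and respects the orientations -/
def MIso (F : V → V) (m m' : Mem) : Prop :=
  (∀ y : V, y ≠ 0 → (|m.g y| = m.θ y ↔ |m'.g (F y)| = m'.θ (F y))) ∧
    ∃ σ : ℝ, (σ = 1 ∨ σ = -1) ∧ (∀ w, 0 < σ * m'.g (F (m.x w))) ∧
      HTo cv (fun w => σ • m'.P (F (m.x w)))

/-- sign used in the projections -/
def sg (k : Fin 4) (j : Fin 3) : ℝ := if j = 0 then (-1) ^ (k : ℕ) else 1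

/-- forget the coordinate `k` (with an orientation sign on the first remaining coordinate) -/
def prj (k : Fin 4) (y : V) : Fin 3 → ℝ := fun j => sg k j * y (k.succAbove j)

/-- insert the coordinate `s` at place `k` -/
def ins (k : Fin 4) (s : ℝ) (w : Fin 3 → ℝ) : V := k.insertNth s (fun j => sg k j * w j)

/-- the members of the class `S`: `{|y_k| = |y| / √6}` -/
noncomputable def seMem (k : Fin 4) : Mem where
  g := fun y => y k
  θ := fun y => 1 / √6 * eu y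
  x := fun w => ins k (1 / √5) (cv w)
  P := prj k

/-- certificate that four members form an arrangement of class `S` -/
def SCert (m : Fin 4 → Mem) : Prop := ∃ F : V → V, Good F ∧ ∀ k, MIso F (m k) (seMem k)

/-- the hypotheses on the thickness functions in the normal form theorem -/
structure TOk (T : Fin 4 → V → ℝ) (L : ℝ) : Prop where
  lt_one : L < 1
  lip : ∀ i x y, |T i x - T i y| ≤ L * ‖x - y‖
  hom : ∀ i (c : ℝ) x, T i (c • x) = |c| * T i x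
  nonneg : ∀ i x, 0 ≤ T i x
  pos : ∀ i x, x ≠ 0 → x i = 0 → 0 < T i x
  small : ∀ i x, x ≠ 0 → |x i| ≤ 1 / 2 * ‖x‖ → T i x < 1 / 2 * ‖x‖

/-- a plane: linear form `f`, a vector `a` with `f a = 1`, a parametrization `L` of the kernel and
a projection `P` -/
structure Pl where
  f : V →ₗ[ℝ] ℝ
  a : V
  L : (Fin 3 → ℝ) →ₗ[ℝ] V
  P : V →ₗ[ℝ] (Fin 3 → ℝ)

/-- the matrix with columns `a, L e_0, L e_1, L e_2` -/
def colMat (a : V) (L : (Fin 3 → ℝ) →ₗ[ℝ] V) : Matrix (Fin 4) (Fin 4) ℝ :=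
  Matrix.of fun i j => (Fin.cases (a i) (fun m => L (Pi.single m 1) i) j : ℝ)

/-- correctness of a plane (positively oriented) -/
structure Pl.Ok (p : Pl) : Prop where
  fa : p.f p.a = 1
  fL : ∀ w, p.f (p.L w) = 0
  Pa : p.P p.a = 0
  PL : ∀ w, p.P (p.L w) = w
  det : 0 < (colMat p.a p.L).det

/-- norm of the `z`-part: ball side `{nu < |t|}` is a cylinder around the origin of the chart -/
noncomputable def nu (y : V) : ℝ := max ‖(⟨y 0, y 1⟩ : ℂ)‖ (|y 2| / 2)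

/-- the common thickness function -/
noncomputable def nn (y : V) : ℝ := max |y 3| (nu y / 2)

/-- a thin member -/
noncomputable def thinMem (p : Pl) (ε : ℝ) (τ : S2 → ℝ) : Mem where
  g := fun y => p.f y
  θ := fun y => ε * nn y
  x := fun w => τ w • p.a + p.L (cv w)
  P := fun y => p.P y

/-- the fat member `{|t| = nu}` -/
noncomputable def fatMem : Mem where
  g := fun y => y 3
  θ := nu
  x := fun w => ![-cv w 0, cv w 1, cv w 2, nu ![cv w 0, cv w 1, cv w 2, 0]]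
  P := fun y => ![-y 0, y 1, y 2]

/-- the matrix of four linear forms -/
def rowMat (f : Fin 4 → (V →ₗ[ℝ] ℝ)) : Matrix (Fin 4) (Fin 4) ℝ :=
  Matrix.of fun k i => f k (Pi.single i 1)

/-- in the same connected component of `S` -/
def SameIn {X : Type} [TopologicalSpace X] (S : Set X) (a b : X) : Prop :=
  a ∈ S ∧ b ∈ connectedComponentIn S a

/-- two distinct points of `C ∩ Γx` in the same component of `Γ0 ∩ Γx` -/
structure PairIn {X : Type} [TopologicalSpace X] (C Γ0 Γx : Set X) (p q : X) : Prop where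
  ne : p ≠ q
  pC : p ∈ C
  qC : q ∈ C
  px : p ∈ Γx
  qx : q ∈ Γx
  same : SameIn (Γ0 ∩ Γx) p q

/-! ### The family -/

/-- first two coefficients of `c_j` -/
noncomputable def uc (j : Fin 5) : ℝ × ℝ :=
  ![(1, 0), (-4/5, 3/5), (7/25, -24/25), (44/125, 117/125), (-527/625, -336/625)] j

/-- first two coefficients of `h_i` -/
noncomputable def uh (i : Fin 5) : ℝ × ℝ :=
  ![(-1, 0), (4/5, -3/5), (-7/25, 24/25), (-44/125, -117/125), (4/5, 3/5)] i

/-- the linear form `u_0 y_0 + u_1 y_1 + β y_2 + γ y_3` -/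
noncomputable def form (u : ℝ × ℝ) (β γ : ℝ) : V →ₗ[ℝ] ℝ :=
  u.1 • LinearMap.proj 0 + u.2 • LinearMap.proj 1 + β • LinearMap.proj 2 + γ • LinearMap.proj 3

/-- planes with unit vector `u` in the first two coordinates -/
noncomputable def plu (u : ℝ × ℝ) (β γ : ℝ) : Pl where
  f := form u β γ
  a := ![u.1, u.2, 0, 0]
  L := { toFun := fun w => ![-u.2 * w 0 - (β * w 1 + γ * w 2) * u.1,
            u.1 * w 0 - (β * w 1 + γ * w 2) * u.2, w 1, w 2]
         map_add' := by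
          intro x y; ext i; fin_cases i <;> simp <;> ring
         map_smul' := by
          intro c x; ext i; fin_cases i <;> simp <;> ring }
  P := { toFun := fun y => ![-u.2 * y 0 + u.1 * y 1, y 2, y 3]
         map_add' := by
          intro x y; ext i; fin_cases i <;> simp <;> ring
         map_smul' := by
          intro c x; ext i; fin_cases i <;> simp <;> ring }

/-- the plane `v : y_2 + y_3 = 0` -/
noncomputable def plv : Pl where
  f := form (0, 0) 1 1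
  a := ![0, 0, 1, 0]
  L := { toFun := fun w => ![w 0, w 1, -w 2, w 2]
         map_add' := by
          intro x y; ext i; fin_cases i <;> simp <;> ring
         map_smul' := by
          intro c x; ext i; fin_cases i <;> simp }
  P := { toFun := fun y => ![y 0, y 1, y 3]
         map_add' := by
          intro x y; ext i; fin_cases i <;> simp
         map_smul' := by
          intro c x; ext i; fin_cases i <;> simp }

/-- the planes of the family, label `1 = v`, `2 = h_i`, `3 + j = c_j`; label `0` (the fat member)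
gets a junk value -/
noncomputable def plW (i : Fin 5) (a : Fin 8) : Pl :=
  ![plv, plv, plu (uh i) (2/5) (1/10), plu (uc 0) (3/5) 0, plu (uc 1) (3/5) 0, plu (uc 2) (3/5) 0,
    plu (uc 3) (3/5) 0, plu (uc 4) (3/5) 0] a

/-- the label of `c_j` -/
def lc (j : Fin 5) : Fin 8 := ⟨3 + j.1, by omega⟩

/-- the members of the family -/
noncomputable def memW (ε : ℝ) (τ : Fin 5 → Fin 8 → S2 → ℝ) (i : Fin 5) (a : Fin 8) : Mem :=
  if a = 0 then fatMem else thinMem (plW i a) ε (τ i a)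

/-! ### Statements of the blocks -/

/-- Lemma L: normal form with sup norm walls -/
def Stmt_LL : Prop := ∀ (T : Fin 4 → V → ℝ) (L : ℝ), TOk T L →
  ∃ F : V → V, Good F ∧ (∀ x i, 0 < x i → 0 < F x i) ∧ (∀ x i, x i = 0 → F x i = 0) ∧
    ∀ x : V, x ≠ 0 → ∀ i, (|x i| = T i x ↔ |F x i| = 1 / 4 * ‖F x‖)

/-- from sup norm walls to Euclidean walls -/
def Stmt_SEU : Prop :=
  ∃ F : V → V, Good F ∧ (∀ x i, 0 < x i → 0 < F x i) ∧ (∀ x i, x i = 0 → F x i = 0) ∧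
    ∀ x : V, x ≠ 0 → ∀ i, (|x i| = 1 / 4 * ‖x‖ ↔ |F x i| = 1 / √6 * eu (F x))

/-- linear maps of positive determinant are homotopic to the identity -/
def Stmt_GL3 : Prop := ∀ B : Matrix (Fin 3) (Fin 3) ℝ, 0 < B.det → HTo cv (fun w => B.mulVec (cv w))

/-- orientation bookkeeping of linear algebra -/
def Stmt_DET : Prop := ∀ (A : V →ₗ[ℝ] V) (a : V) (L : (Fin 3 → ℝ) →ₗ[ℝ] V) (k : Fin 4) (σ : ℝ),
  0 < (LinearMap.toMatrix' A).det → 0 < (colMat a L).det → (σ = 1 ∨ σ = -1) →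
  0 < σ * A a k → (∀ w, A (L w) k = 0) →
  ∃ B : Matrix (Fin 3) (Fin 3) ℝ, 0 < B.det ∧ ∀ w, σ • prj k (A (L w)) = B.mulVec w

/-- a correct member is a topological sphere in `RP^3` -/
def Stmt_MO : Prop := ∀ m : Mem, m.Ok → ∃ o : S2 ≃ₜ m.set, ∀ w, (o w : RP 3) = toRP (m.x w)

/-- transfer of the orientation -/
def Stmt_OT : Prop := ∀ (m m' : Mem) (F : V → V) (φ : RP 3 ≃ₜ RP 3), m.Ok → m'.Ok → Good F →
  (∀ x : V, x ≠ 0 → φ (toRP x) = toRP (F x)) → MIso F m m' →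
  φ '' m.set = m'.set ∧
  ∀ (o : S2 ≃ₜ m.set) (o' : S2 ≃ₜ m'.set), (∀ w, (o w : RP 3) = toRP (m.x w)) →
    (∀ w, (o' w : RP 3) = toRP (m'.x w)) →
    ∃ g : C(S2, S2), (∀ w, φ (o w : RP 3) = (o' (g w) : RP 3)) ∧ g.Homotopic (ContinuousMap.id _)

/-- the standard members are correct -/
def Stmt_SEM : Prop := ∀ k, (seMem k).Ok ∧ (seMem k).set = hyp 3 k (1 / √6)

/-- a hypersurface `{|y_k| = |y|/√6}` is a double pseudoplane -/
def Stmt_HYP : Prop := ∀ k : Fin 4, IsDouble (hyp 3 k (1 / √6))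

/-- the certificate from a coordinate map -/
def Stmt_ST : Prop := ∀ (m : Fin 4 → Mem) (M : V → V) (T : Fin 4 → V → ℝ) (L : ℝ),
  (∀ k, (m k).Ok) → Good M → TOk T L →
  (∀ k (y : V), y ≠ 0 → (|(m k).g y| = (m k).θ y ↔ |M y k| = T k (M y))) →
  (∀ k, ∃ σ : ℝ, (σ = 1 ∨ σ = -1) ∧ (∀ w, 0 < σ * M ((m k).x w) k) ∧
    HTo cv (fun w => σ • prj k (M ((m k).x w)))) → SCert m

/-- properties of the norms -/
def Stmt_NRM : Prop := (∀ x y : V, |nu x - nu y| ≤ nu (x - y)) ∧ (∀ (c : ℝ) (x : V), nu (c • x) = |c| * nu x) ∧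
  (∀ x : V, 0 ≤ nu x) ∧ (∀ x : V, nu x = 0 ↔ (x 0 = 0 ∧ x 1 = 0 ∧ x 2 = 0)) ∧
  (∀ x : V, nu x ≤ 2 * ‖x‖) ∧ (∀ x : V, ‖x‖ ≤ 4 * nn x) ∧
  (∀ x y : V, |nn x - nn y| ≤ 2 * ‖x - y‖) ∧ (∀ (c : ℝ) (x : V), nn (c • x) = |c| * nn x) ∧
  (∀ x : V, 0 ≤ nn x) ∧ (∀ x : V, nn x ≤ 2 * ‖x‖)

/-- thin members exist -/
def Stmt_THIN : Prop := ∀ p : Pl, p.Ok → ∃ C ε₀ : ℝ, 0 < ε₀ ∧ ∀ ε : ℝ, 0 < ε → ε < ε₀ →
  ∃ τ : S2 → ℝ, (thinMem p ε τ).Ok ∧ ∀ w, 0 < τ w ∧ τ w ≤ C * ε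

/-- the fat member is correct -/
def Stmt_FAT : Prop := fatMem.Ok

/-- four independent thin members are of class `S` -/
def Stmt_SLT : Prop := ∀ (p : Fin 4 → Pl) (C : ℝ), (∀ k, (p k).Ok) →
  (rowMat fun k => (p k).f).det ≠ 0 → ∃ ε₀ : ℝ, 0 < ε₀ ∧ ∀ ε : ℝ, 0 < ε → ε < ε₀ →
  ∀ τ : Fin 4 → S2 → ℝ, (∀ k, (thinMem (p k) ε (τ k)).Ok) → (∀ k w, 0 < τ k w ∧ τ k w ≤ C * ε) →
  SCert (fun k => thinMem (p k) ε (τ k))

/-- three thin members and the fat member (at place `k₀`), vertex `v` on the ball side -/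
def Stmt_SLF : Prop := ∀ (p : Fin 4 → Pl) (k₀ : Fin 4) (C : ℝ) (v : V), (∀ k, k ≠ k₀ → (p k).Ok) →
  (rowMat (Function.update (fun k => (p k).f) k₀ (LinearMap.proj 3))).det ≠ 0 →
  v 3 = 1 → (∀ k, k ≠ k₀ → (p k).f v = 0) → nu v < 1 →
  ∃ ε₀ : ℝ, 0 < ε₀ ∧ ∀ ε : ℝ, 0 < ε → ε < ε₀ →
  ∀ τ : Fin 4 → S2 → ℝ, (∀ k, k ≠ k₀ → (thinMem (p k) ε (τ k)).Ok) →
  (∀ k, k ≠ k₀ → ∀ w, 0 < τ k w ∧ τ k w ≤ C * ε) →
  SCert (fun k => if k = k₀ then fatMem else thinMem (p k) ε (τ k))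

/-- the planes of the family are correct -/
def Stmt_PLW : Prop := ∀ i a, (plW i a).Ok

/-- the quadruples containing `h_i` for which the family has to be of class `S` -/
def SType (i : Fin 5) (s : Fin 4 → Fin 8) : Prop :=
  Function.Injective s ∧ (∃ k, s k = 2) ∧ ((∀ k, s k ≠ lc i) ∨ ((∀ k, s k ≠ 0) ∧ ∀ k, s k ≠ 1))

/-- independence of the thin quadruples -/
def Stmt_NUM1 : Prop := ∀ (i : Fin 5) (s : Fin 4 → Fin 8), SType i s → (∀ k, s k ≠ 0) →
  (rowMat fun k => (plW i (s k)).f).det ≠ 0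

/-- independence and vertex on the ball side for the quadruples with the fat member -/
def Stmt_NUM2 : Prop := ∀ (i : Fin 5) (s : Fin 4 → Fin 8) (k₀ : Fin 4), SType i s → s k₀ = 0 →
  (rowMat (Function.update (fun k => (plW i (s k)).f) k₀ (LinearMap.proj 3))).det ≠ 0 ∧
  ∃ v : V, v 3 = 1 ∧ (∀ k, k ≠ k₀ → (plW i (s k)).f v = 0) ∧ nu v < 1

/-- the topology of the class `S` model -/
def Stmt_VSE : Prop := ∀ A : Fin 4 → Set (RP 3), (∀ k, A k = hyp 3 k (1 / √6)) →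
  (A 0 ∩ A 1).Nonempty ∧ (A 0 ∩ A 1 ∩ A 2 ∩ A 3 = ∅) ∧
  ∀ P ∈ A 0 ∩ A 1,
    Nonempty (Circle ≃ₜ connectedComponentIn (A 0 ∩ A 1) P) ∧
    (∃ p q, PairIn (connectedComponentIn (A 0 ∩ A 1) P) (A 0) (A 2) p q) ∧
    (∃ p q, PairIn (connectedComponentIn (A 0 ∩ A 1) P) (A 0) (A 3) p q) ∧
    ∀ p q p' q', PairIn (connectedComponentIn (A 0 ∩ A 1) P) (A 0) (A 2) p q →
      PairIn (connectedComponentIn (A 0 ∩ A 1) P) (A 0) (A 3) p' q' →
      ¬ SameIn (connectedComponentIn (A 0 ∩ A 1) P \ {p, q}) p' q'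

/-- the topology of the family on the circle `Γ_0 ∩ Γ_v` -/
def Stmt_VW : Prop := ∃ ε₀ : ℝ, 0 < ε₀ ∧ ∀ ε : ℝ, 0 < ε → ε < ε₀ →
  ∀ B : Fin 8 → Set (RP 3), B 0 = cone (fun y => |y 3| = nu y) →
  (∀ a, a ≠ 0 → B a = cone (fun y => |(plW 0 a).f y| = ε * nn y)) →
  (∀ j k : Fin 5, j ≠ k → B 0 ∩ B 1 ∩ B (lc j) ∩ B (lc k) = ∅) ∧
  ∀ P ∈ B 0 ∩ B 1, ∀ j : Fin 5,
    (∀ p q p' q', PairIn (connectedComponentIn (B 0 ∩ B 1) P) (B 0) (B (lc j)) p q →
      PairIn (connectedComponentIn (B 0 ∩ B 1) P) (B 0) (B (lc (j + 2))) p' q' →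
      ¬ SameIn (connectedComponentIn (B 0 ∩ B 1) P \ {p, q}) p' q') ∧
    (∀ p q p' q', PairIn (connectedComponentIn (B 0 ∩ B 1) P) (B 0) (B (lc j)) p q →
      PairIn (connectedComponentIn (B 0 ∩ B 1) P) (B 0) (B (lc (j + 1))) p' q' →
      SameIn (connectedComponentIn (B 0 ∩ B 1) P \ {p, q}) p' q')

/-- six chords of a circle do not have the wheel as crossing graph -/
def Stmt_VC : Prop := ∀ (X : Type) [TopologicalSpace X] [T2Space X] (C : Set X)
  (_ : Circle ≃ₜ C) (p₀ q₀ : X) (p q : Fin 5 → X),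
  p₀ ∈ C → q₀ ∈ C → p₀ ≠ q₀ → (∀ j, p j ∈ C ∧ q j ∈ C ∧ p j ≠ q j) →
  (∀ j, p j ≠ p₀ ∧ p j ≠ q₀ ∧ q j ≠ p₀ ∧ q j ≠ q₀) →
  (∀ j k, j ≠ k → p j ≠ p k ∧ p j ≠ q k ∧ q j ≠ q k) →
  (∀ j, ¬ SameIn (C \ {p₀, q₀}) (p j) (q j)) →
  (∀ j : Fin 5, ¬ SameIn (C \ {p j, q j}) (p (j + 2)) (q (j + 2))) →
  (∀ j : Fin 5, SameIn (C \ {p j, q j}) (p (j + 1)) (q (j + 1))) → False

end Pool.Agent.Work.MP_363f1e_co
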