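import Mathlib
import Pool.Agent.Work.MP_363f1e_co.Interface

/-!
Block DET: orientation bookkeeping of linear algebra (helper12).
-/

namespace Pool.Agent.Work.MP_363f1e_co

namespace DETaux

/-- the product matrix of `A` and the column matrix: columns `A a`, `A (L e_j)` -/
theorem mul_col (A : V →ₗ[ℝ] V) (a : V) (L : (Fin 3 → ℝ) →ₗ[ℝ] V) (i j : Fin 4) :
    (LinearMap.toMatrix' A * colMat a L) i j =
      (Fin.cases (A a i) (fun m => A (L (Pi.single m 1)) i) j : ℝ) := by
  have h : ∀ v : V, ∑ l, LinearMap.toMatrix' A i l * v l = A v i := by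
    intro v
    have := congrFun (LinearMap.toMatrix'_mulVec A v) i
    simpa [Matrix.mulVec, dotProduct] using this
  rw [Matrix.mul_apply]
  refine Fin.cases ?_ (fun m => ?_) j
  · simpa [colMat] using h a
  · simpa [colMat] using h (L (Pi.single m 1))

end DETaux

theorem blk_DET : Stmt_DET := by
  intro A a L k σ hA ha hσ hk hL
  set N : Matrix (Fin 4) (Fin 4) ℝ := LinearMap.toMatrix' A * colMat a L with hN
  have hNd : 0 < N.det := by rw [hN, Matrix.det_mul]; exact mul_pos hA ha
  have hN0 : ∀ i, N i 0 = A a i := fun i => DETaux.mul_col A a L i 0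
  have hNs : ∀ i (m : Fin 3), N i m.succ = A (L (Pi.single m 1)) i :=
    fun i m => DETaux.mul_col A a L i m.succ
  have hσ2 : σ * σ = 1 := by rcases hσ with h | h <;> rw [h] <;> norm_num
  let S : Matrix (Fin 3) (Fin 3) ℝ := N.submatrix k.succAbove Fin.succ
  let B : Matrix (Fin 3) (Fin 3) ℝ := Matrix.of fun i j => (σ * sg k i) * S i j
  have hdet : N.det = (-1) ^ (k : ℕ) * A a k * S.det := by
    rw [Matrix.det_succ_row N k, Fin.sum_univ_succ, Finset.sum_eq_zero]
    · rw [hN0]
      simp [S, Fin.succAbove_zero]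
    · intro m _
      rw [hNs, hL]
      simp
  have hB : B.det = σ * (-1) ^ (k : ℕ) * S.det := by
    have h1 : B.det = (∏ i, (σ * sg k i)) * S.det := Matrix.det_mul_column _ _
    rw [h1, Fin.prod_univ_three]
    have e0 : sg k 0 = (-1) ^ (k : ℕ) := by simp [sg]
    have e1 : sg k 1 = 1 := by simp [sg]
    have e2 : sg k 2 = 1 := by simp [sg]
    rw [e0, e1, e2]
    linear_combination (σ * (-1) ^ (k : ℕ) * S.det) * hσ2
  have hrel : N.det = (σ * A a k) * B.det := by
    rw [hdet, hB]
    linear_combination -((-1) ^ (k : ℕ) * A a k * S.det) * hσ2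
  refine ⟨B, ?_, ?_⟩
  · rw [hrel] at hNd
    exact (mul_pos_iff_of_pos_left hk).1 hNd
  · intro w
    have hlin : ∀ i, A (L w) i = ∑ m, w m * A (L (Pi.single m 1)) i := by
      intro i
      have hw : w = ∑ m, w m • (Pi.single m (1 : ℝ) : Fin 3 → ℝ) := pi_eq_sum_univ' w
      conv_lhs => rw [hw]
      rw [map_sum, map_sum]
      simp [Finset.sum_apply]
    funext i
    rw [Pi.smul_apply, smul_eq_mul]
    unfold prj
    rw [hlin, Matrix.mulVec, dotProduct, Finset.mul_sum, Finset.mul_sum]
    refine Finset.sum_congr rfl fun m _ => ?_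
    change _ = (σ * sg k i) * N (k.succAbove i) m.succ * w m
    rw [hNs]
    ring

end Pool.Agent.Work.MP_363f1e_co
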