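import Mathlib

/-!
# Double pseudohyperplane arrangements (definitions)

Real projective space `RP^d` is the unit sphere of `R^(d+1)` modulo the antipodal map.  An
orientation of a topological `(d-1)`-sphere `Γ` is given by a homeomorphism from the standard sphere
`S^(d-1)` onto `Γ`; two homeomorphisms give the same orientation iff they are homotopic.
-/

namespace Pool.Agent.Work.MP_363f1e_co

/-- The unit sphere of Euclidean `n`-space (a sphere of dimension `n - 1`). -/
abbrev USph (n : ℕ) : Type := Metric.sphere (0 : EuclideanSpace ℝ (Fin n)) 1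

/-- The antipodal identification on the unit sphere `S^d` of `R^(d+1)`. -/
def antipodal (d : ℕ) : Setoid (USph (d + 1)) where
  r x y := (x : EuclideanSpace ℝ (Fin (d + 1))) = y ∨ (x : EuclideanSpace ℝ (Fin (d + 1))) = -y
  iseqv :=
    ⟨fun _ => Or.inl rfl,
     fun {_ _} h => h.elim (fun h => Or.inl h.symm) (fun h => Or.inr (by rw [h, neg_neg])),
     fun {_ _ _} h1 h2 => by
      rcases h1 with h1 | h1 <;> rcases h2 with h2 | h2
      · exact Or.inl (h1.trans h2)
      · exact Or.inr (h1.trans h2)
      · exact Or.inr (by rw [h1, h2])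
      · exact Or.inl (by rw [h1, h2, neg_neg])⟩

/-- Real projective space `RP^d`: the unit sphere modulo the antipodal map, with the quotient
topology. -/
def RP (d : ℕ) : Type := Quotient (antipodal d)

instance (d : ℕ) : TopologicalSpace (RP d) :=
  inferInstanceAs (TopologicalSpace (Quotient (antipodal d)))

/-- The point of `RP^d` given by a unit vector. -/
def RP.mk {d : ℕ} (x : USph (d + 1)) : RP d := Quotient.mk (antipodal d) x

/-- The hypersurface `{x_i = ± c}` of `RP^d`. -/
def hyp (d : ℕ) (i : Fin (d + 1)) (c : ℝ) : Set (RP d) :=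
  {p | ∃ x : USph (d + 1), RP.mk x = p ∧ |(x : EuclideanSpace ℝ (Fin (d + 1))) i| = c}

/-- A double pseudohyperplane: the image of `{x_1 = ± 1/√2}` under a self-homeomorphism of
`RP^d`. -/
def IsDouble {d : ℕ} (Γ : Set (RP d)) : Prop :=
  ∃ φ : RP d ≃ₜ RP d, Γ = φ '' hyp d 0 (1 / √2)

/-- An arrangement of double pseudohyperplanes (unoriented): every member is a double
pseudohyperplane and every subfamily of size `d` is the image of the family of the hypersurfaces
`{x_i = ± 1/√(2d)}`, `i = 1, …, d`, under a self-homeomorphism of `RP^d`. -/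
def IsArrangement {d : ℕ} {ι : Type} (Γ : ι → Set (RP d)) : Prop :=
  (∀ i, IsDouble (Γ i)) ∧
    ∀ s : Fin d → ι, Function.Injective s →
      ∃ φ : RP d ≃ₜ RP d, ∀ k : Fin d, Γ (s k) = φ '' hyp d k.castSucc (1 / √(2 * d))

/-- An indexed arrangement of oriented double pseudohyperplanes.  The orientation of the member
`Γ i`, a topological `(d-1)`-sphere, is the homotopy class of the homeomorphism `ori i` from the
standard sphere `S^(d-1)` onto it. -/
structure OArr (d : ℕ) (ι : Type) where
  /-- the members -/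
  Γ : ι → Set (RP d)
  /-- they form an arrangement -/
  isArr : IsArrangement Γ
  /-- the orientations -/
  ori : ∀ i, USph d ≃ₜ Γ i

/-- Isomorphism of indexed oriented arrangements: a self-homeomorphism `φ` of `RP^d` maps every
member onto the member with the same index, and respects the orientations: `φ` carries the
parametrization of `A.Γ i` to a homeomorphism homotopic to the parametrization of `B.Γ i`. -/
def OArr.Iso {d : ℕ} {ι : Type} (A B : OArr d ι) : Prop :=
  ∃ φ : RP d ≃ₜ RP d, ∀ i, φ '' A.Γ i = B.Γ i ∧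
    ∃ g : C(USph d, USph d), (∀ w, φ (A.ori i w : RP d) = (B.ori i (g w) : RP d)) ∧
      g.Homotopic (ContinuousMap.id _)

/-- The subarrangement indexed through an injective map. -/
def OArr.comp {d : ℕ} {ι κ : Type} (A : OArr d ι) (e : κ → ι) (he : Function.Injective e) :
    OArr d κ where
  Γ := fun k => A.Γ (e k)
  isArr := ⟨fun k => A.isArr.1 (e k), fun s hs => A.isArr.2 (fun k => e (s k)) (he.comp hs)⟩
  ori := fun k => A.ori (e k)

theorem OArr.Iso.refl {d : ℕ} {ι : Type} (A : OArr d ι) : A.Iso A :=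
  ⟨Homeomorph.refl _, fun i => ⟨by simp, ContinuousMap.id _, fun w => rfl,
    ContinuousMap.Homotopic.refl _⟩⟩

theorem OArr.Iso.symm {d : ℕ} {ι : Type} {A B : OArr d ι} (h : A.Iso B) : B.Iso A := by
  obtain ⟨φ, hφ⟩ := h
  refine ⟨φ.symm, fun i => ?_⟩
  obtain ⟨h1, g, hg, hh⟩ := hφ i
  have h1' : φ.symm '' B.Γ i = A.Γ i := by
    rw [← h1, ← Set.image_comp]; simp
  refine ⟨h1', ?_⟩
  have hmem : ∀ w, φ.symm (B.ori i w : RP d) ∈ A.Γ i := fun w => by
    rw [← h1']; exact ⟨_, (B.ori i w).2, rfl⟩
  let g' : C(USph d, USph d) :=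
    ⟨fun w => (A.ori i).symm ⟨φ.symm (B.ori i w : RP d), hmem w⟩, by
      refine (A.ori i).symm.continuous.comp (Continuous.subtype_mk ?_ _)
      exact φ.symm.continuous.comp (continuous_subtype_val.comp (B.ori i).continuous)⟩
  have hg' : ∀ w, (A.ori i (g' w) : RP d) = φ.symm (B.ori i w : RP d) := fun w => by
    simp [g']
  have hcomp : g'.comp g = ContinuousMap.id _ := by
    ext1 w
    have h2 : (A.ori i (g' (g w)) : RP d) = (A.ori i w : RP d) := by
      rw [hg', ← hg w]; simp
    exact (A.ori i).injective (Subtype.ext h2)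
  refine ⟨g', fun w => (hg' w).symm, ?_⟩
  have h3 : (g'.comp g).Homotopic (g'.comp (ContinuousMap.id _)) :=
    ContinuousMap.Homotopic.comp (ContinuousMap.Homotopic.refl _) hh
  rw [hcomp] at h3
  exact h3.symm

theorem OArr.Iso.trans {d : ℕ} {ι : Type} {A B C : OArr d ι} (h : A.Iso B) (h' : B.Iso C) :
    A.Iso C := by
  obtain ⟨φ, hφ⟩ := h
  obtain ⟨ψ, hψ⟩ := h'
  refine ⟨φ.trans ψ, fun i => ?_⟩
  obtain ⟨h1, g, hg, hh⟩ := hφ i
  obtain ⟨h1', g', hg', hh'⟩ := hψ i
  refine ⟨?_, g'.comp g, fun w => ?_, ?_⟩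
  · rw [← h1', ← h1, ← Set.image_comp]; rfl
  · simp only [Homeomorph.trans_apply, ContinuousMap.comp_apply]
    rw [hg w, hg' (g w)]
  · exact (ContinuousMap.Homotopic.comp hh' hh)

/-- Isomorphism of arrangements as a setoid. -/
def isoSetoid (d : ℕ) (ι : Type) : Setoid (OArr d ι) where
  r := OArr.Iso
  iseqv := ⟨OArr.Iso.refl, OArr.Iso.symm, OArr.Iso.trans⟩

/-- Isomorphism classes of arrangements indexed by `ι`. -/
def IsoClass (d : ℕ) (ι : Type) : Type := Quotient (isoSetoid d ι)

/-- The isomorphism class of an arrangement. -/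
def OArr.cls {d : ℕ} {ι : Type} (A : OArr d ι) : IsoClass d ι := Quotient.mk (isoSetoid d ι) A

/-- A map assigning to each `(d+1)`-subset `J` of `ι` an isomorphism class of arrangements indexed
by `J`. -/
abbrev ClassMap (d : ℕ) (ι : Type) : Type := ∀ J : Finset ι, J.card = d + 1 → IsoClass d J

/-- On the subsets of `K`, the map `χ` is the chirotope of an arrangement indexed by `K`: for every
`(d+1)`-subset `J` of `K` the value `χ J` is the isomorphism class of the subarrangement indexed by
`J`. -/
def RealizedOn {d : ℕ} {ι : Type} (χ : ClassMap d ι) (K : Finset ι) : Prop :=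
  ∃ A : OArr d K, ∀ (J : Finset ι) (hJ : J ⊆ K) (hc : J.card = d + 1),
    χ J hc = (A.comp (fun j : J => (⟨j.1, hJ j.2⟩ : K))
      (fun _ _ h => Subtype.ext (congrArg (fun z : K => z.1) h))).cls

/-- Locally realizable maps: `χ` is a chirotope on every `K` with `d+1 ≤ |K| ≤ d+3`. -/
def LocallyRealizable {d : ℕ} {ι : Type} (χ : ClassMap d ι) : Prop :=
  ∀ K : Finset ι, d + 1 ≤ K.card → K.card ≤ d + 3 → RealizedOn χ K

/-- `χ` is the chirotope of an arrangement indexed by the whole (finite) set `ι`. -/
def IsChirotope {d : ℕ} {ι : Type} [Fintype ι] (χ : ClassMap d ι) : Prop :=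
  RealizedOn χ Finset.univ

end Pool.Agent.Work.MP_363f1e_co
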