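import Mathlib
import Pool.Agent.Work.MP_363f1e_co.Interface

/-!
Block FAT: the fat member is correct (helper12).
-/

namespace Pool.Agent.Work.MP_363f1e_co

namespace FATaux

theorem cv_continuous : Continuous cv := by
  unfold cv
  exact (PiLp.continuous_ofLp 2 _).comp continuous_subtype_val

theorem eu_cv (w : S2) : eu (cv w) = 1 := by
  have hw : ‖(w : EuclideanSpace ℝ (Fin 3))‖ = 1 := mem_sphere_zero_iff_norm.1 w.2
  unfold eu cv
  simp

theorem cv_ne (w : S2) : cv w ≠ 0 := by
  intro h
  have := eu_cv w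
  rw [h, eu_eq_zero.2 rfl] at this
  exact zero_ne_one this

theorem cv_unitV (x : Fin 3 → ℝ) (hx : x ≠ 0) : cv (unitV x hx) = (eu x)⁻¹ • x := by
  funext i
  exact unitV_apply x hx i

/-- `nu` does not see the sign of the first and the value of the last coordinate -/
theorem nu_flip (a b c s t : ℝ) : nu ![-a, b, c, s] = nu ![a, b, c, t] := by
  unfold nu
  have h : ‖(⟨-a, b⟩ : ℂ)‖ = ‖(⟨a, b⟩ : ℂ)‖ := by
    rw [Complex.norm_def, Complex.norm_def, Complex.normSq_mk, Complex.normSq_mk]
    ring_nf
  simp only [Matrix.cons_val_zero, Matrix.cons_val_one, Matrix.cons_val]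
  rw [h]

theorem nu_last (y : V) (t : ℝ) : nu y = nu ![y 0, y 1, y 2, t] := by
  unfold nu
  simp only [Matrix.cons_val_zero, Matrix.cons_val_one, Matrix.cons_val]

end FATaux

open FATaux in
theorem blk_FAT (hNRM : Stmt_NRM) : Stmt_FAT := by
  obtain ⟨h1, h2, h3, h4, h5, -, -, -, -, -⟩ := hNRM
  have nuc : Continuous nu := by
    have : LipschitzWith 2 nu := by
      refine LipschitzWith.of_dist_le_mul fun x y => ?_
      rw [Real.dist_eq, dist_eq_norm]
      exact (h1 x y).trans (h5 _)
    exact this.continuous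
  have hx : ∀ w : S2, fatMem.x w =
      ![-cv w 0, cv w 1, cv w 2, nu ![cv w 0, cv w 1, cv w 2, 0]] := fun w => rfl
  have hP : ∀ y : V, fatMem.P y = ![-y 0, y 1, y 2] := fun y => rfl
  have hg : ∀ y : V, fatMem.g y = y 3 := fun y => rfl
  have hθ : ∀ y : V, fatMem.θ y = nu y := fun y => rfl
  have hgx : ∀ w : S2, fatMem.g (fatMem.x w) = fatMem.θ (fatMem.x w) := by
    intro w
    rw [hg, hθ, hx, nu_flip _ _ _ _ 0]
    simp only [Matrix.cons_val]
  refine ⟨?_, ?_, ?_, ?_, ?_, ?_, ?_, ?_, hgx, ?_, ?_⟩
  · intro c y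
    rw [hg, hg]; simp
  · intro c y
    rw [hθ, hθ, h2]
  · intro c y
    rw [hP, hP]
    funext j
    fin_cases j <;> simp
  · exact continuous_apply 3
  · exact nuc
  · refine continuous_pi fun j => ?_
    fin_cases j
    · exact (continuous_apply 0).neg
    · exact continuous_apply 1
    · exact continuous_apply 2
  · have c0 : ∀ j, Continuous fun w : S2 => cv w j := fun j =>
      (continuous_apply j).comp cv_continuous
    have hv : Continuous fun w : S2 => (![cv w 0, cv w 1, cv w 2, 0] : V) := by
      refine continuous_pi fun j => ?_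
      fin_cases j
      · exact c0 0
      · exact c0 1
      · exact c0 2
      · exact continuous_const
    refine continuous_pi fun j => ?_
    fin_cases j
    · exact (c0 0).neg
    · exact c0 1
    · exact c0 2
    · exact nuc.comp hv
  · intro w
    rw [hP, hx]
    funext j
    fin_cases j <;> simp
  · intro w
    rw [hθ]
    refine lt_of_le_of_ne (h3 _) fun h => cv_ne w ?_
    obtain ⟨e0, e1, e2⟩ := (h4 _).1 h.symm
    rw [hx] at e0 e1 e2
    simp only [Matrix.cons_val_zero, Matrix.cons_val_one, Matrix.cons_val, neg_eq_zero] at e0 e1 e2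
    funext j
    fin_cases j
    · exact e0
    · exact e1
    · exact e2
  · intro y hy hgy
    rw [hg, hθ] at hgy
    have hPy : fatMem.P y ≠ 0 := by
      intro h
      rw [hP] at h
      have e0 : y 0 = 0 := by
        have := congrFun h 0
        simpa using this
      have e1 : y 1 = 0 := by
        have := congrFun h 1
        simpa using this
      have e2 : y 2 = 0 := by
        have := congrFun h 2
        simpa using this
      have e3 : y 3 = 0 := by rw [hgy]; exact (h4 y).2 ⟨e0, e1, e2⟩
      apply hy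
      funext j
      fin_cases j
      · exact e0
      · exact e1
      · exact e2
      · exact e3
    refine ⟨hPy, ?_⟩
    have hE : 0 < eu (fatMem.P y) := eu_pos hPy
    set E := eu (fatMem.P y) with hEdef
    have hc : ∀ j, cv (unitV (fatMem.P y) hPy) j = E⁻¹ * fatMem.P y j := by
      intro j
      rw [cv_unitV, Pi.smul_apply, smul_eq_mul]
    have p0 : fatMem.P y 0 = -y 0 := by rw [hP]; simp
    have p1 : fatMem.P y 1 = y 1 := by rw [hP]; simp
    have p2 : fatMem.P y 2 = y 2 := by rw [hP]; simp
    have hEE : E * E⁻¹ = 1 := mul_inv_cancel₀ hE.ne'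
    have hnu : E * nu ![E⁻¹ * -y 0, E⁻¹ * y 1, E⁻¹ * y 2, 0] = nu y := by
      have e : (![E⁻¹ * -y 0, E⁻¹ * y 1, E⁻¹ * y 2, 0] : V) = E⁻¹ • ![-y 0, y 1, y 2, 0] := by
        funext j
        fin_cases j <;> simp
      rw [e, h2, abs_of_pos (inv_pos.2 hE), ← mul_assoc, hEE, one_mul, nu_flip _ _ _ _ 0,
        ← nu_last]
    rw [hx]
    funext j
    rw [Pi.smul_apply, smul_eq_mul]
    fin_cases j
    · change y 0 = E * -cv (unitV (fatMem.P y) hPy) 0
      rw [hc, p0]
      linear_combination (-y 0) * hEE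
    · change y 1 = E * cv (unitV (fatMem.P y) hPy) 1
      rw [hc, p1]
      linear_combination (-y 1) * hEE
    · change y 2 = E * cv (unitV (fatMem.P y) hPy) 2
      rw [hc, p2]
      linear_combination (-y 2) * hEE
    · change y 3 = E * nu ![cv (unitV (fatMem.P y) hPy) 0, cv (unitV (fatMem.P y) hPy) 1,
        cv (unitV (fatMem.P y) hPy) 2, 0]
      rw [hc, hc, hc, p0, p1, p2, hnu, hgy]

end Pool.Agent.Work.MP_363f1e_co
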