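import Pool.Agent.Work.MP_363f1e_co.MO

namespace Pool.Agent.Work.MP_363f1e_co

open MOaux

namespace FINaux

/-! ### eventually for small positive ε -/

/-- for all small positive `ε` -/
def Ev (P : ℝ → Prop) : Prop := ∃ ε₀ : ℝ, 0 < ε₀ ∧ ∀ ε : ℝ, 0 < ε → ε < ε₀ → P ε

theorem Ev.and {P Q : ℝ → Prop} (hP : Ev P) (hQ : Ev Q) : Ev (fun ε => P ε ∧ Q ε) := by
  obtain ⟨a, ha, hP⟩ := hP
  obtain ⟨b, hb, hQ⟩ := hQ
  exact ⟨min a b, lt_min ha hb, fun ε h1 h2 =>
    ⟨hP ε h1 (lt_of_lt_of_le h2 (min_le_left _ _)), hQ ε h1 (lt_of_lt_of_le h2 (min_le_right _ _))⟩⟩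

theorem Ev.all {ι : Type} [Finite ι] {P : ι → ℝ → Prop} (h : ∀ i, Ev (P i)) :
    Ev (fun ε => ∀ i, P i ε) := by
  classical
  have := Fintype.ofFinite ι
  choose e he hP using h
  by_cases hn : Nonempty ι
  · obtain ⟨j, hj⟩ := Finite.exists_min e
    exact ⟨e j, he j, fun ε h1 h2 i => hP i ε h1 (lt_of_lt_of_le h2 (hj i))⟩
  · exact ⟨1, one_pos, fun ε _ _ i => absurd ⟨i⟩ hn⟩

theorem Ev.imp {P Q : ℝ → Prop} (hP : Ev P) (h : ∀ ε, 0 < ε → P ε → Q ε) : Ev Q := by
  obtain ⟨a, ha, hP⟩ := hP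
  exact ⟨a, ha, fun ε h1 h2 => h ε h1 (hP ε h1 h2)⟩

theorem Ev.exists {P : ℝ → Prop} (hP : Ev P) : ∃ ε, 0 < ε ∧ P ε := by
  obtain ⟨a, ha, hP⟩ := hP
  exact ⟨a / 2, by linarith, hP _ (by linarith) (by linarith)⟩

/-! ### families of sets with orientations -/

/-- isomorphism of indexed families of oriented sets -/
def FRel {κ : Type} (Γ Γ' : κ → Set (RP 3)) (o : ∀ k, S2 ≃ₜ Γ k) (o' : ∀ k, S2 ≃ₜ Γ' k) : Prop :=
  ∃ φ : RP 3 ≃ₜ RP 3, ∀ k, φ '' Γ k = Γ' k ∧
    ∃ g : C(S2, S2), (∀ w, φ (o k w : RP 3) = (o' k (g w) : RP 3)) ∧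
      g.Homotopic (ContinuousMap.id _)

theorem FRel.symm {κ : Type} {Γ Γ' : κ → Set (RP 3)} {o : ∀ k, S2 ≃ₜ Γ k} {o' : ∀ k, S2 ≃ₜ Γ' k}
    (h : FRel Γ Γ' o o') : FRel Γ' Γ o' o := by
  obtain ⟨φ, hφ⟩ := h
  refine ⟨φ.symm, fun i => ?_⟩
  obtain ⟨h1, g, hg, hh⟩ := hφ i
  have h1' : φ.symm '' Γ' i = Γ i := by
    rw [← h1, ← Set.image_comp]; simp
  refine ⟨h1', ?_⟩
  have hmem : ∀ w, φ.symm (o' i w : RP 3) ∈ Γ i := fun w => by
    rw [← h1']; exact ⟨_, (o' i w).2, rfl⟩
  let g' : C(S2, S2) :=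
    ⟨fun w => (o i).symm ⟨φ.symm (o' i w : RP 3), hmem w⟩, by
      refine (o i).symm.continuous.comp (Continuous.subtype_mk ?_ _)
      exact φ.symm.continuous.comp (continuous_subtype_val.comp (o' i).continuous)⟩
  have hg' : ∀ w, (o i (g' w) : RP 3) = φ.symm (o' i w : RP 3) := fun w => by
    simp [g']
  have hcomp : g'.comp g = ContinuousMap.id _ := by
    ext1 w
    have h2 : (o i (g' (g w)) : RP 3) = (o i w : RP 3) := by
      rw [hg', ← hg w]; simp
    exact (o i).injective (Subtype.ext h2)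
  refine ⟨g', fun w => (hg' w).symm, ?_⟩
  have h3 : (g'.comp g).Homotopic (g'.comp (ContinuousMap.id _)) :=
    ContinuousMap.Homotopic.comp (ContinuousMap.Homotopic.refl _) hh
  rw [hcomp] at h3
  exact h3.symm

theorem FRel.trans {κ : Type} {Γ Γ' Γ'' : κ → Set (RP 3)} {o : ∀ k, S2 ≃ₜ Γ k}
    {o' : ∀ k, S2 ≃ₜ Γ' k} {o'' : ∀ k, S2 ≃ₜ Γ'' k}
    (h : FRel Γ Γ' o o') (h' : FRel Γ' Γ'' o' o'') : FRel Γ Γ'' o o'' := by
  obtain ⟨φ, hφ⟩ := h
  obtain ⟨ψ, hψ⟩ := h'
  refine ⟨φ.trans ψ, fun i => ?_⟩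
  obtain ⟨h1, g, hg, hh⟩ := hφ i
  obtain ⟨h1', g', hg', hh'⟩ := hψ i
  refine ⟨?_, g'.comp g, fun w => ?_, ?_⟩
  · rw [← h1', ← h1, ← Set.image_comp]; rfl
  · simp only [Homeomorph.trans_apply, ContinuousMap.comp_apply]
    rw [hg w, hg' (g w)]
  · exact (ContinuousMap.Homotopic.comp hh' hh)

/-! ### transport of the topological relations -/

theorem sameIn_image {X : Type} [TopologicalSpace X] (φ : X ≃ₜ X) {S : Set X} {a b : X} :
    SameIn (φ '' S) (φ a) (φ b) ↔ SameIn S a b := by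
  unfold SameIn
  constructor
  · rintro ⟨h1, h2⟩
    have h1' : a ∈ S := by
      obtain ⟨c, hc, e⟩ := h1
      rwa [← φ.injective e]
    refine ⟨h1', ?_⟩
    rw [← φ.image_connectedComponentIn h1'] at h2
    obtain ⟨c, hc, e⟩ := h2
    rwa [← φ.injective e]
  · rintro ⟨h1, h2⟩
    refine ⟨⟨a, h1, rfl⟩, ?_⟩
    rw [← φ.image_connectedComponentIn h1]
    exact ⟨b, h2, rfl⟩

theorem pairIn_image {X : Type} [TopologicalSpace X] (φ : X ≃ₜ X) {C Γ0 Γx : Set X} {p q : X} :
    PairIn (φ '' C) (φ '' Γ0) (φ '' Γx) (φ p) (φ q) ↔ PairIn C Γ0 Γx p q := by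
  have hm : ∀ (S : Set X) (a : X), φ a ∈ φ '' S ↔ a ∈ S := fun S a =>
    φ.injective.mem_set_image
  constructor
  · rintro ⟨h1, h2, h3, h4, h5, h6⟩
    refine ⟨fun h => h1 (by rw [h]), (hm _ _).1 h2, (hm _ _).1 h3, (hm _ _).1 h4, (hm _ _).1 h5, ?_⟩
    rw [← Set.image_inter φ.injective] at h6
    exact (sameIn_image φ).1 h6
  · rintro ⟨h1, h2, h3, h4, h5, h6⟩
    refine ⟨fun h => h1 (φ.injective h), (hm _ _).2 h2, (hm _ _).2 h3, (hm _ _).2 h4,
      (hm _ _).2 h5, ?_⟩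
    rw [← Set.image_inter φ.injective]
    exact (sameIn_image φ).2 h6

/-! ### the family at fixed `ε` -/

/-- the members with their correctness, certificates and orientations -/
structure Fam where
  mem : Fin 5 → Fin 8 → Mem
  ok : ∀ i a, (mem i a).Ok
  indep : ∀ i a, a ≠ 2 → mem i a = mem 0 a
  cert : ∀ i s, SType i s → SCert (fun k => mem i (s k))
  o : ∀ i a, S2 ≃ₜ (mem i a).set
  ho : ∀ i a w, (o i a w : RP 3) = toRP ((mem i a).x w)

/-- admissible triples for the index `i` -/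
def Adm (i : Fin 5) (t : Fin 3 → Fin 8) : Prop :=
  (∀ k, t k ≠ lc i) ∨ ((∀ k, t k ≠ 0) ∧ ∀ k, t k ≠ 1)

/-- admissible index sets for the index `i` -/
def KAdm (i : Fin 5) (K : Finset (Fin 8)) : Prop := 2 ∉ K ∨ lc i ∉ K ∨ (0 ∉ K ∧ 1 ∉ K)

theorem lc_injective : Function.Injective lc := by
  intro a b h
  have := congrArg Fin.val h
  simp only [lc] at this
  exact Fin.ext (by omega)

theorem lc_ne_two (i : Fin 5) : lc i ≠ 2 := by
  intro h
  have := congrArg Fin.val h
  simp only [lc] at this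
  have h2 : ((2 : Fin 8) : ℕ) = 2 := rfl
  omega

theorem lc_ne_zero (i : Fin 5) : lc i ≠ 0 := by
  intro h
  have := congrArg Fin.val h
  simp only [lc] at this
  have h2 : ((0 : Fin 8) : ℕ) = 0 := rfl
  omega

theorem lc_ne_one (i : Fin 5) : lc i ≠ 1 := by
  intro h
  have := congrArg Fin.val h
  simp only [lc] at this
  have h2 : ((1 : Fin 8) : ℕ) = 1 := rfl
  omega

theorem exists_notMem_of_card {S : Finset (Fin 8)} (h : S.card < 8) : ∃ y, y ∉ S := by
  by_contra hc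
  push Not at hc
  have h1 : (Finset.univ : Finset (Fin 8)) ⊆ S := fun y _ => hc y
  have h2 := Finset.card_le_card h1
  simp at h2
  omega

theorem snoc_inj {t : Fin 3 → Fin 8} (ht : Function.Injective t) {y : Fin 8}
    (hy : ∀ k, t k ≠ y) : Function.Injective (Fin.snoc (α := fun _ => Fin 8) t y) := by
  intro a b h
  induction a using Fin.lastCases with
  | last =>
    induction b using Fin.lastCases with
    | last => rfl
    | cast b => simp only [Fin.snoc_last, Fin.snoc_castSucc] at h; exact absurd h.symm (hy b)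
  | cast a =>
    induction b using Fin.lastCases with
    | last => simp only [Fin.snoc_last, Fin.snoc_castSucc] at h; exact absurd h (hy a)
    | cast b => simp only [Fin.snoc_castSucc] at h; rw [ht h]

theorem ext_triple {i : Fin 5} {t : Fin 3 → Fin 8} (ht : Function.Injective t) (h : Adm i t) :
    ∃ s : Fin 4 → Fin 8, SType i s ∧ ∀ k : Fin 3, s k.castSucc = t k := by
  have key : ∀ y : Fin 8, (∀ k, t k ≠ y) → ((∃ k, t k = 2) ∨ y = 2) →
      ((∀ k, t k ≠ lc i) ∧ y ≠ lc i ∨ ((∀ k, t k ≠ 0) ∧ ∀ k, t k ≠ 1) ∧ y ≠ 0 ∧ y ≠ 1) →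
      ∃ s : Fin 4 → Fin 8, SType i s ∧ ∀ k : Fin 3, s k.castSucc = t k := by
    intro y h1 h2 h3
    refine ⟨Fin.snoc (α := fun _ => Fin 8) t y, ⟨snoc_inj ht h1, ?_, ?_⟩, fun k => by simp⟩
    · rcases h2 with ⟨k, hk⟩ | hy
      · exact ⟨k.castSucc, by simpa using hk⟩
      · exact ⟨Fin.last 3, by rw [Fin.snoc_last]; exact hy⟩
    · rcases h3 with ⟨h3, h4⟩ | ⟨⟨h3, h4⟩, h5, h6⟩
      · left
        intro k
        induction k using Fin.lastCases with
        | last => rw [Fin.snoc_last]; exact h4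
        | cast k => simpa using h3 k
      · right
        constructor
        · intro k
          induction k using Fin.lastCases with
          | last => rw [Fin.snoc_last]; exact h5
          | cast k => simpa using h3 k
        · intro k
          induction k using Fin.lastCases with
          | last => rw [Fin.snoc_last]; exact h6
          | cast k => simpa using h4 k
  by_cases h2 : ∃ k, t k = 2
  · have hcard : (Finset.univ.image t).card ≤ 3 := by
      refine Finset.card_image_le.trans ?_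
      simp
    rcases h with h | h
    · obtain ⟨y, hy⟩ := exists_notMem_of_card (S := Finset.univ.image t ∪ {lc i}) (by
        refine lt_of_le_of_lt (Finset.card_union_le _ _) ?_
        simp only [Finset.card_singleton]; omega)
      simp only [Finset.mem_union, Finset.mem_image, Finset.mem_univ, true_and,
        Finset.mem_singleton, not_or, not_exists] at hy
      exact key y hy.1 (Or.inl h2) (Or.inl ⟨h, hy.2⟩)
    · obtain ⟨y, hy⟩ := exists_notMem_of_card (S := Finset.univ.image t ∪ {0, 1}) (by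
        refine lt_of_le_of_lt (Finset.card_union_le _ _) ?_
        have : ({0, 1} : Finset (Fin 8)).card ≤ 2 := Finset.card_le_two
        omega)
      simp only [Finset.mem_union, Finset.mem_image, Finset.mem_univ, true_and,
        Finset.mem_singleton, Finset.mem_insert, not_or, not_exists] at hy
      exact key y hy.1 (Or.inl h2) (Or.inr ⟨h, hy.2.1, hy.2.2⟩)
  · push Not at h2
    rcases h with h | h
    · exact key 2 h2 (Or.inr rfl) (Or.inl ⟨h, (lc_ne_two i).symm⟩)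
    · exact key 2 h2 (Or.inr rfl) (Or.inr ⟨h, by decide, by decide⟩)

theorem exists_lc_ne (t : Fin 3 → Fin 8) : ∃ j : Fin 5, ∀ k, t k ≠ lc j := by
  by_contra hc
  push Not at hc
  choose f hf using hc
  have hinj : Function.Injective f := by
    intro a b h
    apply lc_injective
    rw [← hf a, ← hf b, h]
  have := Fintype.card_le_of_injective f hinj
  simp at this

theorem exists_KAdm {K : Finset (Fin 8)} (hK : K.card ≤ 6) : ∃ i, KAdm i K := by
  by_cases h : 2 ∈ K ∧ ∀ j, lc j ∈ K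
  · obtain ⟨h2, hall⟩ := h
    refine ⟨0, Or.inr (Or.inr ?_)⟩
    have hT : insert 2 (Finset.univ.image lc) ⊆ K := by
      intro y hy
      rw [Finset.mem_insert, Finset.mem_image] at hy
      rcases hy with rfl | ⟨j, -, rfl⟩
      · exact h2
      · exact hall j
    have hTc : (insert (2 : Fin 8) (Finset.univ.image lc)).card = 6 := by decide
    have hEq : insert 2 (Finset.univ.image lc) = K :=
      Finset.eq_of_subset_of_card_le hT (by rw [hTc]; exact hK)
    rw [← hEq]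
    decide
  · by_cases h2 : 2 ∈ K
    · have h3 : ¬ ∀ j, lc j ∈ K := fun h3 => h ⟨h2, h3⟩
      push Not at h3
      obtain ⟨j, hj⟩ := h3
      exact ⟨j, Or.inr (Or.inl hj)⟩
    · exact ⟨0, Or.inl h2⟩

theorem KAdm.mono {i : Fin 5} {J K : Finset (Fin 8)} (hJK : J ⊆ K) (h : KAdm i K) : KAdm i J := by
  rcases h with h | h | ⟨h1, h2⟩
  · exact Or.inl fun h' => h (hJK h')
  · exact Or.inr (Or.inl fun h' => h (hJK h'))
  · exact Or.inr (Or.inr ⟨fun h' => h1 (hJK h'), fun h' => h2 (hJK h')⟩)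

theorem stype_of {i : Fin 5} {J : Finset (Fin 8)} (h : KAdm i J) (h2 : 2 ∈ J) {s : Fin 4 → Fin 8}
    (hs : Function.Injective s) (hsJ : ∀ k, s k ∈ J) (hs2 : ∃ k, s k = 2) : SType i s := by
  refine ⟨hs, hs2, ?_⟩
  rcases h with h | h | ⟨h0, h1⟩
  · exact absurd h2 h
  · exact Or.inl fun k e => h (e ▸ hsJ k)
  · exact Or.inr ⟨fun k e => h0 (e ▸ hsJ k), fun k e => h1 (e ▸ hsJ k)⟩

section
variable (hMO : Stmt_MO) (hOT : Stmt_OT) (hSEM : Stmt_SEM) (hHYP : Stmt_HYP) (F : Fam)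
include hOT hSEM

theorem fam_std {i : Fin 5} {s : Fin 4 → Fin 8} (h : SType i s) :
    ∃ φ : RP 3 ≃ₜ RP 3, ∀ k, φ '' (F.mem i (s k)).set = hyp 3 k (1 / √6) := by
  obtain ⟨G, hG, hk⟩ := F.cert i s h
  obtain ⟨φ, hφ⟩ := hG.exists_homeo
  refine ⟨φ, fun k => ?_⟩
  rw [← (hSEM k).2]
  exact (hOT _ _ G φ (F.ok i (s k)) (hSEM k).1 hG hφ (hk k)).1

include hMO

theorem fam_rel {i i' : Fin 5} {s : Fin 4 → Fin 8} (h : SType i s) (h' : SType i' s) :
    FRel (fun k => (F.mem i (s k)).set) (fun k => (F.mem i' (s k)).set)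
      (fun k => F.o i (s k)) (fun k => F.o i' (s k)) := by
  have hS : ∀ k, ∃ oS : S2 ≃ₜ (seMem k).set, ∀ w, (oS w : RP 3) = toRP ((seMem k).x w) :=
    fun k => hMO _ (hSEM k).1
  choose oS hoS using hS
  have key : ∀ i, SType i s → FRel (fun k => (F.mem i (s k)).set) (fun k => (seMem k).set)
      (fun k => F.o i (s k)) (fun k => oS k) := by
    intro i h
    obtain ⟨G, hG, hk⟩ := F.cert i s h
    obtain ⟨φ, hφ⟩ := hG.exists_homeo
    refine ⟨φ, fun k => ?_⟩
    obtain ⟨h1, h2⟩ := hOT _ _ G φ (F.ok i (s k)) (hSEM k).1 hG hφ (hk k)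
    exact ⟨h1, h2 _ _ (F.ho i (s k)) (hoS k)⟩
  exact (key i h).trans (key i' h').symm

omit hMO
include hHYP

theorem fam_double (i : Fin 5) (a : Fin 8) : IsDouble (F.mem i a).set := by
  have main : ∀ (i' : Fin 5) (t : Fin 3 → Fin 8) (k : Fin 3), Function.Injective t → Adm i' t →
      t k = a → F.mem i' a = F.mem i a → IsDouble (F.mem i a).set := by
    intro i' t k ht hA hk hm
    obtain ⟨s, hs, hst⟩ := ext_triple ht hA
    obtain ⟨φ, hφ⟩ := fam_std hOT hSEM F hs
    obtain ⟨ψ, hψ⟩ := hHYP k.castSucc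
    have h1 := hφ k.castSucc
    rw [hst k, hk, hm, hψ] at h1
    refine ⟨ψ.trans φ.symm, ?_⟩
    have h2 : (F.mem i a).set = φ.symm '' (ψ '' hyp 3 0 (1 / √2)) := by
      rw [← h1, ← Set.image_comp]; simp
    rw [h2, ← Set.image_comp]; rfl
  by_cases h2 : a = 2
  · subst h2
    exact main i ![2, 0, 1] 0 (by decide) (Or.inl (by
      intro k; fin_cases k
      · exact (lc_ne_two i).symm
      · exact (lc_ne_zero i).symm
      · exact (lc_ne_one i).symm)) rfl rfl
  · obtain ⟨j, hj⟩ : ∃ j : Fin 5, a ≠ lc j := by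
      obtain ⟨j, hj⟩ := exists_lc_ne (fun _ => a)
      exact ⟨j, hj 0⟩
    have hm : F.mem j a = F.mem i a := by rw [F.indep j a h2, F.indep i a h2]
    by_cases h0 : a = 0
    · subst h0
      exact main j ![0, 1, 2] 0 (by decide) (Or.inl (by
        intro k; fin_cases k
        · exact (lc_ne_zero j).symm
        · exact (lc_ne_one j).symm
        · exact (lc_ne_two j).symm)) rfl hm
    · by_cases h1 : a = 1
      · subst h1
        exact main j ![1, 0, 2] 0 (by decide) (Or.inl (by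
          intro k; fin_cases k
          · exact (lc_ne_one j).symm
          · exact (lc_ne_zero j).symm
          · exact (lc_ne_two j).symm)) rfl hm
      · refine main j ![a, 0, 1] 0 ?_ (Or.inl (by
          intro k; fin_cases k
          · exact hj
          · exact (lc_ne_zero j).symm
          · exact (lc_ne_one j).symm)) rfl hm
        intro x y hxy
        fin_cases x <;> fin_cases y <;> simp at hxy ⊢
        · exact h0 hxy
        · exact h1 hxy
        · exact h0 hxy.symm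
        · exact h1 hxy.symm

theorem fam_arr {i : Fin 5} {K : Finset (Fin 8)} (hK : KAdm i K) :
    IsArrangement (fun k : K => (F.mem i k.1).set) := by
  refine ⟨fun k => fam_double hOT hSEM hHYP F i k.1, fun t ht => ?_⟩
  have ht' : Function.Injective (fun k => (t k).1) := fun a b h => ht (Subtype.ext h)
  obtain ⟨i', hA, hm⟩ : ∃ i', Adm i' (fun k => (t k).1) ∧
      ∀ k, F.mem i (t k).1 = F.mem i' (t k).1 := by
    rcases hK with h | h | ⟨h0, h1⟩
    · obtain ⟨j, hj⟩ := exists_lc_ne (fun k => (t k).1)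
      refine ⟨j, Or.inl hj, fun k => ?_⟩
      have hk : (t k).1 ≠ 2 := fun e => h (e ▸ (t k).2)
      rw [F.indep i _ hk, F.indep j _ hk]
    · exact ⟨i, Or.inl fun k e => h (e ▸ (t k).2), fun k => rfl⟩
    · exact ⟨i, Or.inr ⟨fun k e => h0 (e ▸ (t k).2), fun k e => h1 (e ▸ (t k).2)⟩, fun k => rfl⟩
  obtain ⟨s, hs, hst⟩ := ext_triple ht' hA
  obtain ⟨φ, hφ⟩ := fam_std hOT hSEM F hs
  refine ⟨φ.symm, fun k => ?_⟩
  have h1 := hφ k.castSucc
  rw [hst k] at h1
  have hc : (1 / √(2 * ((3 : ℕ) : ℝ))) = 1 / √6 := by norm_num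
  rw [hc, ← h1, ← hm k, ← Set.image_comp]
  simp

/-- the arrangement of the family on `K` -/
def arrK {i : Fin 5} {K : Finset (Fin 8)} (hK : KAdm i K) : OArr 3 K where
  Γ := fun k => (F.mem i k.1).set
  isArr := fam_arr hOT hSEM hHYP F hK
  ori := fun k => F.o i k.1

include hMO

theorem arrK_iso {i i' : Fin 5} {J K : Finset (Fin 8)} (hJK : J ⊆ K) (hJ : J.card = 3 + 1)
    (hi' : KAdm i' J) (hi : KAdm i K) :
    (arrK hOT hSEM hHYP F hi').Iso ((arrK hOT hSEM hHYP F hi).comp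
      (fun j : J => (⟨j.1, hJK j.2⟩ : K))
      (fun _ _ h => Subtype.ext (congrArg (fun z : K => z.1) h))) := by
  by_cases h2 : 2 ∈ J
  · let e : Fin 4 ≃ J := (J.orderIsoOfFin hJ).toEquiv
    let s : Fin 4 → Fin 8 := fun k => (e k).1
    have hs : Function.Injective s := fun a b h => e.injective (Subtype.ext h)
    have hs2 : ∃ k, s k = 2 := ⟨e.symm ⟨2, h2⟩, by simp [s]⟩
    have hst' : SType i' s := stype_of hi' h2 hs (fun k => (e k).2) hs2
    have hst : SType i s := stype_of (hi.mono hJK) h2 hs (fun k => (e k).2) hs2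
    obtain ⟨φ, hφ⟩ := fam_rel hMO hOT hSEM F hst' hst
    refine ⟨φ, fun j => ?_⟩
    obtain ⟨k, rfl⟩ := e.surjective j
    exact hφ k
  · refine ⟨Homeomorph.refl _, fun j => ?_⟩
    have hj : (j.1 : Fin 8) ≠ 2 := fun h => h2 (h ▸ j.2)
    have hm : F.mem i' j.1 = F.mem i j.1 := by rw [F.indep i' _ hj, F.indep i _ hj]
    refine ⟨?_, ContinuousMap.id _, fun w => ?_, ContinuousMap.Homotopic.refl _⟩
    · change (fun x => x) '' (F.mem i' j.1).set = (F.mem i j.1).set
      rw [hm]; simp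
    · change (F.o i' j.1 w : RP 3) = (F.o i j.1 w : RP 3)
      rw [F.ho, F.ho, hm]

/-- the class map -/
noncomputable def chi (_ : Stmt_MO) : ClassMap 3 (Fin 8) := fun J hJ =>
  (arrK hOT hSEM hHYP F (exists_KAdm (K := J) (by omega)).choose_spec).cls

theorem chi_local : LocallyRealizable (chi hOT hSEM hHYP F hMO) := by
  intro K h1 h2
  obtain ⟨i, hi⟩ := exists_KAdm (K := K) (by omega)
  refine ⟨arrK hOT hSEM hHYP F hi, fun J hJK hJ => ?_⟩
  exact Quotient.sound (s := isoSetoid 3 J) (arrK_iso hMO hOT hSEM hHYP F hJK hJ _ hi)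

end

end FINaux

end Pool.Agent.Work.MP_363f1e_co
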