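import Pool.Agent.Work.MP_363f1e_co.FIN

namespace Pool.Agent.Work.MP_363f1e_co

open MOaux

namespace FINaux

/-! ### transport of the topological statements -/

/-- the conclusion of `Stmt_VSE` -/
def VSEp {X : Type} [TopologicalSpace X] (A : Fin 4 → Set X) : Prop :=
  (A 0 ∩ A 1).Nonempty ∧ (A 0 ∩ A 1 ∩ A 2 ∩ A 3 = ∅) ∧
  ∀ P ∈ A 0 ∩ A 1,
    Nonempty (Circle ≃ₜ connectedComponentIn (A 0 ∩ A 1) P) ∧
    (∃ p q, PairIn (connectedComponentIn (A 0 ∩ A 1) P) (A 0) (A 2) p q) ∧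
    (∃ p q, PairIn (connectedComponentIn (A 0 ∩ A 1) P) (A 0) (A 3) p q) ∧
    ∀ p q p' q', PairIn (connectedComponentIn (A 0 ∩ A 1) P) (A 0) (A 2) p q →
      PairIn (connectedComponentIn (A 0 ∩ A 1) P) (A 0) (A 3) p' q' →
      ¬ SameIn (connectedComponentIn (A 0 ∩ A 1) P \ {p, q}) p' q'

/-- crossing statement: any two pairs of `a` and `b` on the circle cross -/
def CrossP {X : Type} [TopologicalSpace X] (A0 A1 Aj Ak : Set X) : Prop :=
  ∀ P ∈ A0 ∩ A1, ∀ p q p' q', PairIn (connectedComponentIn (A0 ∩ A1) P) A0 Aj p q →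
      PairIn (connectedComponentIn (A0 ∩ A1) P) A0 Ak p' q' →
      ¬ SameIn (connectedComponentIn (A0 ∩ A1) P \ {p, q}) p' q'

/-- non crossing statement -/
def NCrossP {X : Type} [TopologicalSpace X] (A0 A1 Aj Ak : Set X) : Prop :=
  ∀ P ∈ A0 ∩ A1, ∀ p q p' q', PairIn (connectedComponentIn (A0 ∩ A1) P) A0 Aj p q →
      PairIn (connectedComponentIn (A0 ∩ A1) P) A0 Ak p' q' →
      SameIn (connectedComponentIn (A0 ∩ A1) P \ {p, q}) p' q'

section transport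
variable {X : Type} [TopologicalSpace X] (φ : X ≃ₜ X)

theorem cc_image {S : Set X} {P : X} (hP : P ∈ S) :
    connectedComponentIn (φ '' S) (φ P) = φ '' connectedComponentIn S P :=
  (φ.image_connectedComponentIn hP).symm

theorem diff_image (C : Set X) (p q : X) : φ '' C \ {φ p, φ q} = φ '' (C \ {p, q}) := by
  rw [Set.image_diff φ.injective, Set.image_pair]

theorem cross_image {A0 A1 Aj Ak : Set X} (h : CrossP A0 A1 Aj Ak) :
    CrossP (φ '' A0) (φ '' A1) (φ '' Aj) (φ '' Ak) := by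
  intro P' hP' p q p' q'
  obtain ⟨P, rfl⟩ := φ.surjective P'
  obtain ⟨p, rfl⟩ := φ.surjective p
  obtain ⟨q, rfl⟩ := φ.surjective q
  obtain ⟨p', rfl⟩ := φ.surjective p'
  obtain ⟨q', rfl⟩ := φ.surjective q'
  rw [← Set.image_inter φ.injective] at hP' ⊢
  have hP : P ∈ A0 ∩ A1 := φ.injective.mem_set_image.1 hP'
  rw [cc_image φ hP, diff_image, pairIn_image, pairIn_image, sameIn_image]
  exact h P hP p q p' q'

theorem ncross_image {A0 A1 Aj Ak : Set X} (h : NCrossP A0 A1 Aj Ak) :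
    NCrossP (φ '' A0) (φ '' A1) (φ '' Aj) (φ '' Ak) := by
  intro P' hP' p q p' q'
  obtain ⟨P, rfl⟩ := φ.surjective P'
  obtain ⟨p, rfl⟩ := φ.surjective p
  obtain ⟨q, rfl⟩ := φ.surjective q
  obtain ⟨p', rfl⟩ := φ.surjective p'
  obtain ⟨q', rfl⟩ := φ.surjective q'
  rw [← Set.image_inter φ.injective] at hP' ⊢
  have hP : P ∈ A0 ∩ A1 := φ.injective.mem_set_image.1 hP'
  rw [cc_image φ hP, diff_image, pairIn_image, pairIn_image, sameIn_image]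
  exact h P hP p q p' q'

theorem inter4_image {A0 A1 Aj Ak : Set X} (h : A0 ∩ A1 ∩ Aj ∩ Ak = ∅) :
    φ '' A0 ∩ φ '' A1 ∩ φ '' Aj ∩ φ '' Ak = ∅ := by
  rw [← Set.image_inter φ.injective, ← Set.image_inter φ.injective, ← Set.image_inter φ.injective,
    h, Set.image_empty]

theorem vse_image {A B : Fin 4 → Set X} (h : VSEp A) (hB : ∀ k, φ '' A k = B k) : VSEp B := by
  have hB' : B = fun k => φ '' A k := funext fun k => (hB k).symm
  subst hB'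
  obtain ⟨h1, h2, h3⟩ := h
  refine ⟨?_, inter4_image φ h2, ?_⟩
  · show (φ '' A 0 ∩ φ '' A 1).Nonempty
    rw [← Set.image_inter φ.injective]
    exact h1.image _
  · intro P' hP'
    change P' ∈ φ '' A 0 ∩ φ '' A 1 at hP'
    obtain ⟨P, rfl⟩ := φ.surjective P'
    rw [← Set.image_inter φ.injective] at hP'
    have hP : P ∈ A 0 ∩ A 1 := φ.injective.mem_set_image.1 hP'
    obtain ⟨⟨e⟩, ⟨p, q, h4⟩, ⟨p', q', h5⟩, h6⟩ := h3 P hP
    have hC : connectedComponentIn (φ '' A 0 ∩ φ '' A 1) (φ P) =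
        φ '' connectedComponentIn (A 0 ∩ A 1) P := by
      rw [← Set.image_inter φ.injective, cc_image φ hP]
    refine ⟨⟨?_⟩, ⟨φ p, φ q, ?_⟩, ⟨φ p', φ q', ?_⟩, ?_⟩
    · show Circle ≃ₜ connectedComponentIn (φ '' A 0 ∩ φ '' A 1) (φ P)
      rw [hC]
      exact e.trans (φ.image _)
    · show PairIn (connectedComponentIn (φ '' A 0 ∩ φ '' A 1) (φ P)) (φ '' A 0) (φ '' A 2) _ _
      rw [hC, pairIn_image]
      exact h4
    · show PairIn (connectedComponentIn (φ '' A 0 ∩ φ '' A 1) (φ P)) (φ '' A 0) (φ '' A 3) _ _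
      rw [hC, pairIn_image]
      exact h5
    · exact cross_image φ (A0 := A 0) (A1 := A 1) (Aj := A 2) (Ak := A 3)
        (fun P hP => (h3 P hP).2.2.2) (φ P) (by
          rw [← Set.image_inter φ.injective]; exact hP')

end transport

/-! ### non-realizability -/

theorem nonreal (hVC : Stmt_VC) (G : Fin 8 → Set (RP 3))
    (hV : ∀ j : Fin 5, VSEp ![G 0, G 1, G 2, G (lc j)])
    (hE : ∀ j k : Fin 5, j ≠ k → G 0 ∩ G 1 ∩ G (lc j) ∩ G (lc k) = ∅)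
    (hX : ∀ j : Fin 5, CrossP (G 0) (G 1) (G (lc j)) (G (lc (j + 2))))
    (hN : ∀ j : Fin 5, NCrossP (G 0) (G 1) (G (lc j)) (G (lc (j + 1)))) : False := by
  obtain ⟨⟨P, hP⟩, -, -⟩ := hV 0
  change P ∈ G 0 ∩ G 1 at hP
  have hC0 : ∀ j : Fin 5, Nonempty (Circle ≃ₜ connectedComponentIn (G 0 ∩ G 1) P) ∧
      (∃ p q, PairIn (connectedComponentIn (G 0 ∩ G 1) P) (G 0) (G 2) p q) ∧
      (∃ p q, PairIn (connectedComponentIn (G 0 ∩ G 1) P) (G 0) (G (lc j)) p q) ∧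
      ∀ p q p' q', PairIn (connectedComponentIn (G 0 ∩ G 1) P) (G 0) (G 2) p q →
        PairIn (connectedComponentIn (G 0 ∩ G 1) P) (G 0) (G (lc j)) p' q' →
        ¬ SameIn (connectedComponentIn (G 0 ∩ G 1) P \ {p, q}) p' q' :=
    fun j => (hV j).2.2 P hP
  have hE0 : ∀ j : Fin 5, G 0 ∩ G 1 ∩ G 2 ∩ G (lc j) = ∅ := fun j => (hV j).2.1
  set C := connectedComponentIn (G 0 ∩ G 1) P with hCdef
  have hCsub : C ⊆ G 0 ∩ G 1 := connectedComponentIn_subset _ _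
  obtain ⟨⟨e⟩, ⟨p₀, q₀, h0⟩, -, -⟩ := hC0 0
  have hpq : ∀ j : Fin 5, ∃ p q, PairIn C (G 0) (G (lc j)) p q := fun j => (hC0 j).2.2.1
  choose p q hpq using hpq
  have hdis : ∀ (S T : Set (RP 3)), G 0 ∩ G 1 ∩ S ∩ T = ∅ → ∀ x y, x ∈ C → x ∈ S → y ∈ T →
      x ≠ y := by
    intro S T hST x y hx hxS hyT hxy
    subst hxy
    have : x ∈ G 0 ∩ G 1 ∩ S ∩ T := ⟨⟨hCsub hx, hxS⟩, hyT⟩
    rw [hST] at this
    exact this
  refine hVC (RP 3) C e p₀ q₀ p q h0.pC h0.qC h0.ne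
    (fun j => ⟨(hpq j).pC, (hpq j).qC, (hpq j).ne⟩) (fun j => ⟨?_, ?_, ?_, ?_⟩)
    (fun j k hjk => ⟨?_, ?_, ?_⟩) (fun j => ?_) (fun j => ?_) (fun j => ?_)
  · exact (hdis _ _ (hE0 j) _ _ h0.pC h0.px (hpq j).px).symm
  · exact (hdis _ _ (hE0 j) _ _ h0.qC h0.qx (hpq j).px).symm
  · exact (hdis _ _ (hE0 j) _ _ h0.pC h0.px (hpq j).qx).symm
  · exact (hdis _ _ (hE0 j) _ _ h0.qC h0.qx (hpq j).qx).symm
  · exact hdis _ _ (hE j k hjk) _ _ (hpq j).pC (hpq j).px (hpq k).px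
  · exact hdis _ _ (hE j k hjk) _ _ (hpq j).pC (hpq j).px (hpq k).qx
  · exact hdis _ _ (hE j k hjk) _ _ (hpq j).qC (hpq j).qx (hpq k).qx
  · exact (hC0 j).2.2.2 _ _ _ _ h0 (hpq j)
  · exact hX j P hP _ _ _ _ (hpq j) (hpq (j + 2))
  · exact hN j P hP _ _ _ _ (hpq j) (hpq (j + 1))

section
variable (hMO : Stmt_MO) (hOT : Stmt_OT) (hSEM : Stmt_SEM) (hHYP : Stmt_HYP) (F : Fam)

theorem chi_not (hVSE : Stmt_VSE) (hVC : Stmt_VC)
    (hE : ∀ j k : Fin 5, j ≠ k → (F.mem 0 0).set ∩ (F.mem 0 1).set ∩ (F.mem 0 (lc j)).set ∩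
      (F.mem 0 (lc k)).set = ∅)
    (hX : ∀ j : Fin 5, CrossP (F.mem 0 0).set (F.mem 0 1).set (F.mem 0 (lc j)).set
      (F.mem 0 (lc (j + 2))).set)
    (hN : ∀ j : Fin 5, NCrossP (F.mem 0 0).set (F.mem 0 1).set (F.mem 0 (lc j)).set
      (F.mem 0 (lc (j + 1))).set) : ¬ IsChirotope (chi hOT hSEM hHYP F hMO) := by
  rintro ⟨A, hA⟩
  let G : Fin 8 → Set (RP 3) := fun a => A.Γ ⟨a, Finset.mem_univ a⟩
  have T1 : ∀ J : Finset (Fin 8), J.card = 4 → ∃ i, KAdm i J ∧ ∃ φ : RP 3 ≃ₜ RP 3,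
      ∀ a ∈ J, φ '' (F.mem i a).set = G a := by
    intro J hJ
    have h1 := hA J (Finset.subset_univ J) hJ
    obtain ⟨φ, hφ⟩ := Quotient.exact (s := isoSetoid 3 J) h1
    refine ⟨_, (exists_KAdm (K := J) (by omega)).choose_spec, φ, fun a ha => ?_⟩
    exact (hφ ⟨a, ha⟩).1
  have T3 : ∀ j k : Fin 5, j ≠ k → ∃ φ : RP 3 ≃ₜ RP 3, φ '' (F.mem 0 0).set = G 0 ∧
      φ '' (F.mem 0 1).set = G 1 ∧ φ '' (F.mem 0 (lc j)).set = G (lc j) ∧
      φ '' (F.mem 0 (lc k)).set = G (lc k) := by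
    intro j k hjk
    have hcard : ({0, 1, lc j, lc k} : Finset (Fin 8)).card = 4 := by
      revert j k; decide
    obtain ⟨i, -, φ, hφ⟩ := T1 _ hcard
    have h : ∀ a ∈ ({0, 1, lc j, lc k} : Finset (Fin 8)), a ≠ 2 → φ '' (F.mem 0 a).set = G a := by
      intro a ha h2
      rw [← hφ a ha, F.indep i a h2]
    exact ⟨φ, h 0 (by simp) (by decide), h 1 (by simp) (by decide),
      h _ (by simp) (lc_ne_two j), h _ (by simp) (lc_ne_two k)⟩
  refine nonreal hVC G ?_ ?_ ?_ ?_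
  · intro j
    have hcard : ({0, 1, 2, lc j} : Finset (Fin 8)).card = 4 := by
      revert j; decide
    have hs : Function.Injective (![0, 1, 2, lc j] : Fin 4 → Fin 8) := by
      clear hcard
      revert j; decide
    obtain ⟨i, hi, φ, hφ⟩ := T1 _ hcard
    have hsJ : ∀ k, (![0, 1, 2, lc j] : Fin 4 → Fin 8) k ∈ ({0, 1, 2, lc j} : Finset (Fin 8)) := by
      intro k; fin_cases k <;> simp
    have hS : SType i ![0, 1, 2, lc j] :=
      stype_of hi (by simp) hs hsJ ⟨2, rfl⟩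
    obtain ⟨ψ, hψ⟩ := fam_std hOT hSEM F hS
    have hA0 : VSEp (fun k : Fin 4 => hyp 3 k (1 / √6)) := hVSE _ fun k => rfl
    refine vse_image (ψ.symm.trans φ) hA0 (fun k => ?_)
    have h1 : (ψ.symm.trans φ) '' hyp 3 k (1 / √6) =
        φ '' (F.mem i ((![0, 1, 2, lc j] : Fin 4 → Fin 8) k)).set := by
      rw [← hψ k, ← Set.image_comp]
      congr 1
      · ext x; simp
    rw [h1, hφ _ (hsJ k)]
    fin_cases k <;> rfl
  · intro j k hjk
    obtain ⟨φ, h0, h1, h2, h3⟩ := T3 j k hjk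
    rw [← h0, ← h1, ← h2, ← h3]
    exact inter4_image φ (hE j k hjk)
  · intro j
    obtain ⟨φ, h0, h1, h2, h3⟩ := T3 j (j + 2) (by revert j; decide)
    rw [← h0, ← h1, ← h2, ← h3]
    exact cross_image φ (hX j)
  · intro j
    obtain ⟨φ, h0, h1, h2, h3⟩ := T3 j (j + 1) (by revert j; decide)
    rw [← h0, ← h1, ← h2, ← h3]
    exact ncross_image φ (hN j)

end

/-! ### choice of the parameters -/

theorem plW_indep (i : Fin 5) {a : Fin 8} (ha : a ≠ 2) : plW i a = plW 0 a := by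
  fin_cases a <;> first | rfl | exact absurd rfl ha

theorem exists_fam (hMO : Stmt_MO) (hTHIN : Stmt_THIN) (hFAT : Stmt_FAT) (hSLT : Stmt_SLT)
    (hSLF : Stmt_SLF) (hPLW : Stmt_PLW) (hNUM1 : Stmt_NUM1) (hNUM2 : Stmt_NUM2) (hVW : Stmt_VW) :
    ∃ F : Fam,
      (∀ j k : Fin 5, j ≠ k → (F.mem 0 0).set ∩ (F.mem 0 1).set ∩ (F.mem 0 (lc j)).set ∩
        (F.mem 0 (lc k)).set = ∅) ∧
      (∀ j : Fin 5, CrossP (F.mem 0 0).set (F.mem 0 1).set (F.mem 0 (lc j)).set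
        (F.mem 0 (lc (j + 2))).set) ∧
      (∀ j : Fin 5, NCrossP (F.mem 0 0).set (F.mem 0 1).set (F.mem 0 (lc j)).set
        (F.mem 0 (lc (j + 1))).set) := by
  -- the constants
  have h1 : ∀ a : Fin 5 × Fin 8, ∃ C : ℝ, Ev (fun ε => ∃ τ : S2 → ℝ,
      (thinMem (plW a.1 a.2) ε τ).Ok ∧ ∀ w, 0 < τ w ∧ τ w ≤ C * ε) := by
    intro a
    obtain ⟨C, ε₀, h0, h⟩ := hTHIN _ (hPLW a.1 a.2)
    exact ⟨C, ε₀, h0, h⟩
  choose Cf hCf using h1
  obtain ⟨C, hC⟩ : ∃ C : ℝ, ∀ a, Cf a ≤ C := by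
    obtain ⟨a, ha⟩ := Finite.exists_max Cf
    exact ⟨Cf a, ha⟩
  have e1 : Ev (fun ε => ∀ a : Fin 5 × Fin 8, ∃ τ : S2 → ℝ,
      (thinMem (plW a.1 a.2) ε τ).Ok ∧ ∀ w, 0 < τ w ∧ τ w ≤ C * ε) := by
    refine Ev.all fun a => (hCf a).imp ?_
    rintro ε hε ⟨τ, h2, h3⟩
    exact ⟨τ, h2, fun w => ⟨(h3 w).1, (h3 w).2.trans
      (mul_le_mul_of_nonneg_right (hC a) hε.le)⟩⟩
  have e2 : Ev (fun ε => ∀ (x : Fin 5 × (Fin 4 → Fin 8)), SType x.1 x.2 → (∀ k, x.2 k ≠ 0) →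
      ∀ τ : Fin 4 → S2 → ℝ, (∀ k, (thinMem (plW x.1 (x.2 k)) ε (τ k)).Ok) →
        (∀ k w, 0 < τ k w ∧ τ k w ≤ C * ε) →
        SCert (fun k => thinMem (plW x.1 (x.2 k)) ε (τ k))) := by
    refine Ev.all fun x => ?_
    by_cases hx : SType x.1 x.2 ∧ ∀ k, x.2 k ≠ 0
    · obtain ⟨ε₀, h0, h⟩ := hSLT (fun k => plW x.1 (x.2 k)) C (fun k => hPLW _ _)
        (hNUM1 x.1 x.2 hx.1 hx.2)
      exact ⟨ε₀, h0, fun ε h2 h3 _ _ => h ε h2 h3⟩
    · exact ⟨1, one_pos, fun ε _ _ h2 h3 => absurd ⟨h2, h3⟩ hx⟩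
  have e3 : Ev (fun ε => ∀ (x : Fin 5 × (Fin 4 → Fin 8) × Fin 4), SType x.1 x.2.1 →
      x.2.1 x.2.2 = 0 → ∀ τ : Fin 4 → S2 → ℝ,
        (∀ k, k ≠ x.2.2 → (thinMem (plW x.1 (x.2.1 k)) ε (τ k)).Ok) →
        (∀ k, k ≠ x.2.2 → ∀ w, 0 < τ k w ∧ τ k w ≤ C * ε) →
        SCert (fun k => if k = x.2.2 then fatMem else thinMem (plW x.1 (x.2.1 k)) ε (τ k))) := by
    refine Ev.all fun x => ?_
    by_cases hx : SType x.1 x.2.1 ∧ x.2.1 x.2.2 = 0
    · obtain ⟨hd, v, hv1, hv2, hv3⟩ := hNUM2 x.1 x.2.1 x.2.2 hx.1 hx.2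
      obtain ⟨ε₀, h0, h⟩ := hSLF (fun k => plW x.1 (x.2.1 k)) x.2.2 C v (fun k _ => hPLW _ _)
        hd hv1 hv2 hv3
      exact ⟨ε₀, h0, fun ε h2 h3 _ _ => h ε h2 h3⟩
    · exact ⟨1, one_pos, fun ε _ _ h2 h3 => absurd ⟨h2, h3⟩ hx⟩
  obtain ⟨ε, hε, ⟨⟨hτ, hT⟩, hFt⟩, hW⟩ := (((e1.and e2).and e3).and hVW).exists
  choose τ₀ hτ₀ using hτ
  let τ : Fin 5 → Fin 8 → S2 → ℝ := fun i a => if a = 2 then τ₀ (i, a) else τ₀ (0, a)
  have hok : ∀ i a, (thinMem (plW i a) ε (τ i a)).Ok ∧ ∀ w, 0 < τ i a w ∧ τ i a w ≤ C * ε := by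
    intro i a
    by_cases ha : a = 2
    · have : τ i a = τ₀ (i, a) := if_pos ha
      rw [this]; exact hτ₀ (i, a)
    · have : τ i a = τ₀ (0, a) := if_neg ha
      rw [this, plW_indep i ha]; exact hτ₀ (0, a)
  have hmok : ∀ i a, (memW ε τ i a).Ok := by
    intro i a
    unfold memW
    split_ifs with h
    · exact hFAT
    · exact (hok i a).1
  have ho : ∀ i a, ∃ o : S2 ≃ₜ (memW ε τ i a).set, ∀ w, (o w : RP 3) = toRP ((memW ε τ i a).x w) :=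
    fun i a => hMO _ (hmok i a)
  choose o ho using ho
  let F : Fam :=
    { mem := memW ε τ
      ok := hmok
      indep := by
        intro i a ha
        have : τ i a = τ 0 a := by
          show (if a = 2 then τ₀ (i, a) else τ₀ (0, a)) = (if a = 2 then τ₀ (0, a) else τ₀ (0, a))
          rw [if_neg ha, if_neg ha]
        unfold memW
        rw [plW_indep i ha, this]
      cert := by
        intro i s hs
        by_cases h0 : ∃ k₀, s k₀ = 0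
        · obtain ⟨k₀, hk₀⟩ := h0
          have h2 := hFt (i, s, k₀) hs hk₀ (fun k => τ i (s k)) (fun k _ => (hok i (s k)).1)
            (fun k _ => (hok i (s k)).2)
          convert h2 using 2 with k
          by_cases hk : k = k₀
          · rw [if_pos hk, hk, hk₀]; rfl
          · have h3 : s k ≠ 0 := fun h => hk (hs.1 (h.trans hk₀.symm))
            rw [if_neg hk]
            exact if_neg h3
        · push Not at h0
          have h2 := hT (i, s) hs h0 (fun k => τ i (s k)) (fun k => (hok i (s k)).1)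
            (fun k => (hok i (s k)).2)
          convert h2 using 2 with k
          exact if_neg (h0 k)
      o := o
      ho := ho }
  have hB0 : (F.mem 0 0).set = cone (fun y => |y 3| = nu y) := rfl
  have hBa : ∀ a : Fin 8, a ≠ 0 → (F.mem 0 a).set =
      cone (fun y => |(plW 0 a).f y| = ε * nn y) := by
    intro a ha
    have : F.mem 0 a = thinMem (plW 0 a) ε (τ 0 a) := if_neg ha
    rw [this]
    rfl
  obtain ⟨hE, hXN⟩ := hW (fun a => (F.mem 0 a).set) hB0 hBa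
  exact ⟨F, hE, fun j P hP => (hXN P hP j).1, fun j P hP => (hXN P hP j).2⟩

end FINaux

open FINaux

/-- the theorem modulo the blocks -/
theorem main (hMO : Stmt_MO) (hOT : Stmt_OT) (hSEM : Stmt_SEM) (hHYP : Stmt_HYP)
    (hTHIN : Stmt_THIN) (hFAT : Stmt_FAT) (hSLT : Stmt_SLT)
    (hSLF : Stmt_SLF) (hPLW : Stmt_PLW) (hNUM1 : Stmt_NUM1) (hNUM2 : Stmt_NUM2)
    (hVSE : Stmt_VSE) (hVW : Stmt_VW) (hVC : Stmt_VC) :
    ∃ χ : ClassMap 3 (Fin 8), LocallyRealizable χ ∧ ¬ IsChirotope χ := by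
  obtain ⟨F, hE, hX, hN⟩ := exists_fam hMO hTHIN hFAT hSLT hSLF hPLW hNUM1 hNUM2 hVW
  exact ⟨chi hOT hSEM hHYP F hMO, chi_local hMO hOT hSEM hHYP F,
    chi_not hMO hOT hSEM hHYP F hVSE hVC hE hX hN⟩

end Pool.Agent.Work.MP_363f1e_co
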