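import Pool.Agent.Work.MP_363f1e_co.Interface

/-!
Block `GL3`: linear maps of positive determinant are homotopic to the identity.
-/

set_option autoImplicit false

namespace Pool.Agent.Work.MP_363f1e_co

namespace GL3aux

open Matrix

/-- matrices joined to the identity through matrices of positive determinant -/
def J (M : Matrix (Fin 3) (Fin 3) ℝ) : Prop :=
  ∃ γ : ℝ → Matrix (Fin 3) (Fin 3) ℝ, Continuous γ ∧ γ 0 = 1 ∧ γ 1 = M ∧
    ∀ t ∈ Set.Icc (0 : ℝ) 1, 0 < (γ t).det

theorem J.mul {A B : Matrix (Fin 3) (Fin 3) ℝ} (hA : J A) (hB : J B) : J (A * B) := by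
  obtain ⟨γ, hc, h0, h1, hd⟩ := hA
  obtain ⟨δ, hc', h0', h1', hd'⟩ := hB
  refine ⟨fun t => γ t * δ t, hc.matrix_mul hc', ?_, ?_, fun t ht => ?_⟩
  · show γ 0 * δ 0 = 1
    rw [h0, h0', one_mul]
  · show γ 1 * δ 1 = A * B
    rw [h1, h1']
  · show 0 < (γ t * δ t).det
    rw [det_mul]
    exact mul_pos (hd t ht) (hd' t ht)

/-- the reflection -/
def r : Matrix (Fin 3) (Fin 3) ℝ := diagonal ![-1, 1, 1]

theorem r_mul_r : r * r = 1 := by
  unfold r
  rw [diagonal_mul_diagonal, ← diagonal_one]
  apply congrArg
  funext i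
  fin_cases i <;> simp

theorem det_r : r.det = -1 := by
  unfold r
  rw [det_diagonal, Fin.prod_univ_three]
  simp

theorem J.conj {A : Matrix (Fin 3) (Fin 3) ℝ} (hA : J A) : J (r * A * r) := by
  obtain ⟨γ, hc, h0, h1, hd⟩ := hA
  refine ⟨fun t => r * γ t * r, (continuous_const.matrix_mul hc).matrix_mul continuous_const,
    ?_, ?_, fun t ht => ?_⟩
  · show r * γ 0 * r = 1
    rw [h0, mul_one, r_mul_r]
  · show r * γ 1 * r = r * A * r
    rw [h1]
  · show 0 < (r * γ t * r).det
    rw [det_mul, det_mul, det_r]
    have := hd t ht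
    linarith

theorem J_one : J 1 :=
  ⟨fun _ => 1, continuous_const, rfl, rfl, fun t _ => by simp⟩

theorem J_transv {i j : Fin 3} (h : i ≠ j) (c : ℝ) : J (transvection i j c) := by
  refine ⟨fun t => transvection i j (t * c), ?_, ?_, ?_, fun t _ => ?_⟩
  · have : (fun t : ℝ => transvection i j (t * c)) =
        fun t : ℝ => 1 + (t * c) • (single i j (1 : ℝ)) := by
      funext t
      unfold transvection
      rw [smul_single, smul_eq_mul, mul_one]
    rw [this]
    exact continuous_const.add ((continuous_id.mul continuous_const).smul continuous_const)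
  · show transvection i j (0 * c) = 1
    rw [zero_mul]
    exact transvection_zero i j
  · show transvection i j (1 * c) = transvection i j c
    rw [one_mul]
  · show 0 < (transvection i j (t * c)).det
    rw [det_transvection_of_ne i j h]
    exact one_pos

theorem J_diag_pos (D : Fin 3 → ℝ) (hD : ∀ i, 0 < D i) : J (diagonal D) := by
  refine ⟨fun t => diagonal (fun i => (1 - t) + t * D i), ?_, ?_, ?_, fun t ht => ?_⟩
  · refine Continuous.matrix_diagonal ?_
    refine continuous_pi fun i => ?_
    exact (continuous_const.sub continuous_id).add (continuous_id.mul continuous_const)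
  · show diagonal (fun i => ((1 : ℝ) - 0) + 0 * D i) = 1
    rw [← diagonal_one]
    apply congrArg
    funext i
    simp
  · show diagonal (fun i => ((1 : ℝ) - 1) + 1 * D i) = diagonal D
    apply congrArg
    funext i
    ring
  · show 0 < (diagonal (fun i => (1 - t) + t * D i)).det
    rw [det_diagonal]
    refine Finset.prod_pos fun i _ => ?_
    rcases eq_or_lt_of_le ht.1 with h | h
    · rw [← h]; simp
    · have h1 : 0 ≤ 1 - t := by linarith [ht.2]
      have h2 := mul_pos h (hD i)
      linarith

/-- entries of a half turn path -/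
theorem J_half01 : J (diagonal ![-1, -1, 1]) := by
  refine ⟨fun t => !![Real.cos (Real.pi * t), -Real.sin (Real.pi * t), 0;
    Real.sin (Real.pi * t), Real.cos (Real.pi * t), 0; 0, 0, 1], ?_, ?_, ?_, fun t _ => ?_⟩
  · refine continuous_matrix fun i j => ?_
    have h1 : Continuous fun t : ℝ => Real.cos (Real.pi * t) :=
      Real.continuous_cos.comp (continuous_const.mul continuous_id)
    have h2 : Continuous fun t : ℝ => Real.sin (Real.pi * t) :=
      Real.continuous_sin.comp (continuous_const.mul continuous_id)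
    fin_cases i <;> fin_cases j
    · exact h1
    · exact h2.neg
    · exact continuous_const
    · exact h2
    · exact h1
    · exact continuous_const
    · exact continuous_const
    · exact continuous_const
    · exact continuous_const
  · ext i j
    fin_cases i <;> fin_cases j <;> simp
  · ext i j
    fin_cases i <;> fin_cases j <;> simp
  · rw [det_fin_three]
    simp
    nlinarith [Real.sin_sq_add_cos_sq (Real.pi * t)]

theorem J_half02 : J (diagonal ![-1, 1, -1]) := by
  refine ⟨fun t => !![Real.cos (Real.pi * t), 0, -Real.sin (Real.pi * t); 0, 1, 0;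
    Real.sin (Real.pi * t), 0, Real.cos (Real.pi * t)], ?_, ?_, ?_, fun t _ => ?_⟩
  · refine continuous_matrix fun i j => ?_
    have h1 : Continuous fun t : ℝ => Real.cos (Real.pi * t) :=
      Real.continuous_cos.comp (continuous_const.mul continuous_id)
    have h2 : Continuous fun t : ℝ => Real.sin (Real.pi * t) :=
      Real.continuous_sin.comp (continuous_const.mul continuous_id)
    fin_cases i <;> fin_cases j
    · exact h1
    · exact continuous_const
    · exact h2.neg
    · exact continuous_const
    · exact continuous_const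
    · exact continuous_const
    · exact h2
    · exact continuous_const
    · exact h1
  · ext i j
    fin_cases i <;> fin_cases j <;> simp
  · ext i j
    fin_cases i <;> fin_cases j <;> simp
  · rw [det_fin_three]
    simp
    nlinarith [Real.sin_sq_add_cos_sq (Real.pi * t)]

theorem J_half12 : J (diagonal ![1, -1, -1]) := by
  have h := J_half01.mul J_half02
  rw [diagonal_mul_diagonal] at h
  have e : (fun i => (![-1, -1, 1] : Fin 3 → ℝ) i * (![-1, 1, -1] : Fin 3 → ℝ) i) =
      ![1, -1, -1] := by
    funext i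
    fin_cases i <;> simp
  rw [e] at h
  exact h

theorem J_diag_fac (D s : Fin 3 → ℝ) (hs : J (diagonal s)) (h1 : ∀ i, s i * s i = 1)
    (h : ∀ i, 0 < s i * D i) : J (diagonal D) := by
  have e : diagonal D = diagonal s * diagonal (fun i => s i * D i) := by
    rw [diagonal_mul_diagonal]
    apply congrArg
    funext k
    rw [← mul_assoc, h1, one_mul]
  rw [e]
  exact hs.mul (J_diag_pos _ h)

theorem J_diag (D : Fin 3 → ℝ) (hD : 0 < (diagonal D).det) : J (diagonal D) := by
  rw [det_diagonal, Fin.prod_univ_three] at hD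
  have n0 : D 0 ≠ 0 := by intro h; rw [h] at hD; simp at hD
  have n1 : D 1 ≠ 0 := by intro h; rw [h] at hD; simp at hD
  have n2 : D 2 ≠ 0 := by intro h; rw [h] at hD; simp at hD
  rcases lt_or_gt_of_ne n0 with h0 | h0 <;> rcases lt_or_gt_of_ne n1 with h1 | h1 <;>
    rcases lt_or_gt_of_ne n2 with h2 | h2
  · exact absurd hD (not_lt.2 (mul_neg_of_pos_of_neg (mul_pos_of_neg_of_neg h0 h1) h2).le)
  · refine J_diag_fac D _ J_half01 (fun i => ?_) fun i => ?_
    · fin_cases i <;> simp
    · fin_cases i <;> simp <;> assumption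
  · refine J_diag_fac D _ J_half02 (fun i => ?_) fun i => ?_
    · fin_cases i <;> simp
    · fin_cases i <;> simp <;> assumption
  · exact absurd hD (not_lt.2 (mul_neg_of_neg_of_pos (mul_neg_of_neg_of_pos h0 h1) h2).le)
  · refine J_diag_fac D _ J_half12 (fun i => ?_) fun i => ?_
    · fin_cases i <;> simp
    · fin_cases i <;> simp <;> assumption
  · exact absurd hD (not_lt.2 (mul_neg_of_neg_of_pos (mul_neg_of_pos_of_neg h0 h1) h2).le)
  · exact absurd hD (not_lt.2 (mul_neg_of_pos_of_neg (mul_pos h0 h1) h2).le)
  · refine J_diag_pos D fun k => ?_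
    fin_cases k
    · exact h0
    · exact h1
    · exact h2

theorem J_all (M : Matrix (Fin 3) (Fin 3) ℝ) (hM : M.det ≠ 0) :
    (0 < M.det → J M) ∧ (M.det < 0 → J (r * M)) := by
  refine diagonal_transvection_induction_of_det_ne_zero
    (fun M => (0 < M.det → J M) ∧ (M.det < 0 → J (r * M))) M hM ?_ ?_ ?_
  · intro D _
    refine ⟨J_diag D, fun h => ?_⟩
    have e : r * diagonal D = diagonal (fun i => (![-1, 1, 1] : Fin 3 → ℝ) i * D i) := by
      unfold r
      rw [diagonal_mul_diagonal]
    have h2 : (r * diagonal D).det = -(diagonal D).det := by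
      rw [det_mul, det_r]; ring
    rw [e] at h2 ⊢
    exact J_diag _ (by rw [h2]; linarith)
  · intro t
    refine ⟨fun _ => J_transv t.hij t.c, fun h => ?_⟩
    rw [TransvectionStruct.det] at h
    linarith
  · intro A B hA hB hJA hJB
    have hr : ∀ X : Matrix (Fin 3) (Fin 3) ℝ, r * (r * X) = X := fun X => by
      rw [← mul_assoc, r_mul_r, one_mul]
    rcases lt_or_gt_of_ne hA with a | a <;> rcases lt_or_gt_of_ne hB with b | b
    · refine ⟨fun _ => ?_, fun h => ?_⟩
      · have h1 := (hJA.2 a).conj.mul (hJB.2 b)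
        have e : r * (r * A) * r * (r * B) = A * B := by
          rw [hr, mul_assoc A r, hr]
        rw [e] at h1
        exact h1
      · rw [det_mul] at h
        exact absurd h (not_lt.2 (mul_pos_of_neg_of_neg a b).le)
    · refine ⟨fun h => ?_, fun _ => ?_⟩
      · rw [det_mul] at h
        exact absurd h (not_lt.2 (mul_neg_of_neg_of_pos a b).le)
      · have h1 := (hJA.2 a).mul (hJB.1 b)
        rw [mul_assoc] at h1
        exact h1
    · refine ⟨fun h => ?_, fun _ => ?_⟩
      · rw [det_mul] at h
        exact absurd h (not_lt.2 (mul_neg_of_pos_of_neg a b).le)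
      · have h1 := (hJA.1 a).conj.mul (hJB.2 b)
        have e : r * A * r * (r * B) = r * (A * B) := by
          rw [mul_assoc (r * A) r, hr, mul_assoc]
        rw [e] at h1
        exact h1
    · refine ⟨fun _ => (hJA.1 a).mul (hJB.1 b), fun h => ?_⟩
      rw [det_mul] at h
      exact absurd h (not_lt.2 (mul_pos a b).le)

theorem cv_ne (w : S2) : cv w ≠ 0 := by
  intro h
  have h1 : ‖(w : EuclideanSpace ℝ (Fin 3))‖ = 1 := mem_sphere_zero_iff_norm.1 w.2
  have h2 : (w : EuclideanSpace ℝ (Fin 3)) = 0 := by
    ext i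
    exact congrFun h i
  rw [h2, norm_zero] at h1
  exact zero_ne_one h1

theorem cv_cont : Continuous cv :=
  (PiLp.continuous_ofLp 2 _).comp continuous_subtype_val

end GL3aux

open GL3aux in
theorem blk_GL3 : Stmt_GL3 := by
  intro B hB
  obtain ⟨γ, hc, h0, h1, hd⟩ := (J_all B hB.ne').1 hB
  refine ⟨fun p => (γ (p.1 : ℝ)).mulVec (cv p.2), ?_, ?_, ?_, ?_⟩
  · exact (hc.comp (continuous_subtype_val.comp continuous_fst)).matrix_mulVec
      (cv_cont.comp continuous_snd)
  · intro p h
    have hne : (γ (p.1 : ℝ)).det ≠ 0 := (hd _ p.1.2).ne'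
    exact cv_ne p.2 (Matrix.eq_zero_of_mulVec_eq_zero hne h)
  · intro w
    show (γ ((0 : unitInterval) : ℝ)).mulVec (cv w) = cv w
    rw [Set.Icc.coe_zero, h0, Matrix.one_mulVec]
  · intro w
    show (γ ((1 : unitInterval) : ℝ)).mulVec (cv w) = B.mulVec (cv w)
    rw [Set.Icc.coe_one, h1]

end Pool.Agent.Work.MP_363f1e_co
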