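import Pool.Agent.Work.MP_363f1e_co.Interface

/-!
Block HYP: a hypersurface `{|y_k| = |y| / √6}` is a double pseudohyperplane.
-/

namespace Pool.Agent.Work.MP_363f1e_co

namespace HYPaux

/-- scaling factor of the coordinate `i` -/
noncomputable def sc (k i : Fin 4) : ℝ := if i = k then 1 / √5 else 1

theorem sc_pos (k i : Fin 4) : 0 < sc k i := by
  unfold sc
  split_ifs <;> positivity

/-- swap the coordinates `0` and `k`, then scale coordinate `k` -/
noncomputable def fn (k : Fin 4) (x : V) : V := fun i => sc k i * x (Equiv.swap 0 k i)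

theorem fn_good (k : Fin 4) : Good (fn k) := by
  refine ⟨?_, ?_, ?_, ?_⟩
  · unfold fn
    fun_prop
  · intro c x
    ext i
    simp only [fn, Pi.smul_apply, smul_eq_mul]
    ring
  · intro x y hxy
    ext i
    have h := congrFun hxy (Equiv.swap 0 k i)
    simp only [fn, Equiv.swap_apply_self] at h
    exact mul_left_cancel₀ (sc_pos k _).ne' h
  · intro y
    refine ⟨fun j => (sc k (Equiv.swap 0 k j))⁻¹ * y (Equiv.swap 0 k j), ?_⟩
    ext i
    simp only [fn, Equiv.swap_apply_self]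
    rw [← mul_assoc, mul_inv_cancel₀ (sc_pos k i).ne', one_mul]

theorem abs_eq_iff {a e c : ℝ} (he : 0 ≤ e) (hc : 0 ≤ c) : |a| = c * e ↔ a ^ 2 = c ^ 2 * e ^ 2 := by
  rw [← mul_pow, sq_eq_sq_iff_abs_eq_abs, abs_of_nonneg (mul_nonneg hc he)]

theorem fn_iff (k : Fin 4) (x : V) : |x 0| = 1 / √2 * eu x ↔ |fn k x k| = 1 / √6 * eu (fn k x) := by
  rw [abs_eq_iff (eu_nonneg _) (by positivity), abs_eq_iff (eu_nonneg _) (by positivity), eu_sq,
    eu_sq, div_pow, div_pow, Real.sq_sqrt (by norm_num), Real.sq_sqrt (by norm_num)]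
  have h5 : (1 / √5) ^ 2 = (1 : ℝ) / 5 := by
    rw [div_pow, Real.sq_sqrt (by norm_num)]; norm_num
  have h1 : ∑ i, x i ^ 2 = x 0 ^ 2 + ∑ i ∈ Finset.univ.erase (0 : Fin 4), x i ^ 2 :=
    (Finset.add_sum_erase _ _ (Finset.mem_univ _)).symm
  have h2 : ∑ i, fn k x i ^ 2 = 1 / 5 * x 0 ^ 2 + ∑ i ∈ Finset.univ.erase (0 : Fin 4), x i ^ 2 := by
    have e1 : ∀ i, fn k x i ^ 2 = x (Equiv.swap 0 k i) ^ 2 - (if i = k then 4 / 5 * x 0 ^ 2 else 0) := by
      intro i
      by_cases hi : i = k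
      · subst hi
        simp only [fn, sc, if_true, Equiv.swap_apply_right, mul_pow, h5]
        ring
      · simp only [fn, sc, if_neg hi, one_mul, sub_zero]
    have e2 : ∑ i, x (Equiv.swap 0 k i) ^ 2 = ∑ i, x i ^ 2 :=
      Equiv.sum_comp (Equiv.swap 0 k) (fun i => x i ^ 2)
    simp only [e1, Finset.sum_sub_distrib, e2, Finset.sum_ite_eq', Finset.mem_univ, if_true]
    rw [h1]
    ring
  have h3 : fn k x k ^ 2 = 1 / 5 * x 0 ^ 2 := by
    simp only [fn, sc, if_true, Equiv.swap_apply_right, mul_pow, h5]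
  rw [h2, h3, h1]
  constructor <;> intro h <;> linarith

end HYPaux

open HYPaux in
theorem blk_HYP : Stmt_HYP := by
  intro k
  obtain ⟨φ, hφ⟩ := (fn_good k).exists_homeo
  refine ⟨φ, ?_⟩
  rw [hyp_eq_cone, hyp_eq_cone]
  symm
  exact image_cone (fn_good k) hφ (fun x _ => fn_iff k x)

end Pool.Agent.Work.MP_363f1e_co
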