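import Pool.Agent.Work.MP_363f1e_co.Interface

/-!
Block LL: normal form with sup norm walls.
-/

namespace Pool.Agent.Work.MP_363f1e_co

namespace LLaux

open Filter Topology

/-- one sided hat -/
noncomputable def kp (s r : ℝ) : ℝ := max 0 (min (4 * s) (2 * r - 4 * s))

/-- odd hat -/
noncomputable def kk (s r : ℝ) : ℝ := kp s r - kp (-s) r

theorem kp_nonpos {s r : ℝ} (hs : s ≤ 0) : kp s r = 0 := by
  unfold kp
  exact max_eq_left (le_trans (min_le_left _ _) (by linarith))

theorem kp_nonneg (s r : ℝ) : 0 ≤ kp s r := le_max_left _ _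

theorem kp_small {s r : ℝ} (hs : 0 ≤ s) (h : s ≤ r / 4) : kp s r = 4 * s := by
  unfold kp
  rw [min_eq_left (by linarith), max_eq_right (by linarith)]

theorem kp_mid {s r : ℝ} (h1 : r / 4 ≤ s) (h2 : s ≤ r / 2) : kp s r = 2 * r - 4 * s := by
  unfold kp
  rw [min_eq_right (by linarith), max_eq_right (by linarith)]

theorem kp_big {s r : ℝ} (h2 : r / 2 ≤ s) : kp s r = 0 := by
  unfold kp
  exact max_eq_left (le_trans (min_le_right _ _) (by linarith))

theorem kp_le {s r : ℝ} (hr : 0 ≤ r) : kp s r ≤ r := by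
  unfold kp
  refine max_le hr ?_
  rcases le_total (4 * s) r with h | h
  · exact (min_le_left _ _).trans h
  · exact (min_le_right _ _).trans (by linarith)

theorem kk_neg (s r : ℝ) : kk (-s) r = -kk s r := by
  unfold kk; rw [neg_neg]; ring

theorem kk_nonneg {s : ℝ} (r : ℝ) (hs : 0 ≤ s) : kk s r = kp s r := by
  unfold kk; rw [kp_nonpos (s := -s) (by linarith), sub_zero]

theorem kk_le {s r : ℝ} (hr : 0 ≤ r) : |kk s r| ≤ r := by
  rcases le_total 0 s with h | h
  · rw [kk_nonneg r h, abs_of_nonneg (kp_nonneg _ _)]; exact kp_le hr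
  · have e : kk s r = -kk (-s) r := by rw [← kk_neg, neg_neg]
    rw [e, abs_neg, kk_nonneg r (by linarith : 0 ≤ -s), abs_of_nonneg (kp_nonneg _ _)]
    exact kp_le hr

theorem kk_big {s r : ℝ} (hr : 0 ≤ r) (h : r / 2 ≤ |s|) : kk s r = 0 := by
  rcases le_total 0 s with h' | h'
  · rw [abs_of_nonneg h'] at h
    rw [kk_nonneg r h', kp_big h]
  · rw [abs_of_nonpos h'] at h
    have e : kk s r = -kk (-s) r := by rw [← kk_neg, neg_neg]
    rw [e, kk_nonneg r (by linarith : 0 ≤ -s), kp_big h, neg_zero]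

theorem kk_cont : Continuous fun p : ℝ × ℝ => kk p.1 p.2 := by
  unfold kk kp
  fun_prop

theorem kp_scale {c : ℝ} (hc : 0 ≤ c) (s r : ℝ) : kp (c * s) (c * r) = c * kp s r := by
  unfold kp
  rw [mul_max_of_nonneg _ _ hc, mul_min_of_nonneg _ _ hc]
  congr 1
  · ring
  · congr 1 <;> ring

theorem kk_scale (c s r : ℝ) : kk (c * s) (|c| * r) = c * kk s r := by
  rcases le_total 0 c with h | h
  · rw [abs_of_nonneg h]
    unfold kk
    rw [← mul_neg, kp_scale h, kp_scale h]; ring
  · rw [abs_of_nonpos h]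
    have e : c * s = -((-c) * s) := by ring
    rw [e, kk_neg]
    unfold kk
    rw [← mul_neg, kp_scale (by linarith), kp_scale (by linarith)]; ring

/-- the conditions on one coordinate -/
structure Cx (s n r : ℝ) : Prop where
  hr : 0 < r
  hn : 0 ≤ n
  pos : s = 0 → 0 < n
  small : |s| ≤ r / 2 → n < r / 2
  big : r / 2 < |s| → n < |s|

/-- the relation for one coordinate -/
def Rl (s t n r : ℝ) : Prop := r * (s - t) = (n - r / 4) * kk t r

theorem Cx.neg {s n r : ℝ} (h : Cx s n r) : Cx (-s) n r :=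
  ⟨h.hr, h.hn, fun e => h.pos (by linarith), fun e => h.small (by rwa [abs_neg] at e),
    fun e => by rw [abs_neg] at e ⊢; exact h.big e⟩

theorem Rl.neg {s t n r : ℝ} (h : Rl s t n r) : Rl (-s) (-t) n r := by
  unfold Rl at h ⊢; rw [kk_neg]; linarith

/-- the equation in the first zone -/
theorem Rl.small {s t n r : ℝ} (h : Rl s t n r) (h0 : 0 ≤ t) (h1 : t ≤ r / 4) :
    r * s = 4 * n * t := by
  unfold Rl at h; rw [kk_nonneg r h0, kp_small h0 h1] at h; linarith

/-- the equation in the second zone -/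
theorem Rl.mid {s t n r : ℝ} (h : Rl s t n r) (h0 : 0 ≤ t) (h1 : r / 4 ≤ t) (h2 : t ≤ r / 2) :
    r * s = n * (2 * r - 4 * t) + (2 * t - r / 2) * r := by
  unfold Rl at h; rw [kk_nonneg r h0, kp_mid h1 h2] at h; linarith

/-- the equation in the third zone -/
theorem Rl.big {s t n r : ℝ} (h : Rl s t n r) (hr : 0 < r) (h2 : r / 2 ≤ |t|) : s = t := by
  unfold Rl at h; rw [kk_big hr.le h2, mul_zero] at h
  rcases mul_eq_zero.1 h with h | h
  · exact absurd h hr.ne'
  · linarith

/-- bound without conditions -/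
theorem Rl.le_max {s t n r : ℝ} (h : Rl s t n r) (hr : 0 < r) (hn : 0 ≤ n) (h0 : 0 ≤ t)
    (h2 : t < r / 2) : 0 ≤ s ∧ s ≤ max n (r / 2) := by
  have hm1 : n ≤ max n (r / 2) := le_max_left _ _
  have hm2 : r / 2 ≤ max n (r / 2) := le_max_right _ _
  rcases le_total t (r / 4) with h1 | h1
  · have e := h.small h0 h1
    constructor
    · by_contra hc; push Not at hc
      have : r * s < 0 := mul_neg_of_pos_of_neg hr hc
      have : 0 ≤ 4 * n * t := by positivity
      linarith
    · by_contra hc; push Not at hc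
      have h3 : r * max n (r / 2) < r * s := mul_lt_mul_of_pos_left hc hr
      have h4 : n * (4 * t) ≤ n * r := mul_le_mul_of_nonneg_left (by linarith) hn
      have h5 : r * n ≤ r * max n (r / 2) := mul_le_mul_of_nonneg_left hm1 hr.le
      linarith
  · have e := h.mid h0 h1 h2.le
    constructor
    · by_contra hc; push Not at hc
      have h3 : r * s < 0 := mul_neg_of_pos_of_neg hr hc
      have h4 : 0 ≤ n * (2 * r - 4 * t) := mul_nonneg hn (by linarith)
      have h5 : 0 ≤ (2 * t - r / 2) * r := mul_nonneg (by linarith) hr.le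
      linarith
    · by_contra hc; push Not at hc
      have h3 : r * max n (r / 2) < r * s := mul_lt_mul_of_pos_left hc hr
      have h4 : n * (2 * r - 4 * t) ≤ max n (r / 2) * (2 * r - 4 * t) :=
        mul_le_mul_of_nonneg_right hm1 (by linarith)
      have h5 : (4 * t - r) * (r / 2) ≤ (4 * t - r) * max n (r / 2) :=
        mul_le_mul_of_nonneg_left hm2 (by linarith)
      nlinarith

theorem Rl.abs_le_max {s t n r : ℝ} (h : Rl s t n r) (hr : 0 < r) (hn : 0 ≤ n)
    (h2 : |t| < r / 2) : |s| ≤ max n (r / 2) := by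
  rcases le_total 0 t with h0 | h0
  · rw [abs_of_nonneg h0] at h2
    have := h.le_max hr hn h0 h2
    rw [abs_of_nonneg this.1]; exact this.2
  · rw [abs_of_nonpos h0] at h2
    have := h.neg.le_max hr hn (by linarith) h2
    rw [← abs_neg, abs_of_nonneg this.1]; exact this.2

/-- small `t` means small `s` and small `n` -/
theorem Rl.lt {s t n r : ℝ} (h : Rl s t n r) (c : Cx s n r) (h2 : |t| < r / 2) :
    n < r / 2 ∧ |s| < r / 2 := by
  have hr := c.hr
  have h3 := h.abs_le_max hr c.hn h2
  have hn2 : n < r / 2 := by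
    by_contra hc; push Not at hc
    rw [max_eq_left hc] at h3
    have h4 : r / 2 < |s| := by
      by_contra hd; push Not at hd
      have := c.small hd
      linarith
    have := c.big h4
    linarith
  refine ⟨hn2, ?_⟩
  have key : ∀ s' t' : ℝ, Rl s' t' n r → 0 ≤ t' → t' < r / 2 → s' < r / 2 := by
    intro s' t' h h0 h2
    rcases le_total t' (r / 4) with h1 | h1
    · have e := h.small h0 h1
      by_contra hc; push Not at hc
      have h4 : n * (4 * t') ≤ n * r := mul_le_mul_of_nonneg_left (by linarith) c.hn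
      have h5 : r * (r / 2) ≤ r * s' := mul_le_mul_of_nonneg_left hc hr.le
      have h6 : r * n < r * (r / 2) := mul_lt_mul_of_pos_left hn2 hr
      linarith
    · have e := h.mid h0 h1 h2.le
      by_contra hc; push Not at hc
      have h4 : n * (2 * r - 4 * t') < r / 2 * (2 * r - 4 * t') :=
        mul_lt_mul_of_pos_right hn2 (by linarith)
      have h5 : r * (r / 2) ≤ r * s' := mul_le_mul_of_nonneg_left hc hr.le
      nlinarith
  rcases le_total 0 t with h0 | h0
  · rw [abs_of_nonneg h0] at h2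
    have h5 := key s t h h0 h2
    have h6 := (h.le_max hr c.hn h0 h2).1
    rw [abs_of_nonneg h6]; exact h5
  · rw [abs_of_nonpos h0] at h2
    have h5 := key (-s) (-t) h.neg (by linarith) h2
    have h6 := (h.neg.le_max hr c.hn (by linarith) h2).1
    rw [← abs_neg, abs_of_nonneg h6]; exact h5

/-- positive `t` gives positive `s` -/
theorem Rl.pos {s t n r : ℝ} (h : Rl s t n r) (c : Cx s n r) (h0 : 0 < t) : 0 < s := by
  rcases lt_or_ge t (r / 2) with h2 | h2
  · have h6 := (h.le_max c.hr c.hn h0.le h2).1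
    rcases h6.eq_or_lt with h7 | h7
    · have hn := c.pos h7.symm
      exfalso
      rcases le_total t (r / 4) with h1 | h1
      · have e := h.small h0.le h1
        rw [← h7] at e
        have : 0 < 4 * n * t := by positivity
        linarith
      · have e := h.mid h0.le h1 h2.le
        rw [← h7] at e
        have h4 : 0 < n * (2 * r - 4 * t) := mul_pos hn (by linarith)
        have h5 : 0 ≤ (2 * t - r / 2) * r := mul_nonneg (by linarith) c.hr.le
        linarith
    · exact h7
  · have := h.big c.hr (by rw [abs_of_pos h0]; exact h2)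
    rw [this]; exact h0

theorem Rl.zero {s t n r : ℝ} (h : Rl s t n r) (c : Cx s n r) (h0 : t = 0) : s = 0 := by
  have hr := c.hr
  have e := h.small h0.ge (by rw [h0]; linarith)
  rw [h0, mul_zero] at e
  rcases mul_eq_zero.1 e with h | h
  · exact absurd h hr.ne'
  · exact h

theorem Rl.neg' {s t n r : ℝ} (h : Rl s t n r) (c : Cx s n r) (h0 : t < 0) : s < 0 := by
  have := h.neg.pos c.neg (by linarith)
  linarith

theorem Rl.t_pos {s t n r : ℝ} (h : Rl s t n r) (c : Cx s n r) (h0 : 0 < s) : 0 < t := by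
  rcases lt_trichotomy t 0 with h1 | h1 | h1
  · have := h.neg' c h1; linarith
  · have := h.zero c h1; linarith
  · exact h1

theorem Rl.t_zero {s t n r : ℝ} (h : Rl s t n r) (c : Cx s n r) (h0 : s = 0) : t = 0 := by
  rcases lt_trichotomy t 0 with h1 | h1 | h1
  · have := h.neg' c h1; linarith
  · exact h1
  · have := h.pos c h1; linarith

theorem Rl.inj_pos {s t t' n r : ℝ} (h : Rl s t n r) (h' : Rl s t' n r) (c : Cx s n r)
    (hs : 0 < s) (htt : t < t') : False := by
  have hr := c.hr
  have ht := h.t_pos c hs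
  have ht' := h'.t_pos c hs
  rcases lt_or_ge t' (r / 2) with h2 | h2
  · obtain ⟨hn, -⟩ := h'.lt c (by rw [abs_of_pos ht']; exact h2)
    have hrs : 0 < r * s := mul_pos hr hs
    rcases le_total t (r / 4) with h1 | h1
    · have e := h.small ht.le h1
      have hn0 : 0 < n := by
        rcases c.hn.eq_or_lt with h3 | h3
        · rw [← h3] at e; linarith
        · exact h3
      rcases le_total t' (r / 4) with h1' | h1'
      · have e' := h'.small ht'.le h1'
        have : 4 * n * t < 4 * n * t' := mul_lt_mul_of_pos_left htt (by linarith)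
        linarith
      · have e' := h'.mid ht'.le h1' h2.le
        -- r s = 4 n t ≤ n r and r s = n (2r - 4t') + (2t' - r/2) r
        have h3 : n * (4 * t) ≤ n * r := mul_le_mul_of_nonneg_left (by linarith) c.hn
        have h4 : 0 ≤ (4 * t' - r) * (r / 2 - n) := mul_nonneg (by linarith) (by linarith)
        have h5 : n * r = n * (2 * r - 4 * t') + (2 * t' - r / 2) * r -
          (4 * t' - r) * (r / 2 - n) := by ring
        have h6 : (4 * t' - r) * (r / 2 - n) = 0 := by linarith
        have h7 : n * (4 * t) = n * r := by linarith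
        have h8 : 4 * t = r := mul_left_cancel₀ hn0.ne' h7
        rcases mul_eq_zero.1 h6 with h9 | h9 <;> linarith
    · have e := h.mid ht.le h1 (by linarith)
      have e' := h'.mid ht'.le (by linarith) h2.le
      have h6 : 0 < (t' - t) * (r / 2 - n) := mul_pos (by linarith) (by linarith)
      nlinarith
  · have e' := h'.big hr (by rw [abs_of_pos ht']; exact h2)
    rcases lt_or_ge t (r / 2) with h3 | h3
    · obtain ⟨-, h4⟩ := h.lt c (by rw [abs_of_pos ht]; exact h3)
      rw [abs_of_pos hs] at h4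
      linarith
    · have e := h.big hr (by rw [abs_of_pos ht]; exact h3)
      linarith

theorem Rl.inj {s t t' n r : ℝ} (h : Rl s t n r) (h' : Rl s t' n r) (c : Cx s n r) : t = t' := by
  rcases lt_trichotomy s 0 with hs | hs | hs
  · rcases lt_trichotomy t t' with h1 | h1 | h1
    · exact (Rl.inj_pos h'.neg h.neg c.neg (by linarith) (by linarith)).elim
    · exact h1
    · exact (Rl.inj_pos h.neg h'.neg c.neg (by linarith) (by linarith)).elim
  · rw [h.t_zero c hs, h'.t_zero c hs]
  · rcases lt_trichotomy t t' with h1 | h1 | h1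
    · exact (Rl.inj_pos h h' c hs h1).elim
    · exact h1
    · exact (Rl.inj_pos h' h c hs h1).elim

theorem Rl.wall_pos {s t n r : ℝ} (h : Rl s t n r) (c : Cx s n r) (hs : 0 < s) :
    s = n ↔ t = r / 4 := by
  have hr := c.hr
  have ht := h.t_pos c hs
  constructor
  · intro e
    rcases lt_or_ge t (r / 2) with h2 | h2
    · obtain ⟨hn, -⟩ := h.lt c (by rw [abs_of_pos ht]; exact h2)
      rcases le_total t (r / 4) with h1 | h1
      · have e' := h.small ht.le h1
        rw [e] at e' hs
        have : n * r = n * (4 * t) := by linarith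
        have := mul_left_cancel₀ hs.ne' this
        linarith
      · have e' := h.mid ht.le h1 h2.le
        rw [e] at e'
        have h6 : (4 * t - r) * (r / 2 - n) = 0 := by linarith
        rcases mul_eq_zero.1 h6 with h9 | h9 <;> linarith
    · have e' := h.big hr (by rw [abs_of_pos ht]; exact h2)
      exfalso
      rcases lt_or_ge (r / 2) |s| with h3 | h3
      · have := c.big h3
        rw [abs_of_pos hs] at this; linarith
      · have := c.small h3
        linarith
  · intro e
    have e' := h.small ht.le e.le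
    rw [e] at e'
    have : r * s = r * n := by linarith
    exact mul_left_cancel₀ hr.ne' this

theorem Rl.wall {s t n r : ℝ} (h : Rl s t n r) (c : Cx s n r) : |s| = n ↔ |t| = r / 4 := by
  have hr := c.hr
  rcases lt_trichotomy s 0 with hs | hs | hs
  · have ht : 0 < -t := h.neg.t_pos c.neg (by linarith)
    rw [abs_of_neg hs, abs_of_neg (by linarith : t < 0)]
    exact h.neg.wall_pos c.neg (by linarith)
  · have ht := h.t_zero c hs
    have := c.pos hs
    rw [hs, ht, abs_zero]
    constructor
    · intro e; linarith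
    · intro e; linarith
  · rw [abs_of_pos hs, abs_of_pos (h.t_pos c hs)]
    exact h.wall_pos c hs

/-- existence for one coordinate -/
theorem exists_t (s n : ℝ) {r : ℝ} (hr : 0 < r) :
    ∃ t, Rl s t n r ∧ (r / 2 ≤ |s| → t = s) ∧ (|s| < r / 2 → |t| ≤ r / 2) := by
  rcases lt_or_ge |s| (r / 2) with h | h
  · let f : ℝ → ℝ := fun t => r * t + (n - r / 4) * kk t r
    have hf : Continuous f := by
      have : Continuous fun t : ℝ => kk t r :=
        kk_cont.comp (continuous_id.prodMk continuous_const)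
      fun_prop
    have h1 : f (-(r / 2)) = -(r * (r / 2)) := by
      simp only [f]
      rw [kk_big hr.le (by rw [abs_neg, abs_of_pos (by linarith)])]; ring
    have h2 : f (r / 2) = r * (r / 2) := by
      simp only [f]
      rw [kk_big hr.le (by rw [abs_of_pos (by linarith)])]; ring
    have h3 : r * s ∈ Set.Icc (f (-(r / 2))) (f (r / 2)) := by
      rw [h1, h2]
      obtain ⟨ha, hb⟩ := abs_lt.1 h
      constructor
      · nlinarith
      · nlinarith
    obtain ⟨t, ht, hft⟩ := intermediate_value_Icc (by linarith : -(r / 2) ≤ r / 2)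
      hf.continuousOn h3
    refine ⟨t, ?_, fun h' => absurd h' (not_le.2 h), fun _ => abs_le.2 ⟨ht.1, ht.2⟩⟩
    unfold Rl
    simp only [f] at hft
    linarith
  · refine ⟨s, ?_, fun _ => rfl, fun h' => absurd h' (not_lt.2 h)⟩
    unfold Rl
    rw [kk_big hr.le h]; ring

section main

variable {T : Fin 4 → V → ℝ} {L : ℝ}

theorem T_zero (hT : TOk T L) (i : Fin 4) : T i 0 = 0 := by
  have := hT.hom i 0 0
  simpa using this

theorem exists_max {x : V} (hx : x ≠ 0) : ∃ k, |x k| = ‖x‖ := by
  by_contra h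
  push Not at h
  have h1 : ∀ k, |x k| < ‖x‖ := fun k => lt_of_le_of_ne (norm_le_pi_norm x k) (h k)
  have h2 : ‖x‖ < ‖x‖ := (pi_norm_lt_iff (norm_pos_iff.2 hx)).2 h1
  exact lt_irrefl _ h2

/-- on the large coordinates the thickness is smaller than the coordinate -/
theorem T_big (hT : TOk T L) (i : Fin 4) {x : V} (hi : ‖x‖ / 2 < |x i|) : T i x < |x i| := by
  have hx : x ≠ 0 := by
    rintro rfl
    simp at hi
  have hn := norm_pos_iff.2 hx
  have hle : |x i| ≤ ‖x‖ := norm_le_pi_norm x i
  have hL1 := hT.lt_one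
  rcases hle.eq_or_lt with h | h
  · have h1 := hT.lip i x 0
    rw [T_zero hT, sub_zero, sub_zero, abs_of_nonneg (hT.nonneg i x)] at h1
    rw [h]
    have : L * ‖x‖ < 1 * ‖x‖ := mul_lt_mul_of_pos_right hL1 hn
    linarith
  · obtain ⟨k, hk⟩ := exists_max hx
    have hki : k ≠ i := by rintro rfl; exact h.ne hk
    have hxi : 0 < |x i| := by linarith
    let c : ℝ := ‖x‖ / 2 / |x i|
    have hc0 : 0 < c := by positivity
    have hc1 : c < 1 := (div_lt_one hxi).2 hi
    let x' : V := Function.update x i (c * x i)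
    have hx'i : x' i = c * x i := by simp [x']
    have hx'j : ∀ j, j ≠ i → x' j = x j := fun j hj => by simp [x', hj]
    have habs : |x' i| = ‖x‖ / 2 := by
      rw [hx'i, abs_mul, abs_of_pos hc0]
      simp only [c]
      field_simp
    have hn' : ‖x'‖ = ‖x‖ := by
      apply le_antisymm
      · refine (pi_norm_le_iff_of_nonneg hn.le).2 fun j => ?_
        by_cases hj : j = i
        · subst hj
          rw [Real.norm_eq_abs, habs]; linarith
        · rw [hx'j j hj]; exact norm_le_pi_norm x j
      · rw [← hk, ← hx'j k hki]; exact norm_le_pi_norm x' k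
    have hx'0 : x' ≠ 0 := by
      intro h0
      rw [h0, norm_zero] at hn'
      linarith
    have h1 := hT.small i x' hx'0 (by rw [habs, hn']; linarith)
    rw [hn'] at h1
    have h2 : ‖x - x'‖ ≤ |x i| - ‖x‖ / 2 := by
      refine (pi_norm_le_iff_of_nonneg (by linarith)).2 fun j => ?_
      by_cases hj : j = i
      · subst hj
        rw [Pi.sub_apply, hx'i, Real.norm_eq_abs]
        have e : x j - c * x j = (1 - c) * x j := by ring
        rw [e, abs_mul, abs_of_pos (by linarith : 0 < 1 - c)]
        have e2 : c * |x j| = ‖x‖ / 2 := by simp only [c]; field_simp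
        linarith
      · rw [Pi.sub_apply, hx'j j hj, sub_self, norm_zero]; linarith
    have h3 := (abs_le.1 (hT.lip i x x')).2
    have h4 : L * ‖x - x'‖ ≤ 1 * ‖x - x'‖ := mul_le_mul_of_nonneg_right hL1.le (norm_nonneg _)
    linarith

theorem cx (hT : TOk T L) {x : V} (hx : x ≠ 0) (i : Fin 4) : Cx (x i) (T i x) ‖x‖ where
  hr := norm_pos_iff.2 hx
  hn := hT.nonneg i x
  pos := hT.pos i x hx
  small := fun h => by
    have := hT.small i x hx (by linarith)
    linarith
  big := T_big hT i

/-- the relation between `x` and `F x` -/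
def Rel (T : Fin 4 → V → ℝ) (x y : V) : Prop :=
  ‖x‖ = ‖y‖ ∧ ∀ i, Rl (x i) (y i) (T i x) ‖y‖

theorem Rel.zero (T : Fin 4 → V → ℝ) : Rel T 0 0 := by
  refine ⟨rfl, fun i => ?_⟩
  unfold Rl
  have : kk 0 0 = 0 := by simp [kk]
  simp [this]

theorem exists_y (_hT : TOk T L) (x : V) : ∃ y, Rel T x y := by
  by_cases hx : x = 0
  · subst hx; exact ⟨0, Rel.zero T⟩
  have hr := norm_pos_iff.2 hx
  choose y hy using fun i => exists_t (x i) (T i x) hr
  have hn : ‖y‖ = ‖x‖ := by
    apply le_antisymm
    · refine (pi_norm_le_iff_of_nonneg hr.le).2 fun i => ?_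
      rw [Real.norm_eq_abs]
      rcases lt_or_ge |x i| (‖x‖ / 2) with h | h
      · have := (hy i).2.2 h; linarith
      · rw [(hy i).2.1 h]; exact norm_le_pi_norm x i
    · obtain ⟨k, hk⟩ := exists_max hx
      have := (hy k).2.1 (by rw [hk]; linarith)
      rw [← hk, ← this]; exact norm_le_pi_norm y k
  exact ⟨y, hn.symm, fun i => by rw [hn]; exact (hy i).1⟩

theorem Rel.unique (hT : TOk T L) {x y y' : V} (h : Rel T x y) (h' : Rel T x y') : y = y' := by
  by_cases hx : x = 0
  · subst hx
    have h1 := h.1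
    have h2 := h'.1
    rw [norm_zero] at h1 h2
    rw [norm_eq_zero.1 h1.symm, norm_eq_zero.1 h2.symm]
  · ext i
    have h1 := h.2 i
    have h2 := h'.2 i
    rw [← h.1] at h1
    rw [← h'.1] at h2
    exact h1.inj h2 (cx hT hx i)

theorem Rel.unique' (hT : TOk T L) {x x' y : V} (h : Rel T x y) (h' : Rel T x' y) : x = x' := by
  by_cases hy : y = 0
  · subst hy
    have h1 := h.1
    have h2 := h'.1
    rw [norm_zero] at h1 h2
    rw [norm_eq_zero.1 h1, norm_eq_zero.1 h2]
  · have hr := norm_pos_iff.2 hy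
    have key : ∀ i, ‖(x - x') i‖ ≤ L * ‖x - x'‖ := by
      intro i
      have h1 := h.2 i
      have h2 := h'.2 i
      unfold Rl at h1 h2
      have e : ‖y‖ * (x i - x' i) = (T i x - T i x') * kk (y i) ‖y‖ := by linarith
      have e2 : ‖y‖ * |x i - x' i| = |T i x - T i x'| * |kk (y i) ‖y‖| := by
        rw [← abs_mul, ← e, abs_mul, abs_of_pos hr]
      have h3 : |T i x - T i x'| * |kk (y i) ‖y‖| ≤ (L * ‖x - x'‖) * ‖y‖ :=
        mul_le_mul (hT.lip i x x') (kk_le hr.le) (abs_nonneg _)
          ((abs_nonneg _).trans (hT.lip i x x'))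
      rw [Pi.sub_apply, Real.norm_eq_abs]
      rw [← e2, mul_comm] at h3
      exact le_of_mul_le_mul_right h3 hr
    have h0 : 0 ≤ L * ‖x - x'‖ := (norm_nonneg _).trans (key 0)
    have h1 : ‖x - x'‖ ≤ L * ‖x - x'‖ := (pi_norm_le_iff_of_nonneg h0).2 key
    have h2 : ‖x - x'‖ = 0 := by
      by_contra hc
      have hp : 0 < ‖x - x'‖ := lt_of_le_of_ne (norm_nonneg _) (Ne.symm hc)
      have : L * ‖x - x'‖ < 1 * ‖x - x'‖ := mul_lt_mul_of_pos_right hT.lt_one hp
      linarith
    exact sub_eq_zero.1 (norm_eq_zero.1 h2)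

theorem exists_x (hT : TOk T L) (y : V) : ∃ x, Rel T x y := by
  by_cases hy : y = 0
  · subst hy; exact ⟨0, Rel.zero T⟩
  have hr := norm_pos_iff.2 hy
  let Φ : V → V := fun x i => y i + (T i x - ‖y‖ / 4) * (kk (y i) ‖y‖ / ‖y‖)
  have hK : ∀ i, |kk (y i) ‖y‖ / ‖y‖| ≤ 1 := by
    intro i
    rw [abs_div, abs_of_pos hr]
    exact (div_le_one hr).2 (kk_le hr.le)
  have hΦ : ContractingWith (Real.toNNReal L) Φ := by
    refine ⟨by
      have := hT.lt_one
      rw [← NNReal.coe_lt_coe, Real.coe_toNNReal']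
      exact max_lt hT.lt_one one_pos, ?_⟩
    refine LipschitzWith.of_dist_le_mul fun x x' => ?_
    rw [dist_eq_norm, dist_eq_norm]
    have h0 : 0 ≤ ((Real.toNNReal L : NNReal) : ℝ) * ‖x - x'‖ := by positivity
    refine (pi_norm_le_iff_of_nonneg h0).2 fun i => ?_
    have e : (Φ x - Φ x') i = (T i x - T i x') * (kk (y i) ‖y‖ / ‖y‖) := by
      simp only [Φ, Pi.sub_apply]; ring
    rw [e, Real.norm_eq_abs, abs_mul]
    calc |T i x - T i x'| * |kk (y i) ‖y‖ / ‖y‖| ≤ |T i x - T i x'| * 1 :=
          mul_le_mul_of_nonneg_left (hK i) (abs_nonneg _)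
      _ ≤ L * ‖x - x'‖ := by rw [mul_one]; exact hT.lip i x x'
      _ ≤ _ := mul_le_mul_of_nonneg_right (Real.le_coe_toNNReal L) (norm_nonneg _)
  obtain ⟨x, hx⟩ : ∃ x, Φ x = x := ⟨hΦ.fixedPoint, hΦ.fixedPoint_isFixedPt⟩
  have hRl : ∀ i, Rl (x i) (y i) (T i x) ‖y‖ := by
    intro i
    have := congrFun hx i
    simp only [Φ] at this
    unfold Rl
    rw [← this]
    field_simp
    ring
  refine ⟨x, ?_, hRl⟩
  obtain ⟨m, hm⟩ := exists_max hy
  have hxm : x m = y m := (hRl m).big hr (by rw [hm]; linarith)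
  have hle : ‖y‖ ≤ ‖x‖ := by rw [← hm, ← hxm]; exact norm_le_pi_norm x m
  refine le_antisymm ?_ hle
  by_contra hc
  push Not at hc
  have hx0 : x ≠ 0 := by
    rintro rfl
    rw [norm_zero] at hc
    linarith
  obtain ⟨i, hi⟩ := exists_max hx0
  have h1 : |y i| < ‖y‖ / 2 := by
    by_contra hd
    push Not at hd
    have := (hRl i).big hr hd
    rw [this] at hi
    have : |y i| ≤ ‖y‖ := norm_le_pi_norm y i
    linarith
  have h2 := (hRl i).abs_le_max hr (hT.nonneg i x) h1
  have h3 := T_big hT i (x := x) (by rw [hi]; linarith)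
  rw [hi] at h2 h3
  rcases le_max_iff.1 h2 with h4 | h4 <;> linarith

theorem Rel.smul (hT : TOk T L) {x y : V} (h : Rel T x y) (c : ℝ) : Rel T (c • x) (c • y) := by
  refine ⟨by rw [norm_smul, norm_smul, h.1], fun i => ?_⟩
  have h1 := h.2 i
  unfold Rl at h1 ⊢
  rw [hT.hom, norm_smul, Real.norm_eq_abs, Pi.smul_apply, Pi.smul_apply, smul_eq_mul, smul_eq_mul,
    kk_scale]
  linear_combination |c| * c * h1

theorem T_cont (hT : TOk T L) (i : Fin 4) : Continuous (T i) := by
  have h : LipschitzWith (Real.toNNReal L) (T i) := by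
    refine LipschitzWith.of_dist_le_mul fun x x' => ?_
    rw [Real.dist_eq, dist_eq_norm]
    exact (hT.lip i x x').trans
      (mul_le_mul_of_nonneg_right (Real.le_coe_toNNReal L) (norm_nonneg _))
  exact h.continuous

theorem rel_closed (hT : TOk T L) : IsClosed {p : V × V | Rel T p.1 p.2} := by
  have h1 : IsClosed {p : V × V | ‖p.1‖ = ‖p.2‖} :=
    isClosed_eq (continuous_norm.comp continuous_fst) (continuous_norm.comp continuous_snd)
  have h2 : ∀ i : Fin 4, IsClosed {p : V × V | Rl (p.1 i) (p.2 i) (T i p.1) ‖p.2‖} := by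
    intro i
    have hc := T_cont hT i
    have hxi : Continuous fun p : V × V => p.1 i := (continuous_apply i).comp continuous_fst
    have hyi : Continuous fun p : V × V => p.2 i := (continuous_apply i).comp continuous_snd
    have hyn : Continuous fun p : V × V => ‖p.2‖ := continuous_norm.comp continuous_snd
    have hTi : Continuous fun p : V × V => T i p.1 := hc.comp continuous_fst
    have hk : Continuous fun p : V × V => kk (p.2 i) ‖p.2‖ := by
      have h0 : Continuous fun p : V × V => ((p.2 i, ‖p.2‖) : ℝ × ℝ) := hyi.prodMk hyn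
      exact kk_cont.comp h0
    have hl : Continuous fun p : V × V => ‖p.2‖ * (p.1 i - p.2 i) := hyn.mul (hxi.sub hyi)
    have hrr : Continuous fun p : V × V => (T i p.1 - ‖p.2‖ / 4) * kk (p.2 i) ‖p.2‖ :=
      (hTi.sub (hyn.div_const 4)).mul hk
    exact isClosed_eq hl hrr
  have e : {p : V × V | Rel T p.1 p.2} = {p : V × V | ‖p.1‖ = ‖p.2‖} ∩
      ⋂ i : Fin 4, {p : V × V | Rl (p.1 i) (p.2 i) (T i p.1) ‖p.2‖} := by
    ext p
    simp only [Rel, Set.mem_setOf_eq, Set.mem_inter_iff, Set.mem_iInter]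
  rw [e]
  exact h1.inter (isClosed_iInter h2)

theorem main (hT : TOk T L) : ∃ F : V → V, Good F ∧ (∀ x i, 0 < x i → 0 < F x i) ∧
    (∀ x i, x i = 0 → F x i = 0) ∧
    ∀ x : V, x ≠ 0 → ∀ i, (|x i| = T i x ↔ |F x i| = 1 / 4 * ‖F x‖) := by
  choose F hF using exists_y hT
  have hF0 : ∀ x, ‖F x‖ = ‖x‖ := fun x => (hF x).1.symm
  refine ⟨F, ⟨?_, ?_, ?_, ?_⟩, ?_, ?_, ?_⟩
  · rw [continuous_iff_continuousAt]
    intro x
    refine tendsto_of_subseq_tendsto fun ns hns => ?_
    have hb : Bornology.IsBounded (Set.range fun n => F (ns n)) := by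
      have hb0 := Metric.isBounded_range_of_tendsto ns hns
      obtain ⟨R, hR⟩ := hb0.exists_norm_le
      rw [isBounded_iff_forall_norm_le]
      refine ⟨R, ?_⟩
      rintro _ ⟨n, rfl⟩
      rw [hF0]
      exact hR _ ⟨n, rfl⟩
    obtain ⟨y, -, φ, hφ, hy⟩ := tendsto_subseq_of_bounded hb (fun n => Set.mem_range_self n)
    refine ⟨φ, ?_⟩
    have h1 : Tendsto (fun n => (ns (φ n), F (ns (φ n)))) atTop (𝓝 (x, y)) :=
      (hns.comp hφ.tendsto_atTop).prodMk_nhds hy
    have h2 : Rel T x y := (rel_closed hT).mem_of_tendsto h1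
      (Eventually.of_forall fun n => hF (ns (φ n)))
    rw [(hF x).unique hT h2]
    exact hy
  · intro c x
    exact (hF (c • x)).unique hT ((hF x).smul hT c)
  · intro x x' hxx
    have h1 := hF x
    rw [hxx] at h1
    exact h1.unique' hT (hF x')
  · intro y
    obtain ⟨x, hx⟩ := exists_x hT y
    exact ⟨x, (hF x).unique hT hx⟩
  · intro x i hxi
    have hx : x ≠ 0 := by rintro rfl; simp at hxi
    have h1 := (hF x).2 i
    rw [hF0] at h1
    exact h1.t_pos (cx hT hx i) hxi
  · intro x i hxi
    by_cases hx : x = 0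
    · subst hx
      have : F 0 = 0 := norm_eq_zero.1 (by rw [hF0, norm_zero])
      rw [this]; rfl
    · have h1 := (hF x).2 i
      rw [hF0] at h1
      exact h1.t_zero (cx hT hx i) hxi
  · intro x hx i
    have h1 := (hF x).2 i
    rw [hF0] at h1
    rw [h1.wall (cx hT hx i), hF0]
    constructor
    · intro h; linarith
    · intro h; linarith

end main

end LLaux

theorem blk_LL : Stmt_LL := fun _ _ hT => LLaux.main hT

end Pool.Agent.Work.MP_363f1e_co
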