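import Pool.Agent.Work.MP_363f1e_co.Interface

/-!
Block NRM: inequalities for the norms `nu` and `nn`.
-/

namespace Pool.Agent.Work.MP_363f1e_co

namespace NRMaux

theorem abs_max_sub (a b c d e f : ℝ) (h1 : |a - c| ≤ e) (h2 : |b - d| ≤ f) :
    |max a b - max c d| ≤ max e f := by
  rw [abs_le] at h1 h2 ⊢
  have e1 := le_max_left e f
  have e2 := le_max_right e f
  constructor
  · have : max c d ≤ max a b + max e f := by
      apply max_le
      · linarith [le_max_left a b]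
      · linarith [le_max_right a b]
    linarith
  · have : max a b ≤ max c d + max e f := by
      apply max_le
      · linarith [le_max_left c d]
      · linarith [le_max_right c d]
    linarith

theorem nu_sub (x y : V) : |nu x - nu y| ≤ nu (x - y) := by
  unfold nu
  apply abs_max_sub
  · have := abs_norm_sub_norm_le (⟨x 0, x 1⟩ : ℂ) (⟨y 0, y 1⟩ : ℂ)
    refine this.trans (le_of_eq ?_)
    congr 1
  · have h : |(|x 2| - |y 2|)| ≤ |x 2 - y 2| := abs_abs_sub_abs_le_abs_sub _ _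
    have e : |x 2| / 2 - |y 2| / 2 = (|x 2| - |y 2|) / 2 := by ring
    rw [e, abs_div, abs_of_pos (by norm_num : (0 : ℝ) < 2)]
    simp only [Pi.sub_apply]
    linarith

theorem nu_smul (c : ℝ) (x : V) : nu (c • x) = |c| * nu x := by
  unfold nu
  have e : (⟨(c • x) 0, (c • x) 1⟩ : ℂ) = (c : ℂ) * ⟨x 0, x 1⟩ := by
    apply Complex.ext <;> simp
  rw [e, norm_mul, Complex.norm_real, Real.norm_eq_abs, mul_max_of_nonneg _ _ (abs_nonneg c)]
  congr 1
  rw [Pi.smul_apply, smul_eq_mul, abs_mul]; ring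

theorem nu_nonneg (x : V) : 0 ≤ nu x := le_trans (norm_nonneg _) (le_max_left _ _)

theorem abs0_le (x : V) : |x 0| ≤ nu x :=
  le_trans (Complex.abs_re_le_norm (⟨x 0, x 1⟩ : ℂ)) (le_max_left _ _)

theorem abs1_le (x : V) : |x 1| ≤ nu x :=
  le_trans (Complex.abs_im_le_norm (⟨x 0, x 1⟩ : ℂ)) (le_max_left _ _)

theorem abs2_le (x : V) : |x 2| ≤ 2 * nu x := by
  have := le_max_right ‖(⟨x 0, x 1⟩ : ℂ)‖ (|x 2| / 2)
  unfold nu
  linarith

theorem nu_eq_zero (x : V) : nu x = 0 ↔ (x 0 = 0 ∧ x 1 = 0 ∧ x 2 = 0) := by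
  constructor
  · intro h
    have h0 := abs0_le x
    have h1 := abs1_le x
    have h2 := abs2_le x
    rw [h] at h0 h1 h2
    refine ⟨abs_nonpos_iff.1 h0, abs_nonpos_iff.1 h1, abs_nonpos_iff.1 (by linarith)⟩
  · rintro ⟨h0, h1, h2⟩
    unfold nu
    rw [h0, h1, h2]
    have : (⟨0, 0⟩ : ℂ) = 0 := rfl
    rw [this]; simp

theorem abs_apply_le (x : V) (i : Fin 4) : |x i| ≤ ‖x‖ := by
  have := norm_le_pi_norm x i
  rwa [Real.norm_eq_abs] at this

theorem nu_le (x : V) : nu x ≤ 2 * ‖x‖ := by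
  unfold nu
  apply max_le
  · have h : ‖(⟨x 0, x 1⟩ : ℂ)‖ ≤ |x 0| + |x 1| :=
      Complex.norm_le_abs_re_add_abs_im (⟨x 0, x 1⟩ : ℂ)
    linarith [abs_apply_le x 0, abs_apply_le x 1]
  · linarith [abs_apply_le x 2, norm_nonneg x]

theorem nn3_le (x : V) : |x 3| ≤ nn x := le_max_left _ _

theorem nu_le_nn (x : V) : nu x ≤ 2 * nn x := by
  have := le_max_right |x 3| (nu x / 2)
  unfold nn
  linarith

theorem nn_nonneg (x : V) : 0 ≤ nn x := le_trans (abs_nonneg _) (nn3_le x)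

theorem norm_le_nn (x : V) : ‖x‖ ≤ 4 * nn x := by
  have h3 := nn3_le x
  have h := nu_le_nn x
  have hn := nn_nonneg x
  rw [pi_norm_le_iff_of_nonneg (by linarith)]
  intro i
  rw [Real.norm_eq_abs]
  fin_cases i
  · have := abs0_le x
    simp only [Fin.zero_eta]; linarith
  · have := abs1_le x
    simp only [Fin.mk_one]; linarith
  · have := abs2_le x
    simp only [Fin.reduceFinMk]; linarith
  · simp only [Fin.reduceFinMk]; linarith

theorem nn_sub (x y : V) : |nn x - nn y| ≤ 2 * ‖x - y‖ := by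
  have h1 : |nn x - nn y| ≤ max |(x - y) 3| (nu (x - y) / 2) := by
    unfold nn
    apply abs_max_sub
    · exact abs_abs_sub_abs_le_abs_sub _ _
    · have h := nu_sub x y
      have e : nu x / 2 - nu y / 2 = (nu x - nu y) / 2 := by ring
      rw [e, abs_div, abs_of_pos (by norm_num : (0 : ℝ) < 2)]
      linarith
  refine h1.trans (max_le ?_ ?_)
  · linarith [abs_apply_le (x - y) 3, norm_nonneg (x - y)]
  · linarith [nu_le (x - y), norm_nonneg (x - y)]

theorem nn_smul (c : ℝ) (x : V) : nn (c • x) = |c| * nn x := by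
  unfold nn
  rw [nu_smul, mul_max_of_nonneg _ _ (abs_nonneg c), Pi.smul_apply, smul_eq_mul, abs_mul]
  congr 1
  ring

theorem nn_le (x : V) : nn x ≤ 2 * ‖x‖ := by
  unfold nn
  apply max_le
  · linarith [abs_apply_le x 3, norm_nonneg x]
  · linarith [nu_le x, norm_nonneg x]

end NRMaux

theorem blk_NRM : Stmt_NRM :=
  ⟨NRMaux.nu_sub, NRMaux.nu_smul, NRMaux.nu_nonneg, NRMaux.nu_eq_zero, NRMaux.nu_le,
    NRMaux.norm_le_nn, NRMaux.nn_sub, NRMaux.nn_smul, NRMaux.nn_nonneg, NRMaux.nn_le⟩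

end Pool.Agent.Work.MP_363f1e_co
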