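import Pool.Agent.Work.MP_363f1e_co.Interface

/-!
Block NUM1 (helper98): independence of the thin quadruples of the family.  All coefficients are
integers divided by `1250`; the determinants are computed with integers.
-/

namespace Pool.Agent.Work.MP_363f1e_co

namespace NUM1aux

/-- `1250` times the coefficients of `h_i` -/
def ch (i : Fin 5) : Fin 4 → ℤ :=
  ![![-1250, 0, 500, 125], ![1000, -750, 500, 125], ![-350, 1200, 500, 125],
    ![-440, -1170, 500, 125], ![1000, 750, 500, 125]] i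

/-- `1250` times the coefficients of the planes -/
def cf (i : Fin 5) (a : Fin 8) : Fin 4 → ℤ :=
  ![![0, 0, 1250, 1250], ![0, 0, 1250, 1250], ch i, ![1250, 0, 750, 0], ![-1000, 750, 750, 0],
    ![350, -1200, 750, 0], ![440, 1170, 750, 0], ![-1054, -672, 750, 0]] a

theorem form_apply (u : ℝ × ℝ) (β γ : ℝ) (j : Fin 4) :
    form u β γ (Pi.single j 1) = (![u.1, u.2, β, γ] : Fin 4 → ℝ) j := by
  fin_cases j <;> simp [form]

theorem entry (i : Fin 5) (a : Fin 8) (j : Fin 4) :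
    (plW i a).f (Pi.single j 1) = (1 / 1250 : ℝ) * (cf i a j : ℝ) := by
  fin_cases a
  · show form (0, 0) 1 1 (Pi.single j 1) = _
    rw [form_apply]
    fin_cases j <;> simp [cf]
  · show form (0, 0) 1 1 (Pi.single j 1) = _
    rw [form_apply]
    fin_cases j <;> simp [cf]
  · show form (uh i) (2/5) (1/10) (Pi.single j 1) = _
    rw [form_apply]
    fin_cases i <;> fin_cases j <;> simp [cf, ch, uh] <;> norm_num
  · show form (uc 0) (3/5) 0 (Pi.single j 1) = _
    rw [form_apply]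
    fin_cases j <;> simp [cf, uc] <;> norm_num
  · show form (uc 1) (3/5) 0 (Pi.single j 1) = _
    rw [form_apply]
    fin_cases j <;> simp [cf, uc] <;> norm_num
  · show form (uc 2) (3/5) 0 (Pi.single j 1) = _
    rw [form_apply]
    fin_cases j <;> simp [cf, uc] <;> norm_num
  · show form (uc 3) (3/5) 0 (Pi.single j 1) = _
    rw [form_apply]
    fin_cases j <;> simp [cf, uc] <;> norm_num
  · show form (uc 4) (3/5) 0 (Pi.single j 1) = _
    rw [form_apply]
    fin_cases j <;> simp [cf, uc] <;> norm_num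

/-- 2 by 2 minors -/
def mn (x y : Fin 4 → ℤ) (p q : Fin 4) : ℤ := x p * y q - x q * y p

/-- the determinant of four rows -/
def det4 (x y z w : Fin 4 → ℤ) : ℤ :=
  mn x y 0 1 * mn z w 2 3 - mn x y 0 2 * mn z w 1 3 + mn x y 0 3 * mn z w 1 2
    + mn x y 1 2 * mn z w 0 3 - mn x y 1 3 * mn z w 0 2 + mn x y 2 3 * mn z w 0 1

theorem det_eq (M : Matrix (Fin 4) (Fin 4) ℤ) : M.det = det4 (M 0) (M 1) (M 2) (M 3) := by
  rw [Matrix.det_succ_row_zero]
  simp [Fin.sum_univ_succ, Matrix.det_fin_three, Fin.succAbove, Matrix.submatrix, det4, mn]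
  ring

/-- the cases which need not be checked -/
def skip (i : Fin 5) (a b c d : Fin 8) : Bool :=
  decide (a = 0 ∨ b = 0 ∨ c = 0 ∨ d = 0) || decide (a = b ∨ a = c ∨ a = d ∨ b = c ∨ b = d ∨ c = d) ||
    !(decide (a = 2 ∨ b = 2 ∨ c = 2 ∨ d = 2)) ||
    (decide (a = lc i ∨ b = lc i ∨ c = lc i ∨ d = lc i) && decide (a = 1 ∨ b = 1 ∨ c = 1 ∨ d = 1))

theorem chk : ∀ i : Fin 5, ∀ a b c d : Fin 8,
    (skip i a b c d || decide (det4 (cf i a) (cf i b) (cf i c) (cf i d) ≠ 0)) = true := by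
  decide +kernel

theorem chk' (i : Fin 5) (a b c d : Fin 8) (ha : a ≠ 0) (hb : b ≠ 0) (hc : c ≠ 0) (hd : d ≠ 0)
    (hab : a ≠ b) (hac : a ≠ c) (had : a ≠ d) (hbc : b ≠ c) (hbd : b ≠ d) (hcd : c ≠ d)
    (h2 : a = 2 ∨ b = 2 ∨ c = 2 ∨ d = 2)
    (h : (a ≠ lc i ∧ b ≠ lc i ∧ c ≠ lc i ∧ d ≠ lc i) ∨ (a ≠ 1 ∧ b ≠ 1 ∧ c ≠ 1 ∧ d ≠ 1)) :
    det4 (cf i a) (cf i b) (cf i c) (cf i d) ≠ 0 := by
  have h3 := chk i a b c d
  rw [Bool.or_eq_true, decide_eq_true_eq] at h3
  rcases h3 with h3 | h3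
  · exfalso
    unfold skip at h3
    simp only [Bool.or_eq_true, Bool.and_eq_true, decide_eq_true_eq, Bool.not_eq_true',
      decide_eq_false_iff_not] at h3
    tauto
  · exact h3

end NUM1aux

open NUM1aux in
theorem blk_NUM1 : Stmt_NUM1 := by
  intro i s hs h0
  obtain ⟨hinj, ⟨k2, hk2⟩, hor⟩ := hs
  set M : Matrix (Fin 4) (Fin 4) ℤ := Matrix.of fun k j => cf i (s k) j with hM
  have h1 : (rowMat fun k => (plW i (s k)).f) = (1 / 1250 : ℝ) • M.map (Int.castRingHom ℝ) := by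
    ext k j
    show (plW i (s k)).f (Pi.single j 1) = (1 / 1250 : ℝ) * ((cf i (s k) j : ℤ) : ℝ)
    exact entry i (s k) j
  have hne : ∀ k l : Fin 4, k ≠ l → s k ≠ s l := fun k l hkl h => hkl (hinj h)
  have h2 : M.det ≠ 0 := by
    rw [det_eq]
    refine chk' i (s 0) (s 1) (s 2) (s 3) (h0 0) (h0 1) (h0 2) (h0 3) (hne _ _ (by decide))
      (hne _ _ (by decide)) (hne _ _ (by decide)) (hne _ _ (by decide)) (hne _ _ (by decide))
      (hne _ _ (by decide)) ?_ ?_
    · fin_cases k2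
      · exact Or.inl hk2
      · exact Or.inr (Or.inl hk2)
      · exact Or.inr (Or.inr (Or.inl hk2))
      · exact Or.inr (Or.inr (Or.inr hk2))
    · rcases hor with h | ⟨-, h⟩
      · exact Or.inl ⟨h 0, h 1, h 2, h 3⟩
      · exact Or.inr ⟨h 0, h 1, h 2, h 3⟩
  rw [h1, Matrix.det_smul]
  refine mul_ne_zero (by positivity) ?_
  have h3 : (M.map (Int.castRingHom ℝ)).det = ((M.det : ℤ) : ℝ) := by
    have := (Int.castRingHom ℝ).map_det M
    simpa using this.symm
  rw [h3]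
  exact_mod_cast h2

end Pool.Agent.Work.MP_363f1e_co
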