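import Pool.Agent.Work.MP_363f1e_co.Interface

/-!
Block `HT`: elementary facts on the relation `HTo` (homotopy of maps into `R^3 ∖ 0`).
-/

set_option autoImplicit false

namespace Pool.Agent.Work.MP_363f1e_co

namespace HTaux

/-- the map to nonzero vectors -/
def toCM (q : S2 → (Fin 3 → ℝ)) (hq : Continuous q) (h0 : ∀ w, q w ≠ 0) :
    C(S2, {v : Fin 3 → ℝ // v ≠ 0}) :=
  ⟨fun w => ⟨q w, h0 w⟩, Continuous.subtype_mk hq h0⟩

theorem iff_homotopic (q q' : S2 → (Fin 3 → ℝ)) :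
    HTo q q' ↔ ∃ (hq : Continuous q) (h0 : ∀ w, q w ≠ 0) (hq' : Continuous q')
      (h0' : ∀ w, q' w ≠ 0), (toCM q hq h0).Homotopic (toCM q' hq' h0') := by
  constructor
  · rintro ⟨H, hH, hn, e0, e1⟩
    have hq : Continuous q := by
      have : q = fun w => H (0, w) := funext fun w => (e0 w).symm
      rw [this]
      exact hH.comp (Continuous.prodMk continuous_const continuous_id)
    have hq' : Continuous q' := by
      have : q' = fun w => H (1, w) := funext fun w => (e1 w).symm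
      rw [this]
      exact hH.comp (Continuous.prodMk continuous_const continuous_id)
    have h0 : ∀ w, q w ≠ 0 := fun w => by rw [← e0 w]; exact hn _
    have h0' : ∀ w, q' w ≠ 0 := fun w => by rw [← e1 w]; exact hn _
    refine ⟨hq, h0, hq', h0', ⟨⟨⟨fun p => ⟨H p, hn p⟩, Continuous.subtype_mk hH hn⟩, ?_, ?_⟩⟩⟩
    · intro w
      exact Subtype.ext (e0 w)
    · intro w
      exact Subtype.ext (e1 w)
  · rintro ⟨hq, h0, hq', h0', ⟨F⟩⟩
    refine ⟨fun p => ((F p : {v : Fin 3 → ℝ // v ≠ 0}) : Fin 3 → ℝ),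
      continuous_subtype_val.comp F.continuous, fun p => (F p).2, fun w => ?_, fun w => ?_⟩
    · show ((F (0, w) : {v : Fin 3 → ℝ // v ≠ 0}) : Fin 3 → ℝ) = q w
      rw [F.apply_zero]
      rfl
    · show ((F (1, w) : {v : Fin 3 → ℝ // v ≠ 0}) : Fin 3 → ℝ) = q' w
      rw [F.apply_one]
      rfl

theorem eu_cv (w : S2) : eu (cv w) = 1 := by
  have h := w.2
  rw [mem_sphere_zero_iff_norm] at h
  exact h

theorem cv_ne (w : S2) : cv w ≠ 0 := by
  intro h
  have h1 := eu_cv w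
  rw [eu_eq_zero.2 h] at h1
  exact zero_ne_one h1

theorem unitV_cv (w : S2) (h : cv w ≠ 0) : unitV (cv w) h = w := by
  apply Subtype.ext
  show (eu (cv w))⁻¹ • WithLp.toLp 2 (cv w) = (w : EuclideanSpace ℝ (Fin 3))
  rw [eu_cv, inv_one, one_smul]
  rfl

end HTaux

theorem HTo.refl {q : S2 → (Fin 3 → ℝ)} (hq : Continuous q) (h0 : ∀ w, q w ≠ 0) : HTo q q :=
  (HTaux.iff_homotopic q q).2 ⟨hq, h0, hq, h0, ContinuousMap.Homotopic.refl _⟩

theorem HTo.symm {q q' : S2 → (Fin 3 → ℝ)} (h : HTo q q') : HTo q' q := by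
  obtain ⟨hq, h0, hq', h0', H⟩ := (HTaux.iff_homotopic q q').1 h
  exact (HTaux.iff_homotopic q' q).2 ⟨hq', h0', hq, h0, H.symm⟩

theorem HTo.trans {q q' q'' : S2 → (Fin 3 → ℝ)} (h : HTo q q') (h' : HTo q' q'') :
    HTo q q'' := by
  obtain ⟨hq, h0, hq', h0', H⟩ := (HTaux.iff_homotopic q q').1 h
  obtain ⟨_, _, hq'', h0'', H'⟩ := (HTaux.iff_homotopic q' q'').1 h'
  exact (HTaux.iff_homotopic q q'').2 ⟨hq, h0, hq'', h0'', H.trans H'⟩

theorem HTo.straight {q q' : S2 → (Fin 3 → ℝ)} (hq : Continuous q) (hq' : Continuous q')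
    (h : ∀ w, ∀ s ∈ Set.Icc (0 : ℝ) 1, (1 - s) • q w + s • q' w ≠ 0) : HTo q q' := by
  refine ⟨fun p => (1 - (p.1 : ℝ)) • q p.2 + (p.1 : ℝ) • q' p.2, ?_, ?_, ?_, ?_⟩
  · have h1 : Continuous fun p : unitInterval × S2 => (p.1 : ℝ) :=
      continuous_subtype_val.comp continuous_fst
    have h2 : Continuous fun p : unitInterval × S2 => q p.2 := hq.comp continuous_snd
    have h3 : Continuous fun p : unitInterval × S2 => q' p.2 := hq'.comp continuous_snd
    exact ((continuous_const.sub h1).smul h2).add (h1.smul h3)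
  · intro p
    exact h p.2 (p.1 : ℝ) p.1.2
  · intro w
    simp
  · intro w
    simp

theorem HTo.left {q q' : S2 → (Fin 3 → ℝ)} (h : HTo q q') :
    (∀ w, q w ≠ 0) ∧ ∀ w, q' w ≠ 0 := by
  obtain ⟨_, h0, _, h0', _⟩ := (HTaux.iff_homotopic q q').1 h
  exact ⟨h0, h0'⟩

theorem HTo.continuous_left {q q' : S2 → (Fin 3 → ℝ)} (h : HTo q q') : Continuous q := by
  obtain ⟨hq, _⟩ := (HTaux.iff_homotopic q q').1 h
  exact hq

theorem HTo.continuous_right {q q' : S2 → (Fin 3 → ℝ)} (h : HTo q q') : Continuous q' := by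
  obtain ⟨_, _, hq', _⟩ := (HTaux.iff_homotopic q q').1 h
  exact hq'

theorem HTo.homotopic {q : S2 → (Fin 3 → ℝ)} (h : HTo cv q) (g : C(S2, S2))
    (hg : ∀ w, ∃ h : q w ≠ 0, g w = unitV (q w) h) : g.Homotopic (ContinuousMap.id _) := by
  obtain ⟨H, hH, hn, e0, e1⟩ := h
  refine ContinuousMap.Homotopic.symm ⟨⟨⟨fun p => unitV (H p) (hn p),
    continuous_unitV hH hn⟩, ?_, ?_⟩⟩
  · intro w
    show unitV (H (0, w)) (hn (0, w)) = w
    have h1 : ∀ (v : Fin 3 → ℝ) (hv : v ≠ 0), v = cv w → unitV v hv = w := by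
      intro v hv e
      subst e
      exact HTaux.unitV_cv w hv
    exact h1 _ _ (e0 w)
  · intro w
    show unitV (H (1, w)) (hn (1, w)) = g w
    obtain ⟨h2, h3⟩ := hg w
    rw [h3]
    have h1 : ∀ (v : Fin 3 → ℝ) (hv : v ≠ 0), v = q w → unitV v hv = unitV (q w) h2 := by
      intro v hv e
      subst e
      rfl
    exact h1 _ _ (e1 w)

theorem blk_HT : True := trivial

end Pool.Agent.Work.MP_363f1e_co
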