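import Pool.Agent.Work.MP_363f1e_co.MO
import Pool.Agent.Work.MP_363f1e_co.HT

namespace Pool.Agent.Work.MP_363f1e_co

open MOaux

theorem blk_OT : Stmt_OT := by
  intro m m' F φ h h' hF hφ hiso
  obtain ⟨h1, σ, hσ, hpos, hH⟩ := hiso
  refine ⟨image_cone hF hφ h1, fun o o' ho ho' => ?_⟩
  have hσ0 : σ ≠ 0 := by rcases hσ with rfl | rfl <;> norm_num
  have hσa : |σ| = 1 := by rcases hσ with rfl | rfl <;> norm_num
  have key : ∀ w, ∃ hq : σ • m'.P (F (m.x w)) ≠ 0,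
      toRP (F (m.x w)) = toRP (m'.x (unitV (σ • m'.P (F (m.x w))) hq)) := by
    intro w
    have hx := x_ne h w
    have hy := hF.ne_zero hx
    have h2 : |m'.g (F (m.x w))| = m'.θ (F (m.x w)) :=
      (h1 _ hx).1 (by rw [h.gx w, abs_of_pos (h.θx w)])
    have h3 : m'.g (σ • F (m.x w)) = m'.θ (σ • F (m.x w)) := by
      rw [h'.g_hom, h'.θ_hom, hσa, one_mul, ← h2, ← abs_of_pos (hpos w), abs_mul, hσa, one_mul]
    have hσy : σ • F (m.x w) ≠ 0 := smul_ne_zero hσ0 hy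
    obtain ⟨hP, e⟩ := h'.compl _ hσy h3
    have hPe : m'.P (σ • F (m.x w)) = σ • m'.P (F (m.x w)) := h'.P_hom _ _
    have hq : σ • m'.P (F (m.x w)) ≠ 0 := by rw [← hPe]; exact hP
    refine ⟨hq, ?_⟩
    have e2 : unitV (m'.P (σ • F (m.x w))) hP = unitV (σ • m'.P (F (m.x w))) hq := by
      congr 1
    rw [← e2]
    exact (toRP_smul hσ0 hy).symm.trans ((congrArg toRP e).trans
      (toRP_smul (eu_pos hP).ne' (x_ne h' _)))
  choose hq hkey using key
  have hqc : Continuous fun w => σ • m'.P (F (m.x w)) :=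
    (h'.P_cont.comp (hF.cont.comp h.x_cont)).const_smul σ
  refine ⟨⟨fun w => unitV (σ • m'.P (F (m.x w))) (hq w), continuous_unitV hqc hq⟩,
    fun w => ?_, HTo.homotopic hH _ (fun w => ⟨hq w, rfl⟩)⟩
  rw [ho, hφ _ (x_ne h w), ho', hkey w]
  rfl

end Pool.Agent.Work.MP_363f1e_co
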