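import Pool.Agent.Work.MP_363f1e_co.Interface

/-!
Block PLW: the planes of the family are correct.
-/

namespace Pool.Agent.Work.MP_363f1e_co

namespace PLWaux

theorem colMat_eq (a : V) (L : (Fin 3 → ℝ) →ₗ[ℝ] V) : colMat a L = Matrix.of fun i j =>
    (![a i, L (Pi.single 0 1) i, L (Pi.single 1 1) i, L (Pi.single 2 1) i] : Fin 4 → ℝ) j := by
  ext i j
  fin_cases j <;> rfl

theorem plu_ok (u : ℝ × ℝ) (β γ : ℝ) (hu : u.1 ^ 2 + u.2 ^ 2 = 1) : (plu u β γ).Ok := by
  refine ⟨?_, ?_, ?_, ?_, ?_⟩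
  · simp [plu, form]
    linear_combination hu
  · intro w
    simp [plu, form]
    linear_combination -(β * w 1 + γ * w 2) * hu
  · ext i
    fin_cases i <;> simp [plu]
    ring
  · intro w
    ext i
    fin_cases i <;> simp [plu]
    linear_combination w 0 * hu
  · have e : (colMat (plu u β γ).a (plu u β γ).L).det = u.1 ^ 2 + u.2 ^ 2 := by
      rw [colMat_eq, Matrix.det_succ_row_zero]
      simp [Fin.sum_univ_succ, plu, Matrix.det_fin_three, Fin.succAbove, Matrix.submatrix]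
      ring
    rw [e, hu]
    norm_num

theorem plv_ok : plv.Ok := by
  refine ⟨?_, ?_, ?_, ?_, ?_⟩
  · simp [plv, form]
  · intro w
    simp [plv, form]
  · ext i
    fin_cases i <;> simp [plv]
  · intro w
    ext i
    fin_cases i <;> simp [plv]
  · have e : (colMat plv.a plv.L).det = 1 := by
      rw [colMat_eq, Matrix.det_succ_row_zero]
      simp [Fin.sum_univ_succ, plv, Matrix.det_fin_three, Fin.succAbove, Matrix.submatrix]
    rw [e]
    norm_num

theorem uc_sq (j : Fin 5) : (uc j).1 ^ 2 + (uc j).2 ^ 2 = 1 := by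
  fin_cases j <;> simp [uc] <;> norm_num

theorem uh_sq (i : Fin 5) : (uh i).1 ^ 2 + (uh i).2 ^ 2 = 1 := by
  fin_cases i <;> simp [uh] <;> norm_num

end PLWaux

open PLWaux in
theorem blk_PLW : Stmt_PLW := by
  intro i a
  fin_cases a
  · exact plv_ok
  · exact plv_ok
  · exact plu_ok _ _ _ (uh_sq i)
  · exact plu_ok _ _ _ (uc_sq 0)
  · exact plu_ok _ _ _ (uc_sq 1)
  · exact plu_ok _ _ _ (uc_sq 2)
  · exact plu_ok _ _ _ (uc_sq 3)
  · exact plu_ok _ _ _ (uc_sq 4)

end Pool.Agent.Work.MP_363f1e_co
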