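import Mathlib
import Pool.Agent.Work.MP_363f1e_co.Interface

/-!
Block SEM: the standard members are correct (helper89).
-/

namespace Pool.Agent.Work.MP_363f1e_co

namespace SEMaux

theorem sg_sq (k : Fin 4) (j : Fin 3) : sg k j * sg k j = 1 := by
  unfold sg
  split_ifs
  · rw [← pow_add, ← two_mul, pow_mul]; norm_num
  · norm_num

theorem ins_same (k : Fin 4) (s : ℝ) (w : Fin 3 → ℝ) : ins k s w k = s := by
  simp [ins]

theorem ins_succAbove (k : Fin 4) (s : ℝ) (w : Fin 3 → ℝ) (j : Fin 3) :
    ins k s w (k.succAbove j) = sg k j * w j := by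
  simp [ins]

theorem prj_ins (k : Fin 4) (s : ℝ) (w : Fin 3 → ℝ) : prj k (ins k s w) = w := by
  funext j
  unfold prj
  rw [ins_succAbove, ← mul_assoc, sg_sq, one_mul]

theorem eu_sq_split (k : Fin 4) (y : V) : eu y ^ 2 = y k ^ 2 + eu (prj k y) ^ 2 := by
  rw [eu_sq, eu_sq, Fin.sum_univ_succAbove _ k]
  congr 1
  refine Finset.sum_congr rfl fun j _ => ?_
  unfold prj
  have := sg_sq k j
  linear_combination -(y (k.succAbove j)) ^ 2 * this

theorem ins_prj (k : Fin 4) (y : V) : ins k (y k) (prj k y) = y := by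
  funext i
  rcases Fin.eq_self_or_eq_succAbove k i with rfl | ⟨j, rfl⟩
  · rw [ins_same]
  · rw [ins_succAbove]
    unfold prj
    rw [← mul_assoc, sg_sq, one_mul]

theorem smul_ins (k : Fin 4) (c s : ℝ) (w : Fin 3 → ℝ) :
    c • ins k s w = ins k (c * s) (c • w) := by
  funext i
  rcases Fin.eq_self_or_eq_succAbove k i with rfl | ⟨j, rfl⟩
  · rw [Pi.smul_apply, ins_same, ins_same, smul_eq_mul]
  · rw [Pi.smul_apply, ins_succAbove, ins_succAbove, smul_eq_mul, Pi.smul_apply, smul_eq_mul]
    ring

theorem cv_continuous : Continuous cv := by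
  unfold cv
  exact (PiLp.continuous_ofLp 2 _).comp continuous_subtype_val

theorem eu_cv (w : S2) : eu (cv w) = 1 := by
  have hw : ‖(w : EuclideanSpace ℝ (Fin 3))‖ = 1 := mem_sphere_zero_iff_norm.1 w.2
  unfold eu cv
  simp

theorem cv_unitV (x : Fin 3 → ℝ) (hx : x ≠ 0) : cv (unitV x hx) = (eu x)⁻¹ • x := by
  funext i
  exact unitV_apply x hx i

theorem prj_continuous (k : Fin 4) : Continuous (prj k) := by
  unfold prj
  exact continuous_pi fun j => continuous_const.mul (continuous_apply _)

theorem ins_continuous (k : Fin 4) (s : ℝ) : Continuous (ins k s) := by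
  refine continuous_pi fun i => ?_
  rcases Fin.eq_self_or_eq_succAbove k i with rfl | ⟨j, rfl⟩
  · simp only [ins_same]
    exact continuous_const
  · simp only [ins_succAbove]
    exact continuous_const.mul (continuous_apply _)

theorem s5 : (1 / √5 : ℝ) ^ 2 = 1 / 5 := by
  rw [div_pow, Real.sq_sqrt (by norm_num)]; norm_num

theorem s6 : (1 / √6 : ℝ) ^ 2 = 1 / 6 := by
  rw [div_pow, Real.sq_sqrt (by norm_num)]; norm_num

theorem key (k : Fin 4) (w : S2) :
    1 / √5 = 1 / √6 * eu (ins k (1 / √5) (cv w)) := by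
  have h := eu_sq_split k (ins k (1 / √5) (cv w))
  rw [ins_same, prj_ins, eu_cv] at h
  have h5 := s5
  have h6 := s6
  have p5 : (0 : ℝ) < 1 / √5 := by positivity
  have p6 : (0 : ℝ) ≤ 1 / √6 * eu (ins k (1 / √5) (cv w)) :=
    mul_nonneg (by positivity) (eu_nonneg _)
  have e : (1 / √5) ^ 2 = (1 / √6 * eu (ins k (1 / √5) (cv w))) ^ 2 := by
    rw [mul_pow, h, h5, h6]; norm_num
  exact (pow_left_inj₀ p5.le p6 (by norm_num)).1 e

end SEMaux

open SEMaux in
theorem blk_SEM : Stmt_SEM := by
  intro k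
  refine ⟨?_, ?_⟩
  · refine ⟨?_, ?_, ?_, ?_, ?_, ?_, ?_, ?_, ?_, ?_, ?_⟩
    · intro c y
      simp [seMem]
    · intro c y
      simp only [seMem]
      rw [eu_smul]; ring
    · intro c y
      funext j
      simp only [seMem, prj, Pi.smul_apply, smul_eq_mul]
      ring
    · exact continuous_apply k
    · exact continuous_const.mul eu_continuous
    · exact prj_continuous k
    · exact (ins_continuous k _).comp cv_continuous
    · intro w
      exact prj_ins k _ _
    · intro w
      change ins k (1 / √5) (cv w) k = 1 / √6 * eu (ins k (1 / √5) (cv w))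
      rw [ins_same]
      exact key k w
    · intro w
      change 0 < 1 / √6 * eu (ins k (1 / √5) (cv w))
      rw [← key k w]
      positivity
    · intro y hy hgy
      change y k = 1 / √6 * eu y at hgy
      change ∃ hP : prj k y ≠ 0, y = eu (prj k y) • ins k (1 / √5) (cv (unitV (prj k y) hP))
      have h := eu_sq_split k y
      have e0 : 0 < eu y := eu_pos hy
      have hk : 0 ≤ y k := by rw [hgy]; positivity
      have e1 : y k ^ 2 = 1 / 6 * eu y ^ 2 := by rw [hgy, mul_pow, s6]
      have e2 : (y k) ^ 2 = (eu (prj k y) * (1 / √5)) ^ 2 := by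
        rw [mul_pow, s5]; linarith
      have e3 : y k = eu (prj k y) * (1 / √5) :=
        (pow_left_inj₀ hk (mul_nonneg (eu_nonneg _) (by positivity)) (by norm_num)).1 e2
      have hP : prj k y ≠ 0 := by
        intro h0
        have h1 : eu (prj k y) = 0 := eu_eq_zero.2 h0
        rw [h1, zero_mul] at e3
        rw [h1, e3] at h
        have : eu y ^ 2 = 0 := by rw [h]; norm_num
        have := pow_pos e0 2
        linarith
      refine ⟨hP, ?_⟩
      rw [cv_unitV, smul_ins, ← e3, smul_smul, mul_inv_cancel₀ (eu_pos hP).ne', one_smul, ins_prj]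
  · change cone (fun y => |y k| = 1 / √6 * eu y) = hyp 3 k (1 / √6)
    rw [hyp_eq_cone]

end Pool.Agent.Work.MP_363f1e_co
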