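import Pool.Agent.Work.MP_363f1e_co.Interface

/-!
Block SEU: from sup norm walls to Euclidean walls.
-/

namespace Pool.Agent.Work.MP_363f1e_co

namespace SEUaux

/-- the profile -/
noncomputable def pp (a m t : ℝ) : ℝ := 2 / 3 * min t (a / 4) + max (t - a / 4) 0 * m

/-- the slope on the large coordinates -/
noncomputable def mu (x : V) : ℝ :=
  (‖x‖ - 2 / 3 * ∑ j, min |x j| (‖x‖ / 4)) / ∑ j, max (|x j| - ‖x‖ / 4) 0

/-- one sided part -/
noncomputable def qq (x : V) (t : ℝ) : ℝ :=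
  √(‖x‖ * (2 / 3 * min (max t 0) (‖x‖ / 4) + max (t - ‖x‖ / 4) 0 * mu x))

/-- the map -/
noncomputable def FF (x : V) : V := fun i => qq x (x i) - qq x (-x i)

theorem qq_nonpos (x : V) {t : ℝ} (ht : t ≤ 0) : qq x t = 0 := by
  have h := norm_nonneg x
  unfold qq
  rw [max_eq_right ht, max_eq_right (by linarith), min_eq_left (by linarith)]
  simp

theorem qq_nonneg' (x : V) {t : ℝ} (ht : 0 ≤ t) : qq x t = √(‖x‖ * pp ‖x‖ (mu x) t) := by
  unfold qq pp
  rw [max_eq_left ht]

theorem exists_max {x : V} (hx : x ≠ 0) : ∃ k, |x k| = ‖x‖ := by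
  by_contra h
  push Not at h
  have h1 : ∀ k, |x k| < ‖x‖ := fun k => lt_of_le_of_ne (norm_le_pi_norm x k) (h k)
  have h2 : ‖x‖ < ‖x‖ := (pi_norm_lt_iff (norm_pos_iff.2 hx)).2 h1
  exact lt_irrefl _ h2

theorem den_pos {x : V} (hx : x ≠ 0) : 0 < ∑ j, max (|x j| - ‖x‖ / 4) 0 := by
  obtain ⟨k, hk⟩ := exists_max hx
  have ha := norm_pos_iff.2 hx
  have h1 : max (|x k| - ‖x‖ / 4) 0 ≤ ∑ j, max (|x j| - ‖x‖ / 4) 0 :=
    Finset.single_le_sum (f := fun j => max (|x j| - ‖x‖ / 4) 0) (fun _ _ => le_max_right _ _)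
      (Finset.mem_univ k)
  have h2 : |x k| - ‖x‖ / 4 ≤ max (|x k| - ‖x‖ / 4) 0 := le_max_left _ _
  rw [hk] at h2
  rw [hk] at h1
  linarith

theorem num_pos {x : V} (hx : x ≠ 0) : 0 < ‖x‖ - 2 / 3 * ∑ j, min |x j| (‖x‖ / 4) := by
  have ha := norm_pos_iff.2 hx
  have h1 : ∑ j, min |x j| (‖x‖ / 4) ≤ ∑ _j : Fin 4, ‖x‖ / 4 :=
    Finset.sum_le_sum fun _ _ => min_le_right _ _
  have h2 : ∑ _j : Fin 4, ‖x‖ / 4 = ‖x‖ := by simp; ring
  linarith

theorem mu_pos {x : V} (hx : x ≠ 0) : 0 < mu x := div_pos (num_pos hx) (den_pos hx)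

theorem pp_nonneg {a m t : ℝ} (ha : 0 ≤ a) (hm : 0 ≤ m) (ht : 0 ≤ t) : 0 ≤ pp a m t := by
  unfold pp
  have h1 : 0 ≤ min t (a / 4) := le_min ht (by linarith)
  have h2 : 0 ≤ max (t - a / 4) 0 := le_max_right _ _
  positivity

theorem pp_strict {a m s t : ℝ} (ha : 0 < a) (hm : 0 < m) (hst : s < t) :
    pp a m s < pp a m t := by
  unfold pp
  rcases le_total t (a / 4) with h | h
  · rw [min_eq_left h, min_eq_left (by linarith), max_eq_right (by linarith),
      max_eq_right (by linarith)]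
    linarith
  · rcases le_total s (a / 4) with h' | h'
    · rw [min_eq_right h, min_eq_left h', max_eq_left (a := t - a / 4) (by linarith),
        max_eq_right (a := s - a / 4) (by linarith)]
      rcases h'.eq_or_lt with h'' | h''
      · have : 0 < (t - a / 4) * m := mul_pos (by linarith) hm
        linarith
      · have : 0 ≤ (t - a / 4) * m := mul_nonneg (by linarith) hm.le
        linarith
    · rw [min_eq_right h, min_eq_right h', max_eq_left (by linarith), max_eq_left (by linarith)]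
      have : (s - a / 4) * m < (t - a / 4) * m := mul_lt_mul_of_pos_right (by linarith) hm
      linarith

theorem pp_inj {a m s t : ℝ} (ha : 0 < a) (hm : 0 < m) (h : pp a m s = pp a m t) : s = t := by
  rcases lt_trichotomy s t with h1 | h1 | h1
  · exact absurd h (pp_strict ha hm h1).ne
  · exact h1
  · exact absurd h (pp_strict ha hm h1).ne'

theorem pp_zero {a m : ℝ} (ha : 0 ≤ a) : pp a m 0 = 0 := by
  unfold pp
  rw [min_eq_left (by linarith), max_eq_right (by linarith)]; ring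

theorem pp_quarter {a m : ℝ} : pp a m (a / 4) = a / 6 := by
  unfold pp
  rw [min_self, sub_self, max_self]; ring

theorem FF_of_nonneg (x : V) {i : Fin 4} (h : 0 ≤ x i) :
    FF x i = √(‖x‖ * pp ‖x‖ (mu x) |x i|) := by
  unfold FF
  rw [qq_nonpos x (by linarith : -x i ≤ 0), qq_nonneg' x h, abs_of_nonneg h, sub_zero]

theorem FF_of_nonpos (x : V) {i : Fin 4} (h : x i ≤ 0) :
    FF x i = -√(‖x‖ * pp ‖x‖ (mu x) |x i|) := by
  unfold FF
  rw [qq_nonpos x h, qq_nonneg' x (by linarith : 0 ≤ -x i), abs_of_nonpos h, zero_sub]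

theorem FF_abs (x : V) (i : Fin 4) : |FF x i| = √(‖x‖ * pp ‖x‖ (mu x) |x i|) := by
  rcases le_total 0 (x i) with h | h
  · rw [FF_of_nonneg x h, abs_of_nonneg (Real.sqrt_nonneg _)]
  · rw [FF_of_nonpos x h, abs_neg, abs_of_nonneg (Real.sqrt_nonneg _)]

theorem FF_zero : FF 0 = 0 := by
  ext i
  rw [FF_of_nonneg 0 (le_refl _)]
  simp

theorem FF_sq {x : V} (hx : x ≠ 0) (i : Fin 4) : FF x i ^ 2 = ‖x‖ * pp ‖x‖ (mu x) |x i| := by
  rw [← sq_abs, FF_abs, Real.sq_sqrt]
  exact mul_nonneg (norm_nonneg _) (pp_nonneg (norm_nonneg _) (mu_pos hx).le (abs_nonneg _))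

theorem sum_pp {x : V} (hx : x ≠ 0) : ∑ i, pp ‖x‖ (mu x) |x i| = ‖x‖ := by
  unfold pp
  rw [Finset.sum_add_distrib, ← Finset.mul_sum, ← Finset.sum_mul]
  have h := (den_pos hx).ne'
  unfold mu
  rw [mul_div_cancel₀ _ h]
  ring

theorem eu_FF (x : V) : eu (FF x) = ‖x‖ := by
  by_cases hx : x = 0
  · rw [hx, FF_zero, norm_zero]; exact eu_eq_zero.2 rfl
  · have h : eu (FF x) ^ 2 = ‖x‖ ^ 2 := by
      rw [eu_sq, Finset.sum_congr rfl (fun i _ => FF_sq hx i), ← Finset.mul_sum, sum_pp hx]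
      ring
    exact (pow_left_inj₀ (eu_nonneg _) (norm_nonneg _) two_ne_zero).1 h

theorem FF_pos {x : V} {i : Fin 4} (h : 0 < x i) : 0 < FF x i := by
  have hx : x ≠ 0 := by rintro rfl; simp at h
  have ha := norm_pos_iff.2 hx
  rw [FF_of_nonneg x h.le]
  apply Real.sqrt_pos.2
  apply mul_pos ha
  rw [← pp_zero (m := mu x) ha.le]
  exact pp_strict ha (mu_pos hx) (abs_pos.2 h.ne')

theorem FF_neg {x : V} {i : Fin 4} (h : x i < 0) : FF x i < 0 := by
  have hx : x ≠ 0 := by rintro rfl; simp at h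
  have ha := norm_pos_iff.2 hx
  rw [FF_of_nonpos x h.le]
  apply neg_neg_of_pos
  apply Real.sqrt_pos.2
  apply mul_pos ha
  rw [← pp_zero (m := mu x) ha.le]
  exact pp_strict ha (mu_pos hx) (abs_pos.2 h.ne)

theorem FF_eq_zero {x : V} {i : Fin 4} (h : x i = 0) : FF x i = 0 := by
  rw [FF_of_nonneg x h.ge, h, abs_zero, pp_zero (norm_nonneg _)]; simp

theorem mu_smul {c : ℝ} (hc : c ≠ 0) (x : V) : mu (c • x) = mu x := by
  have hc' : 0 < |c| := abs_pos.2 hc
  have e1 : ∀ j, min |(c • x) j| (‖c • x‖ / 4) = |c| * min |x j| (‖x‖ / 4) := by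
    intro j
    rw [norm_smul, Real.norm_eq_abs, Pi.smul_apply, smul_eq_mul, abs_mul,
      mul_min_of_nonneg _ _ hc'.le]
    congr 1; ring
  have e2 : ∀ j, max (|(c • x) j| - ‖c • x‖ / 4) 0 = |c| * max (|x j| - ‖x‖ / 4) 0 := by
    intro j
    rw [norm_smul, Real.norm_eq_abs, Pi.smul_apply, smul_eq_mul, abs_mul,
      mul_max_of_nonneg _ _ hc'.le]
    congr 1 <;> ring
  unfold mu
  rw [Finset.sum_congr rfl (fun j _ => e1 j), Finset.sum_congr rfl (fun j _ => e2 j),
    ← Finset.mul_sum, ← Finset.mul_sum, norm_smul, Real.norm_eq_abs]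
  have e3 : |c| * ‖x‖ - 2 / 3 * (|c| * ∑ j, min |x j| (‖x‖ / 4)) =
      |c| * (‖x‖ - 2 / 3 * ∑ j, min |x j| (‖x‖ / 4)) := by ring
  rw [e3, mul_div_mul_left _ _ hc'.ne']

theorem pp_scale {c : ℝ} (hc : 0 ≤ c) (a m t : ℝ) : pp (c * a) m (c * t) = c * pp a m t := by
  unfold pp
  have e1 : min (c * t) (c * a / 4) = c * min t (a / 4) := by
    rw [mul_min_of_nonneg _ _ hc]; congr 1; ring
  have e2 : max (c * t - c * a / 4) 0 = c * max (t - a / 4) 0 := by
    rw [mul_max_of_nonneg _ _ hc]; congr 1 <;> ring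
  rw [e1, e2]; ring

theorem FF_abs_smul {c : ℝ} (hc : c ≠ 0) (x : V) (i : Fin 4) :
    |FF (c • x) i| = |c| * |FF x i| := by
  rw [FF_abs, FF_abs, mu_smul hc, norm_smul, Real.norm_eq_abs, Pi.smul_apply, smul_eq_mul,
    abs_mul, pp_scale (abs_nonneg c)]
  have e : |c| * ‖x‖ * (|c| * pp ‖x‖ (mu x) |x i|) = |c| ^ 2 * (‖x‖ * pp ‖x‖ (mu x) |x i|) := by
    ring
  rw [e, Real.sqrt_mul (by positivity), Real.sqrt_sq (abs_nonneg c)]

theorem FF_hom (c : ℝ) (x : V) : FF (c • x) = c • FF x := by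
  ext i
  rcases eq_or_ne c 0 with rfl | hc
  · rw [zero_smul, FF_zero, zero_smul]
  have h := FF_abs_smul hc x i
  rw [Pi.smul_apply, smul_eq_mul]
  rcases lt_trichotomy (x i) 0 with hx | hx | hx
  · have h1 := FF_neg hx
    rcases lt_or_gt_of_ne hc with hc' | hc'
    · have h2 : 0 < FF (c • x) i := FF_pos (by
        rw [Pi.smul_apply, smul_eq_mul]; exact mul_pos_of_neg_of_neg hc' hx)
      rw [abs_of_pos h2, abs_of_neg hc', abs_of_neg h1] at h
      linarith
    · have h2 : FF (c • x) i < 0 := FF_neg (by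
        rw [Pi.smul_apply, smul_eq_mul]; exact mul_neg_of_pos_of_neg hc' hx)
      rw [abs_of_neg h2, abs_of_pos hc', abs_of_neg h1] at h
      linarith
  · rw [FF_eq_zero hx, FF_eq_zero (x := c • x) (by rw [Pi.smul_apply, smul_eq_mul, hx, mul_zero]),
      mul_zero]
  · have h1 := FF_pos hx
    rcases lt_or_gt_of_ne hc with hc' | hc'
    · have h2 : FF (c • x) i < 0 := FF_neg (by
        rw [Pi.smul_apply, smul_eq_mul]; exact mul_neg_of_neg_of_pos hc' hx)
      rw [abs_of_neg h2, abs_of_neg hc', abs_of_pos h1] at h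
      linarith
    · have h2 : 0 < FF (c • x) i := FF_pos (by
        rw [Pi.smul_apply, smul_eq_mul]; exact mul_pos hc' hx)
      rw [abs_of_pos h2, abs_of_pos hc', abs_of_pos h1] at h
      linarith

theorem mu_continuousAt {x : V} (hx : x ≠ 0) : ContinuousAt mu x := by
  unfold mu
  apply ContinuousAt.div
  · have : Continuous fun x : V => ‖x‖ - 2 / 3 * ∑ j, min |x j| (‖x‖ / 4) := by
      refine continuous_norm.sub (continuous_const.mul (continuous_finsetSum _ fun j _ => ?_))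
      exact (continuous_apply j).abs.min (continuous_norm.div_const _)
    exact this.continuousAt
  · have : Continuous fun x : V => ∑ j, max (|x j| - ‖x‖ / 4) 0 := by
      refine continuous_finsetSum _ fun j _ => ?_
      exact ((continuous_apply j).abs.sub (continuous_norm.div_const _)).max continuous_const
    exact this.continuousAt
  · exact (den_pos hx).ne'

theorem qq_continuousAt {x : V} (hx : x ≠ 0) {g : V → ℝ} (hg : Continuous g) :
    ContinuousAt (fun y => qq y (g y)) x := by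
  unfold qq
  apply ContinuousAt.sqrt
  have h1 : Continuous fun y : V => 2 / 3 * min (max (g y) 0) (‖y‖ / 4) :=
    continuous_const.mul ((hg.max continuous_const).min (continuous_norm.div_const _))
  have h2 : Continuous fun y : V => max (g y - ‖y‖ / 4) 0 :=
    (hg.sub (continuous_norm.div_const _)).max continuous_const
  exact continuous_norm.continuousAt.mul
    (h1.continuousAt.add (h2.continuousAt.mul (mu_continuousAt hx)))

theorem FF_norm_le (x : V) : ‖FF x‖ ≤ ‖x‖ := by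
  rw [pi_norm_le_iff_of_nonneg (norm_nonneg _)]
  intro i
  rw [Real.norm_eq_abs, ← eu_FF x]
  have h : |FF x i| ^ 2 ≤ eu (FF x) ^ 2 := by
    rw [eu_sq, sq_abs]
    exact Finset.single_le_sum (f := fun j => FF x j ^ 2) (fun _ _ => sq_nonneg _)
      (Finset.mem_univ i)
  exact (pow_le_pow_iff_left₀ (abs_nonneg _) (eu_nonneg _) two_ne_zero).1 h

theorem FF_continuous : Continuous FF := by
  rw [continuous_iff_continuousAt]
  intro x
  by_cases hx : x = 0
  · subst hx
    unfold ContinuousAt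
    rw [FF_zero, tendsto_zero_iff_norm_tendsto_zero]
    refine squeeze_zero (fun _ => norm_nonneg _) FF_norm_le ?_
    have : Filter.Tendsto (fun x : V => ‖x‖) (nhds 0) (nhds ‖(0 : V)‖) :=
      continuous_norm.tendsto _
    rwa [norm_zero] at this
  · apply continuousAt_pi.2
    intro i
    exact (qq_continuousAt hx (continuous_apply i)).sub
      (qq_continuousAt hx (continuous_apply i).neg)

theorem mu_le {x y : V} (hx : x ≠ 0) (hy : y ≠ 0) (hn : ‖x‖ = ‖y‖)
    (h : ∀ i, pp ‖x‖ (mu x) |x i| = pp ‖y‖ (mu y) |y i|) : mu x ≤ mu y := by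
  obtain ⟨k, hk⟩ := exists_max hx
  have ha := norm_pos_iff.2 hx
  have h1 := h k
  have hyk : |y k| ≤ ‖y‖ := norm_le_pi_norm y k
  have h2 : pp ‖y‖ (mu y) |y k| ≤ pp ‖y‖ (mu y) ‖y‖ := by
    rcases hyk.eq_or_lt with h' | h'
    · rw [h']
    · exact (pp_strict (norm_pos_iff.2 hy) (mu_pos hy) h').le
  rw [← h1, hk, ← hn] at h2
  unfold pp at h2
  have h3 : max (‖x‖ - ‖x‖ / 4) 0 = 3 / 4 * ‖x‖ := by
    rw [max_eq_left (by linarith)]; ring
  rw [h3] at h2
  have h4 : 3 / 4 * ‖x‖ * mu x ≤ 3 / 4 * ‖x‖ * mu y := by linarith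
  exact le_of_mul_le_mul_left h4 (by linarith)

theorem FF_inj : Function.Injective FF := by
  intro x y h
  have hn : ‖x‖ = ‖y‖ := by rw [← eu_FF x, ← eu_FF y, h]
  by_cases hx : x = 0
  · subst hx
    rw [norm_zero] at hn
    exact (norm_eq_zero.1 hn.symm).symm
  have hy : y ≠ 0 := by
    rintro rfl
    rw [norm_zero] at hn
    exact hx (norm_eq_zero.1 hn)
  have ha := norm_pos_iff.2 hx
  have hp : ∀ i, pp ‖x‖ (mu x) |x i| = pp ‖y‖ (mu y) |y i| := by
    intro i
    have h1 : FF x i ^ 2 = FF y i ^ 2 := by rw [h]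
    rw [FF_sq hx, FF_sq hy, ← hn] at h1
    rw [← hn]
    exact mul_left_cancel₀ ha.ne' h1
  have hm : mu x = mu y :=
    le_antisymm (mu_le hx hy hn hp) (mu_le hy hx hn.symm fun i => (hp i).symm)
  ext i
  have h2 := hp i
  rw [← hn, ← hm] at h2
  have h3 := pp_inj ha (mu_pos hx) h2
  have h4 : FF x i = FF y i := by rw [h]
  rcases lt_trichotomy (x i) 0 with hxi | hxi | hxi
  · have h5 : y i < 0 := by
      by_contra hc
      push Not at hc
      have h6 := FF_neg hxi
      rw [h4, FF_of_nonneg y hc] at h6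
      exact absurd h6 (not_lt.2 (Real.sqrt_nonneg _))
    rw [abs_of_neg hxi, abs_of_neg h5] at h3
    linarith
  · rw [hxi, abs_zero] at h3
    rw [hxi, abs_eq_zero.1 h3.symm]
  · have h5 : 0 < y i := by
      by_contra hc
      push Not at hc
      have h6 := FF_pos hxi
      rw [h4, FF_of_nonpos y hc] at h6
      have := Real.sqrt_nonneg (‖y‖ * pp ‖y‖ (mu y) |y i|)
      linarith
    rw [abs_of_pos hxi, abs_of_pos h5] at h3
    exact h3

theorem FF_surj : Function.Surjective FF := by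
  intro y
  by_cases hy : y = 0
  · exact ⟨0, by rw [hy, FF_zero]⟩
  have hb := eu_pos hy
  set b := eu y with hbdef
  have hN := norm_pos_iff.2 hy
  obtain ⟨k, hk⟩ := exists_max hy
  have hyk2 : ∀ j, y j ^ 2 ≤ y k ^ 2 := by
    intro j
    rw [← sq_abs (y j), ← sq_abs (y k), hk]
    have := norm_le_pi_norm y j
    rw [Real.norm_eq_abs] at this
    have h0 := abs_nonneg (y j)
    nlinarith
  have hsum : ∑ j, y j ^ 2 = b ^ 2 := (eu_sq y).symm
  have h4 : b ^ 2 ≤ 4 * y k ^ 2 := by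
    rw [← hsum]
    have := Finset.sum_le_sum (s := Finset.univ) (fun j _ => hyk2 j)
    simpa using this
  -- `M = b μ`
  set M : ℝ := 4 / 3 * (y k ^ 2 / b - b / 6) / b with hM
  have hM1 : b / 4 ≤ y k ^ 2 / b := by
    rw [le_div_iff₀ hb]; nlinarith
  have hMpos : 0 < M := by
    rw [hM]; apply div_pos _ hb; linarith
  -- the absolute values of the preimage
  let r : Fin 4 → ℝ := fun i => min (3 / 2 * (y i ^ 2 / b)) (b / 4) + max (y i ^ 2 / b - b / 6) 0 / M
  have hr0 : ∀ i, 0 ≤ r i := by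
    intro i
    have h1 : 0 ≤ min (3 / 2 * (y i ^ 2 / b)) (b / 4) := le_min (by positivity) (by linarith)
    have h2 : 0 ≤ max (y i ^ 2 / b - b / 6) 0 / M := div_nonneg (le_max_right _ _) hMpos.le
    exact add_nonneg h1 h2
  have hrpos : ∀ i, y i ≠ 0 → 0 < r i := by
    intro i hi
    have hi2 : 0 < y i ^ 2 := by positivity
    have h1 : 0 < min (3 / 2 * (y i ^ 2 / b)) (b / 4) := lt_min (by positivity) (by linarith)
    have h2 : 0 ≤ max (y i ^ 2 / b - b / 6) 0 / M := div_nonneg (le_max_right _ _) hMpos.le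
    exact add_pos_of_pos_of_nonneg h1 h2
  have hrzero : ∀ i, y i = 0 → r i = 0 := by
    intro i hi
    simp only [r]
    rw [hi, max_eq_right (by simp; linarith), min_eq_left (by simp; linarith)]
    simp
  have hrk : r k = b := by
    simp only [r]
    rw [max_eq_left (by linarith), min_eq_right (by linarith)]
    have : (y k ^ 2 / b - b / 6) = 3 / 4 * b * M := by
      rw [hM]; field_simp
    rw [this, mul_div_assoc, div_self hMpos.ne']; ring
  have hrle : ∀ i, r i ≤ b := by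
    intro i
    rw [← hrk]
    simp only [r]
    have h1 : y i ^ 2 / b ≤ y k ^ 2 / b := div_le_div_of_nonneg_right (hyk2 i) hb.le
    have h2 : min (3 / 2 * (y i ^ 2 / b)) (b / 4) ≤ min (3 / 2 * (y k ^ 2 / b)) (b / 4) :=
      min_le_min (by linarith) le_rfl
    have h3 : max (y i ^ 2 / b - b / 6) 0 / M ≤ max (y k ^ 2 / b - b / 6) 0 / M :=
      div_le_div_of_nonneg_right (max_le_max (by linarith) le_rfl) hMpos.le
    linarith
  -- the preimage
  let x : V := fun i => if 0 ≤ y i then r i else -r i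
  have hxabs : ∀ i, |x i| = r i := by
    intro i
    simp only [x]
    split_ifs
    · exact abs_of_nonneg (hr0 i)
    · rw [abs_neg]; exact abs_of_nonneg (hr0 i)
  have hxn : ‖x‖ = b := by
    apply le_antisymm
    · rw [pi_norm_le_iff_of_nonneg hb.le]
      intro i
      rw [Real.norm_eq_abs, hxabs]; exact hrle i
    · have := norm_le_pi_norm x k
      rw [Real.norm_eq_abs, hxabs, hrk] at this
      exact this
  have hx : x ≠ 0 := by
    intro h; rw [h, norm_zero] at hxn; linarith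
  have hmin : ∀ i, min (r i) (b / 4) = min (3 / 2 * (y i ^ 2 / b)) (b / 4) := by
    intro i
    simp only [r]
    rcases le_total (y i ^ 2 / b) (b / 6) with h | h
    · rw [max_eq_right (by linarith), min_eq_left (a := 3 / 2 * (y i ^ 2 / b)) (by linarith)]
      rw [zero_div, add_zero, min_eq_left (by linarith)]
    · have h2 : 0 ≤ max (y i ^ 2 / b - b / 6) 0 / M := div_nonneg (le_max_right _ _) hMpos.le
      rw [min_eq_right (a := 3 / 2 * (y i ^ 2 / b)) (by linarith)]
      rw [min_eq_right (by linarith)]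
  have hmax : ∀ i, max (r i - b / 4) 0 = max (y i ^ 2 / b - b / 6) 0 / M := by
    intro i
    simp only [r]
    rcases le_total (y i ^ 2 / b) (b / 6) with h | h
    · rw [max_eq_right (a := y i ^ 2 / b - b / 6) (by linarith),
        min_eq_left (by linarith), zero_div, add_zero, max_eq_right (by linarith)]
    · have h2 : 0 ≤ max (y i ^ 2 / b - b / 6) 0 / M := div_nonneg (le_max_right _ _) hMpos.le
      rw [min_eq_right (by linarith)]
      rw [max_eq_left (a := b / 4 + max (y i ^ 2 / b - b / 6) 0 / M - b / 4) (by linarith)]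
      ring
  have hpy : ∀ i, 2 / 3 * min (r i) (b / 4) + max (r i - b / 4) 0 * M = y i ^ 2 / b := by
    intro i
    rw [hmin, hmax, div_mul_cancel₀ _ hMpos.ne']
    rcases le_total (y i ^ 2 / b) (b / 6) with h | h
    · rw [max_eq_right (by linarith), min_eq_left (by linarith)]; ring
    · rw [max_eq_left (by linarith), min_eq_right (by linarith)]; ring
  have hmu : mu x = M := by
    have hd := den_pos hx
    unfold mu
    rw [div_eq_iff hd.ne']
    simp only [hxabs, hxn]
    have h1 : ∑ i, (2 / 3 * min (r i) (b / 4) + max (r i - b / 4) 0 * M) = b := by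
      rw [Finset.sum_congr rfl (fun i _ => hpy i), ← Finset.sum_div, hsum]
      field_simp
    rw [Finset.sum_add_distrib, ← Finset.mul_sum, ← Finset.sum_mul] at h1
    linarith
  refine ⟨x, ?_⟩
  ext i
  have habs : √(‖x‖ * pp ‖x‖ (mu x) |x i|) = |y i| := by
    rw [hxn, hmu, hxabs]
    unfold pp
    rw [hpy i, mul_div_cancel₀ _ hb.ne', Real.sqrt_sq_eq_abs]
  by_cases hi : 0 ≤ y i
  · have hxi : 0 ≤ x i := by
      simp only [x]; rw [if_pos hi]; exact hr0 i
    rw [FF_of_nonneg x hxi, habs, abs_of_nonneg hi]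
  · have hxi : x i ≤ 0 := by
      simp only [x]; rw [if_neg hi]
      have := hr0 i
      linarith
    rw [FF_of_nonpos x hxi, habs, abs_of_neg (not_le.1 hi), neg_neg]

theorem FF_wall {x : V} (hx : x ≠ 0) (i : Fin 4) :
    |x i| = 1 / 4 * ‖x‖ ↔ |FF x i| = 1 / √6 * eu (FF x) := by
  have ha := norm_pos_iff.2 hx
  have hm := mu_pos hx
  rw [eu_FF]
  have h6 : (0 : ℝ) < √6 := Real.sqrt_pos.2 (by norm_num)
  have e1 : |FF x i| = 1 / √6 * ‖x‖ ↔ FF x i ^ 2 = ‖x‖ ^ 2 / 6 := by
    rw [← sq_abs]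
    have h7 : (1 / √6 * ‖x‖) ^ 2 = ‖x‖ ^ 2 / 6 := by
      rw [mul_pow, div_pow, Real.sq_sqrt (by norm_num)]; ring
    rw [← h7]
    exact (pow_left_inj₀ (abs_nonneg _) (by positivity) two_ne_zero).symm
  rw [e1, FF_sq hx]
  constructor
  · intro h
    have h' : |x i| = ‖x‖ / 4 := by rw [h]; ring
    rw [h', pp_quarter]; ring
  · intro h
    have h1 : pp ‖x‖ (mu x) |x i| = pp ‖x‖ (mu x) (‖x‖ / 4) := by
      rw [pp_quarter]
      have : ‖x‖ * pp ‖x‖ (mu x) |x i| = ‖x‖ * (‖x‖ / 6) := by rw [h]; ring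
      exact mul_left_cancel₀ ha.ne' this
    rw [pp_inj ha hm h1]; ring

end SEUaux

open SEUaux in
theorem blk_SEU : Stmt_SEU :=
  ⟨FF, ⟨FF_continuous, FF_hom, FF_inj, FF_surj⟩, fun _ _ h => FF_pos h, fun _ _ h => FF_eq_zero h,
    fun _ hx i => FF_wall hx i⟩

end Pool.Agent.Work.MP_363f1e_co
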