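import Pool.Agent.Work.MP_363f1e_co.HT

/-!
Block SLF: three thin members and the fat member.
-/

set_option autoImplicit false

namespace Pool.Agent.Work.MP_363f1e_co

namespace SLFaux

lemma lin_bound {n m : ℕ} (A : (Fin n → ℝ) →ₗ[ℝ] (Fin m → ℝ)) :
    ∃ c : ℝ, 0 < c ∧ ∀ x, ‖A x‖ ≤ c * ‖x‖ := by
  refine ⟨‖LinearMap.toContinuousLinearMap A‖ + 1, by positivity, fun x => ?_⟩
  have h := (LinearMap.toContinuousLinearMap A).le_opNorm x
  have h2 : (LinearMap.toContinuousLinearMap A) x = A x := rfl
  rw [h2] at h
  nlinarith [norm_nonneg x]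

lemma cv_cont : Continuous cv :=
  (PiLp.continuous_ofLp 2 _).comp continuous_subtype_val

lemma half_le (w : S2) : 1 / 2 ≤ ‖cv w‖ := by
  have h1 : eu (cv w) ^ 2 = 1 := by rw [HTaux.eu_cv, one_pow]
  rw [eu_sq, Fin.sum_univ_three] at h1
  have h2 : ∀ i, (cv w i) ^ 2 ≤ ‖cv w‖ ^ 2 := fun i => by
    have := norm_le_pi_norm (cv w) i
    rw [← Real.norm_eq_abs' (cv w i)]
    exact pow_le_pow_left₀ (norm_nonneg _) this 2
  by_contra hcon
  push Not at hcon
  have h3 : ‖cv w‖ ^ 2 < 1 / 4 := by nlinarith [norm_nonneg (cv w)]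
  have := h2 0; have := h2 1; have := h2 2
  linarith
where
  Real.norm_eq_abs' (x : ℝ) : ‖x‖ ^ 2 = x ^ 2 := by rw [Real.norm_eq_abs, sq_abs]

lemma prj_add (k : Fin 4) (x y : V) : prj k (x + y) = prj k x + prj k y := by
  funext j
  simp only [prj, Pi.add_apply]; ring

lemma prj_smul (k : Fin 4) (c : ℝ) (x : V) : prj k (c • x) = c • prj k x := by
  funext j
  simp only [prj, Pi.smul_apply, smul_eq_mul]; ring

lemma sg_ne (k : Fin 4) (j : Fin 3) : sg k j ≠ 0 := by
  unfold sg
  split_ifs
  · exact pow_ne_zero _ (by norm_num)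
  · exact one_ne_zero

lemma prj_eq_zero {k : Fin 4} {z : V} (h : prj k z = 0) : ∀ i, i ≠ k → z i = 0 := by
  intro i hi
  obtain ⟨j, rfl⟩ := Fin.exists_succAbove_eq hi
  have := congrFun h j
  simp only [prj, Pi.zero_apply] at this
  exact (mul_eq_zero.mp this).resolve_left (sg_ne k j)

lemma prj_cont (k : Fin 4) : Continuous (prj k) := by
  refine continuous_pi fun j => ?_
  exact continuous_const.mul (continuous_apply _)

end SLFaux

open SLFaux

/-- block SLF -/
theorem blk_SLF (hST : Stmt_ST) (hDET : Stmt_DET) (hGL3 : Stmt_GL3) (hNRM : Stmt_NRM)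
    (hFAT : Stmt_FAT) : Stmt_SLF := by
  classical
  intro p k₀ C v hp hdet hv3 hfv hnv
  obtain ⟨nu_lip, nu_hom, nu_nn, nu_zero, nu_le, nn_ge, nn_lip, nn_hom, nn_nn, nn_le⟩ := hNRM
  -- the linear map R
  set F : Fin 4 → (V →ₗ[ℝ] ℝ) := Function.update (fun k => (p k).f) k₀ (LinearMap.proj 3) with hF
  have hFk : ∀ k, k ≠ k₀ → F k = (p k).f := fun k hk => by
    rw [hF, Function.update_of_ne hk]
  have hF0 : F k₀ = LinearMap.proj 3 := by rw [hF, Function.update_self]
  set R : V →ₗ[ℝ] V := LinearMap.pi F with hR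
  have hRk : ∀ y k, R y k = F k y := fun y k => rfl
  have hRmat : LinearMap.toMatrix' R = rowMat F := by
    ext k i
    rw [LinearMap.toMatrix'_apply]
    rfl
  have hRdet : LinearMap.det R ≠ 0 := by
    rw [← LinearMap.det_toMatrix', hRmat]; exact hdet
  set eR := LinearMap.equivOfDetNeZero R hRdet with heR
  have heRa : ∀ y, eR y = R y := fun y => rfl
  obtain ⟨cN, hcN, hN⟩ := lin_bound (eR.symm : V →ₗ[ℝ] V)
  have hN' : ∀ z, ‖eR.symm z‖ ≤ cN * ‖z‖ := hN
  have hRv : R v = Pi.single k₀ 1 := by
    funext k
    by_cases hk : k = k₀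
    · rw [hk, hRk, hF0, Pi.single_eq_same]; exact hv3
    · rw [hRk, hFk k hk, hfv k hk, Pi.single_eq_of_ne hk]
  -- sign and delta
  obtain ⟨s, hs, hsdet⟩ : ∃ s : ℝ, (s = 1 ∨ s = -1) ∧ 0 < s * (rowMat F).det := by
    rcases lt_or_gt_of_ne hdet with h | h
    · exact ⟨-1, Or.inr rfl, by linarith⟩
    · exact ⟨1, Or.inl rfl, by linarith⟩
  have hss : s * s = 1 := by rcases hs with h | h <;> rw [h] <;> norm_num
  have hsabs : |s| = 1 := by rcases hs with h | h <;> rw [h] <;> norm_num
  have hs0 : s ≠ 0 := by intro h; rw [h] at hss; norm_num at hss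
  set δ : ℝ := (1 - nu v) / (8 * (cN + 1)) with hδ
  have hδ0 : 0 < δ := div_pos (by linarith) (by positivity)
  have hδN : 2 * δ * cN ≤ (1 - nu v) / 4 := by
    have e : δ * (8 * (cN + 1)) = 1 - nu v := by rw [hδ]; field_simp
    nlinarith
  -- the linear map M
  set M : V →ₗ[ℝ] V := LinearMap.pi (fun k => (if k = k₀ then s * δ else 1) • F k) with hM
  have hMk : ∀ y k, k ≠ k₀ → M y k = (p k).f y := fun y k hk => by
    change ((if k = k₀ then s * δ else 1) • F k) y = _
    rw [if_neg hk, one_smul, hFk k hk]
  have hM0 : ∀ y, M y k₀ = s * δ * y 3 := fun y => by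
    change ((if k₀ = k₀ then s * δ else 1) • F k₀) y = _
    rw [if_pos rfl, hF0]; rfl
  have hMmat : LinearMap.toMatrix' M =
      Matrix.diagonal (fun k => if k = k₀ then s * δ else 1) * rowMat F := by
    ext k i
    rw [LinearMap.toMatrix'_apply, Matrix.diagonal_mul]
    change ((if k = k₀ then s * δ else 1) • F k) _ = _
    rfl
  have hMdet' : (LinearMap.toMatrix' M).det = s * δ * (rowMat F).det := by
    rw [hMmat, Matrix.det_mul, Matrix.det_diagonal, Finset.prod_ite_eq']
    simp
  have hMpos : 0 < (LinearMap.toMatrix' M).det := by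
    rw [hMdet', mul_comm s δ, mul_assoc]; exact mul_pos hδ0 hsdet
  have hMdet : LinearMap.det M ≠ 0 := by
    rw [← LinearMap.det_toMatrix']; exact hMpos.ne'
  set eM := LinearMap.equivOfDetNeZero M hMdet with heM
  have heMa : ∀ y, eM y = M y := fun y => rfl
  obtain ⟨cM, hcM, hMb⟩ := lin_bound (eM.symm : V →ₗ[ℝ] V)
  have hMb' : ∀ z, ‖eM.symm z‖ ≤ cM * ‖z‖ := hMb
  -- coordinates of the inverse
  have inv_k : ∀ z k, k ≠ k₀ → (p k).f (eM.symm z) = z k := fun z k hk => by
    rw [← hMk _ k hk, ← heMa, LinearEquiv.apply_symm_apply]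
  have inv_0 : ∀ z : V, s * δ * (eM.symm z) 3 = z k₀ := fun z => by
    rw [← hM0, ← heMa, LinearEquiv.apply_symm_apply]
  -- decomposition of the inverse
  have hdec : ∀ z : V, eM.symm z =
      eR.symm (Function.update z k₀ 0) + (z k₀ / (s * δ)) • v := by
    intro z
    apply eR.injective
    rw [map_add, map_smul, LinearEquiv.apply_symm_apply, heRa, heRa, hRv]
    funext k
    by_cases hk : k = k₀
    · rw [hk, Pi.add_apply, Function.update_self, Pi.smul_apply, Pi.single_eq_same, hRk, hF0,
        smul_eq_mul, mul_one, zero_add, ← inv_0 z]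
      change eM.symm z 3 = _
      field_simp
    · rw [Pi.add_apply, Function.update_of_ne hk, Pi.smul_apply, Pi.single_eq_of_ne hk, hRk,
        hFk k hk, smul_zero, add_zero, inv_k z k hk]
  have nu_add : ∀ x y : V, nu (x + y) ≤ nu x + nu y := fun x y => by
    have h := nu_lip (x + y) y
    rw [add_sub_cancel_right] at h
    have := le_abs_self (nu (x + y) - nu y)
    linarith
  have upd_norm : ∀ z : V, ‖Function.update z k₀ 0‖ ≤ ‖z‖ := fun z => by
    rw [pi_norm_le_iff_of_nonneg (norm_nonneg z)]
    intro k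
    by_cases hk : k = k₀
    · rw [hk, Function.update_self, norm_zero]; exact norm_nonneg z
    · rw [Function.update_of_ne hk]; exact norm_le_pi_norm z k
  -- bound of delta * nu
  have hnuM : ∀ z : V, δ * nu (eM.symm z) ≤ 2 * δ * cN * ‖z‖ + |z k₀| * nu v := by
    intro z
    have h1 := nu_add (eR.symm (Function.update z k₀ 0)) ((z k₀ / (s * δ)) • v)
    rw [← hdec] at h1
    rw [nu_hom, abs_div, abs_mul, hsabs, one_mul, abs_of_pos hδ0] at h1
    have h2 := nu_le (eR.symm (Function.update z k₀ 0))
    have h3 := hN' (Function.update z k₀ 0)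
    have h4 := upd_norm z
    have h5 : δ * (|z k₀| / δ * nu v) = |z k₀| * nu v := by field_simp
    have h6 : nu (eR.symm (Function.update z k₀ 0)) ≤ 2 * (cN * ‖z‖) := by
      have : cN * ‖Function.update z k₀ 0‖ ≤ cN * ‖z‖ := mul_le_mul_of_nonneg_left h4 hcN.le
      linarith
    calc δ * nu (eM.symm z) ≤ δ * (2 * (cN * ‖z‖) + |z k₀| / δ * nu v) :=
          mul_le_mul_of_nonneg_left (by linarith) hδ0.le
      _ = _ := by rw [mul_add, h5]; ring
  -- constants of the planes
  have hPb : ∀ k, ∃ c : ℝ, 0 < c ∧ ∀ y, ‖(p k).P y‖ ≤ c * ‖y‖ := fun k => lin_bound (p k).P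
  choose cP hcP hPb using hPb
  set K : ℝ := ∑ k, cP k * (cM + ‖(p k).a‖) with hK
  have hKk : ∀ k, cP k * (cM + ‖(p k).a‖) ≤ K := fun k =>
    Finset.single_le_sum (f := fun k => cP k * (cM + ‖(p k).a‖))
      (fun i _ => mul_nonneg (hcP i).le (by positivity)) (Finset.mem_univ k)
  have hK0 : 0 ≤ K := Finset.sum_nonneg fun i _ => mul_nonneg (hcP i).le (by positivity)
  set ε₀ : ℝ := min (1 / (4 * cM + 4)) (1 / (2 * (K * |C|) + 2)) with hε₀
  refine ⟨ε₀, by
    rw [hε₀]
    exact lt_min (by positivity) (by positivity), ?_⟩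
  intro ε hε hεε τ hOk hτ
  have hε1 : ε < 1 / (4 * cM + 4) := lt_of_lt_of_le hεε (min_le_left _ _)
  have hε2 : ε < 1 / (2 * (K * |C|) + 2) := lt_of_lt_of_le hεε (min_le_right _ _)
  have hεM : 2 * ε * cM < 1 / 2 := by
    rw [lt_div_iff₀ (by positivity)] at hε1
    nlinarith
  have hεK : K * |C| * ε < 1 / 2 := by
    have hp2 : 0 < 2 * (K * |C|) + 2 := by positivity
    rw [lt_div_iff₀ hp2] at hε2
    nlinarith
  -- the thickness functions
  set T : Fin 4 → V → ℝ := fun k z =>
    if k = k₀ then δ * nu (eM.symm z) else ε * nn (eM.symm z) with hT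
  have hT0 : ∀ z, T k₀ z = δ * nu (eM.symm z) := fun z => if_pos rfl
  have hTk : ∀ k, k ≠ k₀ → ∀ z, T k z = ε * nn (eM.symm z) := fun k hk z => if_neg hk
  have hTb : ∀ k, k ≠ k₀ → ∀ z, T k z ≤ 2 * ε * cM * ‖z‖ := fun k hk z => by
    rw [hTk k hk]
    have h1 := nn_le (eM.symm z)
    have h2 := hMb' z
    nlinarith
  have hnv0 := nu_nn v
  have hMcont : Continuous M := LinearMap.continuous_of_finiteDimensional M
  refine hST (fun k => if k = k₀ then fatMem else thinMem (p k) ε (τ k)) M T ((1 + nu v) / 2)
    ?_ ?_ ?_ ?_ ?_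
  · intro k
    by_cases hk : k = k₀
    · rw [if_pos hk]; exact hFAT
    · rw [if_neg hk]; exact hOk k hk
  · exact ⟨hMcont, fun c x => map_smul M c x, eM.bijective⟩
  · refine ⟨by linarith, ?_, ?_, ?_, ?_, ?_⟩
    · intro i x y
      by_cases hi : i = k₀
      · rw [hi, hT0, hT0, ← mul_sub, abs_mul, abs_of_pos hδ0]
        have h1 := nu_lip (eM.symm x) (eM.symm y)
        rw [← map_sub] at h1
        have h2 := hnuM (x - y)
        have h3 : |(x - y) k₀| ≤ ‖x - y‖ := by
          rw [← Real.norm_eq_abs]; exact norm_le_pi_norm (x - y) k₀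
        have h4 : |(x - y) k₀| * nu v ≤ ‖x - y‖ * nu v := mul_le_mul_of_nonneg_right h3 hnv0
        have h5 : δ * |nu (eM.symm x) - nu (eM.symm y)| ≤ δ * nu (eM.symm (x - y)) :=
          mul_le_mul_of_nonneg_left h1 hδ0.le
        have h6 : 2 * δ * cN * ‖x - y‖ ≤ (1 - nu v) / 4 * ‖x - y‖ :=
          mul_le_mul_of_nonneg_right hδN (norm_nonneg _)
        nlinarith [norm_nonneg (x - y)]
      · rw [hTk i hi, hTk i hi, ← mul_sub, abs_mul, abs_of_pos hε]
        have h1 := nn_lip (eM.symm x) (eM.symm y)
        rw [← map_sub] at h1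
        have h2 := hMb' (x - y)
        have h3 : ε * |nn (eM.symm x) - nn (eM.symm y)| ≤ ε * (2 * (cM * ‖x - y‖)) :=
          mul_le_mul_of_nonneg_left (by linarith) hε.le
        nlinarith [norm_nonneg (x - y)]
    · intro i c x
      by_cases hi : i = k₀
      · rw [hi, hT0, hT0, map_smul, nu_hom]; ring
      · rw [hTk i hi, hTk i hi, map_smul, nn_hom]; ring
    · intro i x
      by_cases hi : i = k₀
      · rw [hi, hT0]; exact mul_nonneg hδ0.le (nu_nn _)
      · rw [hTk i hi]; exact mul_nonneg hε.le (nn_nn _)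
    · intro i x hx hxi
      have hne : eM.symm x ≠ 0 := fun h => hx (by
        have := congrArg eM h
        rwa [LinearEquiv.apply_symm_apply, map_zero] at this)
      by_cases hi : i = k₀
      · rw [hi, hT0]
        refine mul_pos hδ0 (lt_of_le_of_ne (nu_nn _) fun h0 => ?_)
        obtain ⟨h1, h2, h3⟩ := (nu_zero _).1 h0.symm
        apply hne
        have h4 := inv_0 x
        rw [← hi, hxi] at h4
        have h5 : (eM.symm x) 3 = 0 :=
          (mul_eq_zero.mp h4).resolve_left (mul_ne_zero hs0 hδ0.ne')
        funext j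
        fin_cases j
        · exact h1
        · exact h2
        · exact h3
        · exact h5
      · rw [hTk i hi]
        refine mul_pos hε ?_
        have h1 := nn_ge (eM.symm x)
        have h2 : 0 < ‖eM.symm x‖ := norm_pos_iff.mpr hne
        linarith
    · intro i x hx hxi
      have hxn : 0 < ‖x‖ := norm_pos_iff.mpr hx
      by_cases hi : i = k₀
      · rw [hi, hT0]
        rw [hi] at hxi
        have h1 := hnuM x
        have h2 : |x k₀| * nu v ≤ 1 / 2 * ‖x‖ * nu v := mul_le_mul_of_nonneg_right hxi hnv0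
        have h6 : 2 * δ * cN * ‖x‖ ≤ (1 - nu v) / 4 * ‖x‖ :=
          mul_le_mul_of_nonneg_right hδN (norm_nonneg _)
        nlinarith
      · have h1 := hTb i hi x
        nlinarith
  · intro k y hy
    by_cases hk : k = k₀
    · rw [if_pos hk, hk, hM0, hT0, ← heMa, LinearEquiv.symm_apply_apply, abs_mul, abs_mul, hsabs,
        one_mul, abs_of_pos hδ0]
      change |y 3| = nu y ↔ _
      constructor
      · intro h; rw [h]
      · intro h; exact mul_left_cancel₀ hδ0.ne' h
    · rw [if_neg hk, hMk y k hk, hTk k hk, ← heMa, LinearEquiv.symm_apply_apply]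
      rfl
  · intro k
    by_cases hk : k = k₀
    · -- the fat member
      rw [if_pos hk]
      subst hk
      have hx3 : ∀ w, (fatMem.x w) 3 = nu ![cv w 0, cv w 1, cv w 2, 0] := fun w => rfl
      have hnw : ∀ w, 0 < nu ![cv w 0, cv w 1, cv w 2, 0] := by
        intro w
        refine lt_of_le_of_ne (nu_nn _) fun h0 => ?_
        obtain ⟨h1, h2, h3⟩ := (nu_zero _).1 h0.symm
        apply HTaux.cv_ne w
        funext j
        fin_cases j
        · simpa using h1
        · simpa using h2
        · simpa using h3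
      refine ⟨s, hs, ?_, ?_⟩
      · intro w
        rw [hM0, hx3, ← mul_assoc, ← mul_assoc, hss, one_mul]
        exact mul_pos hδ0 (hnw w)
      · -- the linear part
        let L0 : (Fin 3 → ℝ) →ₗ[ℝ] V :=
          { toFun := fun w => ![-w 0, w 1, w 2, 0]
            map_add' := by intro x y; ext i; fin_cases i <;> simp <;> ring
            map_smul' := by intro c x; ext i; fin_cases i <;> simp }
        have hL0 : ∀ w, L0 w = ![-w 0, w 1, w 2, 0] := fun w => rfl
        have hcol : 0 < (colMat (![0, 0, 0, 1] : V) L0).det := by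
          have e : colMat (![0, 0, 0, 1] : V) L0 =
              !![0, -1, 0, 0; 0, 0, 1, 0; 0, 0, 0, 1; 1, 0, 0, 0] := by
            ext i j
            fin_cases j
            · change (![0, 0, 0, 1] : V) i = _
              fin_cases i <;> simp
            · change L0 (Pi.single 0 1) i = _
              rw [hL0]
              fin_cases i <;> simp
            · change L0 (Pi.single 1 1) i = _
              rw [hL0]
              fin_cases i <;> simp
            · change L0 (Pi.single 2 1) i = _
              rw [hL0]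
              fin_cases i <;> simp
          rw [e]
          simp [Matrix.det_succ_row_zero, Fin.sum_univ_succ, Fin.succAbove]
        obtain ⟨B, hB, hBw⟩ := hDET M ![0, 0, 0, 1] L0 k s hMpos hcol hs
          (by rw [hM0]
              change 0 < s * (s * δ * 1)
              rw [mul_one, ← mul_assoc, hss, one_mul]; exact hδ0)
          (by intro w; rw [hM0, hL0]; simp)
        have h1 := hGL3 B hB
        have h2 : (fun w => B.mulVec (cv w)) = fun w => s • prj k (M (L0 (cv w))) := by
          funext w; exact (hBw _).symm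
        rw [h2] at h1
        refine HTo.trans h1 (HTo.straight h1.continuous_right ?_ ?_)
        · exact ((prj_cont k).comp (hMcont.comp hFAT.x_cont)).const_smul s
        · intro w t ht h0
          set y : V := ![-cv w 0, cv w 1, cv w 2, t * nu ![cv w 0, cv w 1, cv w 2, 0]] with hy
          have e1 : (1 - t) • s • prj k (M (L0 (cv w))) + t • s • prj k (M (fatMem.x w)) =
              s • prj k (M y) := by
            have e2 : M y = (1 - t) • M (L0 (cv w)) + t • M (fatMem.x w) := by
              rw [← map_smul M, ← map_smul M, ← map_add M]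
              congr 1
              rw [hL0, hy]
              change _ = (1 - t) • ![-cv w 0, cv w 1, cv w 2, 0] +
                t • ![-cv w 0, cv w 1, cv w 2, nu ![cv w 0, cv w 1, cv w 2, 0]]
              ext i
              fin_cases i <;> simp <;> ring
            rw [e2, prj_add, prj_smul, prj_smul, smul_add, smul_comm (1 - t) s, smul_comm t s]
          rw [e1] at h0
          have h3 := (smul_eq_zero.mp h0).resolve_left hs0
          have h4 := prj_eq_zero h3
          -- y is a multiple of v
          have hyv : y = (y 3) • v := by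
            apply eR.injective
            rw [map_smul, heRa, heRa, hRv]
            funext i
            by_cases hi : i = k
            · rw [hi, hRk, hF0, Pi.smul_apply, Pi.single_eq_same, smul_eq_mul, mul_one]; rfl
            · rw [hRk, hFk i hi, ← hMk y i hi, h4 i hi, Pi.smul_apply, Pi.single_eq_of_ne hi,
                smul_zero]
          have hy3 : y 3 = t * nu ![cv w 0, cv w 1, cv w 2, 0] := rfl
          have hnuy : nu y = nu ![cv w 0, cv w 1, cv w 2, 0] := by
            have e0 : ‖(⟨-cv w 0, cv w 1⟩ : ℂ)‖ = ‖(⟨cv w 0, cv w 1⟩ : ℂ)‖ := by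
              rw [Complex.norm_def, Complex.norm_def, Complex.normSq_mk, Complex.normSq_mk]
              congr 1; ring
            unfold nu
            rw [hy]
            change max ‖(⟨-cv w 0, cv w 1⟩ : ℂ)‖ (|cv w 2| / 2) =
              max ‖(⟨cv w 0, cv w 1⟩ : ℂ)‖ (|cv w 2| / 2)
            rw [e0]
          have h5 : nu y = |y 3| * nu v := by
            conv_lhs => rw [hyv]
            rw [nu_hom]
          rw [hnuy, hy3, abs_mul, abs_of_nonneg ht.1, abs_of_pos (hnw w)] at h5
          have h6 := hnw w
          have h7 : t * nu ![cv w 0, cv w 1, cv w 2, 0] * nu v <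
              nu ![cv w 0, cv w 1, cv w 2, 0] := by
            have h8 : t * nu ![cv w 0, cv w 1, cv w 2, 0] ≤ nu ![cv w 0, cv w 1, cv w 2, 0] := by
              have := ht.2
              nlinarith
            have h9 : t * nu ![cv w 0, cv w 1, cv w 2, 0] * nu v ≤
                nu ![cv w 0, cv w 1, cv w 2, 0] * nu v := mul_le_mul_of_nonneg_right h8 hnv0
            nlinarith
          linarith
    · -- a thin member
      rw [if_neg hk]
      have hxw : ∀ w, (thinMem (p k) ε (τ k)).x w = τ k w • (p k).a + (p k).L (cv w) :=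
        fun w => rfl
      have hgx : ∀ w, (p k).f (τ k w • (p k).a + (p k).L (cv w)) = τ k w := by
        intro w
        rw [map_add, map_smul, (hp k hk).fa, (hp k hk).fL, smul_eq_mul, mul_one, add_zero]
      refine ⟨1, Or.inl rfl, ?_, ?_⟩
      · intro w
        rw [one_mul, hxw, hMk _ k hk, hgx]
        exact (hτ k hk w).1
      · obtain ⟨B, hB, hBw⟩ := hDET M (p k).a (p k).L k 1 hMpos (hp k hk).det (Or.inl rfl)
          (by rw [hMk _ k hk, (hp k hk).fa]; norm_num)
          (by intro w; rw [hMk _ k hk, (hp k hk).fL])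
        have h1 := hGL3 B hB
        have h2 : (fun w => B.mulVec (cv w)) = fun w => (1 : ℝ) • prj k (M ((p k).L (cv w))) := by
          funext w; exact (hBw _).symm
        rw [h2] at h1
        refine HTo.trans h1 (HTo.straight h1.continuous_right ?_ ?_)
        · exact ((prj_cont k).comp (hMcont.comp (hOk k hk).x_cont)).const_smul (1 : ℝ)
        · intro w t ht h0
          set y : V := (t * τ k w) • (p k).a + (p k).L (cv w) with hy
          have e1 : (1 - t) • (1 : ℝ) • prj k (M ((p k).L (cv w))) +
              t • (1 : ℝ) • prj k (M ((thinMem (p k) ε (τ k)).x w)) = prj k (M y) := by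
            have e2 : M y = (1 - t) • M ((p k).L (cv w)) +
                t • M ((thinMem (p k) ε (τ k)).x w) := by
              rw [← map_smul M, ← map_smul M, ← map_add M]
              congr 1
              rw [hxw, hy]
              module
            rw [e2, prj_add, prj_smul, prj_smul, one_smul, one_smul]
          rw [e1] at h0
          have h4 := prj_eq_zero h0
          have hMy : M y = (t * τ k w) • Pi.single k 1 := by
            funext i
            by_cases hi : i = k
            · rw [hi, hMk y k hk, Pi.smul_apply, Pi.single_eq_same, smul_eq_mul, mul_one, hy,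
                map_add, map_smul, (hp k hk).fa, (hp k hk).fL, smul_eq_mul, mul_one, add_zero]
            · rw [h4 i hi, Pi.smul_apply, Pi.single_eq_of_ne hi, smul_zero]
          obtain ⟨hτ0, hτ1⟩ := hτ k hk w
          have htτ : 0 ≤ t * τ k w := mul_nonneg ht.1 hτ0.le
          have htτ1 : t * τ k w ≤ |C| * ε := by
            have h5 : t * τ k w ≤ τ k w := by
              have := ht.2
              nlinarith
            have h6 : C * ε ≤ |C| * ε := mul_le_mul_of_nonneg_right (le_abs_self C) hε.le
            linarith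
          have hyn : ‖y‖ ≤ cM * (t * τ k w) := by
            have h5 : eM.symm (M y) = y := by rw [← heMa, LinearEquiv.symm_apply_apply]
            have h6 := hMb' (M y)
            rw [h5] at h6
            refine h6.trans ?_
            rw [hMy, norm_smul, Real.norm_eq_abs, abs_of_nonneg htτ]
            have h7 : ‖(Pi.single k 1 : V)‖ ≤ 1 := by
              rw [pi_norm_le_iff_of_nonneg zero_le_one]
              intro i
              by_cases hi : i = k
              · rw [hi, Pi.single_eq_same, norm_one]
              · rw [Pi.single_eq_of_ne hi, norm_zero]; exact zero_le_one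
            have h8 : t * τ k w * ‖(Pi.single k 1 : V)‖ ≤ t * τ k w * 1 :=
              mul_le_mul_of_nonneg_left h7 htτ
            exact mul_le_mul_of_nonneg_left (by linarith) hcM.le
          have hLn : ‖(p k).L (cv w)‖ ≤ (cM + ‖(p k).a‖) * (t * τ k w) := by
            have h5 : (p k).L (cv w) = y - (t * τ k w) • (p k).a := by rw [hy]; abel
            rw [h5]
            refine (norm_sub_le _ _).trans ?_
            rw [norm_smul, Real.norm_eq_abs, abs_of_nonneg htτ]
            nlinarith
          have h9 := hPb k ((p k).L (cv w))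
          rw [(hp k hk).PL] at h9
          have h10 := half_le w
          have h11 : ‖cv w‖ ≤ cP k * (cM + ‖(p k).a‖) * (|C| * ε) := by
            calc ‖cv w‖ ≤ cP k * ‖(p k).L (cv w)‖ := h9
              _ ≤ cP k * ((cM + ‖(p k).a‖) * (t * τ k w)) :=
                mul_le_mul_of_nonneg_left hLn (hcP k).le
              _ = cP k * (cM + ‖(p k).a‖) * (t * τ k w) := by ring
              _ ≤ cP k * (cM + ‖(p k).a‖) * (|C| * ε) :=
                mul_le_mul_of_nonneg_left htτ1 (mul_nonneg (hcP k).le (by positivity))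
          have h12 : cP k * (cM + ‖(p k).a‖) * (|C| * ε) ≤ K * (|C| * ε) :=
            mul_le_mul_of_nonneg_right (hKk k) (by positivity)
          nlinarith

end Pool.Agent.Work.MP_363f1e_co
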