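import Pool.Agent.Work.MP_363f1e_co.Interface

/-!
Block SLT: four independent thin members form an arrangement of class `S` (helper53).
-/

namespace Pool.Agent.Work.MP_363f1e_co

namespace SLTaux

theorem HTo_trans {q q' q'' : S2 → (Fin 3 → ℝ)} (h1 : HTo q q') (h2 : HTo q' q'') :
    HTo q q'' := by
  obtain ⟨H, Hc, Hn, H0, H1⟩ := h1
  obtain ⟨G, Gc, Gn, G0, G1⟩ := h2
  let a : C(S2, {v : Fin 3 → ℝ // v ≠ 0}) :=
    ⟨fun w => ⟨H (0, w), Hn _⟩, (Hc.comp (by fun_prop)).subtype_mk _⟩
  let b : C(S2, {v : Fin 3 → ℝ // v ≠ 0}) :=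
    ⟨fun w => ⟨H (1, w), Hn _⟩, (Hc.comp (by fun_prop)).subtype_mk _⟩
  let c : C(S2, {v : Fin 3 → ℝ // v ≠ 0}) :=
    ⟨fun w => ⟨G (1, w), Gn _⟩, (Gc.comp (by fun_prop)).subtype_mk _⟩
  let F1 : ContinuousMap.Homotopy a b :=
    { toFun := fun p => ⟨H p, Hn p⟩
      continuous_toFun := Hc.subtype_mk _
      map_zero_left := fun w => rfl
      map_one_left := fun w => rfl }
  let F2 : ContinuousMap.Homotopy b c :=
    { toFun := fun p => ⟨G p, Gn p⟩
      continuous_toFun := Gc.subtype_mk _
      map_zero_left := fun w => Subtype.ext (by change G (0, w) = H (1, w); rw [G0, H1])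
      map_one_left := fun w => rfl }
  let F := F1.trans F2
  refine ⟨fun p => (F p).1, continuous_subtype_val.comp F.continuous, fun p => (F p).2, ?_, ?_⟩
  · intro w
    have h : F (0, w) = a w := F.apply_zero w
    change (F (0, w)).1 = q w
    rw [h]
    exact H0 w
  · intro w
    have h : F (1, w) = c w := F.apply_one w
    change (F (1, w)).1 = q'' w
    rw [h]
    exact G1 w

theorem exists_bound {n m : ℕ} (f : (Fin n → ℝ) →ₗ[ℝ] (Fin m → ℝ)) :
    ∃ K : ℝ, 0 ≤ K ∧ ∀ y, ‖f y‖ ≤ K * ‖y‖ :=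
  ⟨‖LinearMap.toContinuousLinearMap f‖, norm_nonneg _, fun y =>
    (LinearMap.toContinuousLinearMap f).le_opNorm y⟩

theorem cv_norm (w : S2) : 1 / 2 ≤ ‖cv w‖ := by
  by_contra h
  push Not at h
  have hw : ‖(w : EuclideanSpace ℝ (Fin 3))‖ = 1 := mem_sphere_zero_iff_norm.1 w.2
  have h1 : eu (cv w) = 1 := by unfold eu cv; simp
  have h2 : eu (cv w) ^ 2 = ∑ i, cv w i ^ 2 := eu_sq _
  rw [h1, Fin.sum_univ_three] at h2
  have h3 : ∀ i, cv w i ^ 2 ≤ 1 / 4 := by
    intro i
    have h4 : |cv w i| ≤ ‖cv w‖ := norm_le_pi_norm (cv w) i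
    have h5 : |cv w i| ≤ 1 / 2 := h4.trans h.le
    have h6 := abs_le.1 h5
    nlinarith [h6.1, h6.2]
  have := h3 0
  have := h3 1
  have := h3 2
  linarith

theorem cv_cont : Continuous cv :=
  (PiLp.continuous_ofLp 2 _).comp continuous_subtype_val

theorem prj_zero {k : Fin 4} {y : V} (h : prj k y = 0) (j : Fin 3) : y (k.succAbove j) = 0 := by
  have h1 : sg k j * y (k.succAbove j) = 0 := congrFun h j
  have h2 : sg k j ≠ 0 := by
    unfold sg
    split
    · exact pow_ne_zero _ (by norm_num)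
    · exact one_ne_zero
  exact (mul_eq_zero.1 h1).resolve_left h2

theorem prj_cont (k : Fin 4) : Continuous (prj k) :=
  continuous_pi fun _ => continuous_const.mul (continuous_apply _)

theorem norm_of_prj_zero {k : Fin 4} {y : V} (h : prj k y = 0) : ‖y‖ ≤ |y k| := by
  refine (pi_norm_le_iff_of_nonneg (abs_nonneg _)).2 fun i => ?_
  rcases eq_or_ne i k with rfl | hi
  · exact le_rfl
  · obtain ⟨j, rfl⟩ := Fin.exists_succAbove_eq hi
    rw [prj_zero h _, norm_zero]
    exact abs_nonneg _

end SLTaux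

open SLTaux in
set_option maxHeartbeats 4000000 in
theorem blk_SLT (hST : Stmt_ST) (hDET : Stmt_DET) (hGL3 : Stmt_GL3) (hNRM : Stmt_NRM) :
    Stmt_SLT := by
  intro p C hp hdet
  obtain ⟨-, -, -, -, -, hnn4, hnnL, hnnh, hnn0, hnn2⟩ := hNRM
  -- signs
  let d : ℝ := (rowMat fun k => (p k).f).det
  let s0 : ℝ := if 0 < d then 1 else -1
  have hs0 : s0 = 1 ∨ s0 = -1 := by
    by_cases h : 0 < d
    · left; simp [s0, h]
    · right; simp [s0, h]
  have hs0d : 0 < s0 * d := by
    by_cases h : 0 < d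
    · simp [s0, h]
    · have h1 : d < 0 := lt_of_le_of_ne (not_lt.1 h) hdet
      have h2 : s0 = -1 := by simp [s0, h]
      rw [h2]; linarith
  let σ : Fin 4 → ℝ := fun k => if k = 0 then s0 else 1
  have hσ : ∀ k, σ k = 1 ∨ σ k = -1 := by
    intro k
    by_cases h : k = 0
    · simp only [σ, h, if_true]; exact hs0
    · left; simp [σ, h]
  have hσ2 : ∀ k, σ k * σ k = 1 := by
    intro k
    rcases hσ k with h | h <;> rw [h] <;> norm_num
  have hσa : ∀ k, |σ k| = 1 := by
    intro k
    rcases hσ k with h | h <;> rw [h] <;> norm_num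
  let A : V →ₗ[ℝ] V := LinearMap.pi fun k => σ k • (p k).f
  have hA : ∀ y k, A y k = σ k * (p k).f y := fun y k => rfl
  have hmat : LinearMap.toMatrix' A = Matrix.diagonal σ * rowMat fun k => (p k).f := by
    ext i j
    rw [Matrix.diagonal_mul, LinearMap.toMatrix'_apply]
    rfl
  have hdetA : 0 < (LinearMap.toMatrix' A).det := by
    rw [hmat, Matrix.det_mul, Matrix.det_diagonal, Fin.prod_univ_four]
    have h1 : σ 0 * σ 1 * σ 2 * σ 3 = s0 := by simp [σ]
    rw [h1]
    exact hs0d
  have hdetA' : LinearMap.det A ≠ 0 := by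
    rw [← LinearMap.det_toMatrix']
    exact hdetA.ne'
  let e := LinearMap.equivOfDetNeZero A hdetA'
  have heA : ∀ y, e y = A y := fun y => rfl
  have hes : ∀ y, e.symm (A y) = y := fun y => e.symm_apply_apply y
  obtain ⟨K, hK0, hK⟩ := exists_bound (e.symm : V →ₗ[ℝ] V)
  have hK' : ∀ y, ‖e.symm y‖ ≤ K * ‖y‖ := hK
  have hPb : ∃ Kp : ℝ, 0 ≤ Kp ∧ ∀ k y, ‖(p k).P y‖ ≤ Kp * ‖y‖ := by
    choose Q hQ0 hQ using fun k => exists_bound (p k).P
    refine ⟨∑ k, Q k, Finset.sum_nonneg fun k _ => hQ0 k, fun k y => (hQ k y).trans ?_⟩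
    exact mul_le_mul_of_nonneg_right
      (Finset.single_le_sum (fun k _ => hQ0 k) (Finset.mem_univ k)) (norm_nonneg y)
  obtain ⟨Kp, hKp0, hKp⟩ := hPb
  have hGood : Good A := by
    refine ⟨A.continuous_of_finiteDimensional, fun c x => map_smul A c x, ?_⟩
    exact e.bijective
  let D : ℝ := 4 * K + 2 * (Kp * K * |C|) + 1
  have hKK : 0 ≤ Kp * K * |C| := mul_nonneg (mul_nonneg hKp0 hK0) (abs_nonneg _)
  have hD : 0 < D := by
    have : D = 4 * K + 2 * (Kp * K * |C|) + 1 := rfl
    rw [this]; linarith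
  refine ⟨1 / D, one_div_pos.2 hD, ?_⟩
  intro ε hε hεD τ hok hτ
  have hεD1 : ε * D < 1 := by
    rwa [lt_div_iff₀ hD] at hεD
  have hεe : ε * D = 4 * (ε * K) + 2 * (Kp * K * |C| * ε) + ε := by
    have : D = 4 * K + 2 * (Kp * K * |C|) + 1 := rfl
    rw [this]; ring
  have hεK0 : 0 ≤ ε * K := mul_nonneg hε.le hK0
  have hεC0 : 0 ≤ Kp * K * |C| * ε := mul_nonneg hKK hε.le
  have hε1 : 4 * (ε * K) < 1 := by linarith
  have hε2 : 2 * (Kp * K * |C| * ε) < 1 := by linarith
  refine hST _ A (fun _ y => ε * nn (e.symm y)) (2 * (ε * K)) hok hGood ?_ ?_ ?_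
  · refine ⟨by linarith, ?_, ?_, ?_, ?_, ?_⟩
    · intro i x y
      have h1 : ε * nn (e.symm x) - ε * nn (e.symm y) =
          ε * (nn (e.symm x) - nn (e.symm y)) := by ring
      rw [h1, abs_mul, abs_of_pos hε]
      have h2 := hnnL (e.symm x) (e.symm y)
      have h3 : ‖e.symm x - e.symm y‖ ≤ K * ‖x - y‖ := by
        rw [← map_sub]; exact hK' _
      calc ε * |nn (e.symm x) - nn (e.symm y)| ≤ ε * (2 * (K * ‖x - y‖)) :=
            mul_le_mul_of_nonneg_left (by linarith) hε.le
        _ = 2 * (ε * K) * ‖x - y‖ := by ring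
    · intro i c x
      rw [map_smul, hnnh]; ring
    · intro i x
      exact mul_nonneg hε.le (hnn0 _)
    · intro i x hx _
      have h1 : e.symm x ≠ 0 := by
        intro h
        exact hx (by simpa using h)
      have h2 := hnn4 (e.symm x)
      have h3 : 0 < ‖e.symm x‖ := norm_pos_iff.2 h1
      exact mul_pos hε (by linarith)
    · intro i x hx _
      have h1 := hnn2 (e.symm x)
      have h2 := hK' x
      have h3 : 0 < ‖x‖ := norm_pos_iff.2 hx
      calc ε * nn (e.symm x) ≤ ε * (2 * (K * ‖x‖)) :=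
            mul_le_mul_of_nonneg_left (by linarith) hε.le
        _ = 2 * (ε * K) * ‖x‖ := by ring
        _ < 1 / 2 * ‖x‖ := mul_lt_mul_of_pos_right (by linarith) h3
  · intro k y _
    change |(p k).f y| = ε * nn y ↔ |A y k| = ε * nn (e.symm (A y))
    rw [hes, hA, abs_mul, hσa, one_mul]
  · intro k
    have hx : ∀ w, (thinMem (p k) ε (τ k)).x w = τ k w • (p k).a + (p k).L (cv w) := fun w => rfl
    have hfx : ∀ (t : ℝ) (w : Fin 3 → ℝ), (p k).f (t • (p k).a + (p k).L w) = t := by
      intro t w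
      rw [map_add, map_smul, (hp k).fa, (hp k).fL, smul_eq_mul, mul_one, add_zero]
    have hτc : Continuous (τ k) := by
      have h1 : τ k = fun w => (p k).f ((thinMem (p k) ε (τ k)).x w) := by
        funext w
        rw [hx, hfx]
      rw [h1]
      exact (LinearMap.continuous_of_finiteDimensional (p k).f).comp (hok k).x_cont
    refine ⟨σ k, hσ k, ?_, ?_⟩
    · intro w
      rw [hx, hA, hfx, ← mul_assoc, hσ2, one_mul]
      exact (hτ k w).1
    · obtain ⟨B, hB, hBe⟩ := hDET A (p k).a (p k).L k (σ k) hdetA (hp k).det (hσ k)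
        (by rw [hA, (hp k).fa, mul_one, hσ2]; exact one_pos)
        (fun w => by rw [hA, (hp k).fL, mul_zero])
      refine HTo_trans (hGL3 B hB) ?_
      refine ⟨fun q => σ k • prj k (A (((q.1 : ℝ) * τ k q.2) • (p k).a + (p k).L (cv q.2))),
        ?_, ?_, ?_, ?_⟩
      · have hAc : Continuous A := A.continuous_of_finiteDimensional
        have hLc : Continuous (p k).L := (p k).L.continuous_of_finiteDimensional
        have c1 : Continuous fun q : unitInterval × S2 => (q.1 : ℝ) :=
          continuous_subtype_val.comp continuous_fst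
        have c2 : Continuous fun q : unitInterval × S2 => τ k q.2 := hτc.comp continuous_snd
        have c3 : Continuous fun q : unitInterval × S2 => (p k).L (cv q.2) :=
          hLc.comp (cv_cont.comp continuous_snd)
        have c4 : Continuous fun q : unitInterval × S2 =>
            ((q.1 : ℝ) * τ k q.2) • (p k).a + (p k).L (cv q.2) :=
          ((c1.mul c2).smul continuous_const).add c3
        exact ((prj_cont k).comp (hAc.comp c4)).const_smul (σ k)
      · rintro ⟨s, w⟩ h
        have hσk : σ k ≠ 0 := by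
          intro h0
          have := hσ2 k
          rw [h0] at this
          norm_num at this
        have h0 : prj k (A (((s : ℝ) * τ k w) • (p k).a + (p k).L (cv w))) = 0 :=
          (smul_eq_zero.1 h).resolve_left hσk
        set y : V := ((s : ℝ) * τ k w) • (p k).a + (p k).L (cv w) with hy
        have h1 := norm_of_prj_zero h0
        have h2 : |A y k| = (s : ℝ) * τ k w := by
          rw [hA, hy, hfx, abs_mul, hσa, one_mul]
          exact abs_of_nonneg (mul_nonneg s.2.1 (hτ k w).1.le)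
        have h3 : (s : ℝ) * τ k w ≤ |C| * ε := by
          have h4 : (s : ℝ) * τ k w ≤ 1 * τ k w :=
            mul_le_mul_of_nonneg_right s.2.2 (hτ k w).1.le
          have h5 : C * ε ≤ |C| * ε := mul_le_mul_of_nonneg_right (le_abs_self C) hε.le
          have h6 := (hτ k w).2
          linarith
        have h4 : (p k).P y = cv w := by
          rw [hy, map_add, map_smul, (hp k).Pa, (hp k).PL, smul_zero, zero_add]
        have h5 : ‖cv w‖ ≤ Kp * ‖y‖ := by
          rw [← h4]; exact hKp k y
        have h6 : ‖y‖ ≤ K * ‖A y‖ := by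
          have := hK' (A y)
          rwa [hes] at this
        have h7 : ‖A y‖ ≤ |C| * ε := by
          rw [h2] at h1
          exact h1.trans h3
        have h8 : Kp * ‖y‖ ≤ Kp * (K * (|C| * ε)) :=
          mul_le_mul_of_nonneg_left
            (h6.trans (mul_le_mul_of_nonneg_left h7 hK0)) hKp0
        have h9 := cv_norm w
        have h10 : Kp * (K * (|C| * ε)) = Kp * K * |C| * ε := by ring
        linarith
      · intro w
        have h1 : (((0 : unitInterval) : ℝ) * τ k w) • (p k).a + (p k).L (cv w) =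
            (p k).L (cv w) := by
          rw [Set.Icc.coe_zero, zero_mul, zero_smul, zero_add]
        change σ k • prj k (A ((((0 : unitInterval) : ℝ) * τ k w) • (p k).a + (p k).L (cv w))) =
          B.mulVec (cv w)
        rw [h1]
        exact hBe (cv w)
      · intro w
        have h1 : (((1 : unitInterval) : ℝ) * τ k w) • (p k).a + (p k).L (cv w) =
            (thinMem (p k) ε (τ k)).x w := by
          rw [Set.Icc.coe_one, one_mul, hx]
        change σ k • prj k (A ((((1 : unitInterval) : ℝ) * τ k w) • (p k).a + (p k).L (cv w))) =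
          σ k • prj k (A ((thinMem (p k) ε (τ k)).x w))
        rw [h1]

end Pool.Agent.Work.MP_363f1e_co
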