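import Pool.Agent.Work.MP_363f1e_co.MO
import Pool.Agent.Work.MP_363f1e_co.HT

namespace Pool.Agent.Work.MP_363f1e_co

open MOaux

namespace STaux

theorem sign_neg {F : V → V} (hF : Good F) (h : ∀ x i, 0 < x i → 0 < F x i) (x : V) (i : Fin 4)
    (hx : x i < 0) : F x i < 0 := by
  have h1 := h (-x) i (by simpa using hx)
  have h2 : F (-x) = -F x := by
    have := hF.hom (-1) x
    simpa using this
  rw [h2] at h1
  simpa using h1

theorem prj_continuous (k : Fin 4) : Continuous (prj k) := by
  refine continuous_pi fun j => ?_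
  exact continuous_const.mul (continuous_apply _)

end STaux

open STaux

theorem blk_ST (hLL : Stmt_LL) (hSEU : Stmt_SEU) : Stmt_ST := by
  intro m M T L hm hM hT hrel hor
  obtain ⟨F1, hF1, hp1, hz1, hw1⟩ := hLL T L hT
  obtain ⟨F2, hF2, hp2, hz2, hw2⟩ := hSEU
  have hF : Good (F2 ∘ F1) := hF2.comp hF1
  have hpos : ∀ x i, 0 < x i → 0 < (F2 ∘ F1) x i := fun x i h => hp2 _ i (hp1 x i h)
  have hzero : ∀ x i, x i = 0 → (F2 ∘ F1) x i = 0 := fun x i h => hz2 _ i (hz1 x i h)
  have hneg := sign_neg hF hpos
  refine ⟨(F2 ∘ F1) ∘ M, hF.comp hM, fun k => ⟨fun y hy => ?_, ?_⟩⟩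
  · rw [hrel k y hy, hw1 _ (hM.ne_zero hy), hw2 _ (hF1.ne_zero (hM.ne_zero hy))]
    rfl
  · obtain ⟨σ, hσ, h1, h2⟩ := hor k
    refine ⟨σ, hσ, fun w => ?_, ?_⟩
    · change 0 < σ * (F2 ∘ F1) (M ((m k).x w)) k
      have h3 := h1 w
      rcases hσ with rfl | rfl
      · rw [one_mul] at h3 ⊢; exact hpos _ _ h3
      · have h4 : M ((m k).x w) k < 0 := by linarith
        have h5 := hneg _ _ h4
        linarith
    · refine h2.trans (HTo.straight ?_ ?_ ?_)
      · exact h2.continuous_right
      · exact (((prj_continuous k).comp ((hF.comp hM).cont.comp (hm k).x_cont))).const_smul σ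
      · intro w s hs h0
        obtain ⟨hs0, hs1⟩ := hs
        have hnz : σ • prj k (M ((m k).x w)) ≠ 0 := h2.left.2 w
        apply hnz
        ext j
        have h3 := congrFun h0 j
        simp only [Pi.add_apply, Pi.smul_apply, smul_eq_mul, seMem, prj, Function.comp_apply,
          Pi.zero_apply] at h3 ⊢
        set a := M ((m k).x w) (k.succAbove j) with ha
        set b := F2 (F1 (M ((m k).x w))) (k.succAbove j) with hb
        have hσ2 : σ * sg k j ≠ 0 := by
          have : sg k j ≠ 0 := by
            unfold sg; split_ifs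
            · exact pow_ne_zero _ (by norm_num)
            · norm_num
          rcases hσ with rfl | rfl <;> simpa using this
        have h4 : (σ * sg k j) * ((1 - s) * a + s * b) = 0 := by linarith
        have h5 : (1 - s) * a + s * b = 0 := (mul_eq_zero.1 h4).resolve_left hσ2
        rcases lt_trichotomy a 0 with h | h | h
        · have h6 : b < 0 := hneg _ _ h
          exfalso
          rcases lt_or_ge s 1 with h7 | h7
          · nlinarith
          · have : s = 1 := le_antisymm hs1 h7
            rw [this] at h5; nlinarith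
        · rw [h]; ring
        · have h6 : 0 < b := hpos _ _ h
          exfalso
          rcases lt_or_ge s 1 with h7 | h7
          · nlinarith
          · have : s = 1 := le_antisymm hs1 h7
            rw [this] at h5; nlinarith

end Pool.Agent.Work.MP_363f1e_co
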