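import Mathlib
import Pool.Agent.Work.MP_363f1e_co.Interface

/-!
Block THIN: thin members exist (helper89).
-/

namespace Pool.Agent.Work.MP_363f1e_co

namespace THINaux

theorem cv_continuous : Continuous cv := by
  unfold cv
  exact (PiLp.continuous_ofLp 2 _).comp continuous_subtype_val

theorem eu_cv (w : S2) : eu (cv w) = 1 := by
  have hw : ‖(w : EuclideanSpace ℝ (Fin 3))‖ = 1 := mem_sphere_zero_iff_norm.1 w.2
  unfold eu cv
  simp

theorem cv_ne (w : S2) : cv w ≠ 0 := by
  intro h
  have h1 := eu_cv w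
  rw [eu_eq_zero.2 h] at h1
  exact zero_ne_one h1

theorem cv_unitV (x : Fin 3 → ℝ) (hx : x ≠ 0) : cv (unitV x hx) = (eu x)⁻¹ • x := by
  funext i
  exact unitV_apply x hx i

/-- the decomposition of a vector along a correct plane -/
theorem decomp (p : Pl) (hp : p.Ok) (y : V) : y = p.f y • p.a + p.L (p.P y) := by
  have hdet : IsUnit (colMat p.a p.L).det := hp.det.ne'.isUnit
  obtain ⟨v, hv⟩ : ∃ v : Fin 4 → ℝ, (colMat p.a p.L).mulVec v = y :=
    ⟨(colMat p.a p.L)⁻¹.mulVec y, by
      rw [Matrix.mulVec_mulVec, Matrix.mul_nonsing_inv _ hdet, Matrix.one_mulVec]⟩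
  have hL : ∀ w : Fin 3 → ℝ, p.L w = ∑ m, w m • p.L (Pi.single m 1) := by
    intro w
    conv_lhs => rw [← Finset.univ_sum_single w]
    rw [map_sum]
    refine Finset.sum_congr rfl fun m _ => ?_
    rw [← map_smul]
    congr 1
    funext i
    by_cases h : i = m
    · subst h; simp
    · simp [Pi.single_eq_of_ne h]
  have e : y = v 0 • p.a + p.L (fun m => v m.succ) := by
    rw [← hv, hL]
    funext i
    rw [Matrix.mulVec, dotProduct, Fin.sum_univ_succ]
    simp only [colMat, Matrix.of_apply, Fin.cases_zero, Fin.cases_succ, Pi.add_apply,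
      Pi.smul_apply, smul_eq_mul, Finset.sum_apply]
    congr 1
    · ring
    · exact Finset.sum_congr rfl fun m _ => by ring
  have hf : p.f y = v 0 := by
    rw [e, map_add, map_smul, hp.fa, hp.fL]; simp
  have hP : p.P y = fun m => v m.succ := by
    rw [e, map_add, map_smul, hp.Pa, hp.PL]; simp
  rw [hf, hP]
  exact e

end THINaux

open THINaux in
theorem blk_THIN (hNRM : Stmt_NRM) : Stmt_THIN := by
  obtain ⟨-, -, -, -, -, n6, n7, n8, n9, n10⟩ := hNRM
  intro p hp
  have hLc : Continuous p.L := LinearMap.continuous_of_finiteDimensional p.L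
  have hfc : Continuous p.f := LinearMap.continuous_of_finiteDimensional p.f
  have hPc : Continuous p.P := LinearMap.continuous_of_finiteDimensional p.P
  have hLw : Continuous fun w : S2 => p.L (cv w) := hLc.comp cv_continuous
  have hnnc : Continuous nn := by
    rw [Metric.continuous_iff]
    intro b e he
    refine ⟨e / 4, by linarith, fun a ha => ?_⟩
    rw [Real.dist_eq]
    rw [dist_eq_norm] at ha
    have := n7 a b
    linarith
  obtain ⟨B, hB⟩ := isCompact_univ.exists_bound_of_continuousOn (hLw.continuousOn (s := Set.univ))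
  have hB' : ∀ w : S2, ‖p.L (cv w)‖ ≤ B := fun w => hB w (Set.mem_univ w)
  have ha1 : 0 < ‖p.a‖ + 1 := by positivity
  refine ⟨4 * B, 1 / (4 * (‖p.a‖ + 1)), by positivity, fun ε hε hε0 => ?_⟩
  have hK : 2 * ε * ‖p.a‖ ≤ 1 / 2 := by
    have h1 : ε * (4 * (‖p.a‖ + 1)) < 1 := by
      rwa [lt_div_iff₀ (by positivity)] at hε0
    nlinarith
  -- the contraction estimate
  have hcon : ∀ (t t' : ℝ) (u u' : V),
      |ε * nn (t • p.a + u) - ε * nn (t' • p.a + u')| ≤ 1 / 2 * |t - t'| + 2 * ε * ‖u - u'‖ := by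
    intro t t' u u'
    have h1 := n7 (t • p.a + u) (t' • p.a + u')
    have h2 : (t • p.a + u) - (t' • p.a + u') = (t - t') • p.a + (u - u') := by
      rw [sub_smul]; abel
    rw [h2] at h1
    have h3 : ‖(t - t') • p.a + (u - u')‖ ≤ |t - t'| * ‖p.a‖ + ‖u - u'‖ := by
      refine (norm_add_le _ _).trans ?_
      rw [norm_smul, Real.norm_eq_abs]
    rw [← mul_sub, abs_mul, abs_of_pos hε]
    calc ε * |nn (t • p.a + u) - nn (t' • p.a + u')|
        ≤ ε * (2 * (|t - t'| * ‖p.a‖ + ‖u - u'‖)) :=
          mul_le_mul_of_nonneg_left (h1.trans (by linarith)) hε.le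
      _ = (2 * ε * ‖p.a‖) * |t - t'| + 2 * ε * ‖u - u'‖ := by ring
      _ ≤ 1 / 2 * |t - t'| + 2 * ε * ‖u - u'‖ := by
          have := mul_le_mul_of_nonneg_right hK (abs_nonneg (t - t'))
          linarith
  -- fixed points
  have hex : ∀ u : V, ∃ t : ℝ, t = ε * nn (t • p.a + u) := by
    intro u
    let f : ℝ → ℝ := fun t => ε * nn (t • p.a + u)
    have hf : ContractingWith (1 / 2 : NNReal) f := by
      refine ⟨by
        rw [← NNReal.coe_lt_coe]; norm_num, LipschitzWith.of_dist_le_mul fun x y => ?_⟩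
      rw [Real.dist_eq, Real.dist_eq]
      have := hcon x y u u
      simp only [sub_self, norm_zero, mul_zero, add_zero] at this
      simpa [f] using this
    exact ⟨hf.fixedPoint f, (hf.fixedPoint_isFixedPt).symm⟩
  have huniq : ∀ (u : V) (t t' : ℝ), t = ε * nn (t • p.a + u) → t' = ε * nn (t' • p.a + u) →
      t = t' := by
    intro u t t' h h'
    have := hcon t t' u u
    rw [← h, ← h', sub_self, norm_zero] at this
    have h0 : |t - t'| ≤ 0 := by linarith [abs_nonneg (t - t')]
    have h1 : t - t' = 0 := abs_eq_zero.1 (le_antisymm h0 (abs_nonneg _))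
    linarith
  choose τ' hτ' using hex
  let τ : S2 → ℝ := fun w => τ' (p.L (cv w))
  have hτ : ∀ w, τ w = ε * nn (τ w • p.a + p.L (cv w)) := fun w => hτ' _
  have hPx : ∀ w, p.P (τ w • p.a + p.L (cv w)) = cv w := by
    intro w
    rw [map_add, map_smul, hp.Pa, hp.PL]; simp
  have hgx : ∀ w, p.f (τ w • p.a + p.L (cv w)) = τ w := by
    intro w
    rw [map_add, map_smul, hp.fa, hp.fL]; simp
  have hpos : ∀ w, 0 < τ w := by
    intro w
    have h0 : 0 ≤ τ w := by
      rw [hτ w]; exact mul_nonneg hε.le (n9 _)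
    refine lt_of_le_of_ne h0 fun h => ?_
    have h1 := hτ w
    rw [← h] at h1
    have h2 : nn ((0 : ℝ) • p.a + p.L (cv w)) = 0 := by
      rcases mul_eq_zero.1 h1.symm with h3 | h3
      · exact absurd h3 hε.ne'
      · exact h3
    have h3 := n6 ((0 : ℝ) • p.a + p.L (cv w))
    rw [h2, mul_zero] at h3
    have h4 : (0 : ℝ) • p.a + p.L (cv w) = 0 := norm_le_zero_iff.1 h3
    have h5 := hPx w
    rw [← h, h4, map_zero] at h5
    exact cv_ne w h5.symm
  have hbd : ∀ w, τ w ≤ 4 * B * ε := by
    intro w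
    have h1 := hτ w
    have h2 := n10 (τ w • p.a + p.L (cv w))
    have h3 : ‖τ w • p.a + p.L (cv w)‖ ≤ τ w * ‖p.a‖ + B := by
      refine (norm_add_le _ _).trans ?_
      rw [norm_smul, Real.norm_eq_abs, abs_of_pos (hpos w)]
      linarith [hB' w]
    have h4 : τ w ≤ ε * (2 * (τ w * ‖p.a‖ + B)) := by
      calc τ w = ε * nn (τ w • p.a + p.L (cv w)) := h1
        _ ≤ ε * (2 * (τ w * ‖p.a‖ + B)) :=
          mul_le_mul_of_nonneg_left (h2.trans (by linarith)) hε.le
    have h5 := mul_le_mul_of_nonneg_right hK (hpos w).le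
    nlinarith
  have hcont : Continuous τ := by
    have hL : ∀ w w', |τ w - τ w'| ≤ 4 * ε * ‖p.L (cv w) - p.L (cv w')‖ := by
      intro w w'
      have := hcon (τ w) (τ w') (p.L (cv w)) (p.L (cv w'))
      rw [← hτ w, ← hτ w'] at this
      linarith
    rw [continuous_iff_continuousAt]
    intro w0
    rw [ContinuousAt, tendsto_iff_dist_tendsto_zero]
    have h1 : Filter.Tendsto (fun w => 4 * ε * ‖p.L (cv w) - p.L (cv w0)‖) (nhds w0)
        (nhds 0) := by
      have h2 : Continuous fun w : S2 => 4 * ε * ‖p.L (cv w) - p.L (cv w0)‖ :=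
        continuous_const.mul (hLw.sub continuous_const).norm
      have := h2.tendsto w0
      simpa using this
    refine squeeze_zero (fun _ => dist_nonneg) (fun w => ?_) h1
    rw [Real.dist_eq]
    exact hL w w0
  refine ⟨τ, ?_, fun w => ⟨hpos w, hbd w⟩⟩
  refine ⟨?_, ?_, ?_, hfc, ?_, hPc, ?_, ?_, ?_, ?_, ?_⟩
  · intro c y
    simp [thinMem]
  · intro c y
    simp only [thinMem]
    rw [n8]; ring
  · intro c y
    simp [thinMem]
  · exact continuous_const.mul hnnc
  · exact (hcont.smul continuous_const).add hLw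
  · exact hPx
  · intro w
    change p.f (τ w • p.a + p.L (cv w)) = ε * nn (τ w • p.a + p.L (cv w))
    rw [hgx, ← hτ w]
  · intro w
    change 0 < ε * nn (τ w • p.a + p.L (cv w))
    rw [← hτ w]
    exact hpos w
  · intro y hy hgy
    change p.f y = ε * nn y at hgy
    change ∃ hP : p.P y ≠ 0, y = eu (p.P y) • (τ (unitV (p.P y) hP) • p.a +
      p.L (cv (unitV (p.P y) hP)))
    have hdec := decomp p hp y
    have hf0 : 0 ≤ p.f y := by
      rw [hgy]; exact mul_nonneg hε.le (n9 _)
    have hP : p.P y ≠ 0 := by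
      intro h0
      rw [h0, map_zero, add_zero] at hdec
      have h1 : nn y = p.f y * nn p.a := by
        conv_lhs => rw [hdec]
        rw [n8, abs_of_nonneg hf0]
      rw [h1] at hgy
      have h2 := n10 p.a
      have h3 : ε * (p.f y * nn p.a) ≤ 1 / 2 * p.f y := by
        have h4 : ε * nn p.a ≤ 1 / 2 := by
          have := mul_le_mul_of_nonneg_left h2 hε.le
          linarith
        have := mul_le_mul_of_nonneg_right h4 hf0
        linarith
      have h5 : p.f y = 0 := by linarith
      rw [h5, zero_smul] at hdec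
      exact hy hdec
    refine ⟨hP, ?_⟩
    have hr : 0 < eu (p.P y) := eu_pos hP
    have hy2 : y = eu (p.P y) • ((p.f y / eu (p.P y)) • p.a + p.L (cv (unitV (p.P y) hP))) := by
      rw [cv_unitV, map_smul, smul_add, smul_smul, smul_smul, mul_div_cancel₀ _ hr.ne',
        mul_inv_cancel₀ hr.ne', one_smul]
      exact hdec
    have ht : p.f y / eu (p.P y) =
        ε * nn ((p.f y / eu (p.P y)) • p.a + p.L (cv (unitV (p.P y) hP))) := by
      have h1 : nn y = eu (p.P y) *
          nn ((p.f y / eu (p.P y)) • p.a + p.L (cv (unitV (p.P y) hP))) := by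
        conv_lhs => rw [hy2]
        rw [n8, abs_of_pos hr]
      rw [div_eq_iff hr.ne', hgy]
      conv_lhs => rw [h1]
      rw [hgy]
      ring
    have hu := huniq _ _ _ ht (hτ (unitV (p.P y) hP))
    rw [← hu]
    exact hy2

end Pool.Agent.Work.MP_363f1e_co
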