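import Pool.Agent.Work.MP_363f1e_co.Interface

/-!
Block `VC`: six chords of a circle do not have the wheel with five spokes as crossing graph.
-/

namespace Pool.Agent.Work.MP_363f1e_co

open Set

namespace VCaux

theorem comb (x y : Fin 5 → ℝ)
    (h1 : ∀ j, (x j < x (j + 2) ∧ y j < y (j + 2)) ∨ (x (j + 2) < x j ∧ y (j + 2) < y j))
    (h2 : ∀ j, ¬ (x j < x (j + 1) ∧ y j < y (j + 1)) ∧ ¬ (x (j + 1) < x j ∧ y (j + 1) < y j)) :
    False := by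
  have e0 : (x 0 < x 2 ∧ y 0 < y 2) ∨ (x 2 < x 0 ∧ y 2 < y 0) := h1 0
  have e1 : (x 1 < x 3 ∧ y 1 < y 3) ∨ (x 3 < x 1 ∧ y 3 < y 1) := h1 1
  have e2 : (x 2 < x 4 ∧ y 2 < y 4) ∨ (x 4 < x 2 ∧ y 4 < y 2) := h1 2
  have e3 : (x 3 < x 0 ∧ y 3 < y 0) ∨ (x 0 < x 3 ∧ y 0 < y 3) := h1 3
  have e4 : (x 4 < x 1 ∧ y 4 < y 1) ∨ (x 1 < x 4 ∧ y 1 < y 4) := h1 4
  have f0 : ¬ (x 0 < x 1 ∧ y 0 < y 1) ∧ ¬ (x 1 < x 0 ∧ y 1 < y 0) := h2 0
  have f1 : ¬ (x 1 < x 2 ∧ y 1 < y 2) ∧ ¬ (x 2 < x 1 ∧ y 2 < y 1) := h2 1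
  have f2 : ¬ (x 2 < x 3 ∧ y 2 < y 3) ∧ ¬ (x 3 < x 2 ∧ y 3 < y 2) := h2 2
  have f3 : ¬ (x 3 < x 4 ∧ y 3 < y 4) ∧ ¬ (x 4 < x 3 ∧ y 4 < y 3) := h2 3
  have f4 : ¬ (x 4 < x 0 ∧ y 4 < y 0) ∧ ¬ (x 0 < x 4 ∧ y 0 < y 4) := h2 4
  rcases e0 with ⟨a0, b0⟩ | ⟨a0, b0⟩ <;> rcases e2 with ⟨a2, b2⟩ | ⟨a2, b2⟩
  · exact f4.2 ⟨a0.trans a2, b0.trans b2⟩
  · rcases e4 with ⟨a4, b4⟩ | ⟨a4, b4⟩
    · rcases e1 with ⟨a1, b1⟩ | ⟨a1, b1⟩
      · exact f3.2 ⟨a4.trans a1, b4.trans b1⟩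
      · rcases e3 with ⟨a3, b3⟩ | ⟨a3, b3⟩
        · exact f2.2 ⟨a3.trans a0, b3.trans b0⟩
        · exact f0.1 ⟨a3.trans a1, b3.trans b1⟩
    · exact f1.1 ⟨a4.trans a2, b4.trans b2⟩
  · rcases e4 with ⟨a4, b4⟩ | ⟨a4, b4⟩
    · exact f1.2 ⟨a2.trans a4, b2.trans b4⟩
    · rcases e1 with ⟨a1, b1⟩ | ⟨a1, b1⟩
      · rcases e3 with ⟨a3, b3⟩ | ⟨a3, b3⟩
        · exact f0.2 ⟨a1.trans a3, b1.trans b3⟩
        · exact f2.1 ⟨a0.trans a3, b0.trans b3⟩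
      · exact f3.1 ⟨a1.trans a4, b1.trans b4⟩
  · exact f4.1 ⟨a2.trans a0, b2.trans b0⟩

/-- a periodic parametrization of a circle -/
structure Par {X : Type} [TopologicalSpace X] (C : Set X) (f : ℝ → X) : Prop where
  cont : Continuous f
  per : ∀ t, f (t + 1) = f t
  inj : ∀ s t, s ≤ t → t < s + 1 → f s = f t → s = t
  surj : ∀ c ∈ C, ∀ a : ℝ, ∃ t ∈ Ico a (a + 1), f t = c
  mem : ∀ t, f t ∈ C

theorem exists_par {X : Type} [TopologicalSpace X] {C : Set X} (e : Circle ≃ₜ C) {p : X}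
    (hp : p ∈ C) : ∃ f : ℝ → X, Par C f ∧ f 0 = p := by
  have : Fact ((0 : ℝ) < 1) := ⟨one_pos⟩
  let H : AddCircle (1 : ℝ) ≃ₜ C := (AddCircle.homeomorphCircle (T := (1 : ℝ)) one_ne_zero).trans e
  have hs : ∀ (a : ℝ) (z : AddCircle (1 : ℝ)), ∃ t ∈ Ico a (a + 1), ((t : ℝ) : AddCircle (1 : ℝ)) = z := by
    intro a z
    have h1 : z ∈ ((↑) : ℝ → AddCircle (1 : ℝ)) '' Ico a (a + 1) := by
      rw [AddCircle.coe_image_Ico_eq]; trivial
    exact h1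
  obtain ⟨t₀, -, ht₀⟩ := hs 0 (H.symm ⟨p, hp⟩)
  refine ⟨fun t => (H ((t + t₀ : ℝ) : AddCircle (1 : ℝ)) : X), ⟨?_, ?_, ?_, ?_, ?_⟩, ?_⟩
  · exact continuous_subtype_val.comp (H.continuous.comp
      ((AddCircle.continuous_mk' 1).comp (continuous_id.add continuous_const)))
  · intro t
    show (H ((t + 1 + t₀ : ℝ) : AddCircle (1 : ℝ)) : X) = (H ((t + t₀ : ℝ) : AddCircle (1 : ℝ)) : X)
    have : (t + 1 + t₀ : ℝ) = (t + t₀) + 1 := by ring
    rw [this, AddCircle.coe_add_period]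
  · intro s t h1 h2 h3
    have h4 := H.injective (Subtype.ext h3)
    have h5 := (AddCircle.coe_eq_coe_iff_of_mem_Ico (p := (1 : ℝ)) (a := s + t₀)
      (x := s + t₀) (y := t + t₀) ⟨le_refl _, by linarith⟩ ⟨by linarith, by linarith⟩).1 h4
    linarith
  · intro c hc a
    obtain ⟨t, ht, h⟩ := hs (a + t₀) (H.symm ⟨c, hc⟩)
    refine ⟨t - t₀, ⟨by linarith [ht.1], by linarith [ht.2]⟩, ?_⟩
    show (H ((t - t₀ + t₀ : ℝ) : AddCircle (1 : ℝ)) : X) = c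
    rw [sub_add_cancel, h, Homeomorph.apply_symm_apply]
  · intro t
    exact (H _).2
  · show (H ((0 + t₀ : ℝ) : AddCircle (1 : ℝ)) : X) = p
    rw [zero_add, ht₀, Homeomorph.apply_symm_apply]

theorem sameIn_symm {X : Type} [TopologicalSpace X] {S : Set X} {a b : X} (h : SameIn S a b) :
    SameIn S b a := by
  obtain ⟨h1, h2⟩ := h
  refine ⟨connectedComponentIn_subset _ _ h2, ?_⟩
  rw [← connectedComponentIn_eq h2]
  exact mem_connectedComponentIn h1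

section
variable {X : Type} [TopologicalSpace X] {C : Set X} {f : ℝ → X} (hf : Par C f)
include hf

theorem conn {α β γ δ : ℝ} (h2 : β ≤ α + 1) (hγ : γ ∈ Ioo α β) (hδ : δ ∈ Ioo α β) :
    SameIn (C \ {f α, f β}) (f γ) (f δ) := by
  have hsub : f '' Ioo α β ⊆ C \ {f α, f β} := by
    rintro _ ⟨t, ht, rfl⟩
    refine ⟨hf.mem t, ?_⟩
    rintro (h | h)
    · have := hf.inj α t ht.1.le (by linarith [ht.2]) h.symm
      linarith [ht.1]
    · have := hf.inj t β ht.2.le (by linarith [ht.1]) h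
      linarith [ht.2]
  have hpre : IsPreconnected (f '' Ioo α β) := isPreconnected_Ioo.image _ hf.cont.continuousOn
  refine ⟨hsub ⟨γ, hγ, rfl⟩, ?_⟩
  exact hpre.subset_connectedComponentIn ⟨γ, hγ, rfl⟩ hsub ⟨δ, hδ, rfl⟩

theorem sep [T2Space X] {α β γ δ : ℝ} (h2 : β < α + 1) (hγ : γ ∈ Ioo α β)
    (hδ : δ ∈ Ioo β (α + 1)) : ¬ SameIn (C \ {f α, f β}) (f γ) (f δ) := by
  rintro ⟨h3, h4⟩
  have hU : IsClosed (f '' Icc α β) := (isCompact_Icc.image hf.cont).isClosed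
  have hW : IsClosed (f '' Icc β (α + 1)) := (isCompact_Icc.image hf.cont).isClosed
  have hsub : connectedComponentIn (C \ {f α, f β}) (f γ) ⊆ C \ {f α, f β} :=
    connectedComponentIn_subset _ _
  have hcov : connectedComponentIn (C \ {f α, f β}) (f γ) ⊆ f '' Icc α β ∪ f '' Icc β (α + 1) := by
    intro z hz
    obtain ⟨t, ht, rfl⟩ := hf.surj z (hsub hz).1 α
    rcases le_or_gt t β with h | h
    · exact Or.inl ⟨t, ⟨ht.1, h⟩, rfl⟩
    · exact Or.inr ⟨t, ⟨h.le, ht.2.le⟩, rfl⟩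
  obtain ⟨z, hzK, ⟨s, hs, rfl⟩, t, ht, e⟩ :=
    isPreconnected_closed_iff.1 isPreconnected_connectedComponentIn _ _ hU hW hcov
      ⟨f γ, mem_connectedComponentIn h3, γ, ⟨hγ.1.le, hγ.2.le⟩, rfl⟩
      ⟨f δ, h4, δ, ⟨hδ.1.le, hδ.2.le⟩, rfl⟩
  have hz := (hsub hzK).2
  rcases lt_or_ge t (s + 1) with h | h
  · have h5 := hf.inj s t (hs.2.trans ht.1) h e.symm
    have h6 : s = β := le_antisymm hs.2 (h5 ▸ ht.1)
    exact hz (Or.inr (by rw [h6]; rfl))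
  · have h6 : s = α := le_antisymm (by linarith [ht.2]) hs.1
    exact hz (Or.inl (by rw [h6]))

end

end VCaux

open VCaux

theorem blk_VC : Stmt_VC := by
  intro X _ _ C e p₀ q₀ p q hp₀ hq₀ h0 hpq hd1 hd2 hX0 hX hN
  obtain ⟨f, hf, hf0⟩ := exists_par e hp₀
  have hf1 : f 1 = p₀ := by rw [← hf0, ← hf.per 0, zero_add]
  -- parameters
  have hpar : ∀ c ∈ C, c ≠ p₀ → ∃ t ∈ Ioo (0 : ℝ) 1, f t = c := by
    intro c hc hne
    obtain ⟨t, ht, h⟩ := hf.surj c hc 0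
    refine ⟨t, ⟨lt_of_le_of_ne ht.1 ?_, by linarith [ht.2]⟩, h⟩
    rintro rfl
    exact hne (h.symm.trans hf0)
  obtain ⟨t₀, ht₀, ht₀'⟩ := hpar q₀ hq₀ h0.symm
  choose a ha ha' using fun j => hpar (p j) (hpq j).1 (hd1 j).1
  choose b hb hb' using fun j => hpar (q j) (hpq j).2.1 (hd1 j).2.2.1
  have hat : ∀ j, a j ≠ t₀ := fun j h => (hd1 j).2.1 (by rw [← ha', ← ht₀', h])
  have hbt : ∀ j, b j ≠ t₀ := fun j h => (hd1 j).2.2.2 (by rw [← hb', ← ht₀', h])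
  -- ordered endpoints
  have hxy : ∀ j, ∃ x y : ℝ, 0 < x ∧ x < t₀ ∧ t₀ < y ∧ y < 1 ∧
      ((f x = p j ∧ f y = q j) ∨ (f x = q j ∧ f y = p j)) := by
    intro j
    rcases lt_or_gt_of_ne (hat j) with h1 | h1
    · rcases lt_or_gt_of_ne (hbt j) with h2 | h2
      · exfalso
        apply hX0 j
        have := conn hf (α := 0) (β := t₀) (γ := a j) (δ := b j) (by linarith [ht₀.2])
          ⟨(ha j).1, h1⟩ ⟨(hb j).1, h2⟩
        rwa [hf0, ht₀', ha', hb'] at this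
      · exact ⟨a j, b j, (ha j).1, h1, h2, (hb j).2, Or.inl ⟨ha' j, hb' j⟩⟩
    · rcases lt_or_gt_of_ne (hbt j) with h2 | h2
      · exact ⟨b j, a j, (hb j).1, h2, h1, (ha j).2, Or.inr ⟨hb' j, ha' j⟩⟩
      · exfalso
        apply hX0 j
        have := conn hf (α := t₀) (β := 1) (γ := a j) (δ := b j) (by linarith [ht₀.1])
          ⟨h1, (ha j).2⟩ ⟨h2, (hb j).2⟩
        rwa [hf1, ht₀', ha', hb', Set.pair_comm] at this
  choose x y hx0 hxt hyt hy1 hor using hxy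
  have hpair : ∀ j, ({f (x j), f (y j)} : Set X) = {p j, q j} := by
    intro j
    rcases hor j with ⟨h1, h2⟩ | ⟨h1, h2⟩
    · rw [h1, h2]
    · rw [h1, h2, Set.pair_comm]
  have hS : ∀ j k, SameIn (C \ {p j, q j}) (p k) (q k) ↔
      SameIn (C \ {f (x j), f (y j)}) (f (x k)) (f (y k)) := by
    intro j k
    rw [hpair j]
    rcases hor k with ⟨h1, h2⟩ | ⟨h1, h2⟩
    · rw [h1, h2]
    · rw [h1, h2]
      exact ⟨sameIn_symm, sameIn_symm⟩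
  have hne : ∀ j k, j ≠ k → x j ≠ x k ∧ y j ≠ y k := by
    intro j k hjk
    obtain ⟨d1, d2, d3⟩ := hd2 j k hjk
    obtain ⟨-, d4, -⟩ := hd2 k j hjk.symm
    constructor
    · intro h
      rcases hor j with ⟨h1, h2⟩ | ⟨h1, h2⟩ <;> rcases hor k with ⟨h3, h4⟩ | ⟨h3, h4⟩
      · exact d1 (by rw [← h1, ← h3, h])
      · exact d2 (by rw [← h1, ← h3, h])
      · exact d4 (by rw [← h1, ← h3, h])
      · exact d3 (by rw [← h1, ← h3, h])
    · intro h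
      rcases hor j with ⟨h1, h2⟩ | ⟨h1, h2⟩ <;> rcases hor k with ⟨h3, h4⟩ | ⟨h3, h4⟩
      · exact d3 (by rw [← h2, ← h4, h])
      · exact d4 (by rw [← h2, ← h4, h])
      · exact d2 (by rw [← h2, ← h4, h])
      · exact d1 (by rw [← h2, ← h4, h])
  have hcross : ∀ j k, j ≠ k → ¬ SameIn (C \ {p j, q j}) (p k) (q k) →
      (x j < x k ∧ y j < y k) ∨ (x k < x j ∧ y k < y j) := by
    intro j k hjk hno
    rw [hS] at hno
    obtain ⟨hxne, hyne⟩ := hne j k hjk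
    have hxt' := hxt; have hyt' := hyt
    rcases lt_or_gt_of_ne hxne with h1 | h1
    · rcases lt_or_gt_of_ne hyne with h2 | h2
      · exact Or.inl ⟨h1, h2⟩
      · exfalso
        apply hno
        exact conn hf (by linarith [hy1 j, hx0 j]) ⟨h1, by linarith [hxt k, hyt j]⟩
          ⟨by linarith [hxt j, hyt k], h2⟩
    · rcases lt_or_gt_of_ne hyne with h2 | h2
      · exfalso
        apply hno
        have := conn hf (α := y j) (β := x j + 1) (γ := x k + 1) (δ := y k)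
          (by linarith [hxt j, hyt j]) ⟨by linarith [hy1 j, hx0 k], by linarith⟩
          ⟨h2, by linarith [hy1 k, hx0 j]⟩
        rwa [hf.per, hf.per, Set.pair_comm] at this
      · exact Or.inr ⟨h1, h2⟩
  have hncross : ∀ j k, SameIn (C \ {p j, q j}) (p k) (q k) →
      ¬ (x j < x k ∧ y j < y k) ∧ ¬ (x k < x j ∧ y k < y j) := by
    intro j k hno
    rw [hS] at hno
    constructor
    · rintro ⟨h1, h2⟩
      exact sep hf (by linarith [hy1 j, hx0 j]) ⟨h1, by linarith [hxt k, hyt j]⟩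
        ⟨h2, by linarith [hy1 k, hx0 j]⟩ hno
    · rintro ⟨h1, h2⟩
      have := sep hf (α := x j) (β := y j) (γ := y k) (δ := x k + 1)
        (by linarith [hy1 j, hx0 j]) ⟨by linarith [hxt j, hyt k], h2⟩
        ⟨by linarith [hy1 j, hx0 k], by linarith⟩
      rw [hf.per] at this
      exact this (sameIn_symm hno)
  refine comb x y (fun j => ?_) (fun j => ?_)
  · exact hcross j (j + 2) (by revert j; decide) (hX j)
  · exact hncross j (j + 1) (hN j)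

end Pool.Agent.Work.MP_363f1e_co
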