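import Pool.Agent.Work.MP_363f1e_co.Interface

/-!
Block VSE: the topology of the class `S` model.
-/

set_option autoImplicit false

namespace Pool.Agent.Work.MP_363f1e_co

namespace VSEaux

/-- the function `x_0 x_k / |x|^2` on `RP^3` -/
noncomputable def gf (k : Fin 4) : RP 3 → ℝ :=
  Quotient.lift (fun u : USph 4 => (u : EuclideanSpace ℝ (Fin 4)) 0 *
    (u : EuclideanSpace ℝ (Fin 4)) k) (by
      rintro u v (h | h)
      · simp [h]
      · simp [h])

lemma gf_continuous (k : Fin 4) : Continuous (gf k) := by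
  refine Continuous.quotient_lift ?_ _
  have hi : ∀ i, Continuous fun x : USph 4 => (x : EuclideanSpace ℝ (Fin 4)) i :=
    fun i => (continuous_apply i).comp ((PiLp.continuous_ofLp 2 _).comp continuous_subtype_val)
  exact (hi 0).mul (hi k)

lemma gf_toRP (k : Fin 4) {x : V} (hx : x ≠ 0) : gf k (toRP x) = x 0 * x k / eu x ^ 2 := by
  rw [toRP_of_ne hx]
  change (unitV x hx : EuclideanSpace ℝ (Fin 4)) 0 * (unitV x hx : EuclideanSpace ℝ (Fin 4)) k = _
  rw [unitV_apply, unitV_apply]
  have := eu_pos hx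
  field_simp

/-- normalized vectors -/
def Nm (x : V) : Prop := x 0 = 1 ∧ eu x ^ 2 = 6

lemma Nm.ne {x : V} (h : Nm x) : x ≠ 0 := by
  rintro rfl
  have := h.1
  simp at this

lemma Nm.eu {x : V} (h : Nm x) : eu x = √6 := by
  rw [← h.2, Real.sqrt_sq (eu_nonneg x)]

lemma Nm.gf {x : V} (h : Nm x) (k : Fin 4) : gf k (toRP x) = x k / 6 := by
  rw [gf_toRP k h.ne, h.1, h.2, one_mul]

lemma Nm.mem {x : V} (h : Nm x) (k : Fin 4) : toRP x ∈ hyp 3 k (1 / √6) ↔ |x k| = 1 := by
  rw [mem_hyp_iff h.ne, h.eu]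
  have : (0 : ℝ) < √6 := by positivity
  rw [one_div, inv_mul_cancel₀ this.ne']

lemma Nm.inj {x y : V} (hx : Nm x) (hy : Nm y) (h : toRP x = toRP y) : x = y := by
  obtain ⟨c, -, e⟩ := (toRP_eq_iff hx.ne hy.ne).1 h
  have h0 := congrFun e 0
  rw [Pi.smul_apply, smul_eq_mul, hx.1, hy.1, mul_one] at h0
  rw [e, ← h0, one_smul]

lemma exists_nm {P : RP 3} (hP : P ∈ hyp 3 0 (1 / √6)) : ∃ x, Nm x ∧ toRP x = P := by
  obtain ⟨x, hx, hx1, rfl⟩ := exists_rep P
  rw [mem_hyp_iff hx, hx1, mul_one] at hP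
  have h6 : (0 : ℝ) < √6 := by positivity
  have h0 : x 0 ≠ 0 := by
    intro h
    rw [h, abs_zero] at hP
    have : (0 : ℝ) < 1 / √6 := by positivity
    linarith
  refine ⟨(x 0)⁻¹ • x, ⟨?_, ?_⟩, toRP_smul (inv_ne_zero h0) hx⟩
  · rw [Pi.smul_apply, smul_eq_mul, inv_mul_cancel₀ h0]
  · rw [eu_smul, hx1, mul_one, sq_abs, inv_pow, ← sq_abs, hP, div_pow, one_pow,
      Real.sq_sqrt (by norm_num)]
    norm_num

/-- the model circles -/
def vec (j : Fin 3) (s a b : ℝ) : V := ![![1, s, a, b], ![1, a, s, b], ![1, a, b, s]] j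

lemma vec_zero (j : Fin 3) (s a b : ℝ) : vec j s a b 0 = 1 := by
  fin_cases j <;> simp [vec]

lemma vec_succ (j : Fin 3) (s a b : ℝ) : vec j s a b j.succ = s := by
  fin_cases j <;> simp [vec]

lemma eu_vec (j : Fin 3) (s a b : ℝ) : eu (vec j s a b) ^ 2 = 1 + s ^ 2 + a ^ 2 + b ^ 2 := by
  rw [eu_sq, Fin.sum_univ_four]
  fin_cases j <;> simp [vec] <;> ring

lemma exists_vec (j : Fin 3) (x : V) (h : x 0 = 1) : ∃ a b, x = vec j (x j.succ) a b := by
  fin_cases j
  · refine ⟨x 2, x 3, ?_⟩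
    ext i; fin_cases i <;> simp [vec, h]
  · refine ⟨x 1, x 3, ?_⟩
    ext i; fin_cases i <;> simp [vec, h]
  · refine ⟨x 1, x 2, ?_⟩
    ext i; fin_cases i <;> simp [vec, h]

lemma vec_cont (j : Fin 3) (s : ℝ) {X : Type*} [TopologicalSpace X] {a b : X → ℝ}
    (ha : Continuous a) (hb : Continuous b) : Continuous fun t => vec j s (a t) (b t) := by
  refine continuous_pi fun i => ?_
  fin_cases j <;> fin_cases i <;> simp [vec] <;> first | exact continuous_const | assumption

lemma nm_vec (j : Fin 3) {s a b : ℝ} (hs : s ^ 2 = 1) (hab : a ^ 2 + b ^ 2 = 4) :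
    Nm (vec j s a b) := by
  refine ⟨vec_zero _ _ _ _, ?_⟩
  rw [eu_vec]; linarith

/-- the circle `E(j, s)` -/
def E (j : Fin 3) (s : ℝ) : Set (RP 3) := {p | ∃ a b : ℝ, a ^ 2 + b ^ 2 = 4 ∧ toRP (vec j s a b) = p}

lemma E_preconnected (j : Fin 3) {s : ℝ} (hs : s ^ 2 = 1) : IsPreconnected (E j s) := by
  have : E j s = Set.range (fun t : ℝ => toRP (vec j s (2 * Real.cos t) (2 * Real.sin t))) := by
    ext p
    constructor
    · rintro ⟨a, b, hab, rfl⟩
      have h1 : ‖(⟨a / 2, b / 2⟩ : ℂ)‖ = 1 := by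
        rw [Complex.norm_def, Complex.normSq_mk]
        rw [show a / 2 * (a / 2) + b / 2 * (b / 2) = 1 by linarith, Real.sqrt_one]
      refine ⟨Complex.arg ⟨a / 2, b / 2⟩, ?_⟩
      have hne : (⟨a / 2, b / 2⟩ : ℂ) ≠ 0 := by
        intro h; rw [h, norm_zero] at h1; exact zero_ne_one h1
      have h2 := Complex.cos_arg hne
      have h3 := Complex.sin_arg (⟨a / 2, b / 2⟩ : ℂ)
      rw [h1, div_one] at h2 h3
      simp only
      rw [h2, h3]
      congr 2 <;> ring
    · rintro ⟨t, rfl⟩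
      exact ⟨2 * Real.cos t, 2 * Real.sin t, by nlinarith [Real.sin_sq_add_cos_sq t], rfl⟩
  rw [this]
  refine isPreconnected_range (continuous_toRP (vec_cont j s (by fun_prop) (by fun_prop)) ?_)
  intro t
  exact (nm_vec j hs (by nlinarith [Real.sin_sq_add_cos_sq t])).ne

lemma mem_E {j : Fin 3} {s : ℝ} (hs : s ^ 2 = 1) {x : V} (hx : Nm x) :
    toRP x ∈ E j s ↔ x j.succ = s := by
  constructor
  · rintro ⟨a, b, hab, h⟩
    rw [← Nm.inj (nm_vec j hs hab) hx h, vec_succ]
  · intro h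
    obtain ⟨a, b, e⟩ := exists_vec j x hx.1
    rw [h] at e
    refine ⟨a, b, ?_, by rw [← e]⟩
    have := hx.2
    rw [e, eu_vec, hs] at this
    linarith

/-- `A_0 ∩ A_{j+1}` -/
def AA (j : Fin 3) : Set (RP 3) := hyp 3 0 (1 / √6) ∩ hyp 3 j.succ (1 / √6)

lemma mem_AA {j : Fin 3} {P : RP 3} (h : P ∈ AA j) :
    ∃ x, Nm x ∧ toRP x = P ∧ (x j.succ = 1 ∨ x j.succ = -1) := by
  obtain ⟨x, hx, rfl⟩ := exists_nm h.1
  refine ⟨x, hx, rfl, ?_⟩
  have := (hx.mem j.succ).1 h.2
  rcases abs_eq (zero_le_one) |>.1 this with h | h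
  · exact Or.inl h
  · exact Or.inr h

lemma E_sub (j : Fin 3) {s : ℝ} (hs : s ^ 2 = 1) : E j s ⊆ AA j := by
  rintro _ ⟨a, b, hab, rfl⟩
  have hn := nm_vec j hs hab
  refine ⟨(hn.mem 0).2 (by rw [vec_zero, abs_one]), (hn.mem j.succ).2 ?_⟩
  rw [vec_succ, ← Real.sqrt_sq_eq_abs, hs, Real.sqrt_one]

lemma comp_eq (j : Fin 3) {x : V} (hx : Nm x) (hm : toRP x ∈ AA j) :
    connectedComponentIn (AA j) (toRP x) = E j (x j.succ) := by
  have hs : x j.succ ^ 2 = 1 := by
    have := (hx.mem j.succ).1 hm.2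
    rw [← sq_abs, this, one_pow]
  apply Set.Subset.antisymm
  · intro q hq
    have hqS : q ∈ AA j := connectedComponentIn_subset _ _ hq
    obtain ⟨y, hy, rfl, hy1⟩ := mem_AA hqS
    rw [mem_E hs hy]
    by_contra hne
    -- intermediate value
    have hc := isPreconnected_connectedComponentIn (x := toRP x) (F := AA j)
    have himg := hc.image (gf j.succ) (gf_continuous _).continuousOn
    have h1 : gf j.succ (toRP x) ∈ gf j.succ '' connectedComponentIn (AA j) (toRP x) :=
      ⟨_, mem_connectedComponentIn hm, rfl⟩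
    have h2 : gf j.succ (toRP y) ∈ gf j.succ '' connectedComponentIn (AA j) (toRP x) :=
      ⟨_, hq, rfl⟩
    have hord := himg.ordConnected
    have hx1 : x j.succ = 1 ∨ x j.succ = -1 := sq_eq_one_iff_of_side x j hs
    have hzero : (0 : ℝ) ∈ gf j.succ '' connectedComponentIn (AA j) (toRP x) := by
      rw [hx.gf] at h1
      rw [hy.gf] at h2
      rcases hx1 with e1 | e1 <;> rcases hy1 with e2 | e2
      · exact absurd (e2.trans e1.symm) hne
      · rw [e1] at h1; rw [e2] at h2
        exact hord.out h2 h1 ⟨by norm_num, by norm_num⟩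
      · rw [e1] at h1; rw [e2] at h2
        exact hord.out h1 h2 ⟨by norm_num, by norm_num⟩
      · exact absurd (e2.trans e1.symm) hne
    obtain ⟨z, hz, hz0⟩ := hzero
    obtain ⟨w, hw, rfl, hw1⟩ := mem_AA (connectedComponentIn_subset _ _ hz)
    rw [hw.gf] at hz0
    rcases hw1 with e | e <;> rw [e] at hz0 <;> norm_num at hz0
  · exact (E_preconnected j hs).subset_connectedComponentIn ((mem_E hs hx).2 rfl) (E_sub j hs)
where
  sq_eq_one_iff_of_side (x : V) (j : Fin 3) (hs : x j.succ ^ 2 = 1) :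
      x j.succ = 1 ∨ x j.succ = -1 := by
    have : (x j.succ - 1) * (x j.succ + 1) = 0 := by linear_combination hs
    rcases mul_eq_zero.1 this with h | h
    · left; linarith
    · right; linarith

/-- the homeomorphism from the circle -/
lemma homeo (j : Fin 3) {s : ℝ} (hs : s ^ 2 = 1) : Nonempty (Circle ≃ₜ E j s) := by
  have hz : ∀ z : Circle, (2 * (z : ℂ).re) ^ 2 + (2 * (z : ℂ).im) ^ 2 = 4 := by
    intro z
    have h1 : Complex.normSq (z : ℂ) = 1 := by
      rw [Complex.normSq_eq_norm_sq]; simp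
    rw [Complex.normSq_apply] at h1
    linarith
  let f : Circle → E j s := fun z =>
    ⟨toRP (vec j s (2 * (z : ℂ).re) (2 * (z : ℂ).im)), _, _, hz z, rfl⟩
  have hf : Continuous f := by
    refine Continuous.subtype_mk ?_ _
    refine continuous_toRP (vec_cont j s ?_ ?_) fun z => (nm_vec j hs (hz z)).ne
    · exact continuous_const.mul (Complex.continuous_re.comp continuous_subtype_val)
    · exact continuous_const.mul (Complex.continuous_im.comp continuous_subtype_val)
  have hinj : Function.Injective f := by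
    intro z w h
    have h1 : toRP (vec j s (2 * (z : ℂ).re) (2 * (z : ℂ).im)) =
        toRP (vec j s (2 * (w : ℂ).re) (2 * (w : ℂ).im)) := congrArg Subtype.val h
    have h2 := Nm.inj (nm_vec j hs (hz z)) (nm_vec j hs (hz w)) h1
    apply Circle.ext
    have h3 : (z : ℂ).re = (w : ℂ).re ∧ (z : ℂ).im = (w : ℂ).im := by
      have e := fun i => congrFun h2 i
      fin_cases j
      · have e1 := e 2; have e2 := e 3
        simp [vec] at e1 e2
        exact ⟨e1, e2⟩
      · have e1 := e 1; have e2 := e 3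
        simp [vec] at e1 e2
        exact ⟨e1, e2⟩
      · have e1 := e 1; have e2 := e 2
        simp [vec] at e1 e2
        exact ⟨e1, e2⟩
    exact Complex.ext h3.1 h3.2
  have hsurj : Function.Surjective f := by
    rintro ⟨_, a, b, hab, rfl⟩
    have h1 : ‖(⟨a / 2, b / 2⟩ : ℂ)‖ = 1 := by
      rw [Complex.norm_def, Complex.normSq_mk]
      rw [show a / 2 * (a / 2) + b / 2 * (b / 2) = 1 by linarith, Real.sqrt_one]
    refine ⟨⟨⟨a / 2, b / 2⟩, mem_sphere_zero_iff_norm.2 h1⟩, ?_⟩
    apply Subtype.ext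
    change toRP (vec j s (2 * (a / 2)) (2 * (b / 2))) = toRP (vec j s a b)
    congr 2 <;> ring
  exact ⟨Continuous.homeoOfEquivCompactToT2 (f := Equiv.ofBijective f ⟨hinj, hsurj⟩) hf⟩

end VSEaux

open VSEaux

/-- block VSE -/
theorem blk_VSE : Stmt_VSE := by
  intro A hA
  have h01 : A 0 ∩ A 1 = AA 0 := by rw [hA, hA]; rfl
  have h02 : A 0 ∩ A 2 = AA 1 := by rw [hA, hA]; rfl
  have h03 : A 0 ∩ A 3 = AA 2 := by rw [hA, hA]; rfl
  have s3 : √3 ^ 2 = 3 := Real.sq_sqrt (by norm_num)
  have s3p : 1 < √3 := by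
    rw [show (1 : ℝ) = √1 by rw [Real.sqrt_one]]
    exact Real.sqrt_lt_sqrt (by norm_num) (by norm_num)
  refine ⟨?_, ?_, ?_⟩
  · rw [h01]
    exact ⟨toRP (vec 0 1 2 0), E_sub 0 (by norm_num) ⟨2, 0, by norm_num, rfl⟩⟩
  · ext P
    simp only [Set.mem_inter_iff, Set.mem_empty_iff_false, iff_false]
    rintro ⟨⟨⟨h0, h1⟩, h2⟩, h3⟩
    rw [hA] at h0 h1 h2 h3
    obtain ⟨x, hx, rfl⟩ := exists_nm h0
    have e1 := (hx.mem 1).1 h1
    have e2 := (hx.mem 2).1 h2
    have e3 := (hx.mem 3).1 h3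
    have := hx.2
    rw [eu_sq, Fin.sum_univ_four, hx.1, ← sq_abs (x 1), ← sq_abs (x 2), ← sq_abs (x 3), e1, e2,
      e3] at this
    norm_num at this
  · intro P hP
    rw [h01] at hP
    obtain ⟨x, hx, rfl, hx1⟩ := mem_AA hP
    set s : ℝ := x (0 : Fin 3).succ with hs
    have hss : s ^ 2 = 1 := by rcases hx1 with h | h <;> rw [h] <;> norm_num
    have hC : connectedComponentIn (A 0 ∩ A 1) (toRP x) = E 0 s := by
      rw [h01]; exact comp_eq 0 hx hP
    -- points
    have sq12 : ∀ t : ℝ, t ^ 2 = 1 → s ^ 2 = 1 := fun _ _ => hss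
    have n1 : Nm (![1, s, 1, √3] : V) := nm_vec 0 (s := s) (a := 1) (b := √3) hss (by linarith)
    have n2 : Nm (![1, s, 1, -√3] : V) :=
      nm_vec 0 (s := s) (a := 1) (b := -√3) hss (by rw [neg_sq]; linarith)
    have n3 : Nm (![1, s, √3, 1] : V) := nm_vec 0 (s := s) (a := √3) (b := 1) hss (by linarith)
    have n4 : Nm (![1, s, -√3, 1] : V) :=
      nm_vec 0 (s := s) (a := -√3) (b := 1) hss (by rw [neg_sq]; linarith)
    have memC : ∀ {y : V}, Nm y → y 1 = s → toRP y ∈ E 0 s := fun hy h =>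
      (mem_E (j := 0) hss hy).2 h
    have abs1 : ∀ t : ℝ, t ^ 2 = 1 → |t| = 1 := fun t ht => by
      rw [← Real.sqrt_sq_eq_abs, ht, Real.sqrt_one]
    have memA : ∀ {y : V} (k : Fin 4), Nm y → y k = 1 → toRP y ∈ A k := fun {y} k hy h => by
      rw [hA]; exact (hy.mem k).2 (by rw [h, abs_one])
    refine ⟨?_, ?_, ?_, ?_⟩
    · rw [hC]; exact homeo 0 hss
    · refine ⟨toRP ![1, s, 1, √3], toRP ![1, s, 1, -√3], ?_, ?_, ?_, ?_, ?_, ?_⟩
      · intro h
        have := congrFun (Nm.inj n1 n2 h) 3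
        simp at this
        linarith
      · rw [hC]; exact memC n1 (by simp)
      · rw [hC]; exact memC n2 (by simp)
      · exact memA 2 n1 (by simp)
      · exact memA 2 n2 (by simp)
      · have m1 : toRP ![1, s, 1, √3] ∈ AA 1 := by
          rw [← h02]; exact ⟨memA 0 n1 (by simp), memA 2 n1 (by simp)⟩
        refine ⟨by rw [h02]; exact m1, ?_⟩
        rw [h02, comp_eq 1 n1 m1]
        have e : (![1, s, 1, √3] : V) (1 : Fin 3).succ = 1 := by simp
        rw [e]
        exact (mem_E (j := 1) (by norm_num) n2).2 (by simp)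
    · refine ⟨toRP ![1, s, √3, 1], toRP ![1, s, -√3, 1], ?_, ?_, ?_, ?_, ?_, ?_⟩
      · intro h
        have := congrFun (Nm.inj n3 n4 h) 2
        simp at this
        linarith
      · rw [hC]; exact memC n3 (by simp)
      · rw [hC]; exact memC n4 (by simp)
      · exact memA 3 n3 (by simp)
      · exact memA 3 n4 (by simp)
      · have m1 : toRP ![1, s, √3, 1] ∈ AA 2 := by
          rw [← h03]; exact ⟨memA 0 n3 (by simp), memA 3 n3 (by simp)⟩
        refine ⟨by rw [h03]; exact m1, ?_⟩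
        rw [h03, comp_eq 2 n3 m1]
        have e : (![1, s, √3, 1] : V) (2 : Fin 3).succ = 1 := by simp
        rw [e]
        exact (mem_E (j := 2) (by norm_num) n4).2 (by simp)
    · intro p q p' q' hpq hpq' hsame
      rw [hC] at hsame
      -- normalized coordinates of the four points
      have coord : ∀ {r : RP 3} (k : Fin 4), r ∈ E 0 s → r ∈ A k →
          ∃ y, Nm y ∧ toRP y = r ∧ y 1 = s ∧ |y k| = 1 := by
        intro r k hr hk
        obtain ⟨a, b, hab, rfl⟩ := hr
        have hn := nm_vec 0 hss hab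
        rw [hA] at hk
        exact ⟨_, hn, rfl, vec_succ 0 s a b, (hn.mem k).1 hk⟩
      have hp := hpq.pC; have hq := hpq.qC; have hp' := hpq'.pC; have hq' := hpq'.qC
      rw [hC] at hp hq hp' hq'
      obtain ⟨y, ny, rfl, y1, y2⟩ := coord 2 hp hpq.px
      obtain ⟨z, nz, rfl, z1, z2⟩ := coord 2 hq hpq.qx
      obtain ⟨y', ny', rfl, y1', y3'⟩ := coord 3 hp' hpq'.px
      obtain ⟨z', nz', rfl, z1', z3'⟩ := coord 3 hq' hpq'.qx
      -- p, q have the same second coordinate
      have a1 : toRP y ∈ AA 1 := by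
        rw [AA, ← hA 0]
        exact ⟨by rw [hA]; exact (ny.mem 0).2 (by rw [ny.1, abs_one]), (ny.mem 2).2 y2⟩
      have a2 : toRP y' ∈ AA 2 := by
        rw [AA, ← hA 0]
        exact ⟨by rw [hA]; exact (ny'.mem 0).2 (by rw [ny'.1, abs_one]), (ny'.mem 3).2 y3'⟩
      have same1 : z 2 = y 2 := by
        have h1 : toRP z ∈ connectedComponentIn (A 0 ∩ A 2) (toRP y) := hpq.same.2
        rw [h02, comp_eq 1 ny a1] at h1
        have hy2 : y (1 : Fin 3).succ ^ 2 = 1 := by
          change y 2 ^ 2 = 1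
          rw [← sq_abs, y2, one_pow]
        exact (mem_E hy2 nz).1 h1
      have same2 : z' 3 = y' 3 := by
        have h1 : toRP z' ∈ connectedComponentIn (A 0 ∩ A 3) (toRP y') := hpq'.same.2
        rw [h03, comp_eq 2 ny' a2] at h1
        have hy2 : y' (2 : Fin 3).succ ^ 2 = 1 := by
          change y' 3 ^ 2 = 1
          rw [← sq_abs, y3', one_pow]
        exact (mem_E hy2 nz').1 h1
      -- sums of squares
      have sumsq : ∀ {w : V}, Nm w → w 1 = s → w 2 ^ 2 + w 3 ^ 2 = 4 := by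
        intro w hw h
        have := hw.2
        rw [eu_sq, Fin.sum_univ_four, hw.1, h, hss] at this
        linarith
      have ext4 : ∀ {w w' : V}, Nm w → Nm w' → w 1 = s → w' 1 = s → w 2 = w' 2 → w 3 = w' 3 →
          w = w' := by
        intro w w' hw hw' h1 h2 h3 h4
        ext i
        fin_cases i
        · exact hw.1.trans hw'.1.symm
        · exact h1.trans h2.symm
        · exact h3
        · exact h4
      have ey := sumsq ny y1; have ez := sumsq nz z1
      have ey' := sumsq ny' y1'; have ez' := sumsq nz' z1'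
      have ysq : y 2 ^ 2 = 1 := by rw [← sq_abs, y2, one_pow]
      have y'sq : y' 3 ^ 2 = 1 := by rw [← sq_abs, y3', one_pow]
      have z3 : z 3 = -y 3 := by
        have h1 : (z 3 - y 3) * (z 3 + y 3) = 0 := by rw [same1] at ez; linear_combination ez - ey
        rcases mul_eq_zero.1 h1 with h | h
        · exact absurd (congrArg toRP (ext4 ny nz y1 z1 same1.symm (by linarith))) hpq.ne
        · linarith
      have z2' : z' 2 = -y' 2 := by
        have h1 : (z' 2 - y' 2) * (z' 2 + y' 2) = 0 := by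
          rw [same2] at ez'; linear_combination ez' - ey'
        rcases mul_eq_zero.1 h1 with h | h
        · exact absurd (congrArg toRP (ext4 ny' nz' y1' z1' (by linarith) same2.symm)) hpq'.ne
        · linarith
      -- every point of the circle with the same second coordinate is p or q
      set C' := E 0 s \ {toRP y, toRP z} with hC'
      have avoid : ∀ r ∈ C', gf 2 r ≠ y 2 / 6 := by
        rintro r ⟨⟨a, b, hab, rfl⟩, hr2⟩ h
        have hn := nm_vec 0 hss hab
        rw [hn.gf] at h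
        have e2 : (vec 0 s a b) 2 = y 2 := by linarith
        have e1 : (vec 0 s a b) 1 = s := vec_succ 0 s a b
        have e3 := sumsq hn e1
        have e4 : ((vec 0 s a b) 3 - y 3) * ((vec 0 s a b) 3 + y 3) = 0 := by
          rw [e2] at e3; linear_combination e3 - ey
        rcases mul_eq_zero.1 e4 with h5 | h5
        · exact hr2 (Or.inl (congrArg toRP (ext4 hn ny e1 y1 e2 (by linarith))))
        · exact hr2 (Or.inr (congrArg toRP (ext4 hn nz e1 z1 (by rw [e2, same1])
            (by rw [z3]; linarith))))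
      have hc := isPreconnected_connectedComponentIn (x := toRP y') (F := C')
      have hin : toRP y' ∈ C' := hsame.1
      have himg := (hc.image (gf 2) (gf_continuous _).continuousOn).ordConnected
      have i1 : gf 2 (toRP y') ∈ gf 2 '' connectedComponentIn C' (toRP y') :=
        ⟨_, mem_connectedComponentIn hin, rfl⟩
      have i2 : gf 2 (toRP z') ∈ gf 2 '' connectedComponentIn C' (toRP y') := ⟨_, hsame.2, rfl⟩
      have hmid : y 2 / 6 ∈ gf 2 '' connectedComponentIn C' (toRP y') := by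
        rw [ny'.gf] at i1
        rw [nz'.gf, z2'] at i2
        have hy3 : y' 2 ^ 2 = 3 := by rw [y'sq] at ey'; linarith
        rcases le_total 0 (y' 2) with h | h
        · refine himg.out i2 i1 ⟨?_, ?_⟩
          · nlinarith
          · nlinarith
        · refine himg.out i1 i2 ⟨?_, ?_⟩
          · nlinarith
          · nlinarith
      obtain ⟨r, hr, hr2⟩ := hmid
      exact avoid r (connectedComponentIn_subset _ _ hr) hr2

end Pool.Agent.Work.MP_363f1e_co
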