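import Pool.Agent.Work.MP_363f1e_co.Interface

/-!
Block `VW`: the topology of the family on the circle `Γ_0 ∩ Γ_v`.
-/

namespace Pool.Agent.Work.MP_363f1e_co

open Set

namespace VWaux

/-- point with affine coordinates -/
def pt (x y b : ℝ) : V := ![x, y, b, 1]

theorem pt_ne (x y b : ℝ) : pt x y b ≠ 0 := by
  intro h
  have := congrFun h 3
  simp [pt] at this

theorem pt_inj {x y b x' y' b' : ℝ} (h : toRP (pt x y b) = toRP (pt x' y' b')) :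
    x = x' ∧ y = y' ∧ b = b' := by
  obtain ⟨c, -, e⟩ := (toRP_eq_iff (pt_ne _ _ _) (pt_ne _ _ _)).1 h
  have e3 : (1 : ℝ) = c * 1 := congrFun e 3
  have e0 : x' = c * x := congrFun e 0
  have e1 : y' = c * y := congrFun e 1
  have e2 : b' = c * b := congrFun e 2
  rw [mul_one] at e3
  rw [← e3, one_mul] at e0 e1 e2
  exact ⟨e0.symm, e1.symm, e2.symm⟩

/-- the function `L(x) x_3 / |x|^2` on `RP^3` -/
noncomputable def lf (L : V →ₗ[ℝ] ℝ) : RP 3 → ℝ :=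
  Quotient.lift (fun u : USph 4 => L (WithLp.ofLp (u : EuclideanSpace ℝ (Fin 4))) *
    (u : EuclideanSpace ℝ (Fin 4)) 3) (by
      rintro u v (h | h)
      · simp [h]
      · simp [h])

theorem lf_continuous (L : V →ₗ[ℝ] ℝ) : Continuous (lf L) := by
  refine Continuous.quotient_lift ?_ _
  have hi : Continuous fun u : USph 4 => WithLp.ofLp (u : EuclideanSpace ℝ (Fin 4)) :=
    (PiLp.continuous_ofLp 2 _).comp continuous_subtype_val
  exact (L.continuous_of_finiteDimensional.comp hi).mul ((continuous_apply 3).comp hi)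

theorem lf_toRP (L : V →ₗ[ℝ] ℝ) {x : V} (hx : x ≠ 0) :
    lf L (toRP x) = L x * x 3 / eu x ^ 2 := by
  rw [toRP_of_ne hx]
  change L ((eu x)⁻¹ • x) * ((eu x)⁻¹ * x 3) = _
  rw [map_smul, smul_eq_mul]
  have := eu_pos hx
  field_simp

theorem lf_pt (L : V →ₗ[ℝ] ℝ) (x y b : ℝ) :
    lf L (toRP (pt x y b)) = L (pt x y b) / eu (pt x y b) ^ 2 := by
  rw [lf_toRP L (pt_ne _ _ _)]
  have : pt x y b 3 = 1 := rfl
  rw [this, mul_one]

theorem lf_pos (L : V →ₗ[ℝ] ℝ) (x y b : ℝ) :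
    0 < lf L (toRP (pt x y b)) ↔ 0 < L (pt x y b) := by
  have h := eu_pos (pt_ne x y b)
  rw [lf_pt]
  constructor
  · intro h1
    by_contra hc
    exact absurd h1 (not_lt.2 (div_nonpos_of_nonpos_of_nonneg (not_lt.1 hc) (by positivity)))
  · intro h1; positivity

theorem sign_const {S : Set (RP 3)} (hS : IsPreconnected S) {g : RP 3 → ℝ} (hg : Continuous g)
    (h0 : ∀ p ∈ S, g p ≠ 0) {p q : RP 3} (hp : p ∈ S) (hq : q ∈ S) (h : 0 < g p) : 0 < g q := by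
  by_contra hc
  have hc' : g q < 0 := lt_of_le_of_ne (not_lt.1 hc) (h0 q hq)
  obtain ⟨r, -, h1, h2⟩ := hS {r | 0 < g r} {r | g r < 0} (isOpen_lt continuous_const hg)
    (isOpen_lt hg continuous_const)
    (fun r hr => (lt_or_gt_of_ne (h0 r hr)).elim (fun h => Or.inr h) (fun h => Or.inl h))
    ⟨p, hp, h⟩ ⟨q, hq, hc'⟩
  exact lt_asymm (show 0 < g r from h1) h2

theorem sign_iff {S : Set (RP 3)} (hS : IsPreconnected S) {g : RP 3 → ℝ} (hg : Continuous g)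
    (h0 : ∀ p ∈ S, g p ≠ 0) {p q : RP 3} (hp : p ∈ S) (hq : q ∈ S) : 0 < g p ↔ 0 < g q :=
  ⟨sign_const hS hg h0 hp hq, sign_const hS hg h0 hq hp⟩

/-! ### linear algebra of the unit vectors -/

/-- component along `u` -/
def Fu (u : ℝ × ℝ) (x y : ℝ) : ℝ := u.1 * x + u.2 * y

/-- component orthogonal to `u` -/
def Gu (u : ℝ × ℝ) (x y : ℝ) : ℝ := -u.2 * x + u.1 * y

/-- scalar product -/
def dt (u v : ℝ × ℝ) : ℝ := u.1 * v.1 + u.2 * v.2

theorem uc_unit (j : Fin 5) : (uc j).1 ^ 2 + (uc j).2 ^ 2 = 1 := by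
  fin_cases j <;> norm_num [uc]

theorem FG {u : ℝ × ℝ} (hu : u.1 ^ 2 + u.2 ^ 2 = 1) {x y : ℝ} (h : x ^ 2 + y ^ 2 = 1) :
    Fu u x y ^ 2 + Gu u x y ^ 2 = 1 := by
  have : Fu u x y ^ 2 + Gu u x y ^ 2 = (u.1 ^ 2 + u.2 ^ 2) * (x ^ 2 + y ^ 2) := by
    unfold Fu Gu; ring
  rw [this, hu, h, one_mul]

theorem eq_of_FG {u : ℝ × ℝ} (hu : u.1 ^ 2 + u.2 ^ 2 = 1) {x y x' y' : ℝ}
    (hF : Fu u x y = Fu u x' y') (hG : Gu u x y = Gu u x' y') : x = x' ∧ y = y' := by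
  have h1 : ∀ x y : ℝ, x = u.1 * Fu u x y - u.2 * Gu u x y := by
    intro x y
    have : u.1 * Fu u x y - u.2 * Gu u x y = (u.1 ^ 2 + u.2 ^ 2) * x := by unfold Fu Gu; ring
    rw [this, hu, one_mul]
  have h2 : ∀ x y : ℝ, y = u.2 * Fu u x y + u.1 * Gu u x y := by
    intro x y
    have : u.2 * Fu u x y + u.1 * Gu u x y = (u.1 ^ 2 + u.2 ^ 2) * y := by unfold Fu Gu; ring
    rw [this, hu, one_mul]
  exact ⟨by rw [h1 x y, h1 x' y', hF, hG], by rw [h2 x y, h2 x' y', hF, hG]⟩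

/-- two distinct points of the unit circle with the same component -/
theorem G_neg {u : ℝ × ℝ} (hu : u.1 ^ 2 + u.2 ^ 2 = 1) {x y x' y' : ℝ} (h : x ^ 2 + y ^ 2 = 1)
    (h' : x' ^ 2 + y' ^ 2 = 1) (hF : Fu u x y = Fu u x' y') :
    (x = x' ∧ y = y') ∨ Gu u x' y' = - Gu u x y := by
  have h1 := FG hu h
  have h2 := FG hu h'
  rw [← hF] at h2
  have h3 : Gu u x' y' ^ 2 = Gu u x y ^ 2 := by linarith
  rcases sq_eq_sq_iff_eq_or_eq_neg.1 h3 with h4 | h4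
  · exact Or.inl (eq_of_FG hu hF h4.symm)
  · exact Or.inr h4

/-- a line meets the unit circle in at most two points -/
theorem two_points {u : ℝ × ℝ} (hu : u.1 ^ 2 + u.2 ^ 2 = 1) {x y x' y' a b : ℝ}
    (h : x ^ 2 + y ^ 2 = 1) (h' : x' ^ 2 + y' ^ 2 = 1) (hab : a ^ 2 + b ^ 2 = 1)
    (hF : Fu u x y = Fu u x' y') (hFa : Fu u x y = Fu u a b) (hne : ¬ (x = x' ∧ y = y')) :
    (x = a ∧ y = b) ∨ (x' = a ∧ y' = b) := by
  rcases G_neg hu h hab hFa with h1 | h1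
  · exact Or.inl h1
  · rcases G_neg hu h h' hF with h2 | h2
    · exact absurd h2 hne
    · exact Or.inr (eq_of_FG hu (hF.symm.trans hFa) (h2.trans h1.symm))

theorem gram {u v : ℝ × ℝ} (hu : u.1 ^ 2 + u.2 ^ 2 = 1) (hv : v.1 ^ 2 + v.2 ^ 2 = 1) {x y : ℝ}
    (h : x ^ 2 + y ^ 2 = 1) :
    Fu u x y ^ 2 + Fu v x y ^ 2 - 2 * dt u v * Fu u x y * Fu v x y = 1 - dt u v ^ 2 := by
  have g : (u.1 ^ 2 + u.2 ^ 2) * (v.1 ^ 2 + v.2 ^ 2) * (x ^ 2 + y ^ 2) +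
      2 * dt u v * Fu u x y * Fu v x y - (v.1 ^ 2 + v.2 ^ 2) * Fu u x y ^ 2 -
      (u.1 ^ 2 + u.2 ^ 2) * Fu v x y ^ 2 - dt u v ^ 2 * (x ^ 2 + y ^ 2) = 0 := by
    unfold dt Fu; ring
  rw [hu, hv, h] at g
  linarith

theorem sum_le {u v : ℝ × ℝ} (hu : u.1 ^ 2 + u.2 ^ 2 = 1) (hv : v.1 ^ 2 + v.2 ^ 2 = 1) {x y : ℝ}
    (h : x ^ 2 + y ^ 2 = 1) : (Fu u x y + Fu v x y) ^ 2 ≤ 2 + 2 * dt u v := by
  have g : (Fu u x y + Fu v x y) ^ 2 + ((u.1 + v.1) * y - (u.2 + v.2) * x) ^ 2 =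
      ((u.1 ^ 2 + u.2 ^ 2) + (v.1 ^ 2 + v.2 ^ 2) + 2 * dt u v) * (x ^ 2 + y ^ 2) := by
    unfold dt Fu; ring
  rw [hu, hv, h] at g
  nlinarith [sq_nonneg ((u.1 + v.1) * y - (u.2 + v.2) * x)]

theorem uc0 : uc 0 = (1, 0) := rfl
theorem uc1 : uc 1 = (-4 / 5, 3 / 5) := rfl
theorem uc2 : uc 2 = (7 / 25, -24 / 25) := rfl
theorem uc3 : uc 3 = (44 / 125, 117 / 125) := rfl
theorem uc4 : uc 4 = (-527 / 625, -336 / 625) := rfl

theorem dt_two (j : Fin 5) : 7 / 25 ≤ dt (uc j) (uc (j + 2)) ∧ dt (uc j) (uc (j + 2)) ≤ 44 / 125 := by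
  have h0 : 7 / 25 ≤ dt (uc 0) (uc 2) ∧ dt (uc 0) (uc 2) ≤ 44 / 125 := by
    rw [uc0, uc2]; norm_num [dt]
  have h1 : 7 / 25 ≤ dt (uc 1) (uc 3) ∧ dt (uc 1) (uc 3) ≤ 44 / 125 := by
    rw [uc1, uc3]; norm_num [dt]
  have h2 : 7 / 25 ≤ dt (uc 2) (uc 4) ∧ dt (uc 2) (uc 4) ≤ 44 / 125 := by
    rw [uc2, uc4]; norm_num [dt]
  have h3 : 7 / 25 ≤ dt (uc 3) (uc 0) ∧ dt (uc 3) (uc 0) ≤ 44 / 125 := by
    rw [uc3, uc0]; norm_num [dt]
  have h4 : 7 / 25 ≤ dt (uc 4) (uc 1) ∧ dt (uc 4) (uc 1) ≤ 44 / 125 := by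
    rw [uc4, uc1]; norm_num [dt]
  fin_cases j
  · exact h0
  · exact h1
  · exact h2
  · exact h3
  · exact h4

theorem dt_one (j : Fin 5) : dt (uc j) (uc (j + 1)) ≤ -(4 / 5) := by
  have h0 : dt (uc 0) (uc 1) ≤ -(4 / 5) := by rw [uc0, uc1]; norm_num [dt]
  have h1 : dt (uc 1) (uc 2) ≤ -(4 / 5) := by rw [uc1, uc2]; norm_num [dt]
  have h2 : dt (uc 2) (uc 3) ≤ -(4 / 5) := by rw [uc2, uc3]; norm_num [dt]
  have h3 : dt (uc 3) (uc 4) ≤ -(4 / 5) := by rw [uc3, uc4]; norm_num [dt]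
  have h4 : dt (uc 4) (uc 0) ≤ -(4 / 5) := by rw [uc4, uc0]; norm_num [dt]
  fin_cases j
  · exact h0
  · exact h1
  · exact h2
  · exact h3
  · exact h4

/-- the key inequality -/
theorem key {c m m' : ℝ} (hc1 : 7 / 25 ≤ c) (hc2 : c ≤ 44 / 125) (hm : |m - 3 / 5| ≤ 1 / 100)
    (hm' : |m' - 3 / 5| ≤ 1 / 100) : m ^ 2 + m' ^ 2 - 2 * c * m * m' < 1 - c ^ 2 := by
  rw [abs_le] at hm hm'
  obtain ⟨h1, h2⟩ := hm
  obtain ⟨h3, h4⟩ := hm'
  have h5 : m ^ 2 ≤ (61 / 100) ^ 2 := by nlinarith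
  have h6 : m' ^ 2 ≤ (61 / 100) ^ 2 := by nlinarith
  have h7 : 0 ≤ c * m * m' := by
    have : 0 ≤ m := by linarith
    have : 0 ≤ m' := by linarith
    have : 0 ≤ c := by linarith
    positivity
  have h8 : c ^ 2 ≤ (44 / 125) ^ 2 := by nlinarith
  nlinarith

/-- the arcs of `c_j` and `c_{j+1}` are disjoint -/
theorem arcs_disj (j : Fin 5) {x y : ℝ} (h : x ^ 2 + y ^ 2 = 1)
    (h1 : 59 / 100 ≤ Fu (uc j) x y) (h2 : 59 / 100 ≤ Fu (uc (j + 1)) x y) : False := by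
  have h3 := sum_le (uc_unit j) (uc_unit (j + 1)) h
  have h4 := dt_one j
  nlinarith

theorem cross_num (j : Fin 5) {x y x' y' m m' : ℝ} (h : x ^ 2 + y ^ 2 = 1)
    (h' : x' ^ 2 + y' ^ 2 = 1) (hF : Fu (uc (j + 2)) x y = m') (hF' : Fu (uc (j + 2)) x' y' = m')
    (hne : ¬ (x = x' ∧ y = y')) (hm : |m - 3 / 5| ≤ 1 / 100) (hm' : |m' - 3 / 5| ≤ 1 / 100) :
    (Fu (uc j) x y - m) * (Fu (uc j) x' y' - m) < 0 := by
  obtain ⟨hc1, hc2⟩ := dt_two j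
  have hk := key hc1 hc2 hm hm'
  have hg := gram (uc_unit j) (uc_unit (j + 2)) h
  have hG : Gu (uc (j + 2)) x' y' = - Gu (uc (j + 2)) x y := by
    rcases G_neg (uc_unit (j + 2)) h h' (hF.trans hF'.symm) with h1 | h1
    · exact absurd h1 hne
    · exact h1
  have hu := uc_unit (j + 2)
  have hsum : Fu (uc j) x y + Fu (uc j) x' y' = 2 * dt (uc j) (uc (j + 2)) * m' := by
    have e : ∀ a b : ℝ, Fu (uc j) a b = dt (uc j) (uc (j + 2)) * Fu (uc (j + 2)) a b +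
        ((uc j).2 * (uc (j + 2)).1 - (uc j).1 * (uc (j + 2)).2) * Gu (uc (j + 2)) a b := by
      intro a b
      have : dt (uc j) (uc (j + 2)) * Fu (uc (j + 2)) a b +
        ((uc j).2 * (uc (j + 2)).1 - (uc j).1 * (uc (j + 2)).2) * Gu (uc (j + 2)) a b =
        ((uc (j + 2)).1 ^ 2 + (uc (j + 2)).2 ^ 2) * Fu (uc j) a b := by
        unfold dt Fu Gu; ring
      rw [this, hu, one_mul]
    rw [e x y, e x' y', hF, hF', hG]; ring
  rw [hF] at hg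
  set a := Fu (uc j) x y
  set b := Fu (uc j) x' y'
  set c := dt (uc j) (uc (j + 2))
  have hb : b = 2 * c * m' - a := by linarith
  rw [hb]
  nlinarith

theorem disj_two (j : Fin 5) {x y : ℝ} (h : x ^ 2 + y ^ 2 = 1)
    (hm : |Fu (uc j) x y - 3 / 5| ≤ 1 / 100) (hm' : |Fu (uc (j + 2)) x y - 3 / 5| ≤ 1 / 100) :
    False := by
  obtain ⟨hc1, hc2⟩ := dt_two j
  have hk := key hc1 hc2 hm hm'
  have hg := gram (uc_unit j) (uc_unit (j + 2)) h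
  linarith

theorem disj_one (j : Fin 5) {x y : ℝ} (h : x ^ 2 + y ^ 2 = 1)
    (hm : |Fu (uc j) x y - 3 / 5| ≤ 1 / 100) (hm' : |Fu (uc (j + 1)) x y - 3 / 5| ≤ 1 / 100) :
    False := by
  rw [abs_le] at hm hm'
  exact arcs_disj j h (by linarith) (by linarith)

theorem disj (j k : Fin 5) (hjk : j ≠ k) {x y : ℝ} (h : x ^ 2 + y ^ 2 = 1)
    (hm : |Fu (uc j) x y - 3 / 5| ≤ 1 / 100) (hm' : |Fu (uc k) x y - 3 / 5| ≤ 1 / 100) :
    False := by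
  have h4 : k = j + 1 ∨ k = j + 2 ∨ j = k + 1 ∨ j = k + 2 := by
    clear hm hm'
    revert j k; decide
  rcases h4 with rfl | rfl | rfl | rfl
  · exact disj_one j h hm hm'
  · exact disj_two j h hm hm'
  · exact disj_one k h hm' hm
  · exact disj_two k h hm' hm

/-! ### the circles and curves -/

theorem lcz (j : Fin 5) : lc j ≠ 0 := by revert j; decide

theorem f_lc (j : Fin 5) (y : V) : (plW 0 (lc j)).f y = Fu (uc j) (y 0) (y 1) + 3 / 5 * y 2 := by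
  have h : plW 0 (lc j) = plu (uc j) (3 / 5) 0 := by
    fin_cases j <;> rfl
  rw [h]
  simp [plu, form, Fu]

theorem f_one (y : V) : (plW 0 1).f y = y 2 + y 3 := by
  have h : plW 0 1 = plv := rfl
  rw [h]
  simp [plv, form]

theorem f_lc_pt (j : Fin 5) (x y b : ℝ) :
    (plW 0 (lc j)).f (pt x y b) = Fu (uc j) x y + 3 / 5 * b := f_lc j _

theorem f_one_pt (x y b : ℝ) : (plW 0 1).f (pt x y b) = b + 1 := f_one _

theorem pt_eta {y : V} (h : y 3 = 1) : y = pt (y 0) (y 1) (y 2) := by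
  ext i; fin_cases i
  · rfl
  · rfl
  · rfl
  · exact h

theorem nu_pt (x y b : ℝ) : nu (pt x y b) = max ‖(⟨x, y⟩ : ℂ)‖ (|b| / 2) := rfl

theorem nn_pt {x y b : ℝ} (h : nu (pt x y b) = 1) : nn (pt x y b) = 1 := by
  unfold nn
  rw [h]
  have : pt x y b 3 = 1 := rfl
  rw [this]; norm_num

theorem norm_eq_one {x y : ℝ} : ‖(⟨x, y⟩ : ℂ)‖ = 1 ↔ x ^ 2 + y ^ 2 = 1 := by
  rw [← sq_eq_sq₀ (norm_nonneg _) zero_le_one, ← Complex.normSq_eq_norm_sq, Complex.normSq_mk,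
    one_pow, ← sq, ← sq]

theorem nu_one {x y b : ℝ} (h : x ^ 2 + y ^ 2 = 1) (hb : |b| ≤ 2) : nu (pt x y b) = 1 := by
  rw [nu_pt, norm_eq_one.2 h]
  exact max_eq_left (by linarith)

theorem circle_of_nu {x y b : ℝ} (h : nu (pt x y b) = 1) (hb : |b| < 2) : x ^ 2 + y ^ 2 = 1 := by
  rw [nu_pt] at h
  rw [← norm_eq_one]
  rcases max_choice ‖(⟨x, y⟩ : ℂ)‖ (|b| / 2) with h1 | h1
  · rw [← h1, h]
  · rw [h1] at h; linarith

section
variable {ε : ℝ} {B : Fin 8 → Set (RP 3)} (hNRM : Stmt_NRM) (hε : 0 < ε) (hε1 : ε < 1 / 200)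
  (hB0 : B 0 = cone (fun y => |y 3| = nu y))
  (hB : ∀ a, a ≠ 0 → B a = cone (fun y => |(plW 0 a).f y| = ε * nn y))
include hNRM

theorem cone0 (c : ℝ) (x : V) (_ : c ≠ 0) (h : |x 3| = nu x) : |(c • x) 3| = nu (c • x) := by
  obtain ⟨-, h2, -⟩ := hNRM
  rw [h2, Pi.smul_apply, smul_eq_mul, abs_mul, h]

theorem conea (L : V →ₗ[ℝ] ℝ) (ε : ℝ) (c : ℝ) (x : V) (_ : c ≠ 0) (h : |L x| = ε * nn x) :
    |L (c • x)| = ε * nn (c • x) := by
  obtain ⟨-, -, -, -, -, -, -, h8, -⟩ := hNRM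
  rw [h8, map_smul, smul_eq_mul, abs_mul, h]; ring

include hB0

theorem exists_pt {P : RP 3} (hP : P ∈ B 0) : ∃ x y b, P = toRP (pt x y b) ∧
    nu (pt x y b) = 1 := by
  obtain ⟨v, hv, -, rfl⟩ := exists_rep P
  rw [hB0, mem_cone_iff (cone0 hNRM) hv] at hP
  have h3 : v 3 ≠ 0 := by
    intro h
    rw [h, abs_zero] at hP
    obtain ⟨-, -, -, h4, -⟩ := hNRM
    obtain ⟨a, b, c⟩ := (h4 v).1 hP.symm
    apply hv
    ext i; fin_cases i
    · exact a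
    · exact b
    · exact c
    · exact h
  have h5 : ((v 3)⁻¹ • v) 3 = 1 := by
    rw [Pi.smul_apply, smul_eq_mul, inv_mul_cancel₀ h3]
  have h6 := pt_eta h5
  refine ⟨((v 3)⁻¹ • v) 0, ((v 3)⁻¹ • v) 1, ((v 3)⁻¹ • v) 2, ?_, ?_⟩
  · rw [← h6, toRP_smul (inv_ne_zero h3) hv]
  · rw [← h6]
    obtain ⟨-, h2, -⟩ := hNRM
    rw [h2, abs_inv, hP, inv_mul_cancel₀]
    rw [← hP]; exact abs_ne_zero.2 h3

theorem mem0 (x y b : ℝ) : toRP (pt x y b) ∈ B 0 ↔ nu (pt x y b) = 1 := by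
  rw [hB0, mem_cone_iff (cone0 hNRM) (pt_ne _ _ _)]
  have : pt x y b 3 = 1 := rfl
  rw [this, abs_one]
  exact eq_comm

omit hB0
include hB

theorem mema {a : Fin 8} (ha : a ≠ 0) {x y b : ℝ} (h : nu (pt x y b) = 1) :
    toRP (pt x y b) ∈ B a ↔ |(plW 0 a).f (pt x y b)| = ε := by
  rw [hB a ha, mem_cone_iff (conea hNRM _ _) (pt_ne _ _ _), nn_pt h, mul_one]

include hB0 hε hε1

theorem exists_circ {P : RP 3} (hP : P ∈ B 0 ∩ B 1) : ∃ x y s, P = toRP (pt x y (-1 + s * ε)) ∧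
    (s = 1 ∨ s = -1) ∧ x ^ 2 + y ^ 2 = 1 := by
  obtain ⟨x, y, b, rfl, h⟩ := exists_pt hNRM hB0 hP.1
  have h1 := (mema hNRM hB (by decide) h).1 hP.2
  rw [f_one_pt] at h1
  have h2 : |b| < 2 := by
    have : b = (b + 1) - 1 := by ring
    rw [this]
    refine (abs_sub _ _).trans_lt ?_
    rw [h1, abs_one]; linarith
  rcases (abs_eq hε.le).1 h1 with h3 | h3
  · refine ⟨x, y, 1, ?_, Or.inl rfl, circle_of_nu h h2⟩
    congr 2; linarith
  · refine ⟨x, y, -1, ?_, Or.inr rfl, circle_of_nu h h2⟩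
    congr 2; linarith

theorem circ_mem {x y s : ℝ} (hs : s = 1 ∨ s = -1) (h : x ^ 2 + y ^ 2 = 1) :
    nu (pt x y (-1 + s * ε)) = 1 ∧ toRP (pt x y (-1 + s * ε)) ∈ B 0 ∩ B 1 := by
  have hb : |(-1 + s * ε)| ≤ 2 := by
    rw [abs_le]
    rcases hs with rfl | rfl <;> constructor <;> linarith
  have hn := nu_one h hb
  refine ⟨hn, (mem0 hNRM hB0 _ _ _).2 hn, (mema hNRM hB (by decide) hn).2 ?_⟩
  rw [f_one_pt]
  rcases hs with rfl | rfl
  · rw [show (-1 + 1 * ε + 1 : ℝ) = ε by ring, abs_of_pos hε]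
  · rw [show (-1 + -1 * ε + 1 : ℝ) = -ε by ring, abs_neg, abs_of_pos hε]

theorem circ_lc {x y s : ℝ} (hs : s = 1 ∨ s = -1) (h : x ^ 2 + y ^ 2 = 1) (j : Fin 5)
    (hm : toRP (pt x y (-1 + s * ε)) ∈ B (lc j)) :
    |Fu (uc j) x y + 3 / 5 * (-1 + s * ε)| = ε ∧ |Fu (uc j) x y - 3 / 5| ≤ 1 / 100 := by
  have h1 := (mema hNRM hB (lcz j) (circ_mem hNRM hε hε1 hB0 hB hs h).1).1 hm
  rw [f_lc_pt] at h1
  refine ⟨h1, ?_⟩
  have h2 := (abs_le.1 h1.le)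
  rw [abs_le]
  rcases hs with rfl | rfl <;> constructor <;> linarith [h2.1, h2.2]

end

/-- the circle -/
def E (b : ℝ) : Set (RP 3) := {p | ∃ x y : ℝ, x ^ 2 + y ^ 2 = 1 ∧ toRP (pt x y b) = p}

theorem pt_cont {X : Type*} [TopologicalSpace X] {x y : X → ℝ} (hx : Continuous x)
    (hy : Continuous y) (b : ℝ) : Continuous fun t => pt (x t) (y t) b := by
  refine continuous_pi fun i => ?_
  fin_cases i
  · exact hx
  · exact hy
  · exact continuous_const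
  · exact continuous_const

theorem E_pre (b : ℝ) : IsPreconnected (E b) := by
  have : E b = Set.range (fun t : ℝ => toRP (pt (Real.cos t) (Real.sin t) b)) := by
    ext p
    constructor
    · rintro ⟨x, y, h, rfl⟩
      have h1 := norm_eq_one.2 h
      refine ⟨Complex.arg ⟨x, y⟩, ?_⟩
      have h2 := Complex.norm_mul_cos_arg ⟨x, y⟩
      have h3 := Complex.norm_mul_sin_arg ⟨x, y⟩
      rw [h1, one_mul] at h2 h3
      show toRP (pt (Real.cos _) (Real.sin _) b) = _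
      rw [h2, h3]
    · rintro ⟨t, rfl⟩
      exact ⟨_, _, by rw [add_comm]; exact Real.sin_sq_add_cos_sq t, rfl⟩
  rw [this]
  exact isPreconnected_range (continuous_toRP
    (pt_cont Real.continuous_cos Real.continuous_sin b) (fun t => pt_ne _ _ _))

theorem lf_ne (L : V →ₗ[ℝ] ℝ) (x y b : ℝ) (h : L (pt x y b) ≠ 0) :
    lf L (toRP (pt x y b)) ≠ 0 := by
  rw [lf_pt]
  exact div_ne_zero h (pow_ne_zero _ (eu_pos (pt_ne x y b)).ne')

/-- an arc of the circle -/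
def arc (u : ℝ × ℝ) (m b : ℝ) : Set (RP 3) :=
  (fun τ : ℝ => toRP (pt (√(1 - τ ^ 2) * u.1 - τ * u.2) (√(1 - τ ^ 2) * u.2 + τ * u.1) b)) ''
    Icc (-√(1 - m ^ 2)) (√(1 - m ^ 2))

theorem arc_pre (u : ℝ × ℝ) (m b : ℝ) : IsPreconnected (arc u m b) := by
  refine isPreconnected_Icc.image _ (Continuous.continuousOn ?_)
  refine continuous_toRP (pt_cont ?_ ?_ b) (fun t => pt_ne _ _ _)
  · fun_prop
  · fun_prop

theorem mem_arc {u : ℝ × ℝ} (hu : u.1 ^ 2 + u.2 ^ 2 = 1) {x y m b : ℝ} (h : x ^ 2 + y ^ 2 = 1)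
    (hF : Fu u x y = m) (hm : 0 < m) : toRP (pt x y b) ∈ arc u m b := by
  have hFG := FG hu h
  rw [hF] at hFG
  have h1 : 1 - m ^ 2 = Gu u x y ^ 2 := by linarith
  have h2 : 1 - Gu u x y ^ 2 = m ^ 2 := by linarith
  refine ⟨Gu u x y, ?_, ?_⟩
  · rw [h1, Real.sqrt_sq_eq_abs]
    exact ⟨neg_abs_le _, le_abs_self _⟩
  · show toRP (pt (√(1 - Gu u x y ^ 2) * u.1 - Gu u x y * u.2)
      (√(1 - Gu u x y ^ 2) * u.2 + Gu u x y * u.1) b) = _
    rw [h2, Real.sqrt_sq hm.le, ← hF]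
    have e1 : Fu u x y * u.1 - Gu u x y * u.2 = x := by
      have : Fu u x y * u.1 - Gu u x y * u.2 = (u.1 ^ 2 + u.2 ^ 2) * x := by unfold Fu Gu; ring
      rw [this, hu, one_mul]
    have e2 : Fu u x y * u.2 + Gu u x y * u.1 = y := by
      have : Fu u x y * u.2 + Gu u x y * u.1 = (u.1 ^ 2 + u.2 ^ 2) * y := by unfold Fu Gu; ring
      rw [this, hu, one_mul]
    rw [e1, e2]

theorem of_mem_arc {u : ℝ × ℝ} (hu : u.1 ^ 2 + u.2 ^ 2 = 1) {m b : ℝ} (hm : 0 < m) (hm1 : m ≤ 1)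
    {r : RP 3} (hr : r ∈ arc u m b) : ∃ x y, x ^ 2 + y ^ 2 = 1 ∧ m ≤ Fu u x y ∧
      r = toRP (pt x y b) := by
  obtain ⟨τ, hτ, rfl⟩ := hr
  have h0 : 0 ≤ 1 - m ^ 2 := by nlinarith
  have h1 : τ ^ 2 ≤ 1 - m ^ 2 := by
    have : |τ| ≤ √(1 - m ^ 2) := abs_le.2 hτ
    calc τ ^ 2 = |τ| ^ 2 := (sq_abs τ).symm
      _ ≤ (√(1 - m ^ 2)) ^ 2 := by gcongr
      _ = 1 - m ^ 2 := Real.sq_sqrt h0
  have h2 : 0 ≤ 1 - τ ^ 2 := by nlinarith
  have h3 : √(1 - τ ^ 2) ^ 2 = 1 - τ ^ 2 := Real.sq_sqrt h2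
  refine ⟨_, _, ?_, ?_, rfl⟩
  · have : (√(1 - τ ^ 2) * u.1 - τ * u.2) ^ 2 + (√(1 - τ ^ 2) * u.2 + τ * u.1) ^ 2 =
        (√(1 - τ ^ 2) ^ 2 + τ ^ 2) * (u.1 ^ 2 + u.2 ^ 2) := by ring
    rw [this, hu, h3]; ring
  · have : Fu u (√(1 - τ ^ 2) * u.1 - τ * u.2) (√(1 - τ ^ 2) * u.2 + τ * u.1) =
        √(1 - τ ^ 2) * (u.1 ^ 2 + u.2 ^ 2) := by unfold Fu; ring
    rw [this, hu, mul_one]
    exact Real.le_sqrt_of_sq_le (by linarith)

section
variable {ε : ℝ} {B : Fin 8 → Set (RP 3)} (hNRM : Stmt_NRM) (hε : 0 < ε) (hε1 : ε < 1 / 200)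
  (hB0 : B 0 = cone (fun y => |y 3| = nu y))
  (hB : ∀ a, a ≠ 0 → B a = cone (fun y => |(plW 0 a).f y| = ε * nn y))
include hNRM hε hε1 hB0 hB

theorem comp_eq {x y s : ℝ} (hs : s = 1 ∨ s = -1) (h : x ^ 2 + y ^ 2 = 1) :
    connectedComponentIn (B 0 ∩ B 1) (toRP (pt x y (-1 + s * ε))) = E (-1 + s * ε) := by
  have hP := (circ_mem hNRM hε hε1 hB0 hB hs h).2
  apply Set.Subset.antisymm
  · intro r hr
    obtain ⟨x', y', s', rfl, hs', h'⟩ := exists_circ hNRM hε hε1 hB0 hB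
      (connectedComponentIn_subset _ _ hr)
    have h0 : ∀ p ∈ connectedComponentIn (B 0 ∩ B 1) (toRP (pt x y (-1 + s * ε))),
        lf (plW 0 1).f p ≠ 0 := by
      intro p hp
      obtain ⟨a, b, t, rfl, ht, -⟩ := exists_circ hNRM hε hε1 hB0 hB
        (connectedComponentIn_subset _ _ hp)
      apply lf_ne
      rw [f_one_pt]
      rcases ht with rfl | rfl
      · intro h; linarith
      · intro h; linarith
    have h1 := sign_iff isPreconnected_connectedComponentIn (lf_continuous _) h0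
      (mem_connectedComponentIn hP) hr
    rw [lf_pos, lf_pos, f_one_pt, f_one_pt] at h1
    have h2 : s = s' := by
      rcases hs with rfl | rfl <;> rcases hs' with rfl | rfl
      · rfl
      · have := h1.1 (by linarith); linarith
      · have := h1.2 (by linarith); linarith
      · rfl
    rw [h2]
    exact ⟨_, _, h', rfl⟩
  · refine (E_pre _).subset_connectedComponentIn ⟨_, _, h, rfl⟩ ?_
    rintro _ ⟨x', y', h', rfl⟩
    exact (circ_mem hNRM hε hε1 hB0 hB hs h').2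

theorem pair_coords {s : ℝ} (hs : s = 1 ∨ s = -1) {j : Fin 5} {p q : RP 3}
    (h : PairIn (E (-1 + s * ε)) (B 0) (B (lc j)) p q) :
    ∃ x y x' y' m : ℝ, p = toRP (pt x y (-1 + s * ε)) ∧ q = toRP (pt x' y' (-1 + s * ε)) ∧
      x ^ 2 + y ^ 2 = 1 ∧ x' ^ 2 + y' ^ 2 = 1 ∧ Fu (uc j) x y = m ∧ Fu (uc j) x' y' = m ∧
      ¬ (x = x' ∧ y = y') ∧ |m - 3 / 5| ≤ 1 / 100 := by
  obtain ⟨hne, ⟨x, y, h1, rfl⟩, ⟨x', y', h2, rfl⟩, h3, h4, h5, h6⟩ := h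
  obtain ⟨h7, h8⟩ := circ_lc hNRM hε hε1 hB0 hB hs h1 j h3
  obtain ⟨h9, -⟩ := circ_lc hNRM hε hε1 hB0 hB hs h2 j h4
  have h0 : ∀ p ∈ connectedComponentIn (B 0 ∩ B (lc j)) (toRP (pt x y (-1 + s * ε))),
      lf (plW 0 (lc j)).f p ≠ 0 := by
    intro p hp
    have hp' := connectedComponentIn_subset _ _ hp
    obtain ⟨a, b, c, rfl, hn⟩ := exists_pt hNRM hB0 hp'.1
    have h10 := (mema hNRM hB (lcz j) hn).1 hp'.2
    apply lf_ne
    intro h11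
    rw [h11, abs_zero] at h10
    exact hε.ne h10
  have h12 := sign_iff isPreconnected_connectedComponentIn (lf_continuous _) h0
    (mem_connectedComponentIn h5) h6
  rw [lf_pos, lf_pos, f_lc_pt, f_lc_pt] at h12
  refine ⟨x, y, x', y', _, rfl, rfl, h1, h2, rfl, ?_, ?_, h8⟩
  · rcases (abs_eq hε.le).1 h7 with h13 | h13 <;> rcases (abs_eq hε.le).1 h9 with h14 | h14
    · linarith
    · have := h12.1 (by linarith); linarith
    · have := h12.2 (by linarith); linarith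
    · linarith
  · rintro ⟨rfl, rfl⟩
    exact hne rfl

end

end VWaux

open VWaux

theorem blk_VW (hNRM : Stmt_NRM) : Stmt_VW := by
  refine ⟨1 / 200, by norm_num, fun ε hε hε1 B hB0 hB => ⟨fun j k hjk => ?_, fun P hP j => ?_⟩⟩
  · rw [Set.eq_empty_iff_forall_notMem]
    rintro p ⟨⟨hp, hj⟩, hk⟩
    obtain ⟨x, y, s, rfl, hs, hxy⟩ := exists_circ hNRM hε hε1 hB0 hB hp
    exact disj j k hjk hxy (circ_lc hNRM hε hε1 hB0 hB hs hxy j hj).2
      (circ_lc hNRM hε hε1 hB0 hB hs hxy k hk).2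
  · obtain ⟨x₀, y₀, s, rfl, hs, hxy⟩ := exists_circ hNRM hε hε1 hB0 hB hP
    rw [comp_eq hNRM hε hε1 hB0 hB hs hxy]
    constructor
    · intro p q p' q' h h' hS
      obtain ⟨x1, y1, x2, y2, m, rfl, rfl, h1, h2, hF1, hF2, hne, hm⟩ :=
        pair_coords hNRM hε hε1 hB0 hB hs h
      obtain ⟨x3, y3, x4, y4, m', rfl, rfl, h3, h4, hF3, hF4, hne', hm'⟩ :=
        pair_coords hNRM hε hε1 hB0 hB hs h'
      have hc := cross_num j h3 h4 hF3 hF4 hne' hm hm'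
      let M : V →ₗ[ℝ] ℝ :=
        (uc j).1 • LinearMap.proj 0 + (uc j).2 • LinearMap.proj 1 - m • LinearMap.proj 3
      have hM : ∀ x y b, M (pt x y b) = Fu (uc j) x y - m := by
        intro x y b
        have e : M (pt x y b) = (uc j).1 * x + (uc j).2 * y - m * 1 := rfl
        rw [e, mul_one]; rfl
      obtain ⟨hS1, hS2⟩ := hS
      have h0 : ∀ r ∈ connectedComponentIn (E (-1 + s * ε) \
          {toRP (pt x1 y1 (-1 + s * ε)), toRP (pt x2 y2 (-1 + s * ε))})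
          (toRP (pt x3 y3 (-1 + s * ε))), lf M r ≠ 0 := by
        intro r hr
        obtain ⟨⟨a, b, hab, rfl⟩, hr2⟩ := connectedComponentIn_subset _ _ hr
        apply lf_ne
        rw [hM]
        intro h5
        apply hr2
        rcases two_points (uc_unit j) h1 h2 hab (hF1.trans hF2.symm)
          (by rw [hF1]; linarith) hne with ⟨rfl, rfl⟩ | ⟨rfl, rfl⟩
        · exact Or.inl rfl
        · exact Or.inr rfl
      have hsg := sign_iff isPreconnected_connectedComponentIn (lf_continuous M) h0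
        (mem_connectedComponentIn hS1) hS2
      rw [lf_pos, lf_pos, hM, hM] at hsg
      rcases mul_neg_iff.1 hc with ⟨h5, h6⟩ | ⟨h5, h6⟩
      · exact lt_asymm (hsg.1 h5) h6
      · exact lt_asymm (hsg.2 h6) h5
    · intro p q p' q' h h'
      obtain ⟨x1, y1, x2, y2, m, rfl, rfl, h1, h2, hF1, hF2, hne, hm⟩ :=
        pair_coords hNRM hε hε1 hB0 hB hs h
      obtain ⟨x3, y3, x4, y4, m', rfl, rfl, h3, h4, hF3, hF4, hne', hm'⟩ :=
        pair_coords hNRM hε hε1 hB0 hB hs h'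
      rw [abs_le] at hm hm'
      have hm0 : 0 < m' := by linarith
      have hsub : arc (uc (j + 1)) m' (-1 + s * ε) ⊆ E (-1 + s * ε) \
          {toRP (pt x1 y1 (-1 + s * ε)), toRP (pt x2 y2 (-1 + s * ε))} := by
        intro r hr
        obtain ⟨x, y, h5, h6, rfl⟩ := of_mem_arc (uc_unit _) hm0 (by linarith) hr
        refine ⟨⟨x, y, h5, rfl⟩, ?_⟩
        rintro (h7 | h7)
        · obtain ⟨rfl, rfl, -⟩ := pt_inj h7
          exact arcs_disj j h5 (by linarith) (by linarith)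
        · obtain ⟨rfl, rfl, -⟩ := pt_inj h7
          exact arcs_disj j h5 (by linarith) (by linarith)
      have hp' := mem_arc (b := -1 + s * ε) (uc_unit (j + 1)) h3 hF3 hm0
      have hq' := mem_arc (b := -1 + s * ε) (uc_unit (j + 1)) h4 hF4 hm0
      exact ⟨hsub hp', (arc_pre _ _ _).subset_connectedComponentIn hp' hsub hq'⟩

end Pool.Agent.Work.MP_363f1e_co
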