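import Pool.Agent.Work.MP_363f1e_co.FIN2
import Pool.Agent.Work.MP_363f1e_co.OT
import Pool.Agent.Work.MP_363f1e_co.ST
import Pool.Agent.Work.MP_363f1e_co.SEM
import Pool.Agent.Work.MP_363f1e_co.HYP
import Pool.Agent.Work.MP_363f1e_co.THIN
import Pool.Agent.Work.MP_363f1e_co.FAT
import Pool.Agent.Work.MP_363f1e_co.SLT
import Pool.Agent.Work.MP_363f1e_co.SLF
import Pool.Agent.Work.MP_363f1e_co.PLW
import Pool.Agent.Work.MP_363f1e_co.NUM1
import Pool.Agent.Work.MP_363f1e_co.NUM2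
import Pool.Agent.Work.MP_363f1e_co.VSE
import Pool.Agent.Work.MP_363f1e_co.VW
import Pool.Agent.Work.MP_363f1e_co.VC
import Pool.Agent.Work.MP_363f1e_co.LL
import Pool.Agent.Work.MP_363f1e_co.SEU
import Pool.Agent.Work.MP_363f1e_co.GL3
import Pool.Agent.Work.MP_363f1e_co.DET
import Pool.Agent.Work.MP_363f1e_co.NRM

/-!
All blocks together.
-/

namespace Pool.Agent.Work.MP_363f1e_co

/-- the theorem -/
theorem final : ∃ χ : ClassMap 3 (Fin 8), LocallyRealizable χ ∧ ¬ IsChirotope χ :=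
  have hST : Stmt_ST := blk_ST blk_LL blk_SEU
  main blk_MO blk_OT blk_SEM blk_HYP (blk_THIN blk_NRM) (blk_FAT blk_NRM)
    (blk_SLT hST blk_DET blk_GL3 blk_NRM)
    (blk_SLF hST blk_DET blk_GL3 blk_NRM (blk_FAT blk_NRM)) blk_PLW blk_NUM1 blk_NUM2 blk_VSE
    (blk_VW blk_NRM) blk_VC

end Pool.Agent.Work.MP_363f1e_co
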