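import Pool.Agent.Work.MP_363f1e_co.Interface

namespace Pool.Agent.Work.MP_363f1e_co

namespace MOaux

theorem cv_continuous : Continuous cv :=
  (PiLp.continuous_ofLp 2 _).comp continuous_subtype_val

theorem eu_cv (w : S2) : eu (cv w) = 1 := mem_sphere_zero_iff_norm.1 w.2

theorem cv_ne (w : S2) : cv w ≠ 0 := by
  intro h
  have := eu_eq_zero.2 h
  rw [eu_cv] at this
  exact one_ne_zero this

theorem unitV_cv (w : S2) (h : cv w ≠ 0) : unitV (cv w) h = w := by
  apply Subtype.ext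
  change (eu (cv w))⁻¹ • WithLp.toLp 2 (cv w) = _
  rw [eu_cv, inv_one, one_smul]
  rfl

theorem unitV_smul {q : Fin 3 → ℝ} (hq : q ≠ 0) {c : ℝ} (hc : 0 < c) (hcq : c • q ≠ 0) :
    unitV (c • q) hcq = unitV q hq := by
  apply Subtype.ext
  ext i
  rw [unitV_apply, unitV_apply, eu_smul, abs_of_pos hc]
  simp only [Pi.smul_apply, smul_eq_mul]
  have := (eu_pos hq).ne'
  field_simp

theorem cv_unitV {q : Fin 3 → ℝ} (hq : q ≠ 0) : cv (unitV q hq) = (eu q)⁻¹ • q := rfl

theorem cone_inv {m : Mem} (h : m.Ok) (c : ℝ) (x : V) (_ : c ≠ 0)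
    (hx : |m.g x| = m.θ x) : |m.g (c • x)| = m.θ (c • x) := by
  rw [h.g_hom, h.θ_hom, abs_mul, hx]

theorem mem_set {m : Mem} (h : m.Ok) {x : V} (hx : x ≠ 0) :
    toRP x ∈ m.set ↔ |m.g x| = m.θ x :=
  mem_cone_iff (cone_inv h) hx

theorem x_ne {m : Mem} (h : m.Ok) (w : S2) : m.x w ≠ 0 := by
  intro h0
  have h1 := h.Px w
  rw [h0] at h1
  have h2 := h.P_hom 0 0
  simp only [zero_smul] at h2
  rw [h2] at h1
  exact cv_ne w h1.symm

theorem exists_sign {m : Mem} (h : m.Ok) {y : V} (hy2 : |m.g y| = m.θ y) :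
    ∃ σ : ℝ, (σ = 1 ∨ σ = -1) ∧ m.g (σ • y) = m.θ (σ • y) := by
  rcases abs_choice (m.g y) with h1 | h1
  · exact ⟨1, Or.inl rfl, by rw [one_smul, ← h1, hy2]⟩
  · refine ⟨-1, Or.inr rfl, ?_⟩
    rw [h.g_hom, h.θ_hom, ← hy2, h1]; simp

end MOaux

open MOaux

theorem blk_MO : Stmt_MO := by
  intro m h
  have hmem : ∀ w, toRP (m.x w) ∈ m.set := fun w => by
    rw [mem_set h (x_ne h w), h.gx w, abs_of_pos (h.θx w)]
  let f : S2 → m.set := fun w => ⟨toRP (m.x w), hmem w⟩
  have hcont : Continuous f :=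
    Continuous.subtype_mk (continuous_toRP h.x_cont (x_ne h)) _
  have hinj : Function.Injective f := by
    intro w w' hww
    have h1 : toRP (m.x w) = toRP (m.x w') := congrArg Subtype.val hww
    obtain ⟨c, hc, e⟩ := (toRP_eq_iff (x_ne h w) (x_ne h w')).1 h1
    have hg := h.gx w'
    have hpos : 0 < m.g (m.x w') := by rw [hg]; exact h.θx w'
    have hpos2 : 0 < m.g (m.x w) := by rw [h.gx w]; exact h.θx w
    rw [e, h.g_hom] at hpos
    have hc' : 0 < c := by
      by_contra hcon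
      push Not at hcon
      nlinarith
    have hP : cv w' = c • cv w := by rw [← h.Px w', ← h.Px w, e, h.P_hom]
    have : c = 1 := by
      have h2 := eu_cv w'
      rw [hP, eu_smul, eu_cv, mul_one, abs_of_pos hc'] at h2
      exact h2
    rw [this, one_smul] at hP
    rw [← unitV_cv w (cv_ne w), ← unitV_cv w' (cv_ne w')]
    congr 1
    exact hP.symm
  have hsurj : Function.Surjective f := by
    rintro ⟨p, y, hy, rfl, hy2⟩
    obtain ⟨σ, hσ, h1⟩ := exists_sign h hy2
    have hσ0 : σ ≠ 0 := by rcases hσ with rfl | rfl <;> norm_num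
    have hσy : σ • y ≠ 0 := smul_ne_zero hσ0 hy
    obtain ⟨hP, e⟩ := h.compl _ hσy h1
    refine ⟨unitV _ hP, Subtype.ext ?_⟩
    change toRP (m.x _) = toRP y
    exact ((toRP_smul (eu_pos hP).ne' (x_ne h _)).symm.trans (congrArg toRP e).symm).trans
      (toRP_smul hσ0 hy)
  have : CompactSpace S2 := by
    have : CompactSpace (Metric.sphere (0 : EuclideanSpace ℝ (Fin 3)) 1) :=
      isCompact_iff_compactSpace.1 (isCompact_sphere _ _)
    infer_instance
  exact ⟨Continuous.homeoOfEquivCompactToT2 (f := Equiv.ofBijective f ⟨hinj, hsurj⟩) hcont,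
    fun w => rfl⟩

end Pool.Agent.Work.MP_363f1e_co
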