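import Pool.Agent.Work.MP_363f1e_co.NUM1

/-!
Block NUM2: quadruples of the family with the fat member: independence and the position of the
vertex.
-/

namespace Pool.Agent.Work.MP_363f1e_co

open NUM1aux

namespace NUM2aux

/-- `1250` times the coefficients, the form `y_3` for the label `0` -/
def cg (i : Fin 5) (a : Fin 8) : Fin 4 → ℤ := if a = 0 then ![0, 0, 0, 1250] else cf i a

/-- the vector of minors of three rows -/
def crs (x y z : Fin 4 → ℤ) : Fin 4 → ℤ :=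
  ![x 1 * mn y z 2 3 - x 2 * mn y z 1 3 + x 3 * mn y z 1 2,
    -(x 0 * mn y z 2 3 - x 2 * mn y z 0 3 + x 3 * mn y z 0 2),
    x 0 * mn y z 1 3 - x 1 * mn y z 0 3 + x 3 * mn y z 0 1,
    -(x 0 * mn y z 1 2 - x 1 * mn y z 0 2 + x 2 * mn y z 0 1)]

/-- scalar product -/
def dp (x y : Fin 4 → ℤ) : ℤ := x 0 * y 0 + x 1 * y 1 + x 2 * y 2 + x 3 * y 3

/-- the cases which need not be checked -/
def skip2 (i : Fin 5) (a b c d : Fin 8) : Bool :=
  decide (a = b ∨ a = c ∨ a = d ∨ b = c ∨ b = d ∨ c = d) ||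
    !(decide (a = 2 ∨ b = 2 ∨ c = 2 ∨ d = 2)) || !(decide (a = 0 ∨ b = 0 ∨ c = 0 ∨ d = 0)) ||
    decide (a = lc i ∨ b = lc i ∨ c = lc i ∨ d = lc i)

theorem chk2 : ∀ i : Fin 5, ∀ a b c d : Fin 8,
    (skip2 i a b c d || decide (det4 (cg i a) (cg i b) (cg i c) (cg i d) ≠ 0)) = true := by
  decide +kernel

theorem chk2' (i : Fin 5) (a b c d : Fin 8)
    (hab : a ≠ b) (hac : a ≠ c) (had : a ≠ d) (hbc : b ≠ c) (hbd : b ≠ d) (hcd : c ≠ d)
    (h2 : a = 2 ∨ b = 2 ∨ c = 2 ∨ d = 2) (h0 : a = 0 ∨ b = 0 ∨ c = 0 ∨ d = 0)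
    (h : a ≠ lc i ∧ b ≠ lc i ∧ c ≠ lc i ∧ d ≠ lc i) :
    det4 (cg i a) (cg i b) (cg i c) (cg i d) ≠ 0 := by
  have h3 := chk2 i a b c d
  rw [Bool.or_eq_true, decide_eq_true_eq] at h3
  rcases h3 with h3 | h3
  · exfalso
    unfold skip2 at h3
    simp only [Bool.or_eq_true, decide_eq_true_eq, Bool.not_eq_true',
      decide_eq_false_iff_not] at h3
    tauto
  · exact h3

/-- the cases which need not be checked -/
def skip3 (i : Fin 5) (a b : Fin 8) : Bool :=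
  decide (a = b ∨ a = 0 ∨ b = 0 ∨ a = 2 ∨ b = 2 ∨ a = lc i ∨ b = lc i)

/-- the properties of the vector of minors -/
def vprop (i : Fin 5) (a b : Fin 8) (X : Fin 4 → ℤ) : Bool :=
  decide (dp (cf i 2) X = 0) && decide (dp (cf i a) X = 0) && decide (dp (cf i b) X = 0) &&
    decide (X 3 ≠ 0) && decide (X 0 * X 0 + X 1 * X 1 < X 3 * X 3) &&
    decide (X 2 * X 2 < 4 * (X 3 * X 3))

theorem chk3a : ∀ i : Fin 5, ∀ a b : Fin 8,
    (skip3 i a b || vprop i a b (crs (cf i 2) (cf i a) (cf i b))) = true := by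
  decide +kernel

/-- the vertex is on the ball side -/
theorem chk3 (i : Fin 5) (a b : Fin 8) (hab : a ≠ b) (ha0 : a ≠ 0) (hb0 : b ≠ 0) (ha2 : a ≠ 2)
    (hb2 : b ≠ 2) (hai : a ≠ lc i) (hbi : b ≠ lc i) :
    (dp (cf i 2) (crs (cf i 2) (cf i a) (cf i b)) = 0 ∧
      dp (cf i a) (crs (cf i 2) (cf i a) (cf i b)) = 0 ∧
      dp (cf i b) (crs (cf i 2) (cf i a) (cf i b)) = 0) ∧
    crs (cf i 2) (cf i a) (cf i b) 3 ≠ 0 ∧
    crs (cf i 2) (cf i a) (cf i b) 0 ^ 2 + crs (cf i 2) (cf i a) (cf i b) 1 ^ 2 <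
      crs (cf i 2) (cf i a) (cf i b) 3 ^ 2 ∧
    crs (cf i 2) (cf i a) (cf i b) 2 ^ 2 < 4 * crs (cf i 2) (cf i a) (cf i b) 3 ^ 2 := by
  have h3 := chk3a i a b
  rw [Bool.or_eq_true] at h3
  rcases h3 with h3 | h3
  · exfalso
    unfold skip3 at h3
    rw [decide_eq_true_eq] at h3
    tauto
  · unfold vprop at h3
    simp only [Bool.and_eq_true, decide_eq_true_eq] at h3
    obtain ⟨⟨⟨⟨⟨h4, h5⟩, h6⟩, h7⟩, h8⟩, h9⟩ := h3
    exact ⟨⟨h4, h5, h6⟩, h7, by rw [sq, sq, sq]; exact h8, by rw [sq, sq]; exact h9⟩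

theorem f_eq (i : Fin 5) (a : Fin 8) (v : V) : (plW i a).f v =
    1 / 1250 * (cf i a 0 * v 0 + cf i a 1 * v 1 + cf i a 2 * v 2 + cf i a 3 * v 3) := by
  rw [LinearMap.pi_apply_eq_sum_univ (plW i a).f v]
  have h : ∀ j : Fin 4, (fun k => if j = k then (1 : ℝ) else 0) = (Pi.single j 1 : V) := by
    intro j; ext k
    by_cases hjk : j = k
    · subst hjk; simp
    · rw [if_neg hjk, Pi.single_eq_of_ne (Ne.symm hjk)]
  simp only [h, entry, smul_eq_mul, Fin.sum_univ_four]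
  ring

end NUM2aux

open NUM2aux

theorem blk_NUM2 : Stmt_NUM2 := by
  intro i s k₀ hs hk₀
  obtain ⟨hinj, ⟨k2, hk2⟩, hor⟩ := hs
  have hlc : ∀ k, s k ≠ lc i := by
    rcases hor with h | ⟨h, -⟩
    · exact h
    · exact absurd hk₀ (h k₀)
  have hne : ∀ k l : Fin 4, k ≠ l → s k ≠ s l := fun k l hkl h => hkl (hinj h)
  constructor
  · set M : Matrix (Fin 4) (Fin 4) ℤ := Matrix.of fun k j => cg i (s k) j with hM
    have h1 : (rowMat (Function.update (fun k => (plW i (s k)).f) k₀ (LinearMap.proj 3))) =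
        (1 / 1250 : ℝ) • M.map (Int.castRingHom ℝ) := by
      ext k j
      show Function.update (fun k => (plW i (s k)).f) k₀ (LinearMap.proj 3) k (Pi.single j 1) =
        (1 / 1250 : ℝ) * ((cg i (s k) j : ℤ) : ℝ)
      by_cases hk : k = k₀
      · subst hk
        rw [Function.update_self, hk₀]
        fin_cases j <;> simp [cg]
      · have hk0 : s k ≠ 0 := fun h => hk (hinj (h.trans hk₀.symm))
        rw [Function.update_of_ne hk, cg, if_neg hk0]
        exact entry i (s k) j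
    have h2 : M.det ≠ 0 := by
      rw [det_eq]
      refine chk2' i (s 0) (s 1) (s 2) (s 3) (hne _ _ (by decide))
        (hne _ _ (by decide)) (hne _ _ (by decide)) (hne _ _ (by decide)) (hne _ _ (by decide))
        (hne _ _ (by decide)) ?_ ?_ ⟨hlc 0, hlc 1, hlc 2, hlc 3⟩
      · fin_cases k2
        · exact Or.inl hk2
        · exact Or.inr (Or.inl hk2)
        · exact Or.inr (Or.inr (Or.inl hk2))
        · exact Or.inr (Or.inr (Or.inr hk2))
      · fin_cases k₀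
        · exact Or.inl hk₀
        · exact Or.inr (Or.inl hk₀)
        · exact Or.inr (Or.inr (Or.inl hk₀))
        · exact Or.inr (Or.inr (Or.inr hk₀))
    rw [h1, Matrix.det_smul]
    refine mul_ne_zero (by positivity) ?_
    have h3 : (M.map (Int.castRingHom ℝ)).det = ((M.det : ℤ) : ℝ) := by
      have := (Int.castRingHom ℝ).map_det M
      simpa using this.symm
    rw [h3]
    exact_mod_cast h2
  · have hk02 : k₀ ≠ k2 := by
      rintro rfl
      rw [hk₀] at hk2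
      exact absurd hk2 (by decide)
    obtain ⟨p, q, hpq, hp0, hp2, hq0, hq2, hall⟩ : ∃ p q : Fin 4, p ≠ q ∧ p ≠ k₀ ∧ p ≠ k2 ∧
        q ≠ k₀ ∧ q ≠ k2 ∧ ∀ k, k ≠ k₀ → k = k2 ∨ k = p ∨ k = q := by
      clear hk₀ hk2
      revert k₀ k2; decide
    have hz : ∀ k, k ≠ k₀ → s k ≠ 0 := fun k hk h => hne k k₀ hk (h.trans hk₀.symm)
    have h2 : ∀ k, k ≠ k2 → s k ≠ 2 := fun k hk h => hne k k2 hk (h.trans hk2.symm)
    obtain ⟨⟨d2, da, db⟩, h3, h4, h5⟩ := chk3 i (s p) (s q) (hne p q hpq) (hz p hp0) (hz q hq0)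
      (h2 p hp2) (h2 q hq2) (hlc p) (hlc q)
    set X := crs (cf i 2) (cf i (s p)) (cf i (s q)) with hX
    have h3' : (X 3 : ℝ) ≠ 0 := by exact_mod_cast h3
    have h4' : (X 0 : ℝ) ^ 2 + (X 1 : ℝ) ^ 2 < (X 3 : ℝ) ^ 2 := by exact_mod_cast h4
    have h5' : (X 2 : ℝ) ^ 2 < 4 * (X 3 : ℝ) ^ 2 := by exact_mod_cast h5
    have hv : ∀ a : Fin 8, dp (cf i a) X = 0 →
        (plW i a).f (fun j => (X j : ℝ) / (X 3 : ℝ)) = 0 := by
      intro a ha
      rw [f_eq]
      have ha' : (cf i a 0 : ℝ) * X 0 + cf i a 1 * X 1 + cf i a 2 * X 2 + cf i a 3 * X 3 = 0 := by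
        have : ((dp (cf i a) X : ℤ) : ℝ) = 0 := by rw [ha]; norm_num
        unfold dp at this
        push_cast at this
        exact this
      have e : (1 / 1250 : ℝ) * ((cf i a 0 : ℝ) * (X 0 / X 3) + cf i a 1 * (X 1 / X 3) +
          cf i a 2 * (X 2 / X 3) + cf i a 3 * (X 3 / X 3)) =
          1 / 1250 * (((cf i a 0 : ℝ) * X 0 + cf i a 1 * X 1 + cf i a 2 * X 2 + cf i a 3 * X 3)
            / X 3) := by ring
      rw [e, ha', zero_div, mul_zero]
    refine ⟨fun j => (X j : ℝ) / (X 3 : ℝ), div_self h3', fun k hk => ?_, ?_⟩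
    · rcases hall k hk with rfl | rfl | rfl
      · rw [hk2]; exact hv 2 d2
      · exact hv _ da
      · exact hv _ db
    · have hpos : (0 : ℝ) < (X 3 : ℝ) ^ 2 := by positivity
      refine max_lt ?_ ?_
      · have h6 : ‖(⟨(X 0 : ℝ) / X 3, (X 1 : ℝ) / X 3⟩ : ℂ)‖ ^ 2 < 1 := by
          rw [← Complex.normSq_eq_norm_sq, Complex.normSq_mk]
          have : (X 0 : ℝ) / X 3 * (X 0 / X 3) + (X 1 : ℝ) / X 3 * (X 1 / X 3) =
              ((X 0 : ℝ) ^ 2 + (X 1 : ℝ) ^ 2) / (X 3 : ℝ) ^ 2 := by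
            field_simp
          rw [this, div_lt_one hpos]
          exact h4'
        exact (sq_lt_one_iff₀ (norm_nonneg _)).1 h6
      · have h6 : |(X 2 : ℝ) / X 3| < 2 := by
          refine abs_lt_of_sq_lt_sq ?_ (by norm_num)
          rw [div_pow, div_lt_iff₀ hpos]
          linarith
        show |(X 2 : ℝ) / X 3| / 2 < 1
        linarith

end Pool.Agent.Work.MP_363f1e_co
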